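import Pool.Agent.Work.MP_9de0a1_al.Defs

/-!
# Aut : generators and automorphisms
-/

open Subgroup

namespace Pool.Agent.EnumG

theorem card_hom_le {N E : Type} [Group N] [Group E] [Finite N] [Finite E] {r : ℕ} (n : Fin r → N)
    (hn : closure (Set.range n) = ⊤) : Nat.card (N →* E) ≤ Nat.card E ^ r := by
  have h1 : Function.Injective fun (f : N →* E) (i : Fin r) => f (n i) := by
    intro f g h
    apply MonoidHom.eq_of_eqOn_dense hn
    rintro _ ⟨i, rfl⟩
    exact congrFun h i
  have h2 := Nat.card_le_card_of_injective _ h1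
  rwa [Nat.card_fun, Nat.card_fin] at h2

theorem card_mulAut_le {N : Type} [Group N] [Finite N] {r : ℕ} (n : Fin r → N)
    (hn : closure (Set.range n) = ⊤) : Nat.card (MulAut N) ≤ Nat.card N ^ r := by
  have h1 : Function.Injective fun (f : MulAut N) (i : Fin r) => f (n i) := by
    intro f g h
    have h3 : f.toMonoidHom = g.toMonoidHom := by
      apply MonoidHom.eq_of_eqOn_dense hn
      rintro _ ⟨i, rfl⟩
      exact congrFun h i
    ext x
    exact DFunLike.congr_fun h3 x
  have h2 := Nat.card_le_card_of_injective _ h1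
  rwa [Nat.card_fun, Nat.card_fin] at h2

theorem aut_card_lt {G : Type} [Group G] [Finite G] {H K : Subgroup G} (h : H < K) :
    2 * Nat.card H ≤ Nat.card K := by
  have h1 : Nat.card H ∣ Nat.card K := Subgroup.card_dvd_of_le h.le
  obtain ⟨c, hc⟩ := h1
  have h2 : 0 < Nat.card K := Nat.card_pos
  have h3 : c ≠ 0 := by
    rintro rfl
    omega
  have h4 : c ≠ 1 := by
    rintro rfl
    have : H = K := Subgroup.eq_of_le_of_card_ge h.le (by omega)
    exact h.ne this
  have h5 : 2 ≤ c := by omega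
  rw [hc, mul_comm]
  exact Nat.mul_le_mul_left _ h5

/-- the same inside a subgroup `K` -/
theorem exists_gens_over' {G : Type} [Group G] [Finite G] (H K : Subgroup G) (hHK : H ≤ K) {k : ℕ}
    (h : Nat.card K ≤ 2 ^ k * Nat.card H) : ∃ g : Fin k → G, H ⊔ closure (Set.range g) = K := by
  induction k generalizing H with
  | zero =>
    have h1 : H = K := Subgroup.eq_of_le_of_card_ge hHK (by simpa using h)
    refine ⟨Fin.elim0, ?_⟩
    rw [Set.range_eq_empty, Subgroup.closure_empty, sup_bot_eq, h1]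
  | succ k ih =>
    by_cases hc : H = K
    · refine ⟨fun _ => 1, ?_⟩
      rw [Set.range_const, Subgroup.closure_singleton_one, sup_bot_eq, hc]
    · have h1 : H < K := lt_of_le_of_ne hHK hc
      obtain ⟨x, hxK, hxH⟩ := SetLike.exists_of_lt h1
      have h2 : H < H ⊔ closure {x} := by
        refine lt_of_le_of_ne le_sup_left fun h3 => hxH ?_
        rw [h3]
        exact (le_sup_right : closure {x} ≤ H ⊔ closure {x}) (subset_closure rfl)
      have h3 : H ⊔ closure {x} ≤ K :=
        sup_le hHK ((closure_le _).2 (by simpa using hxK))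
      have h4 := aut_card_lt h2
      obtain ⟨g, hg⟩ := ih (H ⊔ closure {x}) h3 (by
        calc Nat.card K ≤ 2 ^ (k + 1) * Nat.card H := h
          _ = 2 ^ k * (2 * Nat.card H) := by ring
          _ ≤ 2 ^ k * Nat.card (H ⊔ closure {x} : Subgroup G) := Nat.mul_le_mul_left _ h4)
      refine ⟨Fin.cons x g, ?_⟩
      rw [Fin.range_cons, ← Set.singleton_union, Subgroup.closure_union, ← sup_assoc, hg]

theorem exists_gens_over {G : Type} [Group G] [Finite G] (H : Subgroup G) {k : ℕ}
    (h : Nat.card G ≤ 2 ^ k * Nat.card H) : ∃ g : Fin k → G, H ⊔ closure (Set.range g) = ⊤ :=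
  exists_gens_over' H ⊤ le_top (by rwa [Subgroup.card_top])

theorem exists_gens {G : Type} [Group G] [Finite G] {k : ℕ} (h : Nat.card G ≤ 2 ^ k) :
    ∃ g : Fin k → G, closure (Set.range g) = ⊤ := by
  obtain ⟨g, hg⟩ := exists_gens_over (⊥ : Subgroup G) (k := k) (by simpa using h)
  exact ⟨g, by simpa using hg⟩

theorem card_mulAut_le_two_pow {G : Type} [Group G] [Finite G] {k : ℕ} (h : Nat.card G ≤ 2 ^ k) :
    Nat.card (MulAut G) ≤ 2 ^ (k ^ 2) := by
  obtain ⟨g, hg⟩ := exists_gens h
  calc Nat.card (MulAut G) ≤ Nat.card G ^ k := card_mulAut_le g hg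
    _ ≤ (2 ^ k) ^ k := Nat.pow_le_pow_left h _
    _ = 2 ^ (k ^ 2) := by rw [← pow_mul, pow_two]

end Pool.Agent.EnumG
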