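import Pool.Agent.Work.MP_9de0a1_al.Defs

/-!
# CExt : central extensions by bilinear forms (used in RatioCore and Higman)
-/

open Subgroup

namespace Pool.Agent.EnumG

/-- bilinear maps from a group to an abelian group -/
structure CEBil (Q A : Type) [Group Q] [AddCommGroup A] where
  f : Q → Q → A
  mul_left : ∀ x y z, f (x * y) z = f x z + f y z
  mul_right : ∀ x y z, f x (y * z) = f x y + f x z

namespace CEBil

variable {Q A : Type} [Group Q] [AddCommGroup A] (b : CEBil Q A)

@[simp] theorem one_left (y : Q) : b.f 1 y = 0 := by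
  have := b.mul_left 1 1 y
  simpa using this

@[simp] theorem one_right (y : Q) : b.f y 1 = 0 := by
  have := b.mul_right y 1 1
  simpa using this

end CEBil

/-- the central extension -/
@[ext]
structure CExt (Q A : Type) [Group Q] [AddCommGroup A] (b : CEBil Q A) where
  q : Q
  a : A

namespace CExt

variable {Q A : Type} [Group Q] [AddCommGroup A] {b : CEBil Q A}

instance : Mul (CExt Q A b) := ⟨fun x y => ⟨x.q * y.q, x.a + y.a + b.f x.q y.q⟩⟩
instance : One (CExt Q A b) := ⟨⟨1, 0⟩⟩
instance : Inv (CExt Q A b) := ⟨fun x => ⟨x.q⁻¹, -x.a - b.f x.q⁻¹ x.q⟩⟩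

@[simp] theorem mul_q (x y : CExt Q A b) : (x * y).q = x.q * y.q := rfl
@[simp] theorem mul_a (x y : CExt Q A b) : (x * y).a = x.a + y.a + b.f x.q y.q := rfl
@[simp] theorem one_q : (1 : CExt Q A b).q = 1 := rfl
@[simp] theorem one_a : (1 : CExt Q A b).a = 0 := rfl
@[simp] theorem inv_q (x : CExt Q A b) : (x⁻¹).q = x.q⁻¹ := rfl
@[simp] theorem inv_a (x : CExt Q A b) : (x⁻¹).a = -x.a - b.f x.q⁻¹ x.q := rfl

instance : Group (CExt Q A b) :=
  Group.ofLeftAxioms
    (fun x y z => by
      ext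
      · simp [mul_assoc]
      · simp only [mul_a, mul_q, b.mul_left, b.mul_right]; abel)
    (fun x => by ext <;> simp)
    (fun x => by
      ext
      · simp
      · simp only [mul_a, inv_a, inv_q, one_a]; abel)

/-- as a set it is a product -/
def equivProd : CExt Q A b ≃ Q × A where
  toFun x := (x.q, x.a)
  invFun x := ⟨x.1, x.2⟩
  left_inv _ := rfl
  right_inv _ := rfl

theorem card_eq : Nat.card (CExt Q A b) = Nat.card Q * Nat.card A := by
  rw [Nat.card_congr equivProd, Nat.card_prod]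

theorem mk_eq (x : Q) (s : A) : (⟨x, s⟩ : CExt Q A b) = ⟨x, 0⟩ * ⟨1, s⟩ := by
  ext <;> simp

end CExt

/-- pairs `i ≤ j` -/
abbrev CEI (d : ℕ) : Type := Σ j : Fin d, Fin (j.1 + 1)

/-- the smaller element of the pair -/
def CEI.i {d : ℕ} (p : CEI d) : Fin d := ⟨p.2.1, by have := p.2.2; have := p.1.2; omega⟩

theorem card_CEI (d : ℕ) : Nat.card (CEI d) = d * (d + 1) / 2 := by
  rw [Nat.card_eq_fintype_card, Fintype.card_sigma]
  simp only [Fintype.card_fin]
  have h : ∀ n : ℕ, (∑ j : Fin n, (j.1 + 1)) * 2 = n * (n + 1) := by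
    intro n
    induction n with
    | zero => simp
    | succ n ih => rw [Fin.sum_univ_castSucc]; simp only [Fin.val_castSucc, Fin.val_last]; linarith
  have := h d
  omega

/-- upper triangular bilinear forms -/
def ceForm {Q A : Type} [Group Q] [AddCommGroup A] [Module (ZMod 2) A] {d : ℕ}
    (π : Q →* Multiplicative (Fin d → ZMod 2)) (β : CEI d → A) : CEBil Q A where
  f x y := ∑ p : CEI d, ((π x).toAdd p.i * (π y).toAdd p.1) • β p
  mul_left x y z := by
    simp only [map_mul, toAdd_mul, Pi.add_apply, add_mul, add_smul, Finset.sum_add_distrib]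
  mul_right x y z := by
    simp only [map_mul, toAdd_mul, Pi.add_apply, mul_add, add_smul, Finset.sum_add_distrib]

section
variable {Q A : Type} [Group Q] [AddCommGroup A] [Module (ZMod 2) A] {d : ℕ}
    (π : Q →* Multiplicative (Fin d → ZMod 2)) (β : CEI d → A)

theorem ceForm_le {x y : Q} {i j : Fin d} (hij : i ≤ j)
    (hx : π x = Multiplicative.ofAdd (Pi.single i 1))
    (hy : π y = Multiplicative.ofAdd (Pi.single j 1)) :
    (ceForm π β).f x y = β ⟨j, ⟨i.1, Nat.lt_succ_of_le hij⟩⟩ := by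
  change ∑ p : CEI d, ((π x).toAdd p.i * (π y).toAdd p.1) • β p = _
  rw [hx, hy]
  rw [Finset.sum_eq_single (⟨j, ⟨i.1, Nat.lt_succ_of_le hij⟩⟩ : CEI d)]
  · simp [CEI.i]
  · rintro ⟨j', i'⟩ _ hne
    by_cases hj : j' = j
    · subst hj
      have : (CEI.i ⟨j', i'⟩ : Fin d) ≠ i := by
        rintro rfl
        exact hne rfl
      simp [Pi.single_eq_of_ne this]
    · simp [Pi.single_eq_of_ne hj]
  · intro h; exact absurd (Finset.mem_univ _) h

theorem ceForm_lt {x y : Q} {i j : Fin d} (hij : i < j)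
    (hx : π x = Multiplicative.ofAdd (Pi.single i 1))
    (hy : π y = Multiplicative.ofAdd (Pi.single j 1)) :
    (ceForm π β).f y x = 0 := by
  change ∑ p : CEI d, ((π y).toAdd p.i * (π x).toAdd p.1) • β p = _
  rw [hx, hy]
  refine Finset.sum_eq_zero ?_
  rintro ⟨j', i'⟩ _
  by_cases hj : j' = i
  · subst hj
    have : (CEI.i ⟨j', i'⟩ : Fin d) ≠ j := by
      rintro rfl
      have h1 : j'.1 < i'.1 := hij
      have := i'.2
      omega
    simp [Pi.single_eq_of_ne this]
  · simp [Pi.single_eq_of_ne hj]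

end

theorem card_le_mul_of_fiber {S E : Type} [Finite S] [Finite E] (f : S → E) (n : ℕ)
    (h : ∀ e, Nat.card {s // f s = e} ≤ n) : Nat.card S ≤ Nat.card E * n := by
  classical
  have := Fintype.ofFinite E
  rw [← Nat.card_congr (Equiv.sigmaFiberEquiv f), Nat.card_sigma]
  calc ∑ e, Nat.card {s // f s = e} ≤ ∑ _e : E, n := Finset.sum_le_sum fun e _ => h e
    _ = Nat.card E * n := by simp [Nat.card_eq_fintype_card]

end Pool.Agent.EnumG
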