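import Pool.Agent.Work.MP_9de0a1_al.Cnt
import Pool.Agent.Work.MP_9de0a1_al.CExt

/-!
# Higman : lower bound
-/

open Subgroup

namespace Pool.Agent.EnumG

section
variable {d r : ℕ}

/-- the group attached to `β` -/
abbrev HigE (d r : ℕ) (β : CEI d → (Fin r → ZMod 2)) : Type :=
  CExt (Multiplicative (Fin d → ZMod 2)) (Fin r → ZMod 2)
    (ceForm (MonoidHom.id (Multiplicative (Fin d → ZMod 2))) β)

/-- standard generators of the quotient -/
def hige (i : Fin d) : Multiplicative (Fin d → ZMod 2) := Multiplicative.ofAdd (Pi.single i 1)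

theorem higman_det {β β' : CEI d → (Fin r → ZMod 2)} (θ : HigE d r β ≃* HigE d r β')
    (h1 : ∀ i, θ ⟨hige i, 0⟩ = ⟨hige i, 0⟩)
    (h2 : ∀ l, θ ⟨1, Pi.single l 1⟩ = ⟨1, Pi.single l 1⟩) : β = β' := by
  classical
  have hadd : ∀ u v : Fin r → ZMod 2, θ ⟨1, u⟩ = ⟨1, u⟩ → θ ⟨1, v⟩ = ⟨1, v⟩ →
      θ ⟨1, u + v⟩ = ⟨1, u + v⟩ := by
    intro u v hu hv
    have e1 : (⟨1, u + v⟩ : HigE d r β) = ⟨1, u⟩ * ⟨1, v⟩ := by ext <;> simp
    have e2 : (⟨1, u + v⟩ : HigE d r β') = ⟨1, u⟩ * ⟨1, v⟩ := by ext <;> simp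
    rw [e1, map_mul, hu, hv, ← e2]
  have hz : θ ⟨1, 0⟩ = ⟨1, 0⟩ := map_one θ
  have hall : ∀ z : Fin r → ZMod 2, θ ⟨1, z⟩ = ⟨1, z⟩ := by
    intro z
    rw [← Finset.univ_sum_single z]
    refine Finset.sum_induction _ (fun u => θ ⟨1, u⟩ = ⟨1, u⟩) hadd hz ?_
    intro l _
    have : z l = 0 ∨ z l = 1 := by
      generalize z l = t
      revert t; decide
    rcases this with h | h
    · rw [h, Pi.single_zero]; exact hz
    · rw [h]; exact h2 l
  have hid : ∀ i, (MonoidHom.id (Multiplicative (Fin d → ZMod 2))) (hige i) =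
      Multiplicative.ofAdd (Pi.single i 1) := fun i => rfl
  have hsq : ∀ j : Fin d, hige j * hige j = 1 := by
    intro j
    apply Multiplicative.toAdd.injective
    rw [toAdd_mul, toAdd_one]
    funext i
    simp only [Pi.add_apply, Pi.zero_apply]
    generalize (Multiplicative.toAdd (hige j)) i = t
    revert t; decide
  funext p
  obtain ⟨j, i⟩ := p
  rcases Nat.lt_or_ge i.1 j.1 with hlt | hge
  · let i' : Fin d := ⟨i.1, by omega⟩
    have hij : i' < j := hlt
    have e1 : (⟨hige i', 0⟩ * ⟨hige j, 0⟩ : HigE d r β) =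
        ⟨hige j, 0⟩ * ⟨hige i', 0⟩ * ⟨1, β ⟨j, i⟩⟩ := by
      ext1
      · simp [mul_comm]
      · simp only [CExt.mul_a, CExt.mul_q, CEBil.one_right, ceForm_le _ β hij.le (hid i') (hid j),
          ceForm_lt _ β hij (hid i') (hid j), add_zero, zero_add]
        rfl
    have e2 := congrArg θ e1
    rw [map_mul, map_mul, map_mul, h1, h1, hall] at e2
    have e3 := congrArg CExt.a e2
    simp only [CExt.mul_a, CExt.mul_q, CEBil.one_right, ceForm_le _ β' hij.le (hid i') (hid j),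
          ceForm_lt _ β' hij (hid i') (hid j), add_zero, zero_add] at e3
    exact e3.symm
  · have hi : i = ⟨j.1, Nat.lt_succ_self _⟩ := by
      apply Fin.ext
      have := i.2
      simp only
      omega
    subst hi
    have e1 : (⟨hige j, 0⟩ * ⟨hige j, 0⟩ : HigE d r β) = ⟨1, β ⟨j, ⟨j.1, Nat.lt_succ_self _⟩⟩⟩ := by
      ext1
      · simp [hsq]
      · simp only [CExt.mul_a, ceForm_le _ β le_rfl (hid j) (hid j), add_zero, zero_add]
    have e2 := congrArg θ e1
    rw [map_mul, h1, hall] at e2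
    have e3 := congrArg CExt.a e2
    simp only [CExt.mul_a, ceForm_le _ β' le_rfl (hid j) (hid j), add_zero, zero_add] at e3
    exact e3.symm

theorem higman_nat (d r : ℕ) :
    2 ^ (r * (d * (d + 1) / 2)) ≤ 2 ^ ((d + r) ^ 2) * gc (2 ^ (d + r)) := by
  classical
  let X := CEI d → (Fin r → ZMod 2)
  have hcard : ∀ β : X, Nat.card (HigE d r β) = 2 ^ (d + r) := by
    intro β
    rw [CExt.card_eq]
    have : Nat.card (Multiplicative (Fin d → ZMod 2)) = 2 ^ d := by
      rw [Nat.card_congr Multiplicative.toAdd]; simp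
    rw [this, pow_add]
    simp
  have hM : ∀ (E : Type) [Group E], Nat.card E = 2 ^ (d + r) →
      Nat.card {β : X // Nonempty (HigE d r β ≃* E)} ≤ 2 ^ ((d + r) ^ 2) := by
    intro E _ hE
    have hfE : Finite E := Nat.finite_of_card_ne_zero (by rw [hE]; positivity)
    let f : ∀ s : {β : X // Nonempty (HigE d r β ≃* E)}, HigE d r s.1 ≃* E := fun s => s.2.some
    have hinj : Function.Injective fun s : {β : X // Nonempty (HigE d r β ≃* E)} =>
        ((fun i => f s ⟨hige i, 0⟩, fun l => f s ⟨1, Pi.single l 1⟩) :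
          (Fin d → E) × (Fin r → E)) := by
      intro s s' h
      simp only [Prod.mk.injEq] at h
      obtain ⟨ha, hb⟩ := h
      apply Subtype.ext
      refine higman_det ((f s).trans (f s').symm) (fun i => ?_) (fun l => ?_)
      · have := congrFun ha i
        simp [this]
      · have := congrFun hb l
        simp [this]
    refine (Nat.card_le_card_of_injective _ hinj).trans (le_of_eq ?_)
    rw [Nat.card_prod, Nat.card_fun, Nat.card_fun, hE]
    simp only [Nat.card_eq_fintype_card, Fintype.card_fin]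
    rw [← pow_add, ← pow_mul, pow_two]
  have := card_le_mul_gc (fun β : X => HigE d r β) (by positivity) hcard hM
  refine le_trans (le_of_eq ?_) this
  rw [Nat.card_fun, card_CEI, Nat.card_fun]
  simp only [Nat.card_eq_fintype_card, Fintype.card_fin, ZMod.card]
  rw [← pow_mul]

end

theorem higman (k : ℕ) :
    (2 : ℝ) ^ (2 / 27 * (k : ℝ) ^ 3 - 3 * (k : ℝ) ^ 2) ≤ gc (2 ^ k) := by
  have key : ∀ d r : ℕ, d + r = k → 2 / 27 * (k : ℝ) ^ 3 - 2 * (k : ℝ) ^ 2 ≤
      (r : ℝ) * (d * (d + 1) / 2) →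
      (2 : ℝ) ^ (2 / 27 * (k : ℝ) ^ 3 - 3 * (k : ℝ) ^ 2) ≤ gc (2 ^ k) := by
    intro d r hdr hh
    have h := higman_nat d r
    rw [hdr] at h
    have h' : (2 : ℝ) ^ (r * (d * (d + 1) / 2)) ≤ 2 ^ (k ^ 2) * (gc (2 ^ k) : ℝ) := by
      exact_mod_cast h
    have hT : ((d * (d + 1) / 2 : ℕ) : ℝ) = (d : ℝ) * (d + 1) / 2 := by
      rw [Nat.cast_div (Nat.even_mul_succ_self d).two_dvd (by norm_num)]
      push_cast
      ring
    have h3 : (2 : ℝ) ^ (2 / 27 * (k : ℝ) ^ 3 - 3 * (k : ℝ) ^ 2) * 2 ^ (k ^ 2) ≤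
        2 ^ (k ^ 2) * (gc (2 ^ k) : ℝ) := by
      refine le_trans ?_ h'
      rw [← Real.rpow_natCast 2 (k ^ 2), ← Real.rpow_add (by norm_num),
        ← Real.rpow_natCast 2 (r * _)]
      apply Real.rpow_le_rpow_of_exponent_le (by norm_num)
      push_cast [hT]
      nlinarith
    have h4 : (0 : ℝ) < 2 ^ (k ^ 2) := by positivity
    rw [mul_comm] at h3
    exact le_of_mul_le_mul_left h3 h4
  obtain ⟨t, ht⟩ : ∃ t, k = 3 * t ∨ k = 3 * t + 1 ∨ k = 3 * t + 2 := ⟨k / 3, by omega⟩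
  rcases ht with rfl | rfl | rfl
  · refine key (2 * t) t (by ring) ?_
    push_cast
    have : (0 : ℝ) ≤ t := Nat.cast_nonneg t
    nlinarith [sq_nonneg (t : ℝ)]
  · refine key (2 * t) (t + 1) (by ring) ?_
    push_cast
    have : (0 : ℝ) ≤ t := Nat.cast_nonneg t
    nlinarith [sq_nonneg (t : ℝ)]
  · refine key (2 * t + 1) (t + 1) (by ring) ?_
    push_cast
    have : (0 : ℝ) ≤ t := Nat.cast_nonneg t
    nlinarith [sq_nonneg (t : ℝ)]

end Pool.Agent.EnumG
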