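import Pool.Agent.Work.MP_9de0a1_al.Defs
import Pool.Agent.Work.MP_9de0a1_al.Aut

/-!
# Frat : the quotient `V = Q / Q²` of a finite 2-group (helper53)
-/

open Subgroup
open scoped commutatorElement

namespace Pool.Agent.EnumG

theorem commutator_le_sq (Q : Type) [Group Q] : commutator Q ≤ sq Q := by
  rw [commutator_def, Subgroup.commutator_le]
  intro a _ b _
  have h : ⁅a, b⁆ = (a * b) ^ 2 * (b⁻¹ * a⁻¹ * b) ^ 2 * (b⁻¹) ^ 2 := by
    rw [commutatorElement_def]; simp only [pow_two, mul_assoc, mul_inv_cancel_left]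
  rw [h]
  refine mul_mem (mul_mem ?_ ?_) ?_ <;> exact Subgroup.subset_closure ⟨_, rfl⟩

theorem burnside {Q : Type} [Group Q] [Finite Q] (hQ : IsPGroup 2 Q) (H : Subgroup Q)
    (h : H ⊔ sq Q = ⊤) : H = ⊤ := by
  have : Fact (Nat.Prime 2) := ⟨Nat.prime_two⟩
  rcases eq_top_or_exists_le_coatom H with h1 | ⟨M, hM, hHM⟩
  · exact h1
  exfalso
  have hnil : Group.IsNilpotent Q := hQ.isNilpotent
  have hMn : M.Normal := NormalizerCondition.normal_of_coatom M Group.normalizerCondition_of_isNilpotent hM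
  refine hM.1 (top_le_iff.1 (h ▸ sup_le hHM ?_))
  rw [sq, Subgroup.closure_le]
  rintro _ ⟨x, rfl⟩
  by_contra hx
  have hx' : x ^ 2 ∉ M := hx
  have htop : M ⊔ zpowers (x ^ 2) = ⊤ := by
    apply hM.2
    refine lt_of_le_of_ne le_sup_left ?_
    intro h2
    exact hx' (h2 ▸ (le_sup_right : zpowers (x ^ 2) ≤ M ⊔ zpowers (x ^ 2)) (mem_zpowers _))
  have hxt : x ∈ M ⊔ zpowers (x ^ 2) := by rw [htop]; exact mem_top _
  rw [Subgroup.mem_sup_of_normal_left] at hxt
  obtain ⟨m, hm, z, hz, hmz⟩ := hxt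
  obtain ⟨j, rfl⟩ := Subgroup.mem_zpowers_iff.1 hz
  -- in the quotient
  have hq : (QuotientGroup.mk x : Q ⧸ M) ^ (2 * j - 1 : ℤ) = 1 := by
    have h3 : (QuotientGroup.mk x : Q ⧸ M) = (QuotientGroup.mk x : Q ⧸ M) ^ (2 * j : ℤ) := by
      conv_lhs => rw [← hmz]
      rw [QuotientGroup.mk_mul, (QuotientGroup.eq_one_iff m).2 hm, one_mul]
      rw [zpow_mul, QuotientGroup.mk_zpow, QuotientGroup.mk_pow, zpow_ofNat]
    rw [zpow_sub, ← h3, zpow_one, mul_inv_cancel]
  obtain ⟨n, hn⟩ := (hQ.to_quotient M) (QuotientGroup.mk x)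
  have hcop : Int.gcd (2 * j - 1) ((2 : ℤ) ^ n) = 1 := by
    rw [← Int.isCoprime_iff_gcd_eq_one]
    apply IsCoprime.pow_right
    exact ⟨-1, j, by ring⟩
  have hone : (QuotientGroup.mk x : Q ⧸ M) = 1 := by
    have h5 := Int.isCoprime_iff_gcd_eq_one.2 hcop
    obtain ⟨u, v, huv⟩ := h5
    calc (QuotientGroup.mk x : Q ⧸ M) = (QuotientGroup.mk x : Q ⧸ M) ^ (u * (2 * j - 1) + v * 2 ^ n) := by
          rw [huv, zpow_one]
      _ = 1 := by
          rw [zpow_add, mul_comm u, mul_comm v, zpow_mul, zpow_mul, hq, one_zpow, one_mul]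
          have : ((2 : ℤ) ^ n) = ((2 ^ n : ℕ) : ℤ) := by push_cast; rfl
          rw [this, zpow_natCast, hn, one_zpow]
  have hxM : x ∈ M := (QuotientGroup.eq_one_iff x).1 hone
  exact hx' (pow_mem hxM 2)

/-- generators of a 2-group over a subgroup `N` -/
theorem gens_over {K : Type} [Group K] [Finite K] (hK : IsPGroup 2 K) (N : Subgroup K) :
    ∃ (e : ℕ) (g : Fin e → K), N ⊔ closure (Set.range g) = ⊤ ∧
      2 ^ e * Nat.card (N ⊔ sq K : Subgroup K) = Nat.card K := by
  have : Fact (Nat.Prime 2) := ⟨Nat.prime_two⟩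
  obtain ⟨e, he⟩ := hK.index (N ⊔ sq K)
  have hc : 2 ^ e * Nat.card (N ⊔ sq K : Subgroup K) = Nat.card K := by
    rw [← he]; exact Subgroup.index_mul_card _
  obtain ⟨g, hg⟩ := exists_gens_over (N ⊔ sq K) hc.ge
  refine ⟨e, g, burnside hK _ ?_, hc⟩
  rw [← hg, sup_assoc, sup_assoc, sup_comm (sq K)]

theorem card_V_eq {Q : Type} [Group Q] [Finite Q] (hQ : IsPGroup 2 Q) :
    ∃ (d : ℕ) (g : Fin d → Q), Nat.card (Q ⧸ sq Q) = 2 ^ d ∧ closure (Set.range g) = ⊤ := by
  obtain ⟨e, g, hg, hc⟩ := gens_over hQ ⊥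
  refine ⟨e, g, ?_, ?_⟩
  · rw [bot_sup_eq] at hc
    have h1 := Subgroup.card_eq_card_quotient_mul_card_subgroup (sq Q)
    rw [h1] at hc
    exact (Nat.eq_of_mul_eq_mul_right Nat.card_pos hc).symm
  · rw [bot_sup_eq] at hg
    exact hg

theorem mem_ker_toV {Q : Type} [Group Q] (φ : MulAut Q) :
    φ ∈ (toV Q).ker ↔ ∀ x : Q, (QuotientGroup.mk (φ x) : Q ⧸ sq Q) = QuotientGroup.mk x := by
  rw [MonoidHom.mem_ker]
  constructor
  · intro h x
    rw [← toV_mk, h]; rfl
  · intro h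
    ext v
    induction v using QuotientGroup.induction_on with
    | H x => rw [toV_mk, h x]; rfl

theorem card_mulAut_le_AV {Q : Type} [Group Q] [Finite Q] {d : ℕ} (g : Fin d → Q)
    (hg : closure (Set.range g) = ⊤) :
    Nat.card (MulAut Q) ≤ Nat.card (AV Q) * Nat.card (sq Q) ^ d := by
  have h1 := Subgroup.card_eq_card_quotient_mul_card_subgroup (toV Q).ker
  have h2 : Nat.card (MulAut Q ⧸ (toV Q).ker) = Nat.card (AV Q) :=
    Nat.card_congr (QuotientGroup.quotientKerEquivRange (toV Q)).toEquiv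
  rw [h1, h2]
  refine Nat.mul_le_mul le_rfl ?_
  have h3 : Nat.card (Fin d → sq Q) = Nat.card (sq Q) ^ d := by
    rw [Nat.card_fun]; simp
  rw [← h3]
  have hmem : ∀ φ : (toV Q).ker, ∀ i, (φ.1 (g i)) * (g i)⁻¹ ∈ sq Q := by
    intro φ i
    have h4 := (mem_ker_toV φ.1).1 φ.2 (g i)
    rw [← QuotientGroup.eq_one_iff, QuotientGroup.mk_mul, h4, QuotientGroup.mk_inv, mul_inv_cancel]
  refine Nat.card_le_card_of_injective
    (fun φ : (toV Q).ker => fun i => (⟨φ.1 (g i) * (g i)⁻¹, hmem φ i⟩ : sq Q)) ?_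
  intro φ ψ h
  apply Subtype.ext
  apply MulEquiv.toMonoidHom_injective
  apply MonoidHom.eq_of_eqOn_dense hg
  rintro _ ⟨i, rfl⟩
  have h5 := congrArg Subtype.val (congrFun h i)
  simpa using h5

theorem ker_toV {Q : Type} [Group Q] [Finite Q] (hQ : IsPGroup 2 Q) :
    IsPGroup 2 (toV Q).ker := by
  have : Fact (Nat.Prime 2) := ⟨Nat.prime_two⟩
  obtain ⟨d, g, -, hg⟩ := card_V_eq hQ
  -- the set of tuples
  let S : Type := {x : Fin d → Q // ∀ i, (QuotientGroup.mk (x i) : Q ⧸ sq Q) = QuotientGroup.mk (g i)}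
  let _ : MulAction (toV Q).ker S :=
    { smul := fun φ x => ⟨fun i => φ.1 (x.1 i), fun i => by
        rw [(mem_ker_toV φ.1).1 φ.2, x.2 i]⟩
      one_smul := fun x => by apply Subtype.ext; rfl
      mul_smul := fun a b x => by apply Subtype.ext; rfl }
  have hgen : ∀ x : S, closure (Set.range x.1) = ⊤ := by
    intro x
    apply burnside hQ
    rw [← top_le_iff, ← hg, Subgroup.closure_le]
    rintro _ ⟨i, rfl⟩
    have h1 : (x.1 i)⁻¹ * g i ∈ sq Q := by
      rw [← QuotientGroup.eq]; exact x.2 i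
    have h2 : g i = x.1 i * ((x.1 i)⁻¹ * g i) := by group
    rw [h2]
    exact Subgroup.mul_mem_sup (Subgroup.subset_closure ⟨i, rfl⟩) h1
  have hfree : ∀ x : S, MulAction.stabilizer (toV Q).ker x = ⊥ := by
    intro x
    rw [eq_bot_iff]
    intro φ hφ
    rw [MulAction.mem_stabilizer_iff] at hφ
    rw [Subgroup.mem_bot]
    apply Subtype.ext
    apply MulEquiv.toMonoidHom_injective
    apply MonoidHom.eq_of_eqOn_dense (hgen x)
    rintro _ ⟨i, rfl⟩
    have h3 := congrFun (congrArg Subtype.val hφ) i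
    exact h3
  have e := MulAction.selfEquivOrbitsQuotientProd hfree
  have hdvd : Nat.card (toV Q).ker ∣ Nat.card S := by
    rw [Nat.card_congr e, Nat.card_prod]
    exact Dvd.intro_left _ rfl
  have hS : Nat.card S = Nat.card (sq Q) ^ d := by
    have h4 : Nat.card (Fin d → sq Q) = Nat.card (sq Q) ^ d := by
      rw [Nat.card_fun]; simp
    rw [← h4]
    refine Nat.card_congr
      { toFun := fun x i => ⟨(g i)⁻¹ * x.1 i, by rw [← QuotientGroup.eq]; exact (x.2 i).symm⟩
        invFun := fun y => ⟨fun i => g i * (y i).1, fun i => by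
          rw [QuotientGroup.mk_mul, (QuotientGroup.eq_one_iff _).2 (y i).2, mul_one]⟩
        left_inv := fun x => by apply Subtype.ext; funext i; simp
        right_inv := fun y => by funext i; apply Subtype.ext; simp }
  obtain ⟨n, hn⟩ := (hQ.to_subgroup (sq Q)).exists_card_eq
  rw [hS, hn, ← pow_mul] at hdvd
  exact IsPGroup.of_card_dvd_pow hdvd

theorem card_AV_le {Q : Type} [Group Q] [Finite Q] {d ρ : ℕ} (hd : Nat.card (Q ⧸ sq Q) = 2 ^ d)
    (h : ∀ φ : MulAut Q, disp φ ≤ 2 ^ ρ) : Nat.card (AV Q) ≤ 2 ^ (2 * d * ρ) := by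
  have hcomm : ∀ u v : Q ⧸ sq Q, u * v = v * u := by
    intro u v
    induction u using QuotientGroup.induction_on with
    | H x =>
      induction v using QuotientGroup.induction_on with
      | H y =>
        rw [← QuotientGroup.mk_mul, ← QuotientGroup.mk_mul, QuotientGroup.eq]
        have h1 : (x * y)⁻¹ * (y * x) = ⁅y⁻¹, x⁻¹⁆ := by
          rw [commutatorElement_def]; group
        rw [h1]
        exact commutator_le_sq Q (Subgroup.commutator_mem_commutator (mem_top _) (mem_top _))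
  obtain ⟨vg, hvg⟩ := exists_gens (G := Q ⧸ sq Q) (k := d) hd.le
  let δ : MulAut (Q ⧸ sq Q) → ((Q ⧸ sq Q) →* (Q ⧸ sq Q)) := fun T =>
    { toFun := fun v => T v * v⁻¹
      map_one' := by simp
      map_mul' := fun u v => by
        rw [map_mul, mul_inv_rev, mul_assoc, ← mul_assoc (T v), hcomm (T v * v⁻¹) u⁻¹,
          ← mul_assoc (T u)] }
  have hcard : ∀ T : AV Q, Nat.card (δ T.1).range ≤ 2 ^ ρ := by
    rintro ⟨T, φ, rfl⟩
    refine le_trans (le_of_eq ?_) (h φ)
    unfold disp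
    have h2 : ((δ (toV Q φ)).range : Set (Q ⧸ sq Q)) =
        Set.range fun x : Q => (QuotientGroup.mk (φ x * x⁻¹) : Q ⧸ sq Q) := by
      ext v
      constructor
      · rintro ⟨u, rfl⟩
        induction u using QuotientGroup.induction_on with
        | H x => exact ⟨x, rfl⟩
      · rintro ⟨x, rfl⟩
        exact ⟨QuotientGroup.mk x, rfl⟩
    have h3 : Nat.card ((δ (toV Q φ)).range : Set (Q ⧸ sq Q)) = Nat.card (δ (toV Q φ)).range := rfl
    rw [← h3, h2]
  have hy : ∀ T : AV Q, ∃ y : Fin ρ → Q ⧸ sq Q, closure (Set.range y) = (δ T.1).range := by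
    intro T
    obtain ⟨y, hy⟩ := exists_gens_over' (⊥ : Subgroup (Q ⧸ sq Q)) (δ T.1).range bot_le (k := ρ) (by
      have := hcard T
      rw [Subgroup.card_bot, mul_one]; exact this)
    exact ⟨y, by rw [← hy, bot_sup_eq]⟩
  choose y hy using hy
  have he : ∀ z : Fin ρ → Q ⧸ sq Q, ∃ f : Q ⧸ sq Q → Fin (2 ^ ρ),
      Nat.card (closure (Set.range z)) ≤ 2 ^ ρ → Set.InjOn f (closure (Set.range z) : Set (Q ⧸ sq Q)) := by
    intro z
    by_cases hz : Nat.card (closure (Set.range z)) ≤ 2 ^ ρ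
    · classical
      refine ⟨fun v => if hv : v ∈ closure (Set.range z) then
        Fin.castLE hz (Finite.equivFin (closure (Set.range z)) ⟨v, hv⟩) else ⟨0, by positivity⟩, fun _ => ?_⟩
      intro u hu v hv huv
      have hu' : u ∈ closure (Set.range z) := hu
      have hv' : v ∈ closure (Set.range z) := hv
      simp only [hu', hv', dif_pos] at huv
      have h4 := Fin.castLE_injective hz huv
      have h5 := (Finite.equivFin (closure (Set.range z))).injective h4
      exact congrArg Subtype.val h5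
    · exact ⟨fun _ => ⟨0, by positivity⟩, fun h6 => absurd h6 hz⟩
  choose e he using he
  have hinj : Function.Injective (fun T : AV Q => ((y T, fun i => e (y T) (δ T.1 (vg i))) :
      (Fin ρ → Q ⧸ sq Q) × (Fin d → Fin (2 ^ ρ)))) := by
    intro T U hTU
    have h7 : y T = y U := congrArg Prod.fst hTU
    have h8 : ∀ i, e (y T) (δ T.1 (vg i)) = e (y U) (δ U.1 (vg i)) := fun i =>
      congrFun (congrArg Prod.snd hTU) i
    have hle : Nat.card (closure (Set.range (y T))) ≤ 2 ^ ρ := by rw [hy T]; exact hcard T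
    apply Subtype.ext
    apply MulEquiv.toMonoidHom_injective
    apply MonoidHom.eq_of_eqOn_dense hvg
    rintro _ ⟨i, rfl⟩
    have h9 := he (y T) hle (x₁ := δ T.1 (vg i)) (x₂ := δ U.1 (vg i))
      (by rw [hy T]; exact ⟨vg i, rfl⟩) (by rw [h7, hy U]; exact ⟨vg i, rfl⟩) (by rw [h8 i, h7])
    have h10 : T.1 (vg i) * (vg i)⁻¹ = U.1 (vg i) * (vg i)⁻¹ := h9
    exact mul_right_cancel h10
  refine le_trans (Nat.card_le_card_of_injective _ hinj) (le_of_eq ?_)
  rw [Nat.card_prod, Nat.card_fun, Nat.card_fun, hd]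
  simp only [Nat.card_eq_fintype_card, Fintype.card_fin]
  rw [← pow_mul, ← pow_mul, ← pow_add]
  congr 1
  ring

theorem card_V_subgroup {Q : Type} [Group Q] [Finite Q] (H K : Subgroup Q) (hHK : H ≤ K) :
    Nat.card (K ⧸ sq K) * Nat.card H ≤ Nat.card (H ⧸ sq H) * Nat.card K := by
  have h1 := Subgroup.card_eq_card_quotient_mul_card_subgroup (sq H)
  have h2 := Subgroup.card_eq_card_quotient_mul_card_subgroup (sq K)
  have h3 : Nat.card (sq H) ≤ Nat.card (sq K) := by
    have hle : (sq H).map (Subgroup.inclusion hHK) ≤ sq K := by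
      unfold sq
      rw [MonoidHom.map_closure, Subgroup.closure_le]
      rintro _ ⟨_, ⟨x, rfl⟩, rfl⟩
      exact Subgroup.subset_closure ⟨Subgroup.inclusion hHK x, by simp⟩
    have hc : Nat.card ((sq H).map (Subgroup.inclusion hHK)) = Nat.card (sq H) :=
      Subgroup.card_map_of_injective (Subgroup.inclusion_injective hHK)
    rw [← hc]
    exact Subgroup.card_le_of_le hle
  rw [h1, h2]
  calc Nat.card (K ⧸ sq K) * (Nat.card (H ⧸ sq H) * Nat.card (sq H))
      = (Nat.card (K ⧸ sq K) * Nat.card (H ⧸ sq H)) * Nat.card (sq H) := by ring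
    _ ≤ (Nat.card (K ⧸ sq K) * Nat.card (H ⧸ sq H)) * Nat.card (sq K) := Nat.mul_le_mul le_rfl h3
    _ = _ := by ring

end Pool.Agent.EnumG
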