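import Pool.Agent.Work.MP_9de0a1_al.Frat

/-!
# FratLow : `V(K)` and `V(Q)` for a normal subgroup `K` of bounded index, small displacements
-/

open Subgroup
open scoped commutatorElement Pointwise

namespace Pool.Agent.EnumG

theorem fl_comm {Q : Type} [Group Q] (u v : Q ⧸ sq Q) : u * v = v * u := by
  induction u using QuotientGroup.induction_on with
  | H x =>
    induction v using QuotientGroup.induction_on with
    | H y =>
      rw [← QuotientGroup.mk_mul, ← QuotientGroup.mk_mul, QuotientGroup.eq]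
      have h1 : (x * y)⁻¹ * (y * x) = ⁅y⁻¹, x⁻¹⁆ := by
        rw [commutatorElement_def]; group
      rw [h1]
      exact commutator_le_sq Q (Subgroup.commutator_mem_commutator (mem_top _) (mem_top _))

/-- displacement homomorphism -/
noncomputable def flDelta {Q : Type} [Group Q] (K : Subgroup Q) [K.Normal] (q : Q) :
    K →* K ⧸ sq K where
  toFun x := QuotientGroup.mk (MulAut.conjNormal q x * x⁻¹)
  map_one' := by simp
  map_mul' x y := by
    simp only [map_mul, mul_inv_rev, QuotientGroup.mk_mul, QuotientGroup.mk_inv]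
    rw [mul_assoc, mul_assoc, fl_comm (QuotientGroup.mk (MulAut.conjNormal q y) : K ⧸ sq K),
      ← mul_assoc, ← mul_assoc, ← mul_assoc]
    rw [mul_assoc ((QuotientGroup.mk (MulAut.conjNormal q x) : K ⧸ sq K)),
      fl_comm ((QuotientGroup.mk y : K ⧸ sq K)⁻¹)]
    simp only [mul_assoc]
    rw [fl_comm ((QuotientGroup.mk y : K ⧸ sq K)⁻¹)]

theorem fl_sup_le {V : Type} [Group V] [Finite V] (hc : ∀ u v : V, u * v = v * u)
    (H N : Subgroup V) : Nat.card (H ⊔ N : Subgroup V) ≤ Nat.card H * Nat.card N := by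
  have hN : N.Normal := ⟨fun x hx g => by rw [hc g x]; simpa using hx⟩
  have h1 : ((H ⊔ N : Subgroup V) : Set V) = (H : Set V) * (N : Set V) := Subgroup.mul_normal H N
  have h2 : Nat.card ((H ⊔ N : Subgroup V) : Set V) ≤
      Nat.card (H : Set V) * Nat.card (N : Set V) := by
    rw [h1]
    exact Set.natCard_mul_le
  exact h2

theorem fl_iSup_le {V : Type} [Group V] [Finite V] (hc : ∀ u v : V, u * v = v * u) {ι : Type}
    [Fintype ι] (H : ι → Subgroup V) (B : ℕ) (hB : ∀ i, Nat.card (H i) ≤ B) :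
    Nat.card (⨆ i, H i : Subgroup V) ≤ B ^ Fintype.card ι := by
  classical
  have key : ∀ s : Finset ι, Nat.card (⨆ i ∈ s, H i : Subgroup V) ≤ B ^ s.card := by
    intro s
    induction s using Finset.induction_on with
    | empty => simp
    | insert a s ha ih =>
      rw [Finset.iSup_insert, Finset.card_insert_of_notMem ha, pow_succ']
      exact (fl_sup_le hc _ _).trans (Nat.mul_le_mul (hB a) ih)
  have h1 := key Finset.univ
  simpa using h1

theorem frat_low {Q : Type} [Group Q] [Finite Q] (K : Subgroup Q) [K.Normal] {D ρ : ℕ}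
    (hD : K.index ≤ D) (h : ∀ q : Q, disp (MulAut.conjNormal (H := K) q) ≤ 2 ^ ρ) :
    Nat.card (K ⧸ sq K) ≤ Nat.card (Q ⧸ sq Q) * 2 ^ (D * ρ + D ^ 2 + D) := by
  classical
  have := Fintype.ofFinite (Q ⧸ K)
  have hDc : Fintype.card (Q ⧸ K) ≤ D := by
    rw [← Nat.card_eq_fintype_card, ← Subgroup.index_eq_card]; exact hD
  -- the subgroup of displacements
  set Wb : Subgroup (K ⧸ sq K) := ⨆ l : Q ⧸ K, (flDelta K l.out).range with hWb
  have hWbc : Nat.card Wb ≤ 2 ^ (D * ρ) := by
    have h1 := fl_iSup_le (fun u v => fl_comm u v) (fun l : Q ⧸ K => (flDelta K l.out).range)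
      (2 ^ ρ) (fun l => h l.out)
    refine h1.trans ?_
    rw [← pow_mul, mul_comm]
    exact Nat.pow_le_pow_right (by norm_num) (Nat.mul_le_mul_right _ hDc)
  have hC1 : ∀ (q : Q) (x : K), flDelta K q x ∈ Wb := by
    intro q x
    set l : Q ⧸ K := QuotientGroup.mk q with hl
    have hk : (l.out)⁻¹ * q ∈ K := by
      rw [← QuotientGroup.eq, QuotientGroup.out_eq']
    set k : K := ⟨_, hk⟩ with hkd
    have h1 : flDelta K q x = flDelta K l.out (k * x * k⁻¹) := by
      have h2 : (MulAut.conjNormal q x : K) = MulAut.conjNormal l.out (k * x * k⁻¹) := by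
        apply Subtype.ext
        simp only [MulAut.conjNormal_apply, Subgroup.coe_mul, Subgroup.coe_inv, hkd]
        group
      change (QuotientGroup.mk (MulAut.conjNormal q x * x⁻¹) : K ⧸ sq K) =
        QuotientGroup.mk (MulAut.conjNormal l.out (k * x * k⁻¹) * (k * x * k⁻¹)⁻¹)
      rw [h2, QuotientGroup.mk_mul, QuotientGroup.mk_mul]
      congr 1
      simp only [QuotientGroup.mk_inv, QuotientGroup.mk_mul]
      rw [fl_comm (QuotientGroup.mk k : K ⧸ sq K)]
      simp
    rw [h1, hWb]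
    exact (le_iSup (fun l : Q ⧸ K => (flDelta K l.out).range) l) ⟨_, rfl⟩
  set W : Subgroup K := Wb.comap (QuotientGroup.mk' (sq K)) with hW
  set WQ : Subgroup Q := W.map K.subtype with hWQ
  have hC2 : ∀ (q x : Q), x ∈ K → q * x * q⁻¹ * x⁻¹ ∈ WQ := by
    intro q x hx
    refine ⟨MulAut.conjNormal q ⟨x, hx⟩ * ⟨x, hx⟩⁻¹, ?_, by simp⟩
    exact hC1 q ⟨x, hx⟩
  have hsqW : ∀ x : Q, x ∈ K → x ^ 2 ∈ WQ := by
    intro x hx
    refine ⟨(⟨x, hx⟩ : K) ^ 2, ?_, by simp⟩
    have h1 : (⟨x, hx⟩ : K) ^ 2 ∈ sq K := subset_closure ⟨_, rfl⟩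
    have h2 : (QuotientGroup.mk' (sq K)) ((⟨x, hx⟩ : K) ^ 2) = 1 := by
      rw [← MonoidHom.mem_ker, QuotientGroup.ker_mk']; exact h1
    show (QuotientGroup.mk' (sq K)) ((⟨x, hx⟩ : K) ^ 2) ∈ Wb
    rw [h2]
    exact one_mem _
  have hWQK : WQ ≤ K := by
    rintro _ ⟨x, _, rfl⟩
    exact x.2
  have hWQn : WQ.Normal := ⟨fun w hw q => by
    have h1 := mul_mem (hC2 q w (hWQK hw)) hw
    simpa using h1⟩
  have hWcard : Nat.card WQ = Nat.card Wb * Nat.card (sq K) := by
    have h1 : Nat.card WQ = Nat.card W :=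
      Nat.card_congr (W.equivMapOfInjective K.subtype K.subtype_injective).symm.toEquiv
    rw [h1]
    have h2 := W.card_mul_index
    rw [hW, Subgroup.index_comap_of_surjective _ (QuotientGroup.mk'_surjective (sq K))] at h2
    have h3 := Wb.card_mul_index
    have h4 : 0 < Wb.index := Nat.pos_of_ne_zero Wb.index_ne_zero_of_finite
    have h5 := Subgroup.card_eq_card_quotient_mul_card_subgroup (sq K)
    apply Nat.eq_of_mul_eq_mul_right h4
    rw [h2, h5, ← h3]
    ring
  -- `WQ ≤ sq Q`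
  have hcQ : ∀ a b : Q, a * b * a⁻¹ * b⁻¹ ∈ sq Q := fun a b => by
    rw [← commutatorElement_def]
    exact commutator_le_sq Q (Subgroup.commutator_mem_commutator (mem_top _) (mem_top _))
  -- generation of `sq Q`
  have hgen : ∀ q : Q, q ^ 2 ∈ WQ ⊔ closure (Set.range fun l : Q ⧸ K => (l.out : Q) ^ 2) := by
    intro q
    set l : Q ⧸ K := QuotientGroup.mk q with hl
    have hk : (l.out)⁻¹ * q ∈ K := by
      rw [← QuotientGroup.eq, QuotientGroup.out_eq']
    set x := (l.out)⁻¹ * q with hx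
    have h1 : q ^ 2 = (l.out) ^ 2 * (((l.out)⁻¹ * x * (l.out)⁻¹⁻¹ * x⁻¹) * x ^ 2) := by
      rw [hx]; simp only [pow_two]; group
    rw [h1]
    refine mul_mem (mem_sup_right (subset_closure ⟨l, rfl⟩)) (mem_sup_left (mul_mem ?_ ?_))
    · exact hC2 _ _ hk
    · exact hsqW _ hk
  set S : Subgroup Q := sq Q with hS
  have hSn : S.Normal := inferInstance
  have hgl : ∀ l : Q ⧸ K, (l.out : Q) ^ 2 ∈ S := fun l => subset_closure ⟨_, rfl⟩
  set π : S →* S ⧸ (WQ.subgroupOf S) := QuotientGroup.mk' _ with hπ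
  have hπs : Function.Surjective π := QuotientGroup.mk'_surjective _
  set F : Finset (S ⧸ (WQ.subgroupOf S)) :=
    Finset.univ.image (fun l : Q ⧸ K => π ⟨(l.out : Q) ^ 2, hgl l⟩) with hF
  have hFc : closure (F : Set (S ⧸ (WQ.subgroupOf S))) = ⊤ := by
    rw [eq_top_iff]
    have h1 : closure (Set.range fun x : Q => x ^ 2) ≤
        ((closure (F : Set (S ⧸ (WQ.subgroupOf S)))).comap π).map S.subtype ⊔ WQ := by
      rw [closure_le]
      rintro _ ⟨q, rfl⟩
      have h2 := hgen q
      refine (sup_le le_sup_right ?_ : WQ ⊔ closure (Set.range fun l : Q ⧸ K => (l.out : Q) ^ 2) ≤ _) h2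
      refine le_trans ?_ le_sup_left
      rw [closure_le]
      rintro _ ⟨l, rfl⟩
      refine ⟨⟨(l.out : Q) ^ 2, hgl l⟩, ?_, rfl⟩
      refine subset_closure ?_
      rw [hF]
      simp
    rintro t -
    obtain ⟨s, rfl⟩ := hπs t
    have h3 := h1 s.2
    rw [Subgroup.mem_sup_of_normal_right] at h3
    obtain ⟨_, ⟨u, hu, rfl⟩, w, hw, huw⟩ := h3
    have hwS : w ∈ S := by
      have : w = ((u : Q))⁻¹ * s := by rw [← huw]; simp
      rw [this]
      exact mul_mem (inv_mem u.2) s.2
    have h4 : s = u * ⟨w, hwS⟩ := Subtype.ext huw.symm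
    have h5 : π ⟨w, hwS⟩ = 1 := by
      rw [hπ, ← MonoidHom.mem_ker, QuotientGroup.ker_mk', Subgroup.mem_subgroupOf]
      exact hw
    rw [h4, map_mul, h5, mul_one]
    exact hu
  have hrank : Group.rank (S ⧸ (WQ.subgroupOf S)) ≤ D :=
    (Group.rank_le hFc).trans (Finset.card_image_le.trans (by rw [Finset.card_univ]; exact hDc))
  set H : Subgroup (S ⧸ (WQ.subgroupOf S)) := (K.subgroupOf S).map π with hH
  have hHi : H.index ≤ D := by
    have h1 : H.index ∣ (K.subgroupOf S).index := Subgroup.index_map_dvd _ hπs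
    have h2 : (K.subgroupOf S).index ∣ K.index := Subgroup.relIndex_dvd_index_of_normal K S
    have h3 : 0 < K.index := Nat.pos_of_ne_zero K.index_ne_zero_of_finite
    exact (Nat.le_of_dvd h3 (h1.trans h2)).trans hD
  have hHr : Group.rank H ≤ D * D :=
    (Subgroup.rank_le_index_mul_rank H).trans (Nat.mul_le_mul hHi hrank)
  have hHcomm : ∀ a b : H, a * b = b * a := by
    rintro ⟨_, x, hx, rfl⟩ ⟨_, y, hy, rfl⟩
    apply Subtype.ext
    change π x * π y = π y * π x
    rw [← map_mul, ← map_mul, hπ, QuotientGroup.mk'_apply, QuotientGroup.mk'_apply,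
      QuotientGroup.eq, Subgroup.mem_subgroupOf]
    have h1 := hC2 ((y : Q)⁻¹) ((x : Q)⁻¹) (inv_mem hx)
    have h2 : (((x * y)⁻¹ * (y * x) : S) : Q) =
        (y : Q)⁻¹ * (x : Q)⁻¹ * (y : Q)⁻¹⁻¹ * (x : Q)⁻¹⁻¹ := by
      push_cast; group
    rw [h2]
    exact h1
  have hHsq : ∀ a : H, a ^ 2 = 1 := by
    rintro ⟨_, x, hx, rfl⟩
    apply Subtype.ext
    change (π x) ^ 2 = 1
    rw [← map_pow, hπ, ← MonoidHom.mem_ker, QuotientGroup.ker_mk', Subgroup.mem_subgroupOf]
    push_cast
    exact hsqW _ hx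
  have hHcard : Nat.card H ≤ 2 ^ (D * D) := by
    let _ : CommGroup H := { (inferInstance : Group H) with mul_comm := hHcomm }
    have h1 : Nat.card H ∣ 2 ^ Group.rank H := card_dvd_exponent_pow_rank' H hHsq
    exact (Nat.le_of_dvd (by positivity) h1).trans (Nat.pow_le_pow_right (by norm_num) hHr)
  -- counting
  have h1 : Nat.card (K.subgroupOf S) ≤ Nat.card H * Nat.card WQ := by
    have h2 := (π.comp (K.subgroupOf S).subtype).ker.card_mul_index
    rw [Subgroup.index_ker, MonoidHom.range_comp, Subgroup.range_subtype] at h2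
    rw [← h2, mul_comm]
    refine Nat.mul_le_mul le_rfl ?_
    refine Nat.card_le_card_of_injective
      (fun s : (π.comp (K.subgroupOf S).subtype).ker => (⟨((s.1 : S) : Q), ?_⟩ : WQ)) ?_
    · have h3 : π ((K.subgroupOf S).subtype s.1) = 1 := s.2
      have h4 : ((K.subgroupOf S).subtype s.1) ∈ (QuotientGroup.mk' (WQ.subgroupOf S)).ker := h3
      rw [QuotientGroup.ker_mk'] at h4
      exact h4
    · intro s t hst
      have h3 := congrArg Subtype.val hst
      exact Subtype.ext (Subtype.ext (Subtype.ext h3))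
  have h2 : Nat.card K ≤ Nat.card (K.subgroupOf S) * Nat.card (Q ⧸ S) := by
    have h3 := (S.subgroupOf K).card_mul_index
    have h4 : (S.subgroupOf K).index ∣ S.index := Subgroup.relIndex_dvd_index_of_normal S K
    have h5 : (S.subgroupOf K).index ≤ S.index :=
      Nat.le_of_dvd (Nat.pos_of_ne_zero S.index_ne_zero_of_finite) h4
    have h6 : Nat.card (S.subgroupOf K) = Nat.card (K.subgroupOf S) := by
      have e1 : Nat.card (S.subgroupOf K) = Nat.card (S ⊓ K : Subgroup Q) := by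
        rw [← Subgroup.inf_subgroupOf_right]
        exact Nat.card_congr (Subgroup.subgroupOfEquivOfLe inf_le_right).toEquiv
      have e2 : Nat.card (K.subgroupOf S) = Nat.card (S ⊓ K : Subgroup Q) := by
        rw [← Subgroup.inf_subgroupOf_right, inf_comm]
        exact Nat.card_congr (Subgroup.subgroupOfEquivOfLe inf_le_left).toEquiv
      rw [e1, e2]
    rw [← h3, h6, ← Subgroup.index_eq_card S]
    exact Nat.mul_le_mul le_rfl h5
  have h3 := Subgroup.card_eq_card_quotient_mul_card_subgroup (sq K)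
  have h4 : 0 < Nat.card (sq K) := Nat.card_pos
  refine le_of_mul_le_mul_right ?_ h4
  rw [← h3]
  calc Nat.card K ≤ Nat.card (K.subgroupOf S) * Nat.card (Q ⧸ S) := h2
    _ ≤ (Nat.card H * Nat.card WQ) * Nat.card (Q ⧸ S) := Nat.mul_le_mul_right _ h1
    _ ≤ (2 ^ (D * D) * (2 ^ (D * ρ) * Nat.card (sq K))) * Nat.card (Q ⧸ S) := by
        rw [hWcard]
        gcongr
    _ = Nat.card (Q ⧸ S) * (2 ^ (D * ρ) * 2 ^ (D * D)) * Nat.card (sq K) := by ring
    _ ≤ Nat.card (Q ⧸ S) * 2 ^ (D * ρ + D ^ 2 + D) * Nat.card (sq K) := by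
        gcongr
        rw [← pow_add]
        exact Nat.pow_le_pow_right (by norm_num) (by nlinarith)

end Pool.Agent.EnumG
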