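import Pool.Agent.Work.MP_9de0a1_al.SimsA
import Pool.Agent.Work.MP_9de0a1_al.Frat
import Pool.Agent.Work.MP_9de0a1_al.FratLow

/-!
# SimsB : `d_exc`, the groups with few generators
-/

open Subgroup

namespace Pool.Agent.EnumG

theorem SimsB.index_normalCore_le {Q : Type} [Group Q] [Finite Q] (K : Subgroup Q) {C : ℕ}
    (h : K.index ≤ C) : K.normalCore.index ≤ C.factorial := by
  rw [Subgroup.normalCore_eq_ker, Subgroup.index_ker]
  calc Nat.card (MulAction.toPermHom Q (Q ⧸ K)).range ≤ Nat.card (Equiv.Perm (Q ⧸ K)) :=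
        Subgroup.card_le_card_group _
    _ = (Nat.card (Q ⧸ K)).factorial := Nat.card_perm
    _ ≤ C.factorial := Nat.factorial_le h

/-- groups of order `2^k` which contain a normal subgroup of index at most `D` with a large
displacement -/
theorem SimsB.case1 (D : ℕ) (α : ℝ) (hα : 0 < α) : ∃ δ > 0, ∃ k0 : ℕ, ∀ k : ℕ, k0 ≤ k →
    NumLe (fun Q _ => ∃ k' : ℕ, k' ≤ k ∧ k ≤ k' + D ∧ ∃ K : Subgroup Q, K.Normal ∧
        K.index ≠ 0 ∧ K.index ≤ D ∧ Nat.card K = 2 ^ k' ∧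
        ∃ φ : MulAut K, (2 : ℝ) ^ (α * k') ≤ disp φ)
      ((2 : ℝ) ^ ((2 / 27 - δ) * (k : ℝ) ^ 3 - 1)) := by
  obtain ⟨δ1, hδ1, k1, h1⟩ := disp_exc α hα
  obtain ⟨A, hA⟩ := bdd_ext D
  set δ2 : ℝ := min δ1 (2 / 27) with hδ2
  have hδ20 : 0 < δ2 := lt_min hδ1 (by norm_num)
  have hδ21 : δ2 ≤ δ1 := min_le_left _ _
  have hδ22 : δ2 ≤ 2 / 27 := min_le_right _ _
  obtain ⟨k2, hk2⟩ := exists_nat_gt ((2 * A + 2) * 2 / δ2)
  refine ⟨δ2 / 2, by positivity, max (k1 + D) (max k2 1), fun k hk => ?_⟩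
  have hk1 : k1 + D ≤ k := (le_max_left _ _).trans hk
  have hk2' : (k2 : ℝ) ≤ k := by
    exact_mod_cast (le_max_left k2 1).trans ((le_max_right _ _).trans hk)
  have hk3 : 1 ≤ k := (le_max_right k2 1).trans ((le_max_right _ _).trans hk)
  have hk3' : (1 : ℝ) ≤ k := by exact_mod_cast hk3
  have hk0 : (0 : ℝ) ≤ k := Nat.cast_nonneg k
  set B : ℝ := (2 : ℝ) ^ ((2 / 27 - δ2) * (k : ℝ) ^ 3 + A * ((k : ℝ) ^ 2 + 1)) with hB
  have h2 := NumLe.ex (ι := Fin (k + 1)) (P := fun i Q _ => k ≤ (i : ℕ) + D ∧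
      ∃ K : Subgroup Q, K.Normal ∧ K.index ≠ 0 ∧ K.index ≤ D ∧ Nat.card K = 2 ^ (i : ℕ) ∧
        ∃ φ : MulAut K, (2 : ℝ) ^ (α * (i : ℕ)) ≤ disp φ) (B := B) (by
    intro i
    by_cases hi : k ≤ (i : ℕ) + D
    swap
    · refine SimsCore.numLe_false (by positivity) ?_
      rintro G _ ⟨h, -⟩
      exact hi h
    have hik : (i : ℕ) ≤ k := by omega
    have hik' : ((i : ℕ) : ℝ) ≤ k := by exact_mod_cast hik
    have h3 := h1 (i : ℕ) (by omega)
    have h4 := NumLe.fib (P := fun Q _ => k ≤ (i : ℕ) + D ∧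
      ∃ K : Subgroup Q, K.Normal ∧ K.index ≠ 0 ∧ K.index ≤ D ∧ Nat.card K = 2 ^ (i : ℕ) ∧
        ∃ φ : MulAut K, (2 : ℝ) ^ (α * (i : ℕ)) ≤ disp φ)
      (R := fun K _ G _ => ∃ H : Subgroup G, H.Normal ∧ H.index ≠ 0 ∧ H.index ≤ D ∧
        Nonempty (K ≃* H)) (B := 2 ^ (A * ((i : ℕ) ^ 2 + 1))) h3 (by positivity)
      (fun K _ hK => by
        have : Finite K := Nat.finite_of_card_ne_zero (by rw [hK.1]; positivity)
        exact hA (i : ℕ) K hK.1.le)
      (fun G _ hG => by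
        obtain ⟨-, K, hK1, hK2, hK3, hK4, hK5⟩ := hG
        exact ⟨K, inferInstance, ⟨hK4, hK5⟩, K, hK1, hK2, hK3, ⟨MulEquiv.refl _⟩⟩)
      (fun K K' _ _ G _ hKK' hG => by
        obtain ⟨e⟩ := hKK'
        obtain ⟨H, hH1, hH2, hH3, ⟨e'⟩⟩ := hG
        exact ⟨H, hH1, hH2, hH3, ⟨e.symm.trans e'⟩⟩)
    refine h4.mono ?_ (fun G _ h => h)
    have h5 : (2 : ℝ) ^ (A * ((i : ℕ) ^ 2 + 1)) ≤ 2 ^ (A * ((k : ℝ) ^ 2 + 1)) := by
      rw [← Real.rpow_natCast]
      apply Real.rpow_le_rpow_of_exponent_le (by norm_num)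
      push_cast
      gcongr
    have h6 : (2 : ℝ) ^ ((2 / 27 - δ1) * ((i : ℕ) : ℝ) ^ 3) ≤
        2 ^ ((2 / 27 - δ2) * (k : ℝ) ^ 3) := by
      apply Real.rpow_le_rpow_of_exponent_le (by norm_num)
      have h7 : (0 : ℝ) ≤ ((i : ℕ) : ℝ) ^ 3 := by positivity
      calc (2 / 27 - δ1) * ((i : ℕ) : ℝ) ^ 3 ≤ (2 / 27 - δ2) * ((i : ℕ) : ℝ) ^ 3 := by
            apply mul_le_mul_of_nonneg_right (by linarith) h7
        _ ≤ _ := by
            apply mul_le_mul_of_nonneg_left _ (by linarith)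
            gcongr
    calc (2 : ℝ) ^ ((2 / 27 - δ1) * ((i : ℕ) : ℝ) ^ 3) * 2 ^ (A * ((i : ℕ) ^ 2 + 1)) ≤
          2 ^ ((2 / 27 - δ2) * (k : ℝ) ^ 3) * 2 ^ (A * ((k : ℝ) ^ 2 + 1)) := by gcongr
      _ = B := by rw [hB, Real.rpow_add (by norm_num)])
  refine h2.mono ?_ ?_
  · rw [Nat.card_eq_fintype_card, Fintype.card_fin]
    have h3 : (((k + 1 : ℕ)) : ℝ) ≤ 2 ^ (k : ℝ) := by
      rw [Real.rpow_natCast]
      have : k + 1 ≤ 2 ^ k := Nat.lt_two_pow_self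
      exact_mod_cast this
    calc (((k + 1 : ℕ)) : ℝ) * B ≤ 2 ^ (k : ℝ) * B := by gcongr
      _ = 2 ^ ((k : ℝ) + ((2 / 27 - δ2) * (k : ℝ) ^ 3 + A * ((k : ℝ) ^ 2 + 1))) := by
        rw [hB, ← Real.rpow_add (by norm_num)]
      _ ≤ _ := by
        apply Real.rpow_le_rpow_of_exponent_le (by norm_num)
        have h5 : (2 * A + 2) * 2 / δ2 ≤ k := by linarith
        rw [div_le_iff₀ hδ20] at h5
        have h6 : (2 * A + 2) * (k : ℝ) ^ 2 ≤ δ2 / 2 * (k : ℝ) ^ 3 := by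
          calc (2 * A + 2) * (k : ℝ) ^ 2 ≤ (δ2 / 2 * k) * (k : ℝ) ^ 2 := by
                apply mul_le_mul_of_nonneg_right (by linarith) (by positivity)
            _ = _ := by ring
        have h7 : (1 : ℝ) ≤ (k : ℝ) ^ 2 := by nlinarith
        have h8 : (k : ℝ) ≤ (k : ℝ) ^ 2 := by nlinarith
        have hA0 : (0 : ℝ) ≤ A := Nat.cast_nonneg A
        have h9 : (A : ℝ) * ((k : ℝ) ^ 2 + 1) ≤ A * (2 * (k : ℝ) ^ 2) := by
          apply mul_le_mul_of_nonneg_left (by linarith) hA0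
        linarith
  · rintro G _ ⟨k', hk', hk'D, K, hK⟩
    exact ⟨⟨k', by omega⟩, hk'D, K, hK⟩

/-- the count with few generators -/
theorem SimsB.bound {m e k η : ℝ} (hm : 0 ≤ m) (he : 0 ≤ e) (hη : 0 ≤ η)
    (hmk : m + e ≤ k) (hek : e ≤ (2 / 3 - η / 2) * k) :
    m * (e ^ 2 / 2) ≤ (2 / 27 - η ^ 2 / 24) * k ^ 3 := by
  have hk : 0 ≤ k := by linarith
  have h1 : m * (e ^ 2 / 2) ≤ (k - e) * (e ^ 2 / 2) := by
    apply mul_le_mul_of_nonneg_right (by linarith) (by positivity)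
  have h3 : 2 / 27 * k ^ 3 - (k - e) * (e ^ 2 / 2) = (2 * k - 3 * e) ^ 2 * (k + 3 * e) / 54 := by
    ring
  have h4 : 3 * η / 2 * k ≤ 2 * k - 3 * e := by linarith
  have h5 : (3 * η / 2 * k) ^ 2 ≤ (2 * k - 3 * e) ^ 2 := by
    apply pow_le_pow_left₀ (by positivity) h4
  have h6 : (3 * η / 2 * k) ^ 2 * k ≤ (2 * k - 3 * e) ^ 2 * (k + 3 * e) := by
    apply mul_le_mul h5 (by linarith) hk (by positivity)
  nlinarith

theorem d_exc (η : ℝ) (hη : 0 < η) : ∃ δ > 0, ∃ k0 : ℕ, ∀ k : ℕ, k0 ≤ k →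
    NumLe (fun Q _ => Nat.card Q = 2 ^ k ∧ (Nat.card (Q ⧸ sq Q) : ℝ) < 2 ^ ((2 / 3 - η) * (k : ℝ)))
      ((2 : ℝ) ^ ((2 / 27 - δ) * (k : ℝ) ^ 3)) := by
  set b : ℝ := min η 1 with hb
  have hb0 : 0 < b := lt_min hη one_pos
  have hb1 : b ≤ 1 := min_le_right _ _
  have hbη : b ≤ η := min_le_left _ _
  have hb2 : b ^ 2 ≤ b := by nlinarith
  set ε : ℝ := b ^ 2 / 300 with hε
  have hε0 : 0 < ε := by positivity
  have hε1 : ε ≤ 1 := by rw [hε]; linarith
  obtain ⟨C, k1, hC⟩ := structA ε hε0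
  set D : ℕ := C.factorial with hD
  have hD1 : 1 ≤ D := Nat.factorial_pos C
  have hD1' : (1 : ℝ) ≤ D := by exact_mod_cast hD1
  set α : ℝ := b / (4 * D) with hα
  have hα0 : 0 < α := by positivity
  obtain ⟨δ1, hδ1, k2, h2⟩ := SimsB.case1 D α hα0
  obtain ⟨k3, hk3⟩ := exists_nat_gt (4 * ((D : ℝ) ^ 2 + 3 * D) / b)
  obtain ⟨k4, hk4⟩ := exists_nat_gt ((4 * ε + 9 + 2 * C) * 200 / (3 * b ^ 2))
  refine ⟨min δ1 (b ^ 2 / 60), lt_min hδ1 (by positivity), max (max k1 k2) (max (max k3 1) k4),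
    fun k hk => ?_⟩
  have hk1 : k1 ≤ k := (le_max_left _ _).trans ((le_max_left _ _).trans hk)
  have hk2 : k2 ≤ k := (le_max_right _ _).trans ((le_max_left _ _).trans hk)
  have hk3' : (k3 : ℝ) ≤ k := by
    exact_mod_cast (le_max_left k3 1).trans ((le_max_left _ k4).trans ((le_max_right _ _).trans hk))
  have hk1' : (1 : ℝ) ≤ k := by
    exact_mod_cast (le_max_right k3 1).trans ((le_max_left _ k4).trans ((le_max_right _ _).trans hk))
  have hk4' : (k4 : ℝ) ≤ k := by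
    exact_mod_cast (le_max_right (max k3 1) k4).trans ((le_max_right _ _).trans hk)
  have hk0 : (0 : ℝ) ≤ k := Nat.cast_nonneg k
  set δ : ℝ := min δ1 (b ^ 2 / 60) with hδ
  have hδa : δ ≤ δ1 := min_le_left _ _
  have hδb : δ ≤ b ^ 2 / 60 := min_le_right _ _
  have hP1 := h2 k hk2
  have hP2 := SimsCore.engine k C 0 ε ((2 / 27 - b ^ 2 / 24) * (k : ℝ) ^ 3) hε0.le
  refine (hP1.or hP2).mono ?_ ?_
  · have h3 : (2 : ℝ) ^ ((2 / 27 - δ1) * (k : ℝ) ^ 3 - 1) ≤ 2 ^ ((2 / 27 - δ) * (k : ℝ) ^ 3 - 1) := by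
      apply Real.rpow_le_rpow_of_exponent_le (by norm_num)
      have : (0 : ℝ) ≤ (k : ℝ) ^ 3 := by positivity
      nlinarith
    have h4 : (2 : ℝ) ^ ((2 / 27 - b ^ 2 / 24) * (k : ℝ) ^ 3 + 3 * ε * (k : ℝ) ^ 3 +
        (4 * ε + 8 + 2 * C) * (k : ℝ) ^ 2) ≤ 2 ^ ((2 / 27 - δ) * (k : ℝ) ^ 3 - 1) := by
      apply Real.rpow_le_rpow_of_exponent_le (by norm_num)
      have h5 : (4 * ε + 9 + 2 * C) * 200 / (3 * b ^ 2) ≤ k := by linarith
      rw [div_le_iff₀ (by positivity)] at h5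
      have h6 : (4 * ε + 9 + 2 * C) * (k : ℝ) ^ 2 ≤ 3 * b ^ 2 / 200 * (k : ℝ) ^ 3 := by
        calc (4 * ε + 9 + 2 * C) * (k : ℝ) ^ 2 ≤ (3 * b ^ 2 / 200 * k) * (k : ℝ) ^ 2 := by
              apply mul_le_mul_of_nonneg_right (by linarith) (by positivity)
          _ = _ := by ring
      have h7 : (1 : ℝ) ≤ (k : ℝ) ^ 2 := by nlinarith
      have h8 : 3 * ε * (k : ℝ) ^ 3 = b ^ 2 / 100 * (k : ℝ) ^ 3 := by rw [hε]; ring
      have h9 : δ * (k : ℝ) ^ 3 ≤ b ^ 2 / 60 * (k : ℝ) ^ 3 := by gcongr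
      nlinarith
    calc _ ≤ (2 : ℝ) ^ ((2 / 27 - δ) * (k : ℝ) ^ 3 - 1) + 2 ^ ((2 / 27 - δ) * (k : ℝ) ^ 3 - 1) :=
          add_le_add h3 h4
      _ = 2 ^ ((2 / 27 - δ) * (k : ℝ) ^ 3) := by
        rw [Real.rpow_sub_one (by norm_num)]
        ring
  · rintro Q _ ⟨hQ, hV⟩
    have hfin : Finite Q := Nat.finite_of_card_ne_zero (by rw [hQ]; positivity)
    obtain ⟨K, N, hK, hNK, hcomm, r, n, hr, hn⟩ := hC k hk1 Q hQ.le
    obtain ⟨m, q, hmq, hm, hq⟩ := SimsA.cards hQ K N hNK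
    have hidx : K.normalCore.index ≤ D := SimsB.index_normalCore_le K hK
    have hidx0 : K.normalCore.index ≠ 0 := Subgroup.index_ne_zero_of_finite
    have hdvd : Nat.card K.normalCore ∣ 2 ^ k := hQ ▸ K.normalCore.card_subgroup_dvd_card
    obtain ⟨k', hk'k, hk'⟩ := (Nat.dvd_prime_pow Nat.prime_two).1 hdvd
    have hkk' : k ≤ k' + D := by
      have h3 := K.normalCore.card_mul_index
      rw [hk', hQ] at h3
      have h4 : 2 ^ k ≤ 2 ^ (k' + D) := by
        rw [← h3, pow_add]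
        exact Nat.mul_le_mul_left _ (hidx.trans Nat.lt_two_pow_self.le)
      exact (Nat.pow_le_pow_iff_right (by norm_num)).1 h4
    by_cases hdisp : ∃ φ : MulAut K.normalCore, (2 : ℝ) ^ (α * k') ≤ disp φ
    · left
      exact ⟨k', hk'k, hkk', K.normalCore, inferInstance, hidx0, hidx, hk', hdisp⟩
    right
    push Not at hdisp
    set ρ : ℕ := ⌈α * k'⌉₊ with hρ
    have hρ1 : α * k' ≤ ρ := Nat.le_ceil _
    have hρ2 : (ρ : ℝ) ≤ α * k + 1 := by
      have h3 : (ρ : ℝ) < α * k' + 1 := Nat.ceil_lt_add_one (by positivity)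
      have h4 : α * (k' : ℝ) ≤ α * k := by
        have : (k' : ℝ) ≤ k := by exact_mod_cast hk'k
        gcongr
      linarith
    have hfl := frat_low (K := K.normalCore) (D := D) (ρ := ρ) hidx (fun x => by
      have h3 := hdisp (MulAut.conjNormal (H := K.normalCore) x)
      have h4 : ((disp (MulAut.conjNormal (H := K.normalCore) x) : ℕ) : ℝ) ≤ ((2 ^ ρ : ℕ) : ℝ) := by
        refine h3.le.trans ?_
        push_cast
        rw [← Real.rpow_natCast]
        exact Real.rpow_le_rpow_of_exponent_le (by norm_num) hρ1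
      exact_mod_cast h4)
    have hle : K.normalCore ≤ K := K.normalCore_le
    have hcv := card_V_subgroup K.normalCore K hle
    have hcK : Nat.card K ≤ D * Nat.card K.normalCore := by
      have h3 := K.normalCore.card_mul_index
      calc Nat.card K ≤ Nat.card Q := Subgroup.card_le_card_group _
        _ = Nat.card K.normalCore * K.normalCore.index := h3.symm
        _ ≤ Nat.card K.normalCore * D := Nat.mul_le_mul_left _ hidx
        _ = _ := mul_comm _ _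
    have hVK : Nat.card (K ⧸ sq K) ≤ Nat.card (K.normalCore ⧸ sq K.normalCore) * D := by
      have hpos : 0 < Nat.card K.normalCore := Nat.card_pos
      refine Nat.le_of_mul_le_mul_right (hcv.trans ?_) hpos
      rw [mul_assoc]
      exact Nat.mul_le_mul_left _ hcK
    have hp : IsPGroup 2 K := by
      have hQp : IsPGroup 2 Q := IsPGroup.of_card hQ
      exact hQp.to_subgroup K
    obtain ⟨e, g, hg, he⟩ := gens_over hp (N.subgroupOf K)
    have hcN : Nat.card (N.subgroupOf K) = Nat.card N :=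
      Nat.card_congr (Subgroup.subgroupOfEquivOfLe hNK).toEquiv
    have heq : e ≤ q := by
      have h3 : 2 ^ e * Nat.card N ≤ 2 ^ q * Nat.card N := by
        rw [← hq, ← he, ← hcN]
        exact Nat.mul_le_mul_left _ (Subgroup.card_le_of_le le_sup_left)
      have h4 : 0 < Nat.card N := Nat.card_pos
      exact (Nat.pow_le_pow_iff_right (by norm_num)).1 (Nat.le_of_mul_le_mul_right h3 h4)
    have heV : 2 ^ e ≤ Nat.card (K ⧸ sq K) := by
      have h3 : 2 ^ e * Nat.card (sq K) ≤ Nat.card (K ⧸ sq K) * Nat.card (sq K) := by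
        rw [← Subgroup.card_eq_card_quotient_mul_card_subgroup, ← he]
        exact Nat.mul_le_mul_left _ (Subgroup.card_le_of_le le_sup_right)
      exact Nat.le_of_mul_le_mul_right h3 Nat.card_pos
    have hek : (e : ℝ) ≤ (2 / 3 - b / 2) * k := by
      have h3 : ((2 ^ e : ℕ) : ℝ) ≤ (Nat.card (Q ⧸ sq Q) : ℝ) *
          ((2 ^ (D * ρ + D ^ 2 + D) * 2 ^ D : ℕ) : ℝ) := by
        have h4 : 2 ^ e ≤ Nat.card (Q ⧸ sq Q) * (2 ^ (D * ρ + D ^ 2 + D) * 2 ^ D) := by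
          refine (heV.trans hVK).trans ?_
          rw [← mul_assoc]
          exact Nat.mul_le_mul hfl Nat.lt_two_pow_self.le
        exact_mod_cast h4
      have h5 : (2 : ℝ) ^ (e : ℝ) ≤ 2 ^ ((2 / 3 - η) * (k : ℝ) + (D * ρ + D ^ 2 + D + D)) := by
        rw [Real.rpow_add (by norm_num), Real.rpow_natCast]
        have h6 : (((2 ^ (D * ρ + D ^ 2 + D) * 2 ^ D : ℕ)) : ℝ) =
            (2 : ℝ) ^ ((D : ℝ) * ρ + D ^ 2 + D + D) := by
          rw [← pow_add]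
          push_cast
          rw [← Real.rpow_natCast]
          push_cast
          rfl
        rw [h6] at h3
        calc (2 : ℝ) ^ e = ((2 ^ e : ℕ) : ℝ) := by push_cast; rfl
          _ ≤ _ := h3
          _ ≤ _ := by
            apply mul_le_mul_of_nonneg_right hV.le (by positivity)
      have h7 : (e : ℝ) ≤ (2 / 3 - η) * (k : ℝ) + (D * ρ + D ^ 2 + D + D) :=
        (Real.rpow_le_rpow_left_iff (by norm_num)).1 h5
      have h8 : (D : ℝ) * ρ ≤ b / 4 * k + D := by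
        calc (D : ℝ) * ρ ≤ D * (α * k + 1) := by gcongr
          _ = b / 4 * k + D := by
            rw [hα]
            field_simp
      have h9 : 4 * ((D : ℝ) ^ 2 + 3 * D) / b ≤ k := by linarith
      rw [div_le_iff₀ hb0] at h9
      have h10 : (2 / 3 - η) * (k : ℝ) ≤ (2 / 3 - b) * k := by gcongr
      nlinarith
    refine ⟨hQ, K, hK, r, m, q, e, hr, ?_, heq, hmq, ?_, ?_⟩
    · have : (r : ℝ) ≤ k := hr.trans (by nlinarith)
      exact_mod_cast this
    · have h6 := SimsA.choose_le e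
      have h7 : ((e.choose 2 - (0 : ℕ).choose 2 : ℕ) : ℝ) ≤ (e : ℝ) ^ 2 / 2 := by
        simpa using h6
      have h8 : (m : ℝ) + e ≤ k := by
        have : m + e ≤ k := by omega
        exact_mod_cast this
      calc (m : ℝ) * ((e.choose 2 - (0 : ℕ).choose 2 : ℕ) : ℝ) ≤ m * ((e : ℝ) ^ 2 / 2) := by gcongr
        _ ≤ _ := SimsB.bound (Nat.cast_nonneg _) (Nat.cast_nonneg _) hb0.le h8 hek
    · have hgK : N ⊔ closure (Set.range fun i => ((g i : K) : Q)) = K := by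
        have h3 := congrArg (Subgroup.map K.subtype) hg
        rw [Subgroup.map_sup, Subgroup.map_subgroupOf_eq_of_le hNK, MonoidHom.map_closure,
          ← MonoidHom.range_eq_map, K.range_subtype] at h3
        have h4 : (⇑K.subtype '' Set.range g) = Set.range fun i => ((g i : K) : Q) := by
          ext y
          constructor
          · rintro ⟨_, ⟨i, rfl⟩, rfl⟩
            exact ⟨i, rfl⟩
          · rintro ⟨i, rfl⟩
            exact ⟨g i, ⟨i, rfl⟩, rfl⟩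
        rw [h4] at h3
        exact h3
      exact SimsCore.kstr_mk hQ K N hNK hcomm n hn hm hq _ hgK (by omega) (MulEquiv.refl Q)
        (fun i hi => by omega)

end Pool.Agent.EnumG
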