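import Pool.Agent.Work.MP_9de0a1_al.RatioCore
import Pool.Agent.Work.MP_9de0a1_al.Higman
import Pool.Agent.Work.MP_9de0a1_al.SimsB

/-!
# Ratio : `gc(2^{k+1}) ≥ 2^{(2/9-η)k²} gc(2^k)`
-/

open Subgroup

namespace Pool.Agent.EnumG

theorem ratio_finite_cls (m : ℕ) : Finite (Cls m) := by
  have h : Finite (Group (Fin m)) := by
    have : Function.Injective fun (G : Group (Fin m)) => (G.mul : Fin m → Fin m → Fin m) := by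
      intro G H h
      exact Group.ext (by funext a b; exact congrFun (congrFun h a) b)
    exact Finite.of_injective _ this
  exact inferInstanceAs (Finite (Quot _))

theorem ratio_cnt_mono {P Q : ∀ (G : Type) [Group G], Prop} (m : ℕ)
    (h : ∀ (G : Type) [Group G], Nat.card G = m → P G → Q G) : cnt P m ≤ cnt Q m := by
  have := ratio_finite_cls m
  exact Nat.card_le_card_of_injective
    (fun q : {q : Cls m // @P (Fin m) q.out} =>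
      (⟨q.1, @h (Fin m) q.1.out (Nat.card_fin m) q.2⟩ : {q : Cls m // @Q (Fin m) q.out}))
    (fun a b hab => Subtype.ext (congrArg (fun z => z.1) hab))

theorem ratio_small (η : ℝ) (hη : 0 < η) (hη1 : η ≤ 1 / 9) : ∃ k0 : ℕ, ∀ k : ℕ, k0 ≤ k →
    (2 : ℝ) ^ ((2 / 9 - η) * (k : ℝ) ^ 2) * gc (2 ^ k) ≤ gc (2 ^ (k + 1)) := by
  obtain ⟨δ1, hδ1, k1, h1⟩ := disp_exc (η / 8) (by positivity)
  obtain ⟨δ2, hδ2, k2, h2⟩ := d_exc (η / 4) (by positivity)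
  obtain ⟨k3, hk3⟩ := exists_nat_gt (5 / δ1)
  obtain ⟨k4, hk4⟩ := exists_nat_gt (5 / δ2)
  obtain ⟨k5, hk5⟩ := exists_nat_gt (16 / η)
  refine ⟨k1 + k2 + k3 + k4 + k5 + 2, fun k hk => ?_⟩
  have hkk : (2 : ℝ) ≤ k := by exact_mod_cast (by omega : 2 ≤ k)
  have e3 : 5 ≤ δ1 * k := by
    have : (k3 : ℝ) ≤ k := by exact_mod_cast (by omega : k3 ≤ k)
    rw [div_lt_iff₀ hδ1] at hk3
    nlinarith
  have e4 : 5 ≤ δ2 * k := by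
    have : (k4 : ℝ) ≤ k := by exact_mod_cast (by omega : k4 ≤ k)
    rw [div_lt_iff₀ hδ2] at hk4
    nlinarith
  have e5 : 16 ≤ η * k := by
    have : (k5 : ℝ) ≤ k := by exact_mod_cast (by omega : k5 ≤ k)
    rw [div_lt_iff₀ hη] at hk5
    nlinarith
  -- the bad groups
  have hbad : (cnt (fun Q _ => (∃ φ : MulAut Q, (2 : ℝ) ^ (η / 8 * k) ≤ disp φ) ∨
      (Nat.card (Q ⧸ sq Q) : ℝ) < 2 ^ ((2 / 3 - η / 4) * (k : ℝ))) (2 ^ k) : ℝ) ≤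
      (2 : ℝ) ^ ((2 / 27 - δ1) * (k : ℝ) ^ 3) + (2 : ℝ) ^ ((2 / 27 - δ2) * (k : ℝ) ^ 3) := by
    refine cnt_le ((NumLe.or (h1 k (by omega)) (h2 k (by omega))).mono le_rfl ?_)
    rintro G _ ⟨hc, hP | hP⟩
    · exact Or.inl ⟨hc, hP⟩
    · exact Or.inr ⟨hc, hP⟩
  have hhig := higman k
  have hexp : ∀ δ : ℝ, 5 ≤ δ * k → (2 : ℝ) ^ ((2 / 27 - δ) * (k : ℝ) ^ 3) ≤
      (1 / 4) * 2 ^ (2 / 27 * (k : ℝ) ^ 3 - 3 * (k : ℝ) ^ 2) := by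
    intro δ hδ
    have h4 : (1 / 4 : ℝ) = 2 ^ (-2 : ℝ) := by
      rw [Real.rpow_neg (by norm_num)]
      norm_num
    rw [h4, ← Real.rpow_add (by norm_num)]
    apply Real.rpow_le_rpow_of_exponent_le (by norm_num)
    have h5 : 5 * (k : ℝ) ^ 2 ≤ δ * k * (k : ℝ) ^ 2 := by gcongr
    nlinarith
  have hbad2 : (cnt (fun Q _ => (∃ φ : MulAut Q, (2 : ℝ) ^ (η / 8 * k) ≤ disp φ) ∨
      (Nat.card (Q ⧸ sq Q) : ℝ) < 2 ^ ((2 / 3 - η / 4) * (k : ℝ))) (2 ^ k) : ℝ) ≤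
      (1 / 2) * gc (2 ^ k) := by
    have a1 := hexp δ1 e3
    have a2 := hexp δ2 e4
    linarith
  have hsplit := gc_split (fun Q _ => (∃ φ : MulAut Q, (2 : ℝ) ^ (η / 8 * k) ≤ disp φ) ∨
      (Nat.card (Q ⧸ sq Q) : ℝ) < 2 ^ ((2 / 3 - η / 4) * (k : ℝ))) (2 ^ k)
  -- the parameters
  set c : ℝ := 2 / 3 - η / 4 with hc
  have hc1 : 1 / 2 ≤ c := by rw [hc]; linarith
  have hc2 : c ≤ 1 := by rw [hc]; linarith
  set d : ℕ := ⌊c * k⌋₊ with hd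
  set ρ : ℕ := ⌈η / 8 * k⌉₊ with hρ
  have hck : 0 ≤ c * k := by positivity
  have hd1 : (d : ℝ) ≤ c * k := Nat.floor_le hck
  have hd2 : c * k < d + 1 := Nat.lt_floor_add_one _
  have hρ1 : η / 8 * k ≤ ρ := Nat.le_ceil _
  have hρ2 : (ρ : ℝ) < η / 8 * k + 1 := Nat.ceil_lt_add_one (by positivity)
  have hgood : cnt (fun Q _ => ¬((∃ φ : MulAut Q, (2 : ℝ) ^ (η / 8 * k) ≤ disp φ) ∨
      (Nat.card (Q ⧸ sq Q) : ℝ) < 2 ^ (c * (k : ℝ)))) (2 ^ k) ≤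
      cnt (fun Q _ => 2 ^ d ≤ Nat.card (Q ⧸ sq Q) ∧ Nat.card (AV Q) ≤ 2 ^ (2 * k * ρ)) (2 ^ k) := by
    refine ratio_cnt_mono _ fun Q _ hQ hP => ?_
    have hfin : Finite Q := Nat.finite_of_card_ne_zero (by rw [hQ]; positivity)
    push Not at hP
    obtain ⟨hP1, hP2⟩ := hP
    constructor
    · have : (2 : ℝ) ^ d ≤ Nat.card (Q ⧸ sq Q) := by
        refine le_trans ?_ hP2
        rw [← Real.rpow_natCast]
        exact Real.rpow_le_rpow_of_exponent_le (by norm_num) hd1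
      exact_mod_cast this
    · have hpg : IsPGroup 2 Q := IsPGroup.of_card hQ
      obtain ⟨d', g, hd', -⟩ := card_V_eq hpg
      have hdk : d' ≤ k := by
        have h3 : Nat.card (Q ⧸ sq Q) ≤ Nat.card Q :=
          Nat.card_le_card_of_surjective _ (QuotientGroup.mk'_surjective (sq Q))
        rw [hd', hQ] at h3
        exact (Nat.pow_le_pow_iff_right (by norm_num)).1 h3
      refine (card_AV_le hd' (ρ := ρ) fun φ => ?_).trans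
        (Nat.pow_le_pow_right (by norm_num) (by gcongr))
      have h4 : (disp φ : ℝ) ≤ 2 ^ ρ := by
        refine (hP1 φ).le.trans ?_
        rw [← Real.rpow_natCast]
        exact Real.rpow_le_rpow_of_exponent_le (by norm_num) hρ1
      exact_mod_cast h4
  have hcore := ratio_core k d (2 * k * ρ)
  -- combine
  have hhalf : (1 / 2 : ℝ) * gc (2 ^ k) ≤
      cnt (fun Q _ => 2 ^ d ≤ Nat.card (Q ⧸ sq Q) ∧ Nat.card (AV Q) ≤ 2 ^ (2 * k * ρ)) (2 ^ k) := by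
    have b1 : (gc (2 ^ k) : ℝ) = (cnt (fun Q _ => (∃ φ : MulAut Q, (2 : ℝ) ^ (η / 8 * k) ≤ disp φ) ∨
      (Nat.card (Q ⧸ sq Q) : ℝ) < 2 ^ (c * (k : ℝ))) (2 ^ k) : ℝ) +
      (cnt (fun Q _ => ¬((∃ φ : MulAut Q, (2 : ℝ) ^ (η / 8 * k) ≤ disp φ) ∨
      (Nat.card (Q ⧸ sq Q) : ℝ) < 2 ^ (c * (k : ℝ)))) (2 ^ k) : ℝ) := by exact_mod_cast hsplit
    have b2 : (cnt (fun Q _ => ¬((∃ φ : MulAut Q, (2 : ℝ) ^ (η / 8 * k) ≤ disp φ) ∨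
      (Nat.card (Q ⧸ sq Q) : ℝ) < 2 ^ (c * (k : ℝ)))) (2 ^ k) : ℝ) ≤
      cnt (fun Q _ => 2 ^ d ≤ Nat.card (Q ⧸ sq Q) ∧ Nat.card (AV Q) ≤ 2 ^ (2 * k * ρ)) (2 ^ k) := by
      exact_mod_cast hgood
    linarith
  set X : ℕ := cnt (fun Q _ => 2 ^ d ≤ Nat.card (Q ⧸ sq Q) ∧ Nat.card (AV Q) ≤ 2 ^ (2 * k * ρ))
    (2 ^ k) with hX
  have hcoreR : (X : ℝ) * (2 : ℝ) ^ ((d * (d + 1) / 2 : ℕ) : ℝ) ≤
      (2 : ℝ) ^ ((k + 1 + 2 * k * ρ + k : ℕ) : ℝ) * gc (2 ^ (k + 1)) := by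
    rw [Real.rpow_natCast, Real.rpow_natCast]
    exact_mod_cast hcore
  have hdd : ((d * (d + 1) / 2 : ℕ) : ℝ) = (d : ℝ) * (d + 1) / 2 := by
    rw [Nat.cast_div (Nat.even_mul_succ_self d).two_dvd (by norm_num)]
    push_cast
    ring
  have hck1 : 1 ≤ c * k := by nlinarith
  have hdd2 : (2 / 9 - η / 6) * (k : ℝ) ^ 2 - k ≤ (d : ℝ) * (d + 1) / 2 := by
    have a1 : (c * k - 1) * (c * k) ≤ (d : ℝ) * (d + 1) := by
      apply mul_le_mul (by linarith) hd2.le hck (Nat.cast_nonneg _)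
    have a2 : 4 / 9 - η / 3 ≤ c ^ 2 := by
      rw [hc]
      nlinarith
    nlinarith
  have hρk : (2 : ℝ) * k * ρ ≤ η / 4 * (k : ℝ) ^ 2 + 2 * k := by nlinarith
  have hfin : (2 : ℝ) ^ ((2 / 9 - η) * (k : ℝ) ^ 2) * (2 : ℝ) ^ ((k + 1 + 2 * k * ρ + k : ℕ) : ℝ) * 2 ≤
      (2 : ℝ) ^ ((d * (d + 1) / 2 : ℕ) : ℝ) := by
    have h22 : (2 : ℝ) = (2 : ℝ) ^ (1 : ℝ) := by norm_num
    have : (2 : ℝ) ^ ((2 / 9 - η) * (k : ℝ) ^ 2) * (2 : ℝ) ^ ((k + 1 + 2 * k * ρ + k : ℕ) : ℝ) * 2 =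
      (2 : ℝ) ^ ((2 / 9 - η) * (k : ℝ) ^ 2 + ((k + 1 + 2 * k * ρ + k : ℕ) : ℝ) + 1) := by
      rw [Real.rpow_add (by norm_num), Real.rpow_add (by norm_num), Real.rpow_one]
    rw [this]
    apply Real.rpow_le_rpow_of_exponent_le (by norm_num)
    rw [hdd]
    refine le_trans ?_ hdd2
    push_cast
    have a3 : 16 * (k : ℝ) ≤ η * (k : ℝ) ^ 2 := by nlinarith
    nlinarith
  -- final
  have hpos : (0 : ℝ) < (2 : ℝ) ^ ((k + 1 + 2 * k * ρ + k : ℕ) : ℝ) := by positivity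
  refine le_of_mul_le_mul_left ?_ hpos
  calc (2 : ℝ) ^ ((k + 1 + 2 * k * ρ + k : ℕ) : ℝ) *
        ((2 : ℝ) ^ ((2 / 9 - η) * (k : ℝ) ^ 2) * gc (2 ^ k))
      = ((2 : ℝ) ^ ((2 / 9 - η) * (k : ℝ) ^ 2) * (2 : ℝ) ^ ((k + 1 + 2 * k * ρ + k : ℕ) : ℝ) * 2) *
        ((1 / 2) * gc (2 ^ k)) := by ring
    _ ≤ (2 : ℝ) ^ ((d * (d + 1) / 2 : ℕ) : ℝ) * X := by gcongr
    _ = (X : ℝ) * (2 : ℝ) ^ ((d * (d + 1) / 2 : ℕ) : ℝ) := by ring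
    _ ≤ _ := hcoreR

theorem ratio (η : ℝ) (hη : 0 < η) : ∃ k0 : ℕ, ∀ k : ℕ, k0 ≤ k →
    (2 : ℝ) ^ ((2 / 9 - η) * (k : ℝ) ^ 2) * gc (2 ^ k) ≤ gc (2 ^ (k + 1)) := by
  obtain ⟨k0, h⟩ := ratio_small (min η (1 / 9)) (by positivity) (min_le_right _ _)
  refine ⟨k0, fun k hk => le_trans ?_ (h k hk)⟩
  gcongr
  · norm_num
  · exact min_le_left _ _

theorem ratio_iter (η : ℝ) (hη : 0 < η) (hη1 : η < 2 / 9) : ∃ k0 : ℕ, ∀ i k : ℕ, k0 ≤ i → i ≤ k →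
    (2 : ℝ) ^ ((2 / 9 - η) * (i : ℝ) ^ 2 * ((k : ℝ) - i)) * gc (2 ^ i) ≤ gc (2 ^ k) := by
  obtain ⟨k0, h⟩ := ratio η hη
  refine ⟨k0, fun i k hi hik => ?_⟩
  induction k, hik using Nat.le_induction with
  | base => simp
  | succ k hik ih =>
    have h1 : (2 / 9 - η) * (i : ℝ) ^ 2 * (((k + 1 : ℕ) : ℝ) - i) =
        (2 / 9 - η) * (i : ℝ) ^ 2 + (2 / 9 - η) * (i : ℝ) ^ 2 * ((k : ℝ) - i) := by
      push_cast
      ring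
    rw [h1, Real.rpow_add (by norm_num), mul_assoc]
    have h2 : (2 : ℝ) ^ ((2 / 9 - η) * (i : ℝ) ^ 2) ≤ (2 : ℝ) ^ ((2 / 9 - η) * (k : ℝ) ^ 2) := by
      apply Real.rpow_le_rpow_of_exponent_le (by norm_num)
      have : (i : ℝ) ≤ k := by exact_mod_cast hik
      have h3 : 0 < 2 / 9 - η := by linarith
      gcongr
    calc _ ≤ (2 : ℝ) ^ ((2 / 9 - η) * (k : ℝ) ^ 2) * gc (2 ^ k) := by gcongr
      _ ≤ _ := h k (by omega)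

end Pool.Agent.EnumG
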