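import Pool.Agent.Work.MP_9de0a1_al.Cnt

/-!
# Ecl : extensions of `N` with given generators and relators
-/

open Subgroup

namespace Pool.Agent.EnumG

theorem Ecl_conj {N G ι : Type} [Group N] [Group G] (e : N →* G) (g : ι → G) (α : ι → MulAut N)
    (h1 : ∀ i n, g i * e n * (g i)⁻¹ = e (α i n)) (w : FreeGroup ι) :
    ∀ n, FreeGroup.lift g w * e n * (FreeGroup.lift g w)⁻¹ = e (FreeGroup.lift α w n) := by
  induction w using FreeGroup.induction_on with
  | C1 => intro n; simp
  | of i => intro n; simpa using h1 i n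
  | inv_of i _ =>
    intro n
    have h := h1 i ((α i)⁻¹ n)
    have h2 : α i ((α i)⁻¹ n) = n := by
      rw [← MulAut.mul_apply, mul_inv_cancel, MulAut.one_apply]
    rw [h2] at h
    simp only [map_inv, FreeGroup.lift_apply_of, inv_inv]
    rw [← h]
    group
  | mul x y hx hy =>
    intro n
    rw [map_mul, map_mul, MulAut.mul_apply, ← hx, ← hy]
    group

theorem ecl {N G ι κ : Type} [Group N] [Group G] (e : N →* G) (he : Function.Injective e)
    (hn : e.range.Normal) (g : ι → G) (α : ι → MulAut N) (R : κ → FreeGroup ι) (ν : κ → N)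
    (h1 : ∀ i n, g i * e n * (g i)⁻¹ = e (α i n))
    (h2 : ∀ j, FreeGroup.lift g (R j) = e (ν j))
    (h3 : e.range ⊔ closure (Set.range g) = ⊤)
    (h4 : ∀ w, FreeGroup.lift g w ∈ e.range → w ∈ normalClosure (Set.range R)) :
    Nonempty (G ≃* ExtG N α R ν) := by
  let Φ : N ⋊[FreeGroup.lift α] FreeGroup ι →* G :=
    SemidirectProduct.lift e (FreeGroup.lift g) (fun w => by
      ext n
      have := Ecl_conj e g α h1 w n
      simp only [MonoidHom.comp_apply, MulEquiv.coe_toMonoidHom, MulAut.conj_apply]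
      exact this.symm)
  have hΦ : ∀ x, Φ x = e x.left * FreeGroup.lift g x.right := fun x => rfl
  let L : Subgroup (N ⋊[FreeGroup.lift α] FreeGroup ι) :=
    normalClosure (Set.range fun j => (⟨(ν j)⁻¹, R j⟩ : N ⋊[FreeGroup.lift α] FreeGroup ι))
  have hL1 : L ≤ Φ.ker := by
    apply normalClosure_le_normal
    rintro _ ⟨j, rfl⟩
    rw [SetLike.mem_coe, MonoidHom.mem_ker, hΦ]
    simp [h2]
  have hL2 : Φ.ker ≤ L := by
    intro x hx
    rw [MonoidHom.mem_ker, hΦ] at hx
    have hr : FreeGroup.lift g x.right ∈ e.range := by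
      refine ⟨x.left⁻¹, ?_⟩
      rw [map_inv]
      exact inv_eq_of_mul_eq_one_right hx
    have hw := h4 _ hr
    have hmap : L.map (SemidirectProduct.rightHom : N ⋊[FreeGroup.lift α] FreeGroup ι →* _) =
        normalClosure (Set.range R) := by
      rw [Subgroup.map_normalClosure _ _ SemidirectProduct.rightHom_surjective, ← Set.range_comp]
      rfl
    rw [← hmap] at hw
    obtain ⟨y, hy, hyx⟩ := hw
    have hy' : Φ y = 1 := hL1 hy
    rw [hΦ] at hy'
    have hyr : y.right = x.right := hyx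
    rw [hyr] at hy'
    have hl : y.left = x.left := he (mul_right_cancel (hy'.trans hx.symm))
    have : y = x := SemidirectProduct.ext hl hyr
    exact this ▸ hy
  have hL : Φ.ker = L := le_antisymm hL2 hL1
  have hs : Function.Surjective Φ := by
    rw [← MonoidHom.range_eq_top, eq_top_iff, ← h3, sup_le_iff]
    constructor
    · rintro _ ⟨n, rfl⟩
      refine ⟨SemidirectProduct.inl n, ?_⟩
      rw [hΦ]
      simp
    · rw [closure_le]
      rintro _ ⟨i, rfl⟩
      refine ⟨SemidirectProduct.inr (FreeGroup.of i), ?_⟩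
      rw [hΦ]
      simp
  exact ⟨(QuotientGroup.quotientKerEquivOfSurjective Φ hs).symm.trans
    (QuotientGroup.quotientMulEquivOfEq hL)⟩

/-- existence of the data -/
theorem ecl_data {N G ι κ : Type} [Group N] [Group G] (e : N →* G) (he : Function.Injective e)
    (hn : e.range.Normal) (g : ι → G) (R : κ → FreeGroup ι)
    (h2 : ∀ j, FreeGroup.lift g (R j) ∈ e.range) :
    ∃ (α : ι → MulAut N) (ν : κ → N), (∀ i n, g i * e n * (g i)⁻¹ = e (α i n)) ∧
      ∀ j, FreeGroup.lift g (R j) = e (ν j) := by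
  let E : N ≃* e.range := MonoidHom.ofInjective he
  have hE : ∀ n, ((E n : e.range) : G) = e n := fun n => rfl
  choose ν hν using h2
  refine ⟨fun i => (E.trans (MulAut.conjNormal (g i))).trans E.symm, ν, fun i n => ?_,
    fun j => (hν j).symm⟩
  have h := hE (E.symm (MulAut.conjNormal (g i) (E n)))
  rw [MulEquiv.apply_symm_apply] at h
  rw [MulAut.conjNormal_apply, hE] at h
  exact h

theorem Ecl_finite_mulAut (N : Type) [Group N] [Finite N] : Finite (MulAut N) :=
  Finite.of_injective (fun φ : MulAut N => (φ : N → N)) DFunLike.coe_injective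

theorem ecl_count (N : Type) [Group N] [Finite N] {ι κ : Type} [Finite ι] [Finite κ]
    (R : κ → FreeGroup ι) :
    NumLe (fun G _ => ∃ e : N →* G, Function.Injective e ∧ e.range.Normal ∧ ∃ g : ι → G,
      e.range ⊔ closure (Set.range g) = ⊤ ∧
        ∀ w, FreeGroup.lift g w ∈ e.range ↔ w ∈ normalClosure (Set.range R))
      ((Nat.card (MulAut N) : ℝ) ^ Nat.card ι * (Nat.card N : ℝ) ^ Nat.card κ) := by
  haveI := Ecl_finite_mulAut N
  haveI := Fintype.ofFinite ι
  haveI := Fintype.ofFinite κ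
  refine ⟨(ι → MulAut N) × (κ → N), inferInstance, fun x => ExtG N x.1 R x.2,
    fun x => inferInstance, ?_, ?_⟩
  · rw [Nat.card_prod, Nat.card_fun, Nat.card_fun]
    push_cast
    exact le_rfl
  · rintro G _ ⟨e, he, hn, g, h3, h4⟩
    obtain ⟨α, ν, h1, h2⟩ := ecl_data e he hn g R
      (fun j => (h4 (R j)).2 (subset_normalClosure ⟨j, rfl⟩))
    exact ⟨(α, ν), ecl e he hn g α R ν h1 h2 h3 fun w hw => (h4 w).1 hw⟩

/-- central extensions: no action -/
theorem ecl_count_central (N : Type) [Group N] [Finite N] {ι κ : Type} [Finite ι] [Finite κ]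
    (R : κ → FreeGroup ι) :
    NumLe (fun G _ => ∃ e : N →* G, Function.Injective e ∧ e.range ≤ center G ∧ ∃ g : ι → G,
      e.range ⊔ closure (Set.range g) = ⊤ ∧
        ∀ w, FreeGroup.lift g w ∈ e.range ↔ w ∈ normalClosure (Set.range R))
      ((Nat.card N : ℝ) ^ Nat.card κ) := by
  haveI := Fintype.ofFinite κ
  refine ⟨κ → N, inferInstance, fun x => ExtG N (fun _ => 1) R x, fun x => inferInstance, ?_, ?_⟩
  · rw [Nat.card_fun]
    push_cast
    exact le_rfl
  · rintro G _ ⟨e, he, hc, g, h3, h4⟩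
    have hn : e.range.Normal := by
      constructor
      intro n hn' x
      have : x * n * x⁻¹ = n := by
        rw [(mem_center_iff.1 (hc hn')) x, mul_inv_cancel_right]
      rw [this]
      exact hn'
    obtain ⟨α, ν, h1, h2⟩ := ecl_data e he hn g R
      (fun j => (h4 (R j)).2 (subset_normalClosure ⟨j, rfl⟩))
    refine ⟨ν, ecl e he hn g (fun _ => 1) R ν (fun i n => ?_) h2 h3 fun w hw => (h4 w).1 hw⟩
    rw [(mem_center_iff.1 (hc ⟨n, rfl⟩)) (g i), mul_inv_cancel_right]
    rfl

end Pool.Agent.EnumG
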