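import Pool.Agent.Work.MP_9de0a1_al.Cnt

/-!
# Free : counting normal subgroups of 2-power index of a free group
-/

open Subgroup

namespace Pool.Agent.EnumG

section gen

variable {F : Type} [Group F]

theorem Free_mul2 {S' S : Subgroup F} (h : S'.relIndex S = 2) {a b : F} (ha : a ∈ S)
    (hb : b ∈ S) : a * b ∈ S' ↔ (a ∈ S' ↔ b ∈ S') :=
  mul_mem_iff_of_index_two (H := S'.subgroupOf S) h (a := ⟨a, ha⟩) (b := ⟨b, hb⟩)

theorem Free_inj {T : Set F} {t : ℕ} {y : Fin t → F} {S S1 S2 : Subgroup F}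
    (hS : S = normalClosure (T ∪ Set.range y)) (hn1 : S1.Normal) (hn2 : S2.Normal)
    (hT1 : T ⊆ S1) (hT2 : T ⊆ S2) (h1 : S1 ≤ S) (h2 : S2 ≤ S) (hr1 : S1.relIndex S = 2)
    (hr2 : S2.relIndex S = 2) (hy : ∀ j, y j ∈ S1 ↔ y j ∈ S2) : S1 = S2 := by
  have hSn : S.Normal := hS ▸ normalClosure_normal
  let Z : Subgroup F :=
    { carrier := {s | s ∈ S ∧ (s ∈ S1 ↔ s ∈ S2)}
      mul_mem' := by
        rintro a b ⟨ha, ha'⟩ ⟨hb, hb'⟩
        refine ⟨mul_mem ha hb, ?_⟩
        rw [Free_mul2 hr1 ha hb, Free_mul2 hr2 ha hb, ha', hb']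
      one_mem' := ⟨one_mem _, by simp [one_mem]⟩
      inv_mem' := by
        rintro a ⟨ha, ha'⟩
        refine ⟨inv_mem ha, ?_⟩
        rw [inv_mem_iff, inv_mem_iff, ha'] }
  have hZn : Z.Normal := by
    constructor
    rintro n ⟨hn, hn'⟩ g
    refine ⟨hSn.conj_mem n hn g, ?_⟩
    have e1 : g * n * g⁻¹ ∈ S1 ↔ n ∈ S1 :=
      ⟨fun h => by
        have := hn1.conj_mem _ h g⁻¹
        simpa [mul_assoc] using this, fun h => hn1.conj_mem _ h g⟩
    have e2 : g * n * g⁻¹ ∈ S2 ↔ n ∈ S2 :=
      ⟨fun h => by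
        have := hn2.conj_mem _ h g⁻¹
        simpa [mul_assoc] using this, fun h => hn2.conj_mem _ h g⟩
    rw [e1, e2, hn']
  have hle : S ≤ Z := by
    rw [hS]
    apply normalClosure_le_normal
    rintro s (hs | ⟨j, rfl⟩)
    · exact ⟨h1 (hT1 hs), iff_of_true (hT1 hs) (hT2 hs)⟩
    · exact ⟨hS ▸ subset_normalClosure (Or.inr ⟨j, rfl⟩), hy j⟩
  ext s
  constructor
  · intro hs
    exact (hle (h1 hs)).2.1 hs
  · intro hs
    exact (hle (h2 hs)).2.2 hs

theorem Free_center {ι : Type} {x : ι → F} (hx : closure (Set.range x) = ⊤) {a : F}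
    (h : ∀ i, a * x i = x i * a) : a ∈ center F := by
  have : closure (Set.range x) ≤ centralizer {a} := by
    rw [closure_le]
    rintro _ ⟨i, rfl⟩
    rw [SetLike.mem_coe, mem_centralizer_iff]
    rintro _ rfl
    exact h i
  rw [mem_center_iff]
  intro g
  have hg : g ∈ centralizer {a} := this (hx ▸ mem_top g)
  rw [mem_centralizer_iff] at hg
  exact (hg a rfl).symm

theorem Free_gen {ι : Type} {x : ι → F} (hx : closure (Set.range x) = ⊤) {T : Set F} {t : ℕ}
    {y : Fin t → F} {S S' : Subgroup F} (hS : S = normalClosure (T ∪ Set.range y))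
    (hn : S'.Normal) (hT : T ⊆ S') (hle : S' ≤ S) (hr : S'.relIndex S = 2) :
    ∃ a ∈ S, a ∉ S' ∧ ∃ y' : Fin t → F, (∀ j, y' j ∈ S') ∧ ∀ W : Subgroup F, W.Normal →
      W ≤ S' → T ⊆ W → (∀ j, y' j ∈ W) → (∀ l, a * x l * a⁻¹ * (x l)⁻¹ ∈ W) → S' = W := by
  classical
  have hyS : ∀ j, y j ∈ S := fun j => hS ▸ subset_normalClosure (Or.inr ⟨j, rfl⟩)
  obtain ⟨j0, hj0⟩ : ∃ j, y j ∉ S' := by
    by_contra hcon
    push Not at hcon
    have : S ≤ S' := by
      rw [hS]
      apply normalClosure_le_normal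
      rintro s (hs | ⟨j, rfl⟩)
      · exact hT hs
      · exact hcon j
    rw [relIndex_eq_one.2 this] at hr
    omega
  refine ⟨y j0, hyS j0, hj0, fun j => if y j ∈ S' then y j else y j * y j0, fun j => ?_, ?_⟩
  · dsimp only
    split_ifs with h
    · exact h
    · rw [Free_mul2 hr (hyS j) (hyS j0)]
      simp [h, hj0]
  · intro W hW hWS hTW hyW hcW
    refine le_antisymm ?_ hWS
    set a := y j0 with ha
    have haa : a * a ∈ W := by
      have h : (if y j0 ∈ S' then y j0 else y j0 * y j0) ∈ W := hyW j0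
      rw [if_neg hj0] at h
      exact h
    have hcen : (QuotientGroup.mk' W a) ∈ center (F ⧸ W) := by
      have hx' : closure (Set.range fun i => QuotientGroup.mk' W (x i)) = ⊤ := by
        have : (Set.range fun i => QuotientGroup.mk' W (x i)) =
            (QuotientGroup.mk' W) '' Set.range x := by
          rw [← Set.range_comp]
          rfl
        rw [this, ← MonoidHom.map_closure, hx, ← MonoidHom.range_eq_map,
          MonoidHom.range_eq_top]
        exact QuotientGroup.mk'_surjective W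
      refine Free_center hx' fun i => ?_
      have h := (QuotientGroup.eq_one_iff _).2 (hcW i)
      have h' : (QuotientGroup.mk' W) (a * x i * a⁻¹ * (x i)⁻¹) = 1 := h
      rw [map_mul, map_mul, map_mul, map_inv, map_inv, mul_inv_eq_one, mul_inv_eq_iff_eq_mul] at h'
      exact h'
    have hUn : ((zpowers (QuotientGroup.mk' W a)).comap (QuotientGroup.mk' W)).Normal := by
      have : (zpowers (QuotientGroup.mk' W a)).Normal := by
        constructor
        intro n hn' g
        have hnc : n ∈ center (F ⧸ W) := (zpowers_le.2 hcen) hn'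
        rw [(mem_center_iff.1 hnc) g, mul_inv_cancel_right]
        exact hn'
      exact this.comap _
    have hSU : S ≤ (zpowers (QuotientGroup.mk' W a)).comap (QuotientGroup.mk' W) := by
      rw [hS]
      apply normalClosure_le_normal
      rintro s (hs | ⟨j, rfl⟩)
      · rw [SetLike.mem_coe, mem_comap, show QuotientGroup.mk' W s = 1 from
          (QuotientGroup.eq_one_iff _).2 (hTW hs)]
        exact one_mem _
      · rw [SetLike.mem_coe, mem_comap]
        have h : (if y j ∈ S' then y j else y j * a) ∈ W := hyW j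
        split_ifs at h with hj
        · rw [show QuotientGroup.mk' W (y j) = 1 from (QuotientGroup.eq_one_iff _).2 h]
          exact one_mem _
        · have h' : QuotientGroup.mk' W (y j * a) = 1 := (QuotientGroup.eq_one_iff _).2 h
          rw [map_mul] at h'
          rw [eq_inv_of_mul_eq_one_left h']
          exact inv_mem (mem_zpowers _)
    intro s hs
    obtain ⟨k, hk⟩ := mem_zpowers_iff.1 (mem_comap.1 (hSU (hle hs)))
    have haa' : QuotientGroup.mk' W a * QuotientGroup.mk' W a = 1 := by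
      rw [← map_mul]
      exact (QuotientGroup.eq_one_iff _).2 haa
    rcases Int.even_or_odd' k with ⟨c, rfl | rfl⟩
    · rw [zpow_mul, zpow_ofNat, pow_two, haa', one_zpow] at hk
      exact (QuotientGroup.eq_one_iff s).1 hk.symm
    · exfalso
      rw [zpow_add, zpow_mul, zpow_ofNat, pow_two, haa', one_zpow, one_mul, zpow_one] at hk
      have h1 : QuotientGroup.mk' W (a * s⁻¹) = 1 := by
        rw [map_mul, map_inv, ← hk, mul_inv_cancel]
      have h2 : a * s⁻¹ ∈ S' := hWS ((QuotientGroup.eq_one_iff _).1 h1)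
      apply hj0
      have := mul_mem h2 hs
      rwa [inv_mul_cancel_right] at this

theorem Free_chain {S' : Subgroup F} (hn : S'.Normal) {m : ℕ} (hi : S'.index = 2 ^ (m + 1)) :
    ∃ S : Subgroup F, S.Normal ∧ S' ≤ S ∧ S.index = 2 ^ m ∧ S'.relIndex S = 2 := by
  have hcard : Nat.card (F ⧸ S') = 2 ^ (m + 1) := hi
  haveI : Finite (F ⧸ S') := Nat.finite_of_card_ne_zero (by rw [hcard]; positivity)
  have hp : IsPGroup 2 (F ⧸ S') := IsPGroup.of_card hcard
  haveI : Nontrivial (F ⧸ S') := by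
    rw [← Finite.one_lt_card_iff_nontrivial, hcard]
    exact Nat.one_lt_two_pow (by omega)
  haveI : Fact (Nat.Prime 2) := ⟨Nat.prime_two⟩
  haveI := hp.center_nontrivial
  have hpc : IsPGroup 2 (center (F ⧸ S')) := hp.to_subgroup _
  obtain ⟨z, hz⟩ : ∃ z : center (F ⧸ S'), orderOf z = 2 := by
    apply exists_prime_orderOf_dvd_card'
    obtain ⟨n, hn0, hn'⟩ := (hpc.nontrivial_iff_card).1 inferInstance
    rw [hn']
    exact dvd_pow_self 2 hn0.ne'
  have hz' : orderOf (z : F ⧸ S') = 2 := by rw [Subgroup.orderOf_coe, hz]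
  have hZn : (zpowers (z : F ⧸ S')).Normal := by
    constructor
    intro n hn' g
    have hnc : n ∈ center (F ⧸ S') := (zpowers_le.2 z.2) hn'
    rw [(mem_center_iff.1 hnc) g, mul_inv_cancel_right]
    exact hn'
  have hle : S' ≤ (zpowers (z : F ⧸ S')).comap (QuotientGroup.mk' S') := by
    intro s hs
    rw [mem_comap, show QuotientGroup.mk' S' s = 1 from (QuotientGroup.eq_one_iff _).2 hs]
    exact one_mem _
  have hidx : ((zpowers (z : F ⧸ S')).comap (QuotientGroup.mk' S')).index = 2 ^ m := by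
    rw [index_comap_of_surjective _ (QuotientGroup.mk'_surjective S')]
    have h := (zpowers (z : F ⧸ S')).card_mul_index
    rw [Nat.card_zpowers, hz', hcard, pow_succ'] at h
    exact Nat.eq_of_mul_eq_mul_left (by norm_num) h
  refine ⟨_, hZn.comap _, hle, hidx, ?_⟩
  have h := relIndex_mul_index hle
  rw [hidx, hi, pow_succ'] at h
  exact Nat.eq_of_mul_eq_mul_right (by positivity) h

/-- normal subgroups containing `T` of index `2^m` -/
def Free_L (T : Set F) (m : ℕ) : Set (Subgroup F) :=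
  {S | S.Normal ∧ T ⊆ S ∧ S.index = 2 ^ m}

theorem Free_count {T : Set F} (t : ℕ → ℕ)
    (h : ∀ m, ∀ S ∈ Free_L T m, ∃ y : Fin (t m) → F, S = normalClosure (T ∪ Set.range y)) :
    ∀ m, (Free_L T m).Finite ∧ (Free_L T m).ncard ≤ 2 ^ ∑ i ∈ Finset.range m, t i := by
  classical
  intro m
  induction m with
  | zero =>
    have hsub : Free_L T 0 ⊆ {⊤} := by
      rintro S ⟨_, _, hi⟩
      rw [pow_zero, index_eq_one] at hi
      exact hi
    refine ⟨(Set.finite_singleton _).subset hsub, ?_⟩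
    have := Set.ncard_le_ncard hsub (Set.finite_singleton _)
    simpa using this
  | succ m ih =>
    obtain ⟨hfin, hcard⟩ := ih
    haveI : Finite (Free_L T m) := hfin
    have hch : ∀ S' : Free_L T (m + 1), ∃ S : Subgroup F, S ∈ Free_L T m ∧ S'.1 ≤ S ∧
        S'.1.relIndex S = 2 := by
      rintro ⟨S', hn, hT, hi⟩
      obtain ⟨S, h1, h2, h3, h4⟩ := Free_chain hn hi
      exact ⟨S, ⟨h1, fun s hs => h2 (hT hs), h3⟩, h2, h4⟩
    choose P hP1 hP2 hP3 using hch
    choose y hy using h m
    let f : Free_L T (m + 1) → Free_L T m × (Fin (t m) → Prop) := fun S' =>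
      (⟨P S', hP1 S'⟩, fun j => y (P S') (hP1 S') j ∈ S'.1)
    have hf : Function.Injective f := by
      intro S1 S2 h12
      have e1 : P S1 = P S2 := congrArg Subtype.val (congrArg Prod.fst h12)
      have e2 := congrArg Prod.snd h12
      apply Subtype.ext
      refine Free_inj (hy (P S1) (hP1 S1)) S1.2.1 S2.2.1 S1.2.2.1 S2.2.2.1 (hP2 S1)
        (e1 ▸ hP2 S2) (hP3 S1) (e1 ▸ hP3 S2) fun j => ?_
      have e3 := congrFun e2 j
      have e4 : ∀ (A B : Subgroup F) (hA : A ∈ Free_L T m) (hB : B ∈ Free_L T m), A = B →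
          y A hA j = y B hB j := by
        rintro A B hA hB rfl
        rfl
      rw [e4 _ _ (hP1 S1) (hP1 S2) e1]
      have e5 : (y (P S1) (hP1 S1) j ∈ S1.1) = (y (P S2) (hP1 S2) j ∈ S2.1) := e3
      rw [e4 _ _ (hP1 S1) (hP1 S2) e1] at e5
      exact iff_of_eq e5
    haveI : Finite (Free_L T (m + 1)) := Finite.of_injective f hf
    refine ⟨Set.toFinite _, ?_⟩
    rw [← Nat.card_coe_set_eq, Finset.sum_range_succ, pow_add]
    refine (Nat.card_le_card_of_injective f hf).trans ?_
    rw [Nat.card_prod, Nat.card_coe_set_eq]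
    refine Nat.mul_le_mul hcard ?_
    rw [Nat.card_fun]
    simp

end gen

theorem Free_top_of (r : ℕ) : closure (Set.range (FreeGroup.of : Fin r → FreeGroup (Fin r))) = ⊤ :=
  FreeGroup.closure_range_of _

theorem Free_gens_a (r m : ℕ) : ∀ S ∈ Free_L (∅ : Set (FreeGroup (Fin r))) m,
    ∃ y : Fin (r * (m + 1)) → FreeGroup (Fin r), S = normalClosure (∅ ∪ Set.range y) := by
  induction m with
  | zero =>
    rintro S ⟨_, _, hi⟩
    rw [pow_zero, index_eq_one] at hi
    refine ⟨fun i => FreeGroup.of (Fin.cast (by ring) i), ?_⟩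
    rw [hi, Set.empty_union, eq_comm, eq_top_iff, ← Free_top_of r, closure_le]
    rintro _ ⟨i, rfl⟩
    exact subset_normalClosure ⟨Fin.cast (by ring) i, rfl⟩
  | succ m ih =>
    rintro S' ⟨hn, hT, hi⟩
    obtain ⟨S, h1, h2, h3, h4⟩ := Free_chain hn hi
    obtain ⟨y, hy⟩ := ih S ⟨h1, by simp, h3⟩
    obtain ⟨a, ha, ha', y', hy', hW⟩ := Free_gen (Free_top_of r) hy hn (by simp) h2 h4
    let e : Fin (r * (m + 1 + 1)) ≃ Fin (r * (m + 1)) ⊕ Fin r :=
      (finCongr (by ring)).trans finSumFinEquiv.symm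
    refine ⟨fun i => Sum.elim y' (fun l => a * FreeGroup.of l * a⁻¹ * (FreeGroup.of l)⁻¹) (e i),
      ?_⟩
    have hr : (Set.range fun i => Sum.elim y'
        (fun l => a * FreeGroup.of l * a⁻¹ * (FreeGroup.of l)⁻¹) (e i)) =
        Set.range (Sum.elim y' (fun l => a * FreeGroup.of l * a⁻¹ * (FreeGroup.of l)⁻¹)) := by
      ext z
      constructor
      · rintro ⟨i, rfl⟩
        exact ⟨e i, rfl⟩
      · rintro ⟨i, rfl⟩
        exact ⟨e.symm i, by simp⟩
    rw [hr]
    refine hW _ normalClosure_normal ?_ (by simp) (fun j => subset_normalClosure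
      (Or.inr ⟨Sum.inl j, rfl⟩)) (fun l => subset_normalClosure (Or.inr ⟨Sum.inr l, rfl⟩))
    apply normalClosure_le_normal
    rintro s (hs | ⟨j | l, rfl⟩)
    · exact absurd hs (by simp)
    · exact hy' j
    · rw [SetLike.mem_coe, Sum.elim_inr, mul_assoc, mul_assoc,
        ← mul_assoc (FreeGroup.of l)]
      have hc : FreeGroup.of l * a⁻¹ * (FreeGroup.of l)⁻¹ ∈ S := h1.conj_mem _ (inv_mem ha) _
      rw [Free_mul2 h4 ha hc]
      refine iff_of_false ha' fun hc' => ha' ?_
      have := hn.conj_mem _ hc' (FreeGroup.of l)⁻¹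
      simpa [mul_assoc] using this

theorem finite_normal_two_pow (r m : ℕ) :
    {S : Subgroup (FreeGroup (Fin r)) | S.Normal ∧ S.index = 2 ^ m}.Finite ∧
      {S : Subgroup (FreeGroup (Fin r)) | S.Normal ∧ S.index = 2 ^ m}.ncard ≤
        2 ^ (r * m * (m + 1)) := by
  have hset : {S : Subgroup (FreeGroup (Fin r)) | S.Normal ∧ S.index = 2 ^ m} =
      Free_L (∅ : Set (FreeGroup (Fin r))) m := by
    ext S
    simp [Free_L]
  rw [hset]
  obtain ⟨h1, h2⟩ := Free_count (T := (∅ : Set (FreeGroup (Fin r)))) (fun m => r * (m + 1))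
    (Free_gens_a r) m
  refine ⟨h1, h2.trans (Nat.pow_le_pow_right (by norm_num) ?_)⟩
  calc ∑ i ∈ Finset.range m, r * (i + 1) ≤ ∑ i ∈ Finset.range m, r * (m + 1) :=
        Finset.sum_le_sum fun i hi => Nat.mul_le_mul_left _ (by
          have := Finset.mem_range.1 hi
          omega)
    _ = r * m * (m + 1) := by
        rw [Finset.sum_const, Finset.card_range, smul_eq_mul]
        ring

theorem numLe_gen (r m : ℕ) :
    NumLe (fun G _ => Nat.card G = 2 ^ m ∧ ∃ g : Fin r → G, closure (Set.range g) = ⊤)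
      (2 ^ (r * m * (m + 1))) := by
  obtain ⟨hfin, hcard⟩ := finite_normal_two_pow r m
  haveI : ∀ S : {S : Subgroup (FreeGroup (Fin r)) | S.Normal ∧ S.index = 2 ^ m}, S.1.Normal :=
    fun S => S.2.1
  refine ⟨{S : Subgroup (FreeGroup (Fin r)) | S.Normal ∧ S.index = 2 ^ m}, hfin,
    fun S => FreeGroup (Fin r) ⧸ S.1, fun S => inferInstance, ?_, ?_⟩
  · rw [Nat.card_coe_set_eq]
    exact_mod_cast hcard
  · rintro G _ ⟨hG, g, hg⟩
    have hs : Function.Surjective (FreeGroup.lift g) := by
      rw [← MonoidHom.range_eq_top, eq_top_iff, ← hg, closure_le]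
      rintro _ ⟨i, rfl⟩
      exact ⟨FreeGroup.of i, by simp⟩
    have hidx : (FreeGroup.lift g).ker.index = 2 ^ m := by
      rw [index_ker, MonoidHom.range_eq_top.2 hs]
      simpa using hG
    exact ⟨⟨(FreeGroup.lift g).ker, inferInstance, hidx⟩,
      ⟨(QuotientGroup.quotientKerEquivOfSurjective (FreeGroup.lift g) hs).symm⟩⟩

theorem Free_gens_b (e m : ℕ) :
    ∀ S ∈ Free_L ((commutator (FreeGroup (Fin e)) : Subgroup _) : Set (FreeGroup (Fin e))) m,
    ∃ y : Fin e → FreeGroup (Fin e), S = normalClosure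
      (((commutator (FreeGroup (Fin e)) : Subgroup _) : Set (FreeGroup (Fin e))) ∪ Set.range y) := by
  induction m with
  | zero =>
    rintro S ⟨_, _, hi⟩
    rw [pow_zero, index_eq_one] at hi
    refine ⟨FreeGroup.of, ?_⟩
    rw [hi, eq_comm, eq_top_iff, ← Free_top_of e, closure_le]
    rintro _ ⟨i, rfl⟩
    exact subset_normalClosure (Or.inr ⟨i, rfl⟩)
  | succ m ih =>
    rintro S' ⟨hn, hT, hi⟩
    obtain ⟨S, h1, h2, h3, h4⟩ := Free_chain hn hi
    obtain ⟨y, hy⟩ := ih S ⟨h1, fun s hs => h2 (hT hs), h3⟩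
    obtain ⟨a, ha, ha', y', hy', hW⟩ := Free_gen (Free_top_of e) hy hn hT h2 h4
    refine ⟨y', hW _ normalClosure_normal ?_ (fun s hs => subset_normalClosure (Or.inl hs))
      (fun j => subset_normalClosure (Or.inr ⟨j, rfl⟩)) fun l => subset_normalClosure (Or.inl ?_)⟩
    · apply normalClosure_le_normal
      rintro s (hs | ⟨j, rfl⟩)
      · exact hT hs
      · exact hy' j
    · have := commutator_mem_commutator (H₁ := (⊤ : Subgroup (FreeGroup (Fin e))))
        (H₂ := (⊤ : Subgroup (FreeGroup (Fin e)))) (mem_top a) (mem_top (FreeGroup.of l))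
      rw [commutatorElement_def] at this
      exact this

theorem Free_setb (e q : ℕ) : {S : Subgroup (FreeGroup (Fin e)) |
    commutator (FreeGroup (Fin e)) ≤ S ∧ S.index = 2 ^ q} =
      Free_L ((commutator (FreeGroup (Fin e)) : Subgroup _) : Set (FreeGroup (Fin e))) q := by
  ext S
  constructor
  · rintro ⟨h1, h2⟩
    exact ⟨Subgroup.Normal.of_commutator_le (G := FreeGroup (Fin e)) h1, h1, h2⟩
  · rintro ⟨_, h1, h2⟩
    exact ⟨h1, h2⟩

theorem finite_ab_two_pow (e q : ℕ) :
    {S : Subgroup (FreeGroup (Fin e)) | commutator (FreeGroup (Fin e)) ≤ S ∧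
      S.index = 2 ^ q}.Finite ∧
      {S : Subgroup (FreeGroup (Fin e)) | commutator (FreeGroup (Fin e)) ≤ S ∧
        S.index = 2 ^ q}.ncard ≤ 2 ^ (e * q) := by
  rw [Free_setb]
  obtain ⟨h1, h2⟩ := Free_count (fun _ => e) (Free_gens_b e) q
  refine ⟨h1, h2.trans (le_of_eq ?_)⟩
  rw [Finset.sum_const, Finset.card_range, smul_eq_mul, mul_comm]

theorem Free_comm (e : ℕ) :
    commutator (FreeGroup (Fin e)) = normalClosure (Set.range (cr e)) := by
  apply le_antisymm
  · set N := normalClosure (Set.range (cr e)) with hN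
    have hgen : closure (Set.range fun i => QuotientGroup.mk' N (FreeGroup.of i)) = ⊤ := by
      have : (Set.range fun i : Fin e => QuotientGroup.mk' N (FreeGroup.of i)) =
          (QuotientGroup.mk' N) '' Set.range FreeGroup.of := by
        rw [← Set.range_comp]
        rfl
      rw [this, ← MonoidHom.map_closure, Free_top_of, ← MonoidHom.range_eq_map,
        MonoidHom.range_eq_top]
      exact QuotientGroup.mk'_surjective N
    have hlt : ∀ i j : Fin e, i < j → QuotientGroup.mk' N (FreeGroup.of i) *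
        QuotientGroup.mk' N (FreeGroup.of j) = QuotientGroup.mk' N (FreeGroup.of j) *
        QuotientGroup.mk' N (FreeGroup.of i) := by
      intro i j hij
      have h : QuotientGroup.mk' N (cr e ⟨(i, j), hij⟩) = 1 :=
        (QuotientGroup.eq_one_iff _).2 (subset_normalClosure ⟨_, rfl⟩)
      unfold cr at h
      rw [map_mul, map_mul, map_mul, map_inv, map_inv, mul_inv_eq_one, mul_inv_eq_iff_eq_mul] at h
      exact h
    have hcomm : ∀ i j : Fin e, QuotientGroup.mk' N (FreeGroup.of i) *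
        QuotientGroup.mk' N (FreeGroup.of j) = QuotientGroup.mk' N (FreeGroup.of j) *
        QuotientGroup.mk' N (FreeGroup.of i) := by
      intro i j
      rcases lt_trichotomy i j with h | h | h
      · exact hlt i j h
      · rw [h]
      · exact (hlt j i h).symm
    have hc : ∀ i, QuotientGroup.mk' N (FreeGroup.of i) ∈ center (FreeGroup (Fin e) ⧸ N) :=
      fun i => Free_center hgen fun j => hcomm i j
    have htop : center (FreeGroup (Fin e) ⧸ N) = ⊤ := by
      rw [eq_top_iff, ← hgen, closure_le]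
      rintro _ ⟨i, rfl⟩
      exact hc i
    rw [commutator_def, commutator_le]
    intro a _ b _
    rw [← QuotientGroup.eq_one_iff]
    have hb : (QuotientGroup.mk' N b) ∈ center (FreeGroup (Fin e) ⧸ N) := htop ▸ mem_top _
    have h := (mem_center_iff.1 hb) (QuotientGroup.mk' N a)
    change QuotientGroup.mk' N (a * b * a⁻¹ * b⁻¹) = 1
    rw [map_mul, map_mul, map_mul, map_inv, map_inv, h]
    group
  · apply normalClosure_le_normal
    rintro _ ⟨p, rfl⟩
    have := commutator_mem_commutator (H₁ := (⊤ : Subgroup (FreeGroup (Fin e))))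
        (H₂ := (⊤ : Subgroup (FreeGroup (Fin e)))) (mem_top (FreeGroup.of p.1.1))
        (mem_top (FreeGroup.of p.1.2))
    rw [commutatorElement_def] at this
    exact this

theorem ab_gens (e q : ℕ) (S : Subgroup (FreeGroup (Fin e)))
    (hS : commutator (FreeGroup (Fin e)) ≤ S) (hi : S.index = 2 ^ q) :
    ∃ Y : Fin e → FreeGroup (Fin e),
      S = normalClosure (Set.range (Sum.elim (cr e) Y)) := by
  have hmem : S ∈ Free_L ((commutator (FreeGroup (Fin e)) : Subgroup _) :
      Set (FreeGroup (Fin e))) q := by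
    rw [← Free_setb]
    exact ⟨hS, hi⟩
  obtain ⟨Y, hY⟩ := Free_gens_b e q S hmem
  refine ⟨Y, ?_⟩
  rw [Set.Sum.elim_range]
  apply le_antisymm
  · rw [hY]
    apply normalClosure_le_normal
    rintro s (hs | hs)
    · rw [Free_comm] at hs
      exact normalClosure_mono Set.subset_union_left hs
    · exact subset_normalClosure (Or.inr hs)
  · have hSn : S.Normal := hmem.1
    apply normalClosure_le_normal
    rintro s (hs | hs)
    · apply hS
      rw [Free_comm]
      exact subset_normalClosure hs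
    · rw [hY]
      exact subset_normalClosure (Or.inr hs)

theorem finite_index_gens (ι : Type) [Finite ι] (D : ℕ) :
    {S : Subgroup (FreeGroup ι) | S.Normal ∧ S.index ≠ 0 ∧ S.index ≤ D}.Finite ∧
      ∃ A : ℕ, ∀ S : Subgroup (FreeGroup ι), S.Normal → S.index ≠ 0 → S.index ≤ D →
        ∃ Y : Fin A → FreeGroup ι, S = normalClosure (Set.range Y) := by
  have hfin : {S : Subgroup (FreeGroup ι) | S.Normal ∧ S.index ≠ 0 ∧ S.index ≤ D}.Finite := by
    let f : (Σ n : Fin (D + 1), (ι → Equiv.Perm (Fin n))) → Subgroup (FreeGroup ι) := fun p =>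
      (FreeGroup.lift p.2).ker
    refine (Set.finite_range f).subset ?_
    rintro S ⟨hn, h0, hD⟩
    haveI : Finite (FreeGroup ι ⧸ S) := Nat.finite_of_card_ne_zero h0
    have e : FreeGroup ι ⧸ S ≃ Fin S.index := Finite.equivFinOfCardEq rfl
    let ρ : FreeGroup ι →* Equiv.Perm (Fin S.index) :=
      e.permCongrHom.toMonoidHom.comp (MulAction.toPermHom (FreeGroup ι) (FreeGroup ι ⧸ S))
    refine ⟨⟨⟨S.index, by omega⟩, fun i => ρ (FreeGroup.of i)⟩, ?_⟩
    have h1 : FreeGroup.lift (fun i => ρ (FreeGroup.of i)) = ρ := by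
      ext i
      simp
    change (FreeGroup.lift (fun i => ρ (FreeGroup.of i))).ker = S
    rw [h1]
    have h2 : ρ.ker = (MulAction.toPermHom (FreeGroup ι) (FreeGroup ι ⧸ S)).ker := by
      ext w
      rw [MonoidHom.mem_ker, MonoidHom.mem_ker]
      change e.permCongrHom (MulAction.toPermHom (FreeGroup ι) (FreeGroup ι ⧸ S) w) = 1 ↔ _
      rw [EmbeddingLike.map_eq_one_iff]
    rw [h2, ← normalCore_eq_ker, normalCore_eq_self]
  refine ⟨hfin, ?_⟩
  have hgen : ∀ S : Subgroup (FreeGroup ι), S.Normal → S.index ≠ 0 →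
      ∃ n : ℕ, ∃ Y : Fin n → FreeGroup ι, S = normalClosure (Set.range Y) := by
    intro S hn h0
    haveI : S.FiniteIndex := ⟨h0⟩
    have hfg : Group.FG S := inferInstance
    have hfg' : S.FG := (Group.fg_iff_subgroup_fg S).1 hfg
    obtain ⟨s, hs⟩ := hfg'
    refine ⟨s.card, fun i => (s.equivFin.symm i : FreeGroup ι), ?_⟩
    have hr : (Set.range fun i => ((s.equivFin.symm i : s) : FreeGroup ι)) = (s : Set _) := by
      ext z
      constructor
      · rintro ⟨i, rfl⟩
        exact (s.equivFin.symm i).2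
      · intro hz
        exact ⟨s.equivFin ⟨z, hz⟩, by simp⟩
    rw [hr]
    apply le_antisymm
    · rw [← hs]
      exact closure_le_normalClosure
    · apply normalClosure_le_normal
      rw [← hs]
      exact subset_closure
  choose! n Y hY using hgen
  refine ⟨hfin.toFinset.sup n, fun S hn h0 hD => ?_⟩
  have hle : n S ≤ hfin.toFinset.sup n :=
    Finset.le_sup (f := n) (hfin.mem_toFinset.2 ⟨hn, h0, hD⟩)
  refine ⟨fun i => if h : i.1 < n S then Y S ⟨i.1, h⟩ else 1, ?_⟩
  apply le_antisymm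
  · conv_lhs => rw [hY S hn h0]
    apply normalClosure_le_normal
    rintro _ ⟨i, rfl⟩
    apply subset_normalClosure
    refine ⟨⟨i.1, lt_of_lt_of_le i.2 hle⟩, ?_⟩
    simp
  · apply normalClosure_le_normal
    rintro _ ⟨i, rfl⟩
    dsimp only
    split_ifs with h
    · have h1 : Y S ⟨i.1, h⟩ ∈ normalClosure (Set.range (Y S)) := subset_normalClosure ⟨_, rfl⟩
      rw [← hY S hn h0] at h1
      exact h1
    · exact one_mem _

end Pool.Agent.EnumG
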