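import Pool.Agent.Work.MP_9de0a1_al.CopConj
import Pool.Agent.Work.MP_9de0a1_al.Ecl
import Pool.Agent.Work.MP_9de0a1_al.Free
import Pool.Agent.Work.MP_9de0a1_al.Frat

/-!
# BddCore : solvable groups of order `2^a b`, `b` odd and bounded, with given `R = O_2(G)`-type subgroup
-/

open Subgroup

namespace Pool.Agent.EnumG

/-- the conjugation action on a normal embedded subgroup -/
noncomputable def bcConj {R G : Type} [Group R] [Group G] (f : R →* G) (hf : Function.Injective f)
    (hn : f.range.Normal) : G →* MulAut R :=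
  haveI := hn
  (MulAut.congr (MonoidHom.ofInjective hf).symm).toMonoidHom.comp
    (MulAut.conjNormal (H := f.range))

theorem bcConj_spec {R G : Type} [Group R] [Group G] (f : R →* G) (hf : Function.Injective f)
    (hn : f.range.Normal) (g : G) (n : R) : f (bcConj f hf hn g n) = g * f n * g⁻¹ := by
  have := hn
  have h1 : ((MonoidHom.ofInjective hf) (bcConj f hf hn g n) : G) = g * f n * g⁻¹ := by
    simp [bcConj, MulAut.congr, MonoidHom.ofInjective_apply]
  rw [MonoidHom.ofInjective_apply] at h1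
  exact h1

/-- the condition on the data used to choose a lift -/
def BcP {R : Type} [Group R] {b : ℕ} (m : Fin b → Fin b → Fin b) (T : Fin b → AV R)
    (ρ : Fin b → MulAut R) : Prop :=
  (∀ x y, ρ (m x y) = ρ x * ρ y) ∧ ∀ x, toV R (ρ x) = T x

open Classical in
/-- the chosen lift -/
noncomputable def bcLift {R : Type} [Group R] {b : ℕ} (m : Fin b → Fin b → Fin b)
    (T : Fin b → AV R) : Fin b → MulAut R :=
  if h : ∃ ρ : Fin b → MulAut R, BcP m T ρ then h.choose else 1

theorem bcLift_spec {R : Type} [Group R] {b : ℕ} (m : Fin b → Fin b → Fin b)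
    (T : Fin b → AV R) (h : ∃ ρ : Fin b → MulAut R, BcP m T ρ) : BcP m T (bcLift m T) := by
  unfold bcLift
  rw [dif_pos h]
  exact h.choose_spec

theorem bc_card_sup {G : Type} [Group G] [Finite G] (H K : Subgroup G)
    (hc : (Nat.card H).Coprime (Nat.card K)) :
    Nat.card H * Nat.card K ≤ Nat.card (H ⊔ K : Subgroup G) := by
  apply Nat.le_of_dvd Nat.card_pos
  apply Nat.Coprime.mul_dvd_of_dvd_of_dvd hc
  · exact Subgroup.card_dvd_of_le le_sup_left
  · exact Subgroup.card_dvd_of_le le_sup_right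

theorem bc_one (D b j : ℕ) (hb : Odd b) (hD : 2 ^ j * b ≤ D) : ∃ A : ℕ, ∀ i : ℕ,
    ∀ (R : Type) [Group R] [Finite R], Nat.card R = 2 ^ i →
      NumLe (fun G _ => Nat.card G = 2 ^ (i + j) * b ∧ Group.IsSolvable G ∧
        ∃ f : R →* G, Function.Injective f ∧ f.range.Normal)
        (2 ^ (A * (i + 1)) * (Nat.card (AV R) : ℝ) ^ b * (Nat.card (MulAut R) : ℝ) ^ j) := by
  obtain ⟨hfin, A0, hA0⟩ := finite_index_gens (Fin b ⊕ Fin j) D
  set SS : Set (Subgroup (FreeGroup (Fin b ⊕ Fin j))) :=
    {S | S.Normal ∧ S.index ≠ 0 ∧ S.index ≤ D} with hSS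
  have : Finite SS := hfin
  have hY : ∀ S : SS, ∃ Y : Fin A0 → FreeGroup (Fin b ⊕ Fin j),
      (S : Subgroup _) = normalClosure (Set.range Y) := fun S =>
    hA0 S.1 S.2.1 S.2.2.1 S.2.2.2
  choose Y hYS using hY
  set c : ℕ := Nat.card ((Fin b → Fin b → Fin b) × SS) with hc
  refine ⟨A0 + c, fun i R _ _ hR => ?_⟩
  have hRp : IsPGroup 2 R := IsPGroup.of_card hR
  let X : Type := ((Fin b → Fin b → Fin b) × SS) × (Fin b → AV R) × (Fin j → MulAut R) ×
    (Fin A0 → R)
  refine NumLe.of_data (X := X)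
    (fun x => ExtG R (Sum.elim (bcLift x.1.1 x.2.1) x.2.2.1) (Y x.1.2) x.2.2.2) ?_ ?_
  · have h1 : Nat.card X = c * (Nat.card (AV R) ^ b * (Nat.card (MulAut R) ^ j * (2 ^ i) ^ A0)) := by
      simp only [X, Nat.card_prod, Nat.card_fun, Nat.card_eq_fintype_card, Fintype.card_fin,
        ← hR, hc]
    rw [h1]
    push_cast
    have h2 : (c : ℝ) ≤ 2 ^ c := by exact_mod_cast Nat.lt_two_pow_self.le
    have h3 : (2 : ℝ) ^ ((A0 + c) * (i + 1)) = 2 ^ (A0 + c * i) * (2 ^ c * (2 ^ i) ^ A0) := by
      rw [← pow_mul, ← pow_add, ← pow_add]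
      congr 1
      ring
    rw [h3]
    have h4 : (1 : ℝ) ≤ 2 ^ (A0 + c * i) := one_le_pow₀ (by norm_num)
    have h5 : (0 : ℝ) ≤ (Nat.card (AV R) : ℝ) ^ b * (Nat.card (MulAut R) : ℝ) ^ j := by positivity
    have h6 : (0 : ℝ) ≤ (2 ^ i) ^ A0 := by positivity
    calc (c : ℝ) * ((Nat.card (AV R) : ℝ) ^ b * ((Nat.card (MulAut R) : ℝ) ^ j * (2 ^ i) ^ A0))
        = 1 * (c * (2 ^ i) ^ A0) * ((Nat.card (AV R) : ℝ) ^ b * (Nat.card (MulAut R) : ℝ) ^ j) := by
          ring
      _ ≤ (2 ^ (A0 + c * i) * (2 ^ c * (2 ^ i) ^ A0)) *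
          ((Nat.card (AV R) : ℝ) ^ b * (Nat.card (MulAut R) : ℝ) ^ j) := by
          gcongr
      _ = _ := by ring
  · rintro G _ ⟨hG, hsol, f, hf, hn⟩
    have hb0 : 0 < b := hb.pos
    have : Finite G := Nat.finite_of_card_ne_zero (by rw [hG]; positivity)
    obtain ⟨B, hB⟩ := exists_two_complement hsol hb hG
    -- the enumeration of `B`
    let β : Fin b ≃ B := (Finite.equivFinOfCardEq hB).symm
    let m : Fin b → Fin b → Fin b := fun x y => β.symm (β x * β y)
    let ρ₁ : B →* MulAut R := (bcConj f hf hn).comp B.subtype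
    let T : Fin b → AV R := fun x => ⟨toV R (ρ₁ (β x)), ⟨_, rfl⟩⟩
    have hP : ∃ ρ : Fin b → MulAut R, BcP m T ρ := by
      refine ⟨fun x => ρ₁ (β x), fun x y => ?_, fun x => rfl⟩
      simp only [m, Equiv.apply_symm_apply, map_mul]
    have hL := bcLift_spec m T hP
    let ρ₂ : B →* MulAut R := MonoidHom.mk' (fun y => bcLift m T (β.symm y)) (fun y z => by
      have := hL.1 (β.symm y) (β.symm z)
      simpa [m] using this)
    have hcop := cop_conj (toV R).ker (hA2 := ?_) (B := B) ?_ ρ₁ ρ₂ ?_
    · obtain ⟨a, ha, hab⟩ := hcop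
      -- the corrected embedding
      let e : R →* G := f.comp (a⁻¹ : MulAut R).toMonoidHom
      have he : Function.Injective e := hf.comp (a⁻¹ : MulAut R).injective
      have her : e.range = f.range := by
        ext y
        constructor
        · rintro ⟨n, rfl⟩
          exact ⟨_, rfl⟩
        · rintro ⟨n, rfl⟩
          exact ⟨a n, by simp [e]⟩
      have hen : e.range.Normal := her ▸ hn
      have hact : ∀ (y : B) (n : R), (y : G) * e n * (y : G)⁻¹ = e (ρ₂ y n) := by
        intro y n
        rw [hab y]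
        have := bcConj_spec f hf hn (y : G) ((a⁻¹ : MulAut R) n)
        simp only [e, MonoidHom.comp_apply, MulEquiv.coe_toMonoidHom, MulAut.mul_apply,
          MulAut.inv_apply_self] at this ⊢
        exact this.symm
      -- generators
      have hcard : Nat.card G ≤ 2 ^ j * Nat.card (f.range ⊔ B : Subgroup G) := by
        have h1 : Nat.card f.range = 2 ^ i := by
          rw [← hR]
          exact (Nat.card_congr (MonoidHom.ofInjective hf).toEquiv).symm
        have h2 : (Nat.card f.range).Coprime (Nat.card B) := by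
          rw [h1, hB]
          exact Nat.Coprime.pow_left _ (Nat.coprime_two_left.2 hb)
        have h3 := bc_card_sup f.range B h2
        rw [h1, hB] at h3
        calc Nat.card G = 2 ^ j * (2 ^ i * b) := by rw [hG, pow_add]; ring
          _ ≤ _ := Nat.mul_le_mul_left _ h3
      obtain ⟨h, hh⟩ := exists_gens_over (f.range ⊔ B) hcard
      let g : Fin b ⊕ Fin j → G := Sum.elim (fun x => (β x : G)) h
      have hgen : e.range ⊔ closure (Set.range g) = ⊤ := by
        rw [eq_top_iff, ← hh, her]
        refine sup_le (sup_le le_sup_left ?_) ?_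
        · intro y hy
          refine mem_sup_right (subset_closure ⟨Sum.inl (β.symm ⟨y, hy⟩), ?_⟩)
          simp [g]
        · refine (Subgroup.closure_mono ?_).trans le_sup_right
          rintro _ ⟨l, rfl⟩
          exact ⟨Sum.inr l, rfl⟩
      -- the kernel
      have := hen
      let π : FreeGroup (Fin b ⊕ Fin j) →* G ⧸ e.range :=
        (QuotientGroup.mk' e.range).comp (FreeGroup.lift g)
      have hπ : Function.Surjective π := by
        have hle : e.range ⊔ closure (Set.range g) ≤
            π.range.comap (QuotientGroup.mk' e.range) := by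
          refine sup_le ?_ ?_
          · intro y hy
            have h1 : (QuotientGroup.mk' e.range) y = 1 := by simpa using hy
            rw [Subgroup.mem_comap, h1]
            exact one_mem _
          · rw [closure_le]
            rintro _ ⟨l, rfl⟩
            exact ⟨FreeGroup.of l, by simp [π]⟩
        intro x
        induction x using QuotientGroup.induction_on with
        | H x =>
          have hx : x ∈ e.range ⊔ closure (Set.range g) := by rw [hgen]; trivial
          exact hle hx
      have hidx : π.ker.index = 2 ^ j * b := by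
        rw [Subgroup.index_ker, MonoidHom.range_eq_top.2 hπ, Subgroup.card_top,
          ← Subgroup.index_eq_card]
        have h1 : Nat.card e.range = 2 ^ i := by
          rw [← hR]
          exact (Nat.card_congr (MonoidHom.ofInjective he).toEquiv).symm
        have h2 := e.range.card_mul_index
        rw [h1, hG, pow_add, mul_assoc] at h2
        exact Nat.eq_of_mul_eq_mul_left (by positivity) h2
      have hmem : π.ker ∈ SS := ⟨inferInstance, by rw [hidx]; positivity, by rw [hidx]; exact hD⟩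
      have hrel : ∀ w, FreeGroup.lift g w ∈ e.range ↔ w ∈ π.ker := by
        intro w
        rw [MonoidHom.mem_ker]
        simp [π]
      have hν : ∀ l, ∃ n : R, e n = FreeGroup.lift g (Y ⟨_, hmem⟩ l) := by
        intro l
        have h1 : π.ker = normalClosure (Set.range (Y ⟨_, hmem⟩)) := hYS ⟨_, hmem⟩
        have h2 : Y ⟨_, hmem⟩ l ∈ normalClosure (Set.range (Y ⟨_, hmem⟩)) :=
          subset_normalClosure ⟨l, rfl⟩
        exact (hrel _).2 ((SetLike.ext_iff.1 h1 _).2 h2)
      choose ν hν using hν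
      refine ⟨((m, ⟨_, hmem⟩), T, fun l => bcConj e he hen (h l), ν), ?_⟩
      refine ecl e he hen g _ _ _ ?_ ?_ hgen ?_
      · rintro (x | l) n
        · have := hact (β x) n
          simpa [g, ρ₂] using this
        · simp only [g, Sum.elim_inr]
          rw [bcConj_spec]
      · intro l
        exact (hν l).symm
      · intro w hw
        have h1 : π.ker = normalClosure (Set.range (Y ⟨_, hmem⟩)) := hYS ⟨_, hmem⟩
        exact (SetLike.ext_iff.1 h1 _).1 ((hrel w).1 hw)
    · exact ker_toV hRp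
    · rw [hB]; exact hb
    · intro y
      rw [QuotientGroup.eq, MonoidHom.mem_ker, map_mul, map_inv, inv_mul_eq_one]
      have := hL.2 (β.symm y)
      simp only [T, Equiv.apply_symm_apply] at this
      exact this.symm

theorem bdd_core (D : ℕ) : ∃ A : ℕ, ∀ (i j b : ℕ), Odd b → 2 ^ j * b ≤ D →
    ∀ (R : Type) [Group R] [Finite R], Nat.card R = 2 ^ i →
      NumLe (fun G _ => Nat.card G = 2 ^ (i + j) * b ∧ Group.IsSolvable G ∧
        ∃ f : R →* G, Function.Injective f ∧ f.range.Normal)
        (2 ^ (A * (i + 1)) * (Nat.card (AV R) : ℝ) ^ b * (Nat.card (MulAut R) : ℝ) ^ j) := by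
  have key : ∀ b j : ℕ, ∃ A : ℕ, Odd b → 2 ^ j * b ≤ D → ∀ i : ℕ,
    ∀ (R : Type) [Group R] [Finite R], Nat.card R = 2 ^ i →
      NumLe (fun G _ => Nat.card G = 2 ^ (i + j) * b ∧ Group.IsSolvable G ∧
        ∃ f : R →* G, Function.Injective f ∧ f.range.Normal)
        (2 ^ (A * (i + 1)) * (Nat.card (AV R) : ℝ) ^ b * (Nat.card (MulAut R) : ℝ) ^ j) := by
    intro b j
    by_cases h : Odd b ∧ 2 ^ j * b ≤ D
    · obtain ⟨A, hA⟩ := bc_one D b j h.1 h.2
      exact ⟨A, fun _ _ => hA⟩
    · exact ⟨0, fun h1 h2 => absurd ⟨h1, h2⟩ h⟩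
  choose A hA using key
  refine ⟨∑ b ∈ Finset.range (D + 1), ∑ j ∈ Finset.range (D + 1), A b j, ?_⟩
  intro i j b hb hD R _ _ hR
  have hbD : b < D + 1 := by
    have : 1 ≤ 2 ^ j := Nat.one_le_two_pow
    nlinarith
  have hjD : j < D + 1 := by
    have h1 : j < 2 ^ j := Nat.lt_two_pow_self
    have h2 := hb.pos
    nlinarith
  have hle : A b j ≤ ∑ b ∈ Finset.range (D + 1), ∑ j ∈ Finset.range (D + 1), A b j :=
    (Finset.single_le_sum (f := fun j => A b j) (fun _ _ => Nat.zero_le _)
      (Finset.mem_range.2 hjD)).trans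
      (Finset.single_le_sum (f := fun b => ∑ j ∈ Finset.range (D + 1), A b j)
        (fun _ _ => Nat.zero_le _) (Finset.mem_range.2 hbD))
  refine (hA b j hb hD i R hR).mono ?_ (fun G _ h => h)
  have : (2 : ℝ) ^ (A b j * (i + 1)) ≤
      2 ^ ((∑ b ∈ Finset.range (D + 1), ∑ j ∈ Finset.range (D + 1), A b j) * (i + 1)) :=
    pow_le_pow_right₀ (by norm_num) (Nat.mul_le_mul_right _ hle)
  gcongr

theorem exists_core (b : ℕ) (hb : Odd b) : ∀ (a : ℕ) (G : Type) [Group G],
    Nat.card G = 2 ^ a * b → ∃ (i j : ℕ) (R : Subgroup G), R.Normal ∧ Nat.card R = 2 ^ i ∧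
      i + j = a ∧ 2 ^ j * b ≤ b.factorial := by
  intro a G _ hG
  have hb0 : 0 < b := hb.pos
  have : Finite G := Nat.finite_of_card_ne_zero (by rw [hG]; positivity)
  have : Fact (Nat.Prime 2) := ⟨Nat.prime_two⟩
  obtain ⟨P, hP⟩ := Sylow.exists_subgroup_card_pow_prime (G := G) 2 (n := a)
    (by rw [hG]; exact dvd_mul_right _ _)
  have hPi : P.index = b := by
    have := P.card_mul_index
    rw [hP, hG] at this
    exact Nat.eq_of_mul_eq_mul_left (by positivity) this
  have hRP : Nat.card P.normalCore ∣ 2 ^ a := hP ▸ Subgroup.card_dvd_of_le P.normalCore_le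
  obtain ⟨i, hi, hRi⟩ := (Nat.dvd_prime_pow Nat.prime_two).1 hRP
  refine ⟨i, a - i, P.normalCore, inferInstance, hRi, by omega, ?_⟩
  have h1 : P.normalCore.index = 2 ^ (a - i) * b := by
    have := P.normalCore.card_mul_index
    rw [hRi, hG] at this
    have h2 : 2 ^ a = 2 ^ i * 2 ^ (a - i) := by rw [← pow_add]; congr 1; omega
    rw [h2, mul_assoc] at this
    exact Nat.eq_of_mul_eq_mul_left (by positivity) this
  rw [← h1, Subgroup.normalCore_eq_ker, Subgroup.index_ker]
  calc Nat.card (MulAction.toPermHom G (G ⧸ P)).range ≤ Nat.card (Equiv.Perm (G ⧸ P)) :=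
        Subgroup.card_le_card_group _
    _ = b.factorial := by
        rw [Nat.card_perm]
        congr 1

end Pool.Agent.EnumG
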