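import Pool.Agent.Work.MP_9de0a1_al.Defs

/-!
# Cnt : calculus of `NumLe`, `gc`, `sc`, `cnt`
-/

open Subgroup

namespace Pool.Agent.EnumG

variable {P Q : ∀ (G : Type) [Group G], Prop} {A B : ℝ}

theorem NumLe.nonneg (h : NumLe P A) : 0 ≤ A := by
  obtain ⟨X, _, Γ, _, h1, _⟩ := h
  exact (Nat.cast_nonneg _).trans h1

theorem NumLe.mono (h : NumLe P A) (hB : A ≤ B) (hPQ : ∀ (G : Type) [Group G], Q G → P G) :
    NumLe Q B := by
  obtain ⟨X, i1, Γ, i2, h1, h2⟩ := h
  exact ⟨X, i1, Γ, i2, h1.trans hB, fun G _ hG => h2 G (hPQ G hG)⟩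

theorem NumLe.or (h1 : NumLe P A) (h2 : NumLe Q B) : NumLe (fun G _ => P G ∨ Q G) (A + B) := by
  obtain ⟨X, i1, Γ, i2, a1, a2⟩ := h1
  obtain ⟨Y, j1, Δ, j2, b1, b2⟩ := h2
  refine ⟨X ⊕ Y, inferInstance, Sum.elim Γ Δ, fun x => ?_, ?_, fun G _ hG => ?_⟩
  · rcases x with x | y
    · exact i2 x
    · exact j2 y
  · rw [Nat.card_sum]
    push_cast
    exact add_le_add a1 b1
  · rcases hG with hG | hG
    · obtain ⟨x, hx⟩ := a2 G hG
      exact ⟨Sum.inl x, hx⟩
    · obtain ⟨y, hy⟩ := b2 G hG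
      exact ⟨Sum.inr y, hy⟩

theorem cnt_card_sigma_le {ι : Type} [Finite ι] {X : ι → Type} [∀ i, Finite (X i)] {B : ℝ}
    (h : ∀ i, (Nat.card (X i) : ℝ) ≤ B) : (Nat.card (Σ i, X i) : ℝ) ≤ Nat.card ι * B := by
  classical
  have := Fintype.ofFinite ι
  rw [Nat.card_sigma]
  push_cast
  calc ∑ i, (Nat.card (X i) : ℝ) ≤ ∑ _i : ι, B := Finset.sum_le_sum fun i _ => h i
    _ = Nat.card ι * B := by
      rw [Finset.sum_const, Finset.card_univ, Nat.card_eq_fintype_card, nsmul_eq_mul]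

theorem NumLe.ex {ι : Type} [Finite ι] {P : ι → ∀ (G : Type) [Group G], Prop}
    (h : ∀ i, NumLe (P i) B) : NumLe (fun G _ => ∃ i, P i G) (Nat.card ι * B) := by
  choose X i1 Γ i2 h1 h2 using h
  have : ∀ i, Finite (X i) := i1
  refine ⟨Σ i, X i, inferInstance, fun p => Γ p.1 p.2, fun p => i2 p.1 p.2,
    cnt_card_sigma_le h1, fun G _ hG => ?_⟩
  obtain ⟨i, hi⟩ := hG
  obtain ⟨x, hx⟩ := h2 i G hi
  exact ⟨⟨i, x⟩, hx⟩

theorem NumLe.fib {R : ∀ (K : Type) [Group K] (G : Type) [Group G], Prop} (h1 : NumLe Q A)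
    (hB : 0 ≤ B) (h2 : ∀ (K : Type) [Group K], Q K → NumLe (fun G _ => R K G) B)
    (h3 : ∀ (G : Type) [Group G], P G → ∃ (K : Type) (_ : Group K), Q K ∧ R K G)
    (hiso : ∀ (K K' : Type) [Group K] [Group K'] (G : Type) [Group G],
      Nonempty (K ≃* K') → R K G → R K' G) : NumLe P (A * B) := by
  obtain ⟨X, i1, Γ, i2, a1, a2⟩ := h1
  -- the useful indices
  let X' : Type := {x : X // ∃ (K : Type) (_ : Group K), Q K ∧ Nonempty (K ≃* Γ x)}
  have hX' : ∀ x : X', ∃ (K : Type) (_ : Group K), Q K ∧ Nonempty (K ≃* Γ x.1) := fun x => x.2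
  choose K iK hK1 hK2 using hX'
  have h4 : ∀ x : X', NumLe (fun G _ => R (K x) G) B := fun x => h2 (K x) (hK1 x)
  have h5 : NumLe (fun G _ => ∃ x : X', R (K x) G) (Nat.card X' * B) := NumLe.ex h4
  have h6 : (Nat.card X' : ℝ) ≤ Nat.card X := by
    exact_mod_cast Nat.card_le_card_of_injective (Subtype.val : X' → X) Subtype.val_injective
  refine h5.mono (mul_le_mul_of_nonneg_right (h6.trans a1) hB) fun G _ hG => ?_
  obtain ⟨K', iK', b1, b2⟩ := h3 G hG
  obtain ⟨x, ⟨e⟩⟩ := a2 K' b1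
  let x' : X' := ⟨x, K', iK', b1, ⟨e⟩⟩
  refine ⟨x', ?_⟩
  obtain ⟨e'⟩ := hK2 x'
  exact hiso K' (K x') G ⟨e.trans e'.symm⟩ b2

/-- cover by an explicit finite family of data -/
theorem NumLe.of_data {X : Type} [Finite X] (Γ : X → Type) [∀ x, Group (Γ x)]
    (hX : (Nat.card X : ℝ) ≤ B) (h : ∀ (G : Type) [Group G], P G → ∃ x, Nonempty (G ≃* Γ x)) :
    NumLe P B := ⟨X, inferInstance, Γ, inferInstance, hX, h⟩

theorem cnt_symm {α β : Type} {i : Mul α} {j : Mul β} (h : Nonempty (@MulEquiv α β i j)) :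
    Nonempty (@MulEquiv β α j i) := by
  obtain ⟨e⟩ := h
  exact ⟨@MulEquiv.symm α β i j e⟩

theorem cnt_trans {α β γ : Type} {i : Mul α} {j : Mul β} {k : Mul γ}
    (h : Nonempty (@MulEquiv α β i j)) (h' : Nonempty (@MulEquiv β γ j k)) :
    Nonempty (@MulEquiv α γ i k) := by
  obtain ⟨e⟩ := h
  obtain ⟨f⟩ := h'
  exact ⟨@MulEquiv.trans α β γ i j k e f⟩

theorem GIso.equivalence (m : ℕ) : Equivalence (GIso (m := m)) where
  refl G := ⟨@MulEquiv.refl _ (@Semigroup.toMul _ (@Monoid.toSemigroup _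
    (@DivInvMonoid.toMonoid _ (@Group.toDivInvMonoid _ G))))⟩
  symm := fun h => cnt_symm h
  trans := fun h h' => cnt_trans h h'

instance cnt_finite_groups (m : ℕ) : Finite (Group (Fin m)) := by
  have : Function.Injective fun (G : Group (Fin m)) => (G.mul : Fin m → Fin m → Fin m) := by
    intro G H h
    exact Group.ext (by funext a b; exact congrFun (congrFun h a) b)
  exact Finite.of_injective _ this

instance cnt_finite_cls (m : ℕ) : Finite (Cls m) := inferInstanceAs (Finite (Quot _))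

theorem cnt_cls_sound {m : ℕ} {G H : Group (Fin m)} :
    (Quot.mk _ G : Cls m) = Quot.mk _ H ↔ GIso G H := by
  rw [Quot.eq]
  rw [Equivalence.eqvGen_iff (GIso.equivalence m)]

theorem cnt_out_eq {m : ℕ} (q : Cls m) : (Quot.mk _ q.out : Cls m) = q := Quot.out_eq q

theorem cnt_out_inj {m : ℕ} {q q' : Cls m} (h : GIso q.out q'.out) : q = q' := by
  rw [← cnt_out_eq q, ← cnt_out_eq q', cnt_cls_sound]
  exact h

/-- transport to `Fin m` -/
theorem cnt_exists_fin {m : ℕ} (hm : m ≠ 0) (G : Type) [Group G] (hG : Nat.card G = m) :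
    ∃ H : Group (Fin m), Nonempty (@MulEquiv G (Fin m) _
      (@Semigroup.toMul _ (@Monoid.toSemigroup _ (@DivInvMonoid.toMonoid _
        (@Group.toDivInvMonoid _ H))))) := by
  have : Finite G := Nat.finite_of_card_ne_zero (by rw [hG]; exact hm)
  have e : G ≃ Fin m := (Finite.equivFin G).trans (finCongr hG)
  exact ⟨@Equiv.group (Fin m) G e.symm _, cnt_symm ⟨@Equiv.mulEquiv (Fin m) G e.symm _⟩⟩

theorem cnt_exists_cls {m : ℕ} (hm : m ≠ 0) (G : Type) [Group G] (hG : Nat.card G = m) :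
    ∃ q : Cls m, Nonempty (@MulEquiv G (Fin m) _
      (@Semigroup.toMul _ (@Monoid.toSemigroup _ (@DivInvMonoid.toMonoid _
        (@Group.toDivInvMonoid _ q.out))))) := by
  obtain ⟨H, e⟩ := cnt_exists_fin hm G hG
  refine ⟨Quot.mk _ H, ?_⟩
  have h1 : GIso (Quot.mk _ H : Cls m).out H := by
    rw [← cnt_cls_sound, cnt_out_eq]
  exact cnt_trans e (cnt_symm h1)

theorem numLe_gc {m : ℕ} (hm : m ≠ 0) : NumLe (fun G _ => Nat.card G = m) (gc m) :=
  ⟨Cls m, inferInstance, fun _ => Fin m, fun q => q.out, le_rfl,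
    fun G _ hG => cnt_exists_cls hm G hG⟩

theorem cnt_le {m : ℕ} (h : NumLe (fun G _ => Nat.card G = m ∧ P G) B) : (cnt P m : ℝ) ≤ B := by
  obtain ⟨X, i1, Γ, i2, h1, h2⟩ := h
  have h3 : ∀ q : {q : Cls m // @P (Fin m) q.out}, ∃ x, Nonempty (@MulEquiv (Fin m) (Γ x)
      (@Semigroup.toMul _ (@Monoid.toSemigroup _ (@DivInvMonoid.toMonoid _
        (@Group.toDivInvMonoid _ q.1.out)))) _) := fun q =>
    @h2 (Fin m) q.1.out ⟨Nat.card_fin m, q.2⟩
  choose x hx using h3
  have h4 : Function.Injective x := by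
    intro q q' hq
    have e := hx q
    have e' := hx q'
    apply Subtype.ext
    apply cnt_out_inj
    rw [hq] at e
    exact cnt_trans e (cnt_symm e')
  exact (by exact_mod_cast Nat.card_le_card_of_injective x h4 : (cnt P m : ℝ) ≤ Nat.card X).trans h1

theorem cnt_top (m : ℕ) : cnt (fun _ _ => True) m = gc m :=
  Nat.card_congr (Equiv.subtypeUnivEquiv fun _ => trivial)

theorem gc_le {m : ℕ} (h : NumLe (fun G _ => Nat.card G = m) B) : (gc m : ℝ) ≤ B := by
  rw [← cnt_top]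
  exact cnt_le (h.mono le_rfl fun G _ hG => hG.1)

theorem sc_le {m : ℕ} (h : NumLe (fun G _ => Nat.card G = m ∧ Group.IsSolvable G) B) :
    (sc m : ℝ) ≤ B := by
  obtain ⟨X, i1, Γ, i2, h1, h2⟩ := h
  set S := Quot fun G1 G2 : {G : Group (Fin m) // @Group.IsSolvable (Fin m) G} => GIso G1.1 G2.1
  have h3 : ∀ q : S, ∃ x, Nonempty (@MulEquiv (Fin m) (Γ x)
      (@Semigroup.toMul _ (@Monoid.toSemigroup _ (@DivInvMonoid.toMonoid _
        (@Group.toDivInvMonoid _ q.out.1)))) _) := fun q =>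
    @h2 (Fin m) q.out.1 ⟨Nat.card_fin m, q.out.2⟩
  choose x hx using h3
  have h4 : Function.Injective x := by
    intro q q' hq
    have e := hx q
    have e' := hx q'
    rw [hq] at e
    have h5 : GIso q.out.1 q'.out.1 := cnt_trans e (cnt_symm e')
    rw [← Quot.out_eq q, ← Quot.out_eq q']
    exact Quot.sound h5
  exact (by exact_mod_cast Nat.card_le_card_of_injective x h4 : (sc m : ℝ) ≤ Nat.card X).trans h1

theorem gc_split (P : ∀ (G : Type) [Group G], Prop) (m : ℕ) :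
    gc m = cnt P m + cnt (fun G _ => ¬P G) m := by
  classical
  unfold gc cnt
  rw [← Nat.card_sum]
  exact Nat.card_congr (Equiv.sumCompl fun q : Cls m => @P (Fin m) q.out).symm

theorem gc_pos {m : ℕ} (hm : m ≠ 0) : 0 < gc m := by
  have : NeZero m := ⟨hm⟩
  obtain ⟨q, _⟩ := cnt_exists_cls hm (Multiplicative (ZMod m)) (by
    rw [Nat.card_congr Multiplicative.toAdd, Nat.card_zmod])
  have : Nonempty (Cls m) := ⟨q⟩
  exact Nat.card_pos

/-- solvable groups of 2-power order are all groups -/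
theorem sc_two_pow (k : ℕ) : sc (2 ^ k) = gc (2 ^ k) := by
  have hs : ∀ G : Group (Fin (2 ^ k)), @Group.IsSolvable (Fin (2 ^ k)) G := by
    intro G
    have : Fact (Nat.Prime 2) := ⟨Nat.prime_two⟩
    have h1 : IsPGroup 2 (Fin (2 ^ k)) := IsPGroup.of_card (n := k) (Nat.card_fin _)
    have := h1.isNilpotent
    infer_instance
  have e : {G : Group (Fin (2 ^ k)) // @Group.IsSolvable (Fin (2 ^ k)) G} ≃ Group (Fin (2 ^ k)) :=
    Equiv.subtypeUnivEquiv hs
  unfold sc gc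
  apply Nat.card_congr
  exact Quot.congr (Equiv.subtypeUnivEquiv hs) fun _ _ => Iff.rfl

theorem card_le_mul_gc {m M : ℕ} {X : Type} [Finite X] (Γ : X → Type) [∀ x, Group (Γ x)]
    (hm : m ≠ 0) (hΓ : ∀ x, Nat.card (Γ x) = m)
    (hM : ∀ (E : Type) [Group E], Nat.card E = m → Nat.card {x // Nonempty (Γ x ≃* E)} ≤ M) :
    Nat.card X ≤ M * gc m := by
  classical
  choose q hq using fun x => cnt_exists_cls hm (Γ x) (hΓ x)
  have h1 : Nat.card X = Nat.card (Σ c : Cls m, {x : X // q x = c}) :=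
    Nat.card_congr (Equiv.sigmaFiberEquiv q).symm
  have := Fintype.ofFinite (Cls m)
  rw [h1, Nat.card_sigma]
  calc ∑ c : Cls m, Nat.card {x : X // q x = c} ≤ ∑ _c : Cls m, M := by
        refine Finset.sum_le_sum fun c _ => ?_
        refine le_trans ?_ (@hM (Fin m) c.out (Nat.card_fin m))
        refine Nat.card_le_card_of_injective (fun x : {x : X // q x = c} =>
          (⟨x.1, ?_⟩ : {x // Nonempty (@MulEquiv (Γ x) (Fin m) _ (@Semigroup.toMul _
            (@Monoid.toSemigroup _ (@DivInvMonoid.toMonoid _ (@Group.toDivInvMonoid _ c.out)))))}))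
          ?_
        · have := hq x.1
          rw [x.2] at this
          exact this
        · intro x y hxy
          have h3 := congrArg Subtype.val hxy
          exact Subtype.ext h3
    _ = M * gc m := by
        rw [Finset.sum_const, Finset.card_univ, smul_eq_mul, mul_comm, gc,
          Nat.card_eq_fintype_card]

end Pool.Agent.EnumG
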