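import Pool.Agent.Work.MP_9de0a1_al.Transfer

/-!
# CopConj : conjugacy of homomorphisms from a group of odd order, modulo a normal 2-subgroup;
existence of 2-complements in solvable groups
-/

open Subgroup
open scoped commutatorElement

namespace Pool.Agent.EnumG

theorem cc_aux : ∀ (n : ℕ) {Γ B : Type} [Group Γ] [Finite Γ] [Group B] [Finite B] (A : Subgroup Γ)
    [_hA : A.Normal] (_hn : Nat.card A ≤ n) (_hA2 : IsPGroup 2 A) (_hB : Odd (Nat.card B))
    (ρ₁ ρ₂ : B →* Γ)
    (_h : ∀ b, (QuotientGroup.mk (ρ₁ b) : Γ ⧸ A) = QuotientGroup.mk (ρ₂ b)),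
    ∃ a ∈ A, ∀ b, ρ₂ b = a * ρ₁ b * a⁻¹ := by
  intro n
  induction n with
  | zero =>
    intro Γ B _ _ _ _ A _ hn
    exact absurd (Nat.card_pos (α := A)) (by omega)
  | succ n ih =>
    intro Γ B _ _ _ _ A hA hn hA2 hB ρ₁ ρ₂ h
    by_cases htriv : Subsingleton A
    · refine ⟨1, one_mem _, fun b => ?_⟩
      have h1 : (ρ₁ b)⁻¹ * ρ₂ b ∈ A := QuotientGroup.eq.1 (h b)
      have h2 : (⟨_, h1⟩ : A) = 1 := Subsingleton.elim _ _
      have h3 : (ρ₁ b)⁻¹ * ρ₂ b = 1 := congrArg Subtype.val h2
      rw [inv_mul_eq_one] at h3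
      simp [h3]
    · have hnt : Nontrivial A := not_subsingleton_iff_nontrivial.1 htriv
      have : Fact (Nat.Prime 2) := ⟨Nat.prime_two⟩
      have hZnt : Nontrivial (center A) := hA2.center_nontrivial
      set Z : Subgroup Γ := (center A).map A.subtype with hZ
      have hZn : Z.Normal := inferInstance
      have hZA : Z ≤ A := by
        rintro _ ⟨z, _, rfl⟩
        exact z.2
      have hZcomm : ∀ a ∈ Z, ∀ b ∈ Z, a * b = b * a := by
        rintro _ ⟨x, hx, rfl⟩ _ ⟨y, hy, rfl⟩
        have := (mem_center_iff.1 hy) x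
        simpa using congrArg Subtype.val this
      have hZ1 : 1 < Nat.card Z := by
        rw [hZ]
        have : Nat.card ((center A).map A.subtype) = Nat.card (center A) :=
          Nat.card_congr ((center A).equivMapOfInjective A.subtype
            A.subtype_injective).symm.toEquiv
        rw [this]
        exact Finite.one_lt_card
      -- the quotient
      let π := QuotientGroup.mk' Z
      let A' : Subgroup (Γ ⧸ Z) := A.map π
      have hA'n : A'.Normal := hA.map π (QuotientGroup.mk'_surjective Z)
      have hcard : Nat.card A' * Nat.card Z = Nat.card A := by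
        have h1 : Nat.card A' = (Z.subgroupOf A).index := by
          have h2 := Subgroup.index_ker (π.comp A.subtype)
          rw [MonoidHom.range_comp, Subgroup.range_subtype] at h2
          rw [show (A.map π) = A' from rfl] at h2
          rw [← h2]
          congr 1
          ext x
          simp [π, Subgroup.mem_subgroupOf, MonoidHom.mem_ker]
        rw [h1, mul_comm]
        have h3 := (Z.subgroupOf A).card_mul_index
        rw [Nat.card_congr (Subgroup.subgroupOfEquivOfLe hZA).toEquiv] at h3
        exact h3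
      have hA'n' : Nat.card A' ≤ n := by
        have h1 : 0 < Nat.card A' := Nat.card_pos
        nlinarith
      have hA'2 : IsPGroup 2 A' := hA2.map π
      have hq : ∀ b, (QuotientGroup.mk ((π.comp ρ₁) b) : (Γ ⧸ Z) ⧸ A') =
          QuotientGroup.mk ((π.comp ρ₂) b) := by
        intro b
        rw [QuotientGroup.eq]
        refine ⟨(ρ₁ b)⁻¹ * ρ₂ b, QuotientGroup.eq.1 (h b), ?_⟩
        simp [π]
      obtain ⟨a', ha', hab'⟩ := ih A' hA'n' hA'2 hB (π.comp ρ₁) (π.comp ρ₂) hq
      obtain ⟨a, ha, rfl⟩ := ha'
      let ρ₃ : B →* Γ := (MulAut.conj a).toMonoidHom.comp ρ₁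
      have h3 : ∀ s, (QuotientGroup.mk (ρ₃ s) : Γ ⧸ Z) = QuotientGroup.mk (ρ₂ s) := by
        intro s
        have := hab' s
        simp only [π, MonoidHom.comp_apply, QuotientGroup.mk'_apply] at this
        rw [this]
        simp [ρ₃]
      have hcop : (Nat.card B).Coprime (Nat.card Z) := by
        obtain ⟨k, hk⟩ := (IsPGroup.iff_card).1 (hA2.to_le hZA)
        rw [hk]
        exact Nat.Coprime.pow_right _ (Nat.coprime_two_right.2 hB)
      obtain ⟨v, hv, hv2⟩ := lifts_conj Z hZcomm ρ₃ ρ₂ h3 hcop
      refine ⟨v * a, mul_mem (hZA hv) ha, fun b => ?_⟩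
      rw [hv2 b]
      simp only [ρ₃, MonoidHom.comp_apply, MulEquiv.coe_toMonoidHom, MulAut.conj_apply]
      group

theorem cop_conj {Γ B : Type} [Group Γ] [Finite Γ] [Group B] [Finite B] (A : Subgroup Γ)
    [hA : A.Normal] (hA2 : IsPGroup 2 A) (hB : Odd (Nat.card B)) (ρ₁ ρ₂ : B →* Γ)
    (h : ∀ b, (QuotientGroup.mk (ρ₁ b) : Γ ⧸ A) = QuotientGroup.mk (ρ₂ b)) :
    ∃ a ∈ A, ∀ b, ρ₂ b = a * ρ₁ b * a⁻¹ :=
  cc_aux _ A le_rfl hA2 hB ρ₁ ρ₂ h

/-- a nontrivial finite solvable group has a nontrivial normal `p`-subgroup -/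
theorem cc_exists_normal {G : Type} [Group G] [Finite G] (hG : Group.IsSolvable G)
    (hnt : Nontrivial G) : ∃ (p : ℕ) (_ : p.Prime) (V : Subgroup G), V.Normal ∧ V ≠ ⊥ ∧
      IsPGroup p V := by
  classical
  have hex : ∃ n, derivedSeries G n = ⊥ := hG.solvable
  set n := Nat.find hex with hn
  have h0 : derivedSeries G n = ⊥ := Nat.find_spec hex
  have hn0 : n ≠ 0 := by
    intro h
    rw [h, derivedSeries_zero] at h0
    exact absurd h0 top_ne_bot
  obtain ⟨m, hm⟩ := Nat.exists_eq_succ_of_ne_zero hn0
  set A := derivedSeries G m with hA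
  have hA0 : A ≠ ⊥ := Nat.find_min hex (by omega)
  have hAcomm : ∀ a b : A, a * b = b * a := by
    rw [hm, derivedSeries_succ] at h0
    intro a b
    have h1 : ⁅(a : G), (b : G)⁆ ∈ ⁅A, A⁆ := Subgroup.commutator_mem_commutator a.2 b.2
    rw [h0, mem_bot, commutatorElement_eq_one_iff_mul_comm] at h1
    exact Subtype.ext h1
  have : A.Normal := derivedSeries_normal G m
  have hcA : Nat.card A ≠ 1 := by
    intro h
    exact hA0 ((Subgroup.eq_bot_iff_card A).2 h)
  obtain ⟨p, hp, hpA⟩ := Nat.exists_prime_and_dvd hcA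
  have : Fact p.Prime := ⟨hp⟩
  obtain ⟨P⟩ : Nonempty (Sylow p A) := inferInstance
  have hPn : (P : Subgroup A).Normal := ⟨fun x hx g => by rw [hAcomm g x]; simpa using hx⟩
  have : (P : Subgroup A).Characteristic := Sylow.characteristic_of_normal P hPn
  refine ⟨p, hp, (P : Subgroup A).map A.subtype, inferInstance, ?_, P.2.map _⟩
  rw [Ne, Subgroup.map_eq_bot_iff_of_injective _ A.subtype_injective]
  intro hP
  have h1 := P.dvd_card_of_dvd_card hpA
  rw [hP] at h1
  simp at h1
  exact hp.one_lt.ne' h1

theorem cc_two : ∀ (n : ℕ) {G : Type} [Group G] [Finite G] (_hG : Group.IsSolvable G) {a b : ℕ}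
    (_hb : Odd b) (_h : Nat.card G = 2 ^ a * b) (_hn : Nat.card G ≤ n),
    ∃ B : Subgroup G, Nat.card B = b := by
  intro n
  induction n with
  | zero =>
    intro G _ _ _ a b _ _ hn
    exact absurd (Nat.card_pos (α := G)) (by omega)
  | succ n ih =>
    intro G _ _ hG a b hb h hn
    by_cases htriv : Subsingleton G
    · have h1 : Nat.card G = 1 := Nat.card_unique
      rw [h1] at h
      have h2 : b = 1 := Nat.eq_one_of_mul_eq_one_left h.symm
      exact ⟨⊥, by rw [h2]; simp⟩
    · have hnt : Nontrivial G := not_subsingleton_iff_nontrivial.1 htriv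
      obtain ⟨p, hp, V, hVn, hV0, hVp⟩ := cc_exists_normal hG hnt
      have := hVn
      have : Fact p.Prime := ⟨hp⟩
      have hV1 : 1 < Nat.card V := by
        have : Nontrivial V := (Subgroup.nontrivial_iff_ne_bot V).2 hV0
        exact Finite.one_lt_card
      have hcm := V.card_mul_index
      rw [Subgroup.index_eq_card] at hcm
      have hq : Nat.card (G ⧸ V) ≤ n := by
        have h1 : 0 < Nat.card (G ⧸ V) := Nat.card_pos
        nlinarith
      have := hG
      have hQ : Group.IsSolvable (G ⧸ V) := inferInstance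
      obtain ⟨k, hk⟩ := (IsPGroup.iff_card).1 hVp
      -- preimage
      have hpre : ∀ U' : Subgroup (G ⧸ V),
          Nat.card (U'.comap (QuotientGroup.mk' V)) = Nat.card V * Nat.card U' := by
        intro U'
        have h1 := (U'.comap (QuotientGroup.mk' V)).card_mul_index
        rw [Subgroup.index_comap_of_surjective _ (QuotientGroup.mk'_surjective V)] at h1
        have h2 := U'.card_mul_index
        have h3 : 0 < U'.index := Nat.pos_of_ne_zero U'.index_ne_zero_of_finite
        have h4 : Nat.card (U'.comap (QuotientGroup.mk' V)) * U'.index =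
            (Nat.card V * Nat.card U') * U'.index := by
          rw [h1, mul_assoc, h2, hcm]
        exact Nat.eq_of_mul_eq_mul_right h3 h4
      by_cases hp2 : p = 2
      · subst hp2
        have hka : k ≤ a := by
          have h1 : 2 ^ k ∣ 2 ^ a * b := by rw [← hk, ← h]; exact ⟨_, hcm.symm⟩
          have h2 : 2 ^ k ∣ 2 ^ a := by
            refine Nat.Coprime.dvd_of_dvd_mul_right ?_ h1
            exact Nat.Coprime.pow_left _ (Nat.coprime_two_left.2 hb)
          exact (Nat.pow_dvd_pow_iff_le_right (by norm_num)).1 h2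
        have hqc : Nat.card (G ⧸ V) = 2 ^ (a - k) * b := by
          have h2 : 2 ^ a = 2 ^ k * 2 ^ (a - k) := by rw [← pow_add]; congr 1; omega
          rw [hk, h, h2, mul_assoc] at hcm
          exact Nat.eq_of_mul_eq_mul_left (by positivity) hcm
        obtain ⟨B', hB'⟩ := ih hQ hb hqc hq
        set U := B'.comap (QuotientGroup.mk' V) with hU
        have hUc : Nat.card U = 2 ^ k * b := by rw [hU, hpre, hk, hB']
        have hVU : V ≤ U := by
          intro x hx
          rw [hU, Subgroup.mem_comap]
          have : (QuotientGroup.mk' V) x = 1 := by simpa using hx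
          rw [this]
          exact one_mem _
        have : (V.subgroupOf U).Normal := inferInstance
        have hVUc : Nat.card (V.subgroupOf U) = 2 ^ k := by
          rw [Nat.card_congr (Subgroup.subgroupOfEquivOfLe hVU).toEquiv, hk]
        have hVUi : (V.subgroupOf U).index = b := by
          have h1 := (V.subgroupOf U).card_mul_index
          rw [hVUc, hUc] at h1
          exact Nat.eq_of_mul_eq_mul_left (by positivity) h1
        obtain ⟨K, hK⟩ := Subgroup.exists_right_complement'_of_coprime (N := V.subgroupOf U) (by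
          rw [hVUc, hVUi]
          exact Nat.Coprime.pow_left _ (Nat.coprime_two_left.2 hb))
        have hKc : Nat.card K = b := by
          have := hK.card_mul_card
          rw [hVUc, hUc] at this
          exact Nat.eq_of_mul_eq_mul_left (by positivity) this
        refine ⟨K.map U.subtype, ?_⟩
        rw [← hKc]
        exact Nat.card_congr (K.equivMapOfInjective U.subtype U.subtype_injective).symm.toEquiv
      · -- p odd
        have hcop : (p ^ k).Coprime (2 ^ a) := by
          apply Nat.Coprime.pow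
          exact (Nat.coprime_primes hp Nat.prime_two).2 hp2
        have h1 : p ^ k ∣ b := by
          refine Nat.Coprime.dvd_of_dvd_mul_left hcop ?_
          rw [← hk, ← h]
          exact ⟨_, hcm.symm⟩
        obtain ⟨b', hb'⟩ := h1
        have hb'o : Odd b' := by
          rw [hb'] at hb
          exact (Nat.odd_mul.1 hb).2
        have hpk : 0 < p ^ k := pow_pos hp.pos k
        have hqc : Nat.card (G ⧸ V) = 2 ^ a * b' := by
          rw [hk, h, hb'] at hcm
          have h5 : p ^ k * Nat.card (G ⧸ V) = p ^ k * (2 ^ a * b') := by rw [hcm]; ring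
          exact Nat.eq_of_mul_eq_mul_left hpk h5
        obtain ⟨B', hB'⟩ := ih hQ hb'o hqc hq
        exact ⟨B'.comap (QuotientGroup.mk' V), by rw [hpre, hk, hB', hb']⟩

theorem exists_two_complement {G : Type} [Group G] [Finite G] (hG : Group.IsSolvable G) {a b : ℕ}
    (hb : Odd b) (h : Nat.card G = 2 ^ a * b) : ∃ B : Subgroup G, Nat.card B = b :=
  cc_two _ hG hb h le_rfl

end Pool.Agent.EnumG
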