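import Pool.Agent.Work.MP_9de0a1_al.Ecl

/-!
# Crude : `gc(p^e) ≤ p^{(e³-e)/6}`
-/

open Subgroup

namespace Pool.Agent.EnumG

/-- a nontrivial `p`-group has a central element of order `p` -/
theorem Crude.exists_central {p : ℕ} (hp : p.Prime) (e : ℕ) (G : Type) [Group G]
    (hG : Nat.card G = p ^ (e + 1)) : ∃ z : G, z ∈ center G ∧ orderOf z = p := by
  have hf : Fact p.Prime := ⟨hp⟩
  have hfin : Finite G := Nat.finite_of_card_ne_zero (by rw [hG]; exact pow_ne_zero _ hp.ne_zero)
  have hpg : IsPGroup p G := IsPGroup.of_card hG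
  have hnt : Nontrivial G := by
    rw [← Finite.one_lt_card_iff_nontrivial, hG]
    exact Nat.one_lt_pow (by omega) hp.one_lt
  have hc : Nontrivial (center G) := hpg.center_nontrivial
  have hpc : IsPGroup p (center G) := hpg.to_subgroup _
  obtain ⟨n, hn⟩ := (IsPGroup.iff_card).1 hpc
  have hdvd : p ∣ Nat.card (center G) := by
    have h1 : 1 < Nat.card (center G) := Finite.one_lt_card_iff_nontrivial.2 hc
    rw [hn] at h1 ⊢
    rcases n with _ | n
    · simp at h1
    · exact dvd_pow_self p (by omega)
  obtain ⟨z, hz⟩ := exists_prime_orderOf_dvd_card' p hdvd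
  exact ⟨z, z.2, by rw [Subgroup.orderOf_coe]; exact hz⟩

theorem Crude.zpowers_le {G : Type} [Group G] {z : G} (hz : z ∈ center G) :
    zpowers z ≤ center G := by
  rw [Subgroup.zpowers_le]; exact hz

theorem Crude.zpowers_normal {G : Type} [Group G] {z : G} (hz : z ∈ center G) :
    (zpowers z).Normal := by
  constructor
  intro n hn g
  have h1 := Subgroup.mem_center_iff.1 (Crude.zpowers_le hz hn) g
  rw [h1, mul_inv_cancel_right]
  exact hn

theorem Crude.card_quot {p : ℕ} (hp : p.Prime) (e : ℕ) (G : Type) [Group G]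
    (hG : Nat.card G = p ^ (e + 1)) {z : G} (hz : orderOf z = p) :
    Nat.card (G ⧸ zpowers z) = p ^ e := by
  have h1 := (zpowers z).card_mul_index
  rw [Nat.card_zpowers, hz, hG, pow_succ, mul_comm] at h1
  rw [← Subgroup.index_eq_card]
  exact Nat.eq_of_mul_eq_mul_right hp.pos h1

/-- lifting generators along a quotient by a central cyclic subgroup -/
theorem Crude.closure_top {G : Type} [Group G] (Z : Subgroup G) [Z.Normal] {ι : Type}
    (g : ι → G) (h : closure (Set.range fun i => (QuotientGroup.mk (g i) : G ⧸ Z)) = ⊤) :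
    Z ⊔ closure (Set.range g) = ⊤ := by
  rw [eq_top_iff]
  intro y _
  have hy : (QuotientGroup.mk y : G ⧸ Z) ∈
      (closure (Set.range g)).map (QuotientGroup.mk' Z) := by
    rw [MonoidHom.map_closure, ← Set.range_comp]
    have : (⇑(QuotientGroup.mk' Z) ∘ g) = fun i => (QuotientGroup.mk (g i) : G ⧸ Z) := rfl
    rw [this, h]
    trivial
  obtain ⟨x, hx, hxy⟩ := hy
  have h1 : x⁻¹ * y ∈ Z := QuotientGroup.eq.1 hxy
  have : y = x * (x⁻¹ * y) := by group
  rw [this]
  exact Subgroup.mul_mem _ (Subgroup.mem_sup_right hx) (Subgroup.mem_sup_left h1)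

theorem Crude.mem_zpowers_iff_pow {G : Type} [Group G] {z x : G} (h : x ∈ zpowers z) :
    ∃ n : ℤ, x = z ^ n := by
  obtain ⟨n, hn⟩ := h
  exact ⟨n, hn.symm⟩

/-- the step: relators for a central extension -/
theorem Crude.step {p : ℕ} (G : Type) [Group G] {z : G} (hzc : z ∈ center G)
    (hz : orderOf z = p) {ι κ : Type} (x : ι → G) (R : κ → FreeGroup ι)
    (hx : zpowers z ⊔ closure (Set.range x) = ⊤)
    (hR : ∀ w, FreeGroup.lift x w ∈ zpowers z ↔ w ∈ normalClosure (Set.range R)) :
    ∃ (g : Option ι → G) (R' : Option (ι ⊕ κ) → FreeGroup (Option ι)),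
      closure (Set.range g) = ⊤ ∧
        ∀ w, FreeGroup.lift g w = 1 ↔ w ∈ normalClosure (Set.range R') := by
  classical
  -- relators of the quotient are powers of z
  have hn : ∀ j, ∃ n : ℤ, FreeGroup.lift x (R j) = z ^ n := fun j =>
    Crude.mem_zpowers_iff_pow ((hR _).2 (Subgroup.subset_normalClosure ⟨j, rfl⟩))
  choose n hn using hn
  let g : Option ι → G := fun o => o.elim z x
  let ζ : FreeGroup (Option ι) := FreeGroup.of none
  let inc : FreeGroup ι →* FreeGroup (Option ι) := FreeGroup.lift fun i => FreeGroup.of (some i)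
  let R' : Option (ι ⊕ κ) → FreeGroup (Option ι) := fun o => o.elim (ζ ^ p)
    (Sum.elim (fun i => FreeGroup.of (some i) * ζ * (FreeGroup.of (some i))⁻¹ * ζ⁻¹)
      (fun j => inc (R j) * ζ ^ (-(n j))))
  have hgn : g none = z := rfl
  have hgs : ∀ i, g (some i) = x i := fun i => rfl
  have hginc : ∀ w, FreeGroup.lift g (inc w) = FreeGroup.lift x w := by
    intro w
    have : (FreeGroup.lift g).comp inc = FreeGroup.lift x := by
      ext i
      simp [inc, hgs]
    exact DFunLike.congr_fun this w
  have hgζ : FreeGroup.lift g ζ = z := by simp [ζ, hgn]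
  have hzcomm : ∀ y : G, y * z = z * y := fun y => Subgroup.mem_center_iff.1 hzc y
  refine ⟨g, R', ?_, ?_⟩
  · rw [eq_top_iff, ← hx]
    refine sup_le ?_ ?_
    · rw [Subgroup.zpowers_le]
      exact Subgroup.subset_closure ⟨none, rfl⟩
    · rw [Subgroup.closure_le]
      rintro _ ⟨i, rfl⟩
      exact Subgroup.subset_closure ⟨some i, rfl⟩
  set N := normalClosure (Set.range R') with hN
  have hNker : N ≤ (FreeGroup.lift g).ker := by
    refine Subgroup.normalClosure_le_normal ?_
    rintro _ ⟨o, rfl⟩
    rcases o with _ | (i | j)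
    · show FreeGroup.lift g (ζ ^ p) = 1
      rw [map_pow, hgζ, ← hz, pow_orderOf_eq_one]
    · show FreeGroup.lift g (FreeGroup.of (some i) * ζ * (FreeGroup.of (some i))⁻¹ * ζ⁻¹) = 1
      rw [map_mul, map_mul, map_mul, map_inv, map_inv, hgζ, FreeGroup.lift_apply_of, hgs,
        hzcomm (x i)]
      group
    · show FreeGroup.lift g (inc (R j) * ζ ^ (-(n j))) = 1
      rw [map_mul, map_zpow, hgζ, hginc, hn j]
      group
  have hNn : N.Normal := Subgroup.normalClosure_normal
  let π : FreeGroup (Option ι) →* FreeGroup (Option ι) ⧸ N := QuotientGroup.mk' N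
  have hπ : ∀ w, π w = 1 ↔ w ∈ N := fun w => QuotientGroup.eq_one_iff w
  have hζp : π (ζ ^ p) = 1 := (hπ _).2 (Subgroup.subset_normalClosure ⟨none, rfl⟩)
  have hζc : π ζ ∈ center (FreeGroup (Option ι) ⧸ N) := by
    rw [Subgroup.mem_center_iff]
    intro y
    obtain ⟨w, rfl⟩ := QuotientGroup.mk'_surjective N y
    show π w * π ζ = π ζ * π w
    have hcen : ∀ o : Option ι, π (FreeGroup.of o) ∈ centralizer {π ζ} := by
      intro o
      rw [Subgroup.mem_centralizer_singleton_iff]
      rcases o with _ | i
      · rfl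
      · have h1 : π (FreeGroup.of (some i) * ζ * (FreeGroup.of (some i))⁻¹ * ζ⁻¹) = 1 :=
          (hπ _).2 (Subgroup.subset_normalClosure ⟨some (Sum.inl i), rfl⟩)
        rw [map_mul, map_mul, map_mul, map_inv, map_inv, mul_inv_eq_one, mul_inv_eq_iff_eq_mul] at h1
        exact h1
    have : ∀ w, π w ∈ centralizer {π ζ} := by
      intro w
      induction w using FreeGroup.induction_on with
      | C1 => rw [map_one]; exact Subgroup.one_mem _
      | of o => exact hcen o
      | inv_of o h => rw [map_inv]; exact Subgroup.inv_mem _ h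
      | mul a b ha hb => rw [map_mul]; exact Subgroup.mul_mem _ ha hb
    exact Subgroup.mem_centralizer_singleton_iff.1 (this w)
  have hTn := Crude.zpowers_normal hζc
  let T : Subgroup (FreeGroup (Option ι)) := (zpowers (π ζ)).comap π
  have hTnorm : T.Normal := hTn.comap _
  have hζT : ζ ∈ T := by
    show π ζ ∈ zpowers (π ζ)
    exact Subgroup.mem_zpowers _
  have hRT : ∀ j, inc (R j) ∈ T := by
    intro j
    show π (inc (R j)) ∈ zpowers (π ζ)
    have h1 : π (inc (R j) * ζ ^ (-(n j))) = 1 :=
      (hπ _).2 (Subgroup.subset_normalClosure ⟨some (Sum.inr j), rfl⟩)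
    rw [map_mul, mul_eq_one_iff_eq_inv, map_zpow] at h1
    rw [h1, zpow_neg, inv_inv]
    exact Subgroup.zpow_mem _ (Subgroup.mem_zpowers _) _
  let dropz : FreeGroup (Option ι) →* FreeGroup ι :=
    FreeGroup.lift fun o => o.elim 1 FreeGroup.of
  have hdrop : ∀ w, (QuotientGroup.mk' T) (inc (dropz w)) = (QuotientGroup.mk' T) w := by
    intro w
    have : ((QuotientGroup.mk' T).comp inc).comp dropz = QuotientGroup.mk' T := by
      ext o
      rcases o with _ | i
      · have h1 : (QuotientGroup.mk' T) (FreeGroup.of none) = 1 :=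
          (QuotientGroup.eq_one_iff _).2 hζT
        simp only [MonoidHom.comp_apply, dropz, FreeGroup.lift_apply_of, Option.elim_none, map_one]
        exact h1.symm
      · simp [dropz, inc]
    exact DFunLike.congr_fun this w
  have hgd : ∀ w, FreeGroup.lift g w ∈ zpowers z → FreeGroup.lift x (dropz w) ∈ zpowers z := by
    have hZn := Crude.zpowers_normal hzc
    intro w hw
    have : (QuotientGroup.mk' (zpowers z)).comp ((FreeGroup.lift x).comp dropz) =
        (QuotientGroup.mk' (zpowers z)).comp (FreeGroup.lift g) := by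
      ext o
      rcases o with _ | i
      · have h1 : (QuotientGroup.mk' (zpowers z)) z = 1 :=
          (QuotientGroup.eq_one_iff _).2 (Subgroup.mem_zpowers z)
        simp only [MonoidHom.comp_apply, dropz, FreeGroup.lift_apply_of, Option.elim_none, map_one,
          hgn]
        exact h1.symm
      · simp [dropz, hgs]
    have h2 := DFunLike.congr_fun this w
    have h3 : (QuotientGroup.mk' (zpowers z)) (FreeGroup.lift g w) = 1 :=
      (QuotientGroup.eq_one_iff _).2 hw
    have h4 : (QuotientGroup.mk' (zpowers z)) (FreeGroup.lift x (dropz w)) = 1 := h2.trans h3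
    exact (QuotientGroup.eq_one_iff _).1 h4
  intro w
  constructor
  · intro hw
    have h1 : dropz w ∈ normalClosure (Set.range R) := by
      rw [← hR]
      exact hgd w (by rw [hw]; exact Subgroup.one_mem _)
    have h2 : normalClosure (Set.range R) ≤ T.comap inc := by
      have : (T.comap inc).Normal := hTnorm.comap _
      refine Subgroup.normalClosure_le_normal ?_
      rintro _ ⟨j, rfl⟩
      exact hRT j
    have h3 : inc (dropz w) ∈ T := h2 h1
    have h4 : w ∈ T := by
      have h5 : (QuotientGroup.mk' T) (inc (dropz w)) = 1 := (QuotientGroup.eq_one_iff _).2 h3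
      rw [hdrop w] at h5
      exact (QuotientGroup.eq_one_iff _).1 h5
    obtain ⟨m, hm⟩ := Crude.mem_zpowers_iff_pow (show π w ∈ zpowers (π ζ) from h4)
    rw [← map_zpow] at hm
    have h6 : w⁻¹ * ζ ^ m ∈ N := QuotientGroup.eq.1 hm
    have h7 : FreeGroup.lift g (w⁻¹ * ζ ^ m) = 1 := hNker h6
    rw [map_mul, map_inv, hw, map_zpow, hgζ, inv_one, one_mul] at h7
    have h8 : (p : ℤ) ∣ m := by
      rw [← hz]; exact orderOf_dvd_iff_zpow_eq_one.2 h7
    obtain ⟨l, rfl⟩ := h8
    rw [← hπ, hm, zpow_mul, map_zpow, zpow_natCast, hζp, one_zpow]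
  · intro hw
    exact hNker hw

theorem presentation {p : ℕ} (hp : p.Prime) (e : ℕ) (G : Type) [Group G] (hG : Nat.card G = p ^ e) :
    ∃ (g : Fin e → G) (R : Fin (e * (e + 1) / 2) → FreeGroup (Fin e)),
      closure (Set.range g) = ⊤ ∧
        ∀ w, FreeGroup.lift g w = 1 ↔ w ∈ normalClosure (Set.range R) := by
  induction e generalizing G with
  | zero =>
    have hs : Subsingleton G := by
      have : Finite G := Nat.finite_of_card_ne_zero (by rw [hG]; simp)
      rw [← Finite.card_le_one_iff_subsingleton, hG]; simp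
    refine ⟨fun i => i.elim0, fun i => (Fin.cast (by simp) i : Fin 0).elim0, Subsingleton.elim _ _,
      fun w => ?_⟩
    have : w = 1 := Subsingleton.elim _ _
    subst this
    simp
  | succ e ih =>
    obtain ⟨z, hzc, hz⟩ := Crude.exists_central hp e G hG
    have hZn := Crude.zpowers_normal hzc
    obtain ⟨gb, R, hgb, hR⟩ := ih (G ⧸ zpowers z) (Crude.card_quot hp e G hG hz)
    let x : Fin e → G := fun i => (gb i).out
    have hx : ∀ i, (QuotientGroup.mk (x i) : G ⧸ zpowers z) = gb i := fun i => Quotient.out_eq _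
    have hx1 : zpowers z ⊔ closure (Set.range x) = ⊤ := by
      apply Crude.closure_top
      simp only [hx]
      exact hgb
    have hx2 : ∀ w, (QuotientGroup.mk (FreeGroup.lift x w) : G ⧸ zpowers z) =
        FreeGroup.lift gb w := by
      intro w
      have : (QuotientGroup.mk' (zpowers z)).comp (FreeGroup.lift x) = FreeGroup.lift gb := by
        ext i
        simp only [MonoidHom.comp_apply, FreeGroup.lift_apply_of]
        exact hx i
      exact DFunLike.congr_fun this w
    obtain ⟨g, R', hg, hR'⟩ := Crude.step G hzc hz x R hx1 (fun w => by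
      rw [← hR w, ← hx2 w, QuotientGroup.eq_one_iff])
    -- reindex
    let ei : Fin (e + 1) ≃ Option (Fin e) := finSuccEquivLast
    have hcard : Fintype.card (Option (Fin e ⊕ Fin (e * (e + 1) / 2))) =
        (e + 1) * (e + 1 + 1) / 2 := by
      rw [Fintype.card_option, Fintype.card_sum, Fintype.card_fin, Fintype.card_fin]
      have : (e + 1) * (e + 1 + 1) = e * (e + 1) + 2 * (e + 1) := by ring
      rw [this]
      omega
    let ek : Fin ((e + 1) * (e + 1 + 1) / 2) ≃ Option (Fin e ⊕ Fin (e * (e + 1) / 2)) :=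
      (Fintype.equivFinOfCardEq hcard).symm
    let Φ : FreeGroup (Option (Fin e)) ≃* FreeGroup (Fin (e + 1)) := FreeGroup.freeGroupCongr ei.symm
    refine ⟨fun i => g (ei i), fun j => Φ (R' (ek j)), ?_, ?_⟩
    · have : Set.range (fun i => g (ei i)) = Set.range g := ei.surjective.range_comp g
      rw [this]; exact hg
    · intro w
      have h1 : FreeGroup.lift (fun i => g (ei i)) w = FreeGroup.lift g (Φ.symm w) := by
        have : FreeGroup.lift (fun i => g (ei i)) = (FreeGroup.lift g).comp Φ.symm.toMonoidHom := by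
          ext i
          simp [Φ]
        rw [this]; rfl
      rw [h1, hR']
      have h2 : Set.range (fun j => Φ (R' (ek j))) = Φ '' Set.range R' := by
        rw [← Set.range_comp]
        exact ek.surjective.range_comp (Φ ∘ R')
      rw [h2]
      have h3 : normalClosure (Φ '' Set.range R') = (normalClosure (Set.range R')).map
          Φ.toMonoidHom := by
        exact (Subgroup.map_normalClosure (Set.range R') Φ.toMonoidHom Φ.surjective).symm
      rw [h3]
      constructor
      · intro h
        exact ⟨Φ.symm w, h, Φ.apply_symm_apply w⟩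
      · rintro ⟨v, hv, rfl⟩
        have : Φ.symm (Φ.toMonoidHom v) = v := Φ.symm_apply_apply v
        rw [this]; exact hv

theorem Crude.numLe {p : ℕ} (hp : p.Prime) (e : ℕ) :
    NumLe (fun G _ => Nat.card G = p ^ e) ((p : ℝ) ^ ((e + 1).choose 3)) := by
  induction e with
  | zero =>
    refine NumLe.of_data (X := Unit) (fun _ => Multiplicative (Fin 1)) ?_ ?_
    · have h3 : Nat.choose 1 3 = 0 := rfl
      simp [h3]
    · intro G _ hG
      have hs : Subsingleton G := by
        have : Finite G := Nat.finite_of_card_ne_zero (by rw [hG]; simp)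
        rw [← Finite.card_le_one_iff_subsingleton, hG]; simp
      exact ⟨(), ⟨MulEquiv.mk' (Equiv.ofBijective (fun _ : G => (1 : Multiplicative (Fin 1)))
        ⟨fun a b _ => Subsingleton.elim a b, fun b => ⟨1, Subsingleton.elim _ _⟩⟩)
        (fun _ _ => Subsingleton.elim _ _)⟩⟩
  | succ e ih =>
    have key := NumLe.fib (P := fun G _ => Nat.card G = p ^ (e + 1))
      (R := fun K _ G _ => ∃ z : G, z ∈ center G ∧ orderOf z = p ∧
        ∃ _ : (zpowers z).Normal, Nonempty ((G ⧸ zpowers z) ≃* K))
      (B := (p : ℝ) ^ ((e + 1).choose 2)) ih (by positivity) ?_ ?_ ?_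
    · rw [← pow_add] at key
      have : (e + 1).choose 3 + (e + 1).choose 2 = (e + 1 + 1).choose 3 := by
        rw [Nat.choose_succ_succ' (e + 1) 2]; ring
      rwa [this] at key
    · intro K _ hK
      obtain ⟨gK, RK, hgK, hRK⟩ := presentation hp e K hK
      have hf : Fact p.Prime := ⟨hp⟩
      have hNfin : Finite (Multiplicative (ZMod p)) := inferInstance
      refine (ecl_count_central (Multiplicative (ZMod p)) RK).mono ?_ ?_
      · have h1 : Nat.card (Multiplicative (ZMod p)) = p := by
          rw [Nat.card_congr Multiplicative.toAdd, Nat.card_zmod]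
        rw [h1, Nat.card_eq_fintype_card (α := Fin _), Fintype.card_fin, Nat.choose_two_right,
          Nat.add_sub_cancel, mul_comm (e + 1) e]
      · rintro G _ ⟨z, hzc, hz, hZn, ⟨f⟩⟩
        have hcyc : Nonempty (Multiplicative (ZMod p) ≃* zpowers z) := by
          refine ⟨mulEquivOfPrimeCardEq (p := p) ?_ ?_⟩
          · rw [Nat.card_congr Multiplicative.toAdd, Nat.card_zmod]
          · rw [Nat.card_zpowers, hz]
        obtain ⟨φ⟩ := hcyc
        have hr : ((zpowers z).subtype.comp φ.toMonoidHom).range = zpowers z := by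
          rw [MonoidHom.range_comp, MonoidHom.range_eq_top.2 φ.surjective, ← MonoidHom.range_eq_map,
            Subgroup.range_subtype]
        let x : Fin e → G := fun i => (f.symm (gK i)).out
        have hx : ∀ i, (QuotientGroup.mk (x i) : G ⧸ zpowers z) = f.symm (gK i) :=
          fun i => Quotient.out_eq _
        refine ⟨(zpowers z).subtype.comp φ.toMonoidHom,
          (Subgroup.subtype_injective _).comp φ.injective, by rw [hr]; exact Crude.zpowers_le hzc,
          x, ?_, ?_⟩
        · rw [hr]
          apply Crude.closure_top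
          simp only [hx]
          have : Set.range (fun i => f.symm (gK i)) = f.symm.toMonoidHom '' Set.range gK := by
            rw [← Set.range_comp]; rfl
          rw [this, ← MonoidHom.map_closure, hgK, ← MonoidHom.range_eq_map]
          exact MonoidHom.range_eq_top.2 f.symm.surjective
        · intro w
          rw [hr, ← hRK w, ← QuotientGroup.eq_one_iff]
          have h1 : (QuotientGroup.mk (FreeGroup.lift x w) : G ⧸ zpowers z) =
              f.symm (FreeGroup.lift gK w) := by
            have : (QuotientGroup.mk' (zpowers z)).comp (FreeGroup.lift x) =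
                f.symm.toMonoidHom.comp (FreeGroup.lift gK) := by
              ext i
              simp only [MonoidHom.comp_apply, FreeGroup.lift_apply_of]
              exact hx i
            exact DFunLike.congr_fun this w
          rw [h1]
          exact f.symm.map_eq_one_iff
    · intro G _ hG
      obtain ⟨z, hzc, hz⟩ := Crude.exists_central hp e G hG
      have hZn := Crude.zpowers_normal hzc
      exact ⟨G ⧸ zpowers z, inferInstance, Crude.card_quot hp e G hG hz, z, hzc, hz, hZn,
        ⟨MulEquiv.refl _⟩⟩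
    · rintro K K' _ _ G _ ⟨f⟩ ⟨z, hzc, hz, hZn, ⟨f'⟩⟩
      exact ⟨z, hzc, hz, hZn, ⟨f'.trans f⟩⟩

theorem gc_prime_pow_le {p : ℕ} (hp : p.Prime) (e : ℕ) :
    gc (p ^ e) ≤ p ^ ((e + 1).choose 3) := by
  exact_mod_cast gc_le (Crude.numLe hp e)

end Pool.Agent.EnumG
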