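import Mathlib

/-!
# MP_9de0a1_al : definitions (no sorry)

Goal: almost all finite solvable groups are 2-groups.
-/

open Subgroup

namespace Pool.Agent.EnumG

/-- at most `B` groups (up to isomorphism) satisfy `P` -/
def NumLe (P : ∀ (G : Type) [Group G], Prop) (B : ℝ) : Prop :=
  ∃ (X : Type) (_ : Finite X) (Γ : X → Type) (_ : ∀ x, Group (Γ x)), (Nat.card X : ℝ) ≤ B ∧
    ∀ (G : Type) [Group G], P G → ∃ x, Nonempty (G ≃* Γ x)

/-- isomorphism of two group structures on `Fin m` -/
def GIso {m : ℕ} (G1 G2 : Group (Fin m)) : Prop :=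
  Nonempty (@MulEquiv (Fin m) (Fin m)
          (@Semigroup.toMul _ (@Monoid.toSemigroup _ (@DivInvMonoid.toMonoid _ (@Group.toDivInvMonoid _ G1))))
          (@Semigroup.toMul _ (@Monoid.toSemigroup _ (@DivInvMonoid.toMonoid _ (@Group.toDivInvMonoid _ G2)))))

/-- isomorphism classes of groups of order `m` -/
abbrev Cls (m : ℕ) : Type := Quot fun G1 G2 : Group (Fin m) => GIso G1 G2

/-- number of groups of order `m` up to isomorphism -/
noncomputable def gc (m : ℕ) : ℕ := Nat.card (Cls m)

/-- number of solvable groups of order `m` up to isomorphism -/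
noncomputable def sc (m : ℕ) : ℕ :=
  Nat.card (Quot fun G1 G2 : {G : Group (Fin m) // @Group.IsSolvable (Fin m) G} => GIso G1.1 G2.1)

/-- number of isomorphism classes of groups of order `m` whose chosen representative has `P` -/
noncomputable def cnt (P : ∀ (G : Type) [Group G], Prop) (m : ℕ) : ℕ :=
  Nat.card {q : Cls m // @P (Fin m) q.out}

/-- subgroup generated by the squares -/
def sq (G : Type) [Group G] : Subgroup G := closure (Set.range fun x : G => x ^ 2)

theorem sq_map {G H : Type} [Group G] [Group H] (f : G ≃* H) :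
    (sq G).map f.toMonoidHom = sq H := by
  unfold sq
  rw [MonoidHom.map_closure]
  congr 1
  ext y
  constructor
  · rintro ⟨_, ⟨x, rfl⟩, rfl⟩
    exact ⟨f x, by simp⟩
  · rintro ⟨x, rfl⟩
    exact ⟨(f.symm x) ^ 2, ⟨f.symm x, rfl⟩, by simp⟩

instance sq_char (G : Type) [Group G] : (sq G).Characteristic :=
  Subgroup.characteristic_iff_map_eq.2 fun φ => sq_map φ

/-- the action of automorphisms on `V = G / G²` -/
noncomputable def toV (G : Type) [Group G] : MulAut G →* MulAut (G ⧸ sq G) where
  toFun φ := QuotientGroup.congr (sq G) (sq G) φ (sq_map φ)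
  map_one' := by
    ext x
    induction x using QuotientGroup.induction_on with
    | H x => rfl
  map_mul' a b := by
    ext x
    induction x using QuotientGroup.induction_on with
    | H x => rfl

theorem toV_mk {G : Type} [Group G] (φ : MulAut G) (x : G) :
    toV G φ (QuotientGroup.mk x) = QuotientGroup.mk (φ x) := rfl

/-- image of `Aut G` in `Aut V` -/
noncomputable def AV (G : Type) [Group G] : Subgroup (MulAut (G ⧸ sq G)) := (toV G).range

/-- `|[V, φ]|` -/
noncomputable def disp {G : Type} [Group G] (φ : MulAut G) : ℕ :=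
  Nat.card (Set.range fun x : G => (QuotientGroup.mk (φ x * x⁻¹) : G ⧸ sq G))

/-- the group with normal subgroup `N`, generators `g i` acting on `N` by `α i`, and relations
`R j (g) = ν j` -/
abbrev ExtG (N : Type) [Group N] {ι κ : Type} (α : ι → MulAut N) (R : κ → FreeGroup ι)
    (ν : κ → N) : Type :=
  (N ⋊[FreeGroup.lift α] FreeGroup ι) ⧸
    normalClosure (Set.range fun j => (⟨(ν j)⁻¹, R j⟩ : N ⋊[FreeGroup.lift α] FreeGroup ι))

/-- pairs `i < j` -/
abbrev Pr (e : ℕ) : Type := {p : Fin e × Fin e // p.1 < p.2}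

/-- the commutator relators -/
def cr (e : ℕ) (p : Pr e) : FreeGroup (Fin e) :=
  FreeGroup.of p.1.1 * FreeGroup.of p.1.2 * (FreeGroup.of p.1.1)⁻¹ * (FreeGroup.of p.1.2)⁻¹

end Pool.Agent.EnumG
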