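import Pool.Agent.Work.MP_9de0a1_al.Defs

/-!
# Irr : the number of irreducible actions on a given abelian group
-/

open Subgroup

namespace Pool.Agent.EnumG

/-- irreducible action -/
def IrrAct {Γ V : Type} [Group Γ] [Group V] (θ : Γ →* MulAut V) : Prop :=
  ∀ W : Subgroup V, (∀ g, ∀ w ∈ W, θ g w ∈ W) → W = ⊥ ∨ W = ⊤

theorem irr_surj {Γ V ι : Type} [Group Γ] [Group V] [Finite V] [DecidableEq ι]
    (θ : ι → Γ →* MulAut V) (hθ : ∀ i, IrrAct (θ i))
    (hne : ∀ i j, i ≠ j → ¬ ∃ u : MulAut V, ∀ g v, u (θ i g v) = θ j g (u v))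
    (M : Subgroup (ι → V)) (hM : ∀ g, ∀ x ∈ M, (fun i => θ i g (x i)) ∈ M)
    (hp : ∀ i, ∃ x ∈ M, x i ≠ 1) (s : Finset ι) :
    ∀ x : ι → V, ∃ y ∈ M, ∀ i ∈ s, y i = x i := by
  induction s using Finset.induction_on with
  | empty => intro x; exact ⟨1, M.one_mem, by simp⟩
  | insert j s hj ih =>
    -- the subgroup of `j`-coordinates of elements of `M` trivial on `s`
    let W : Subgroup V :=
      { carrier := {v | ∃ y ∈ M, (∀ i ∈ s, y i = 1) ∧ y j = v}
        one_mem' := ⟨1, M.one_mem, by simp, rfl⟩
        mul_mem' := by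
          rintro a b ⟨y, hy, hy1, rfl⟩ ⟨z, hz, hz1, rfl⟩
          exact ⟨y * z, M.mul_mem hy hz, fun i hi => by simp [hy1 i hi, hz1 i hi], rfl⟩
        inv_mem' := by
          rintro a ⟨y, hy, hy1, rfl⟩
          exact ⟨y⁻¹, M.inv_mem hy, fun i hi => by simp [hy1 i hi], rfl⟩ }
    have hW : ∀ g, ∀ w ∈ W, θ j g w ∈ W := by
      rintro g w ⟨y, hy, hy1, rfl⟩
      exact ⟨_, hM g y hy, fun i hi => by simp [hy1 i hi], rfl⟩
    rcases hθ j W hW with hbot | htop
    · exfalso
      -- `y j` determined by `y` on `s`
      have hdet : ∀ y ∈ M, (∀ i ∈ s, y i = 1) → y j = 1 := by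
        intro y hy h1
        have : y j ∈ W := ⟨y, hy, h1, rfl⟩
        rw [hbot] at this
        simpa using this
      have key : ∀ i ∈ s, ∀ y ∈ M, (∀ l ∈ s, l ≠ i → y l = 1) → y j = 1 := by
        intro i hi
        let K : Subgroup V :=
          { carrier := {v | ∃ y ∈ M, (∀ l ∈ s, l ≠ i → y l = 1) ∧ y i = v ∧ y j = 1}
            one_mem' := ⟨1, M.one_mem, by simp, rfl, rfl⟩
            mul_mem' := by
              rintro a b ⟨y, hy, hy1, rfl, hy2⟩ ⟨z, hz, hz1, rfl, hz2⟩
              exact ⟨y * z, M.mul_mem hy hz, fun l hl hli => by simp [hy1 l hl hli, hz1 l hl hli],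
                rfl, by simp [hy2, hz2]⟩
            inv_mem' := by
              rintro a ⟨y, hy, hy1, rfl, hy2⟩
              exact ⟨y⁻¹, M.inv_mem hy, fun l hl hli => by simp [hy1 l hl hli], rfl,
                by simp [hy2]⟩ }
        have hK : ∀ g, ∀ w ∈ K, θ i g w ∈ K := by
          rintro g w ⟨y, hy, hy1, rfl, hy2⟩
          exact ⟨_, hM g y hy, fun l hl hli => by simp [hy1 l hl hli], rfl, by simp [hy2]⟩
        rcases hθ i K hK with hKb | hKt
        · exfalso
          have hij : i ≠ j := fun h => hj (h ▸ hi)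
          have hex : ∀ v : V, ∃ y ∈ M, (∀ l ∈ s, l ≠ i → y l = 1) ∧ y i = v := by
            intro v
            obtain ⟨y, hy, h⟩ := ih (Function.update 1 i v)
            refine ⟨y, hy, fun l hl hli => ?_, ?_⟩
            · rw [h l hl, Function.update_of_ne hli]; rfl
            · rw [h i hi, Function.update_self]
          choose y hyM hy1 hyi using hex
          have huniq : ∀ z ∈ M, (∀ l ∈ s, l ≠ i → z l = 1) → y (z i) j = z j := by
            intro z hz hz1
            have h1 : (y (z i) * z⁻¹) j = 1 := by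
              refine hdet _ (M.mul_mem (hyM _) (M.inv_mem hz)) fun l hl => ?_
              by_cases hli : l = i
              · subst hli
                simp [hyi]
              · simp [hy1 _ l hl hli, hz1 l hl hli]
            simpa [mul_inv_eq_one] using h1
          let φ : V →* V := MonoidHom.mk' (fun v => y v j) (by
            intro a b
            have h := huniq (y a * y b) (M.mul_mem (hyM a) (hyM b))
              (fun l hl hli => by simp [hy1 _ l hl hli])
            simp only [Pi.mul_apply, hyi] at h
            exact h)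
          have hφinj : Function.Injective φ := by
            rw [injective_iff_map_eq_one]
            intro a ha
            have : a ∈ K := ⟨y a, hyM a, hy1 a, hyi a, ha⟩
            rw [hKb] at this
            simpa using this
          have hφ : Function.Bijective φ := Finite.injective_iff_bijective.1 hφinj
          refine hne i j hij ⟨MulEquiv.ofBijective φ hφ, fun g v => ?_⟩
          have h := huniq _ (hM g (y v) (hyM v))
              (fun l hl hli => by simp [hy1 _ l hl hli])
          simp only [hyi] at h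
          exact h
        · intro y hy hy1
          have : y i ∈ K := by rw [hKt]; trivial
          obtain ⟨z, hz, hz1, hzi, hzj⟩ := this
          have h1 : (y * z⁻¹) j = 1 := by
            refine hdet _ (M.mul_mem hy (M.inv_mem hz)) fun l hl => ?_
            by_cases hli : l = i
            · subst hli
              simp [hzi]
            · simp [hy1 l hl hli, hz1 l hl hli]
          simpa [hzj] using h1
      have key2 : ∀ t : Finset ι, t ⊆ s → ∀ y ∈ M, (∀ l ∈ s, l ∉ t → y l = 1) → y j = 1 := by
        intro t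
        induction t using Finset.induction_on with
        | empty => intro _ y hy h; exact hdet y hy fun l hl => h l hl (by simp)
        | insert i t hit iht =>
          intro hts y hy h
          have his : i ∈ s := hts (Finset.mem_insert_self i t)
          obtain ⟨z, hz, hz1⟩ := ih (Function.update 1 i (y i))
          have hz2 : ∀ l ∈ s, l ≠ i → z l = 1 := by
            intro l hl hli
            rw [hz1 l hl, Function.update_of_ne hli]; rfl
          have hzi : z i = y i := by rw [hz1 i his, Function.update_self]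
          have hzj : z j = 1 := key i his z hz hz2
          have h1 : (y * z⁻¹) j = 1 := by
            refine iht (fun a ha => hts (Finset.mem_insert_of_mem ha)) _
              (M.mul_mem hy (M.inv_mem hz)) fun l hl hlt => ?_
            by_cases hli : l = i
            · subst hli
              simp [hzi]
            · have : l ∉ insert i t := by
                rw [Finset.mem_insert]; push Not; exact ⟨hli, hlt⟩
              simp [h l hl this, hz2 l hl hli]
          simpa [hzj] using h1
      obtain ⟨x, hx, hxj⟩ := hp j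
      exact hxj (key2 s subset_rfl x hx fun l hl hl' => absurd hl hl')
    · intro x
      obtain ⟨y, hy, hyx⟩ := ih x
      have : (y j)⁻¹ * x j ∈ W := by rw [htop]; trivial
      obtain ⟨z, hz, hz1, hzj⟩ := this
      refine ⟨y * z, M.mul_mem hy hz, fun i hi => ?_⟩
      rcases Finset.mem_insert.1 hi with rfl | hi
      · simp [hzj]
      · simp [hz1 i hi, hyx i hi]

theorem irr_card_le {Γ V ι : Type} [Group Γ] [Finite Γ] [Group V] [Finite V] [Nontrivial V]
    [Finite ι] (hV : ∀ a b : V, a * b = b * a)
    (θ : ι → Γ →* MulAut V) (hθ : ∀ i, IrrAct (θ i))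
    (hne : ∀ i j, i ≠ j → ¬ ∃ u : MulAut V, ∀ g v, u (θ i g v) = θ j g (u v)) :
    Nat.card ι ≤ Nat.card Γ := by
  classical
  let _ : CommGroup V := { (inferInstance : Group V) with mul_comm := hV }
  have := Fintype.ofFinite ι
  have := Fintype.ofFinite Γ
  rcases isEmpty_or_nonempty ι with hι | ⟨⟨i0⟩⟩
  · simp
  -- exponent
  obtain ⟨p, hp, hpV⟩ := Nat.exists_prime_and_dvd (n := Nat.card V)
    (by have := Finite.one_lt_card (α := V); omega)
  have := Fact.mk hp
  obtain ⟨v0, hv0⟩ := exists_prime_orderOf_dvd_card' p hpV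
  have hexp : ∀ v : V, v ^ p = 1 := by
    let W : Subgroup V := (powMonoidHom p : V →* V).ker
    have hW : W = ⊥ ∨ W = ⊤ := by
      refine hθ i0 W fun g w hw => ?_
      have hw' : w ^ p = 1 := hw
      change (θ i0 g w) ^ p = 1
      rw [← map_pow, hw', map_one]
    rcases hW with h | h
    · exfalso
      have h1 : v0 ∈ W := by
        change v0 ^ p = 1
        rw [← hv0]; exact pow_orderOf_eq_one v0
      rw [h] at h1
      have h2 : v0 = 1 := by simpa using h1
      rw [h2, orderOf_one] at hv0
      exact hp.one_lt.ne hv0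
    · intro v
      have h1 : v ∈ W := by rw [h]; trivial
      exact h1
  obtain ⟨v, hv⟩ := exists_ne (1 : V)
  let y : Γ → (ι → V) := fun g i => θ i g v
  let F : (Γ → Fin p) → (ι → V) := fun c => ∏ g, y g ^ (c g : ℕ)
  have hyexp : ∀ x : ι → V, x ^ p = 1 := fun x => funext fun i => hexp (x i)
  have hFmem : ∀ c : Γ → ℕ, ∏ g, y g ^ c g ∈ Set.range F := by
    intro c
    refine ⟨fun g => ⟨c g % p, Nat.mod_lt _ hp.pos⟩, ?_⟩
    refine Finset.prod_congr rfl fun g _ => ?_
    exact (pow_eq_pow_mod (c g) (hyexp (y g))).symm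
  let M : Subgroup (ι → V) :=
    { carrier := Set.range fun c : Γ → ℕ => ∏ g, y g ^ c g
      one_mem' := ⟨0, by simp⟩
      mul_mem' := by
        rintro _ _ ⟨c, rfl⟩ ⟨d, rfl⟩
        refine ⟨c + d, ?_⟩
        simp [pow_add, Finset.prod_mul_distrib]
      inv_mem' := by
        rintro _ ⟨c, rfl⟩
        refine ⟨fun g => (p - 1) * c g, ?_⟩
        change ∏ g, y g ^ ((p - 1) * c g) = (∏ g, y g ^ c g)⁻¹
        rw [eq_inv_iff_mul_eq_one, ← Finset.prod_mul_distrib]
        refine Finset.prod_eq_one fun g _ => ?_
        rw [← pow_add]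
        have : (p - 1) * c g + c g = p * c g := by
          have := hp.one_lt
          obtain ⟨q, rfl⟩ : ∃ q, p = q + 1 := ⟨p - 1, by omega⟩
          simp; ring
        rw [this, pow_mul, hyexp, one_pow] }
  have hM : ∀ g, ∀ x ∈ M, (fun i => θ i g (x i)) ∈ M := by
    rintro g _ ⟨c, rfl⟩
    refine ⟨fun h => c (g⁻¹ * h), ?_⟩
    funext i
    simp only [Finset.prod_apply, Pi.pow_apply, map_prod, map_pow, y]
    rw [← Equiv.prod_comp (Equiv.mulLeft g)]
    refine Finset.prod_congr rfl fun h _ => ?_
    simp [map_mul]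
  have hproj : ∀ i, ∃ x ∈ M, x i ≠ 1 := by
    intro i
    refine ⟨y 1, ⟨fun h => if h = 1 then 1 else 0, ?_⟩, ?_⟩
    · change ∏ g, y g ^ (if g = 1 then 1 else 0) = y 1
      rw [Finset.prod_eq_single 1]
      · simp
      · intro b _ hb; simp [hb]
      · intro h; exact absurd (Finset.mem_univ _) h
    · simpa [y] using hv
  have hsurj : Function.Surjective F := by
    intro x
    obtain ⟨z, ⟨c, hc⟩, hz⟩ := irr_surj θ hθ hne M hM hproj Finset.univ x
    have : z = x := funext fun i => hz i (Finset.mem_univ i)
    rw [← this, ← hc]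
    exact hFmem c
  have h1 : Nat.card (ι → V) ≤ Nat.card (Γ → Fin p) := Nat.card_le_card_of_surjective F hsurj
  rw [Nat.card_fun, Nat.card_fun] at h1
  simp only [Nat.card_eq_fintype_card (α := Fin p), Fintype.card_fin] at h1
  have hpV' : p ≤ Nat.card V := Nat.le_of_dvd Nat.card_pos hpV
  have h2 : Nat.card V ^ Nat.card ι ≤ Nat.card V ^ Nat.card Γ :=
    h1.trans (Nat.pow_le_pow_left hpV' _)
  exact (Nat.pow_le_pow_iff_right Finite.one_lt_card).1 h2

theorem card_irr_le (Γ V : Type) [Group Γ] [Finite Γ] [Group V] [Finite V] [Nontrivial V]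
    (hV : ∀ a b : V, a * b = b * a) :
    Nat.card {θ : Γ →* MulAut V // IrrAct θ} ≤ Nat.card Γ * Nat.card (MulAut V) := by
  classical
  have : Finite (Γ →* MulAut V) := Finite.of_injective _ DFunLike.coe_injective
  let I := {θ : Γ →* MulAut V // IrrAct θ}
  let r : Setoid I :=
    { r := fun a b => ∃ u : MulAut V, ∀ g v, u (a.1 g v) = b.1 g (u v)
      iseqv := by
        refine ⟨fun a => ⟨1, fun g v => rfl⟩, ?_, ?_⟩
        · rintro a b ⟨u, hu⟩
          refine ⟨u⁻¹, fun g v => ?_⟩
          have := hu g (u⁻¹ v)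
          rw [MulAut.apply_inv_self] at this
          rw [← this, MulAut.inv_apply_self]
        · rintro a b c ⟨u, hu⟩ ⟨w, hw⟩
          refine ⟨w * u, fun g v => ?_⟩
          simp only [MulAut.mul_apply]
          rw [hu, hw] }
  have hQ : Nat.card (Quotient r) ≤ Nat.card Γ := by
    refine irr_card_le hV (fun q : Quotient r => q.out.1) (fun q => q.out.2) ?_
    intro q q' hqq h
    apply hqq
    have : r.r q.out q'.out := h
    have h2 : (Quotient.mk r q.out) = Quotient.mk r q'.out := Quotient.sound this
    simpa using h2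
  have hex : ∀ a : I, ∃ u : MulAut V, ∀ g v, u ((Quotient.mk r a).out.1 g v) = a.1 g (u v) :=
    fun a => Quotient.mk_out a
  choose u hu using hex
  have hinj : Function.Injective fun a : I => ((Quotient.mk r a, u a) : Quotient r × MulAut V) := by
    intro a b hab
    simp only [Prod.mk.injEq] at hab
    obtain ⟨h1, h2⟩ := hab
    apply Subtype.ext
    ext g v
    have ha := hu a g ((u a)⁻¹ v)
    have hb := hu b g ((u b)⁻¹ v)
    rw [MulAut.apply_inv_self] at ha hb
    rw [← ha, ← hb, h1, h2]
  calc Nat.card I ≤ Nat.card (Quotient r × MulAut V) := Nat.card_le_card_of_injective _ hinj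
    _ = Nat.card (Quotient r) * Nat.card (MulAut V) := Nat.card_prod _ _
    _ ≤ _ := Nat.mul_le_mul_right _ hQ

end Pool.Agent.EnumG
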