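import Pool.Agent.Work.MP_9de0a1_al.Defs
import Pool.Agent.Work.MP_9de0a1_al.Aut

/-!
# Transfer : extensions are determined by their restriction to a subgroup of coprime index
-/

open Subgroup

namespace Pool.Agent.EnumG

/-- conjugation of a normal subgroup as an endomorphism -/
def transfer_cj {G : Type} [Group G] (V : Subgroup G) [V.Normal] (g : G) : V →* V where
  toFun v := ⟨g * v * g⁻¹, ‹V.Normal›.conj_mem _ v.2 g⟩
  map_one' := by ext; simp
  map_mul' a b := by ext; simp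

theorem transfer_cj_coe {G : Type} [Group G] (V : Subgroup G) [V.Normal] (g : G) (v : V) :
    (transfer_cj V g v : G) = g * v * g⁻¹ := rfl

theorem transfer_zpow {V : Type} [Group V] {n : ℕ} (h : (Nat.card V).Coprime n) (a : V) :
    (a ^ n) ^ ((Nat.card V).gcdB n) = a := (powCoprime h).left_inv a

theorem transfer_mk_eq {G : Type} [Group G] (V : Subgroup G) [V.Normal] (a b : G) :
    (QuotientGroup.mk a : G ⧸ V) = QuotientGroup.mk b ↔ b * a⁻¹ ∈ V := by
  rw [QuotientGroup.eq]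
  constructor
  · intro h
    exact ‹V.Normal›.mem_comm h
  · intro h
    exact ‹V.Normal›.mem_comm h

theorem lifts_conj {G S : Type} [Group G] [Group S] [Finite S] [Finite G] (V : Subgroup G)
    [V.Normal] (hV : ∀ a ∈ V, ∀ b ∈ V, a * b = b * a) (σ σ' : S →* G)
    (h : ∀ s, (QuotientGroup.mk (σ s) : G ⧸ V) = QuotientGroup.mk (σ' s))
    (hcop : (Nat.card S).Coprime (Nat.card V)) : ∃ v ∈ V, ∀ s, σ' s = v * σ s * v⁻¹ := by
  classical
  haveI := Fintype.ofFinite S
  letI : CommGroup V :=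
    { (inferInstance : Group V) with mul_comm := fun a b => Subtype.ext (hV a a.2 b b.2) }
  let c : S → V := fun s => ⟨σ' s * (σ s)⁻¹, (transfer_mk_eq V _ _).1 (h s)⟩
  have hc : ∀ s t, c (s * t) = c s * transfer_cj V (σ s) (c t) := by
    intro s t
    apply Subtype.ext
    rw [Subgroup.coe_mul, transfer_cj_coe]
    simp only [c, map_mul]
    group
  have hC : ∀ s, (∏ t, c t) = (c s) ^ (Nat.card S) * transfer_cj V (σ s) (∏ t, c t) := by
    intro s
    calc (∏ t, c t) = ∏ t, c (s * t) := (Fintype.prod_equiv (Equiv.mulLeft s) _ _ fun t => rfl).symm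
      _ = ∏ t, (c s * transfer_cj V (σ s) (c t)) := Finset.prod_congr rfl fun t _ => hc s t
      _ = _ := by
        rw [Finset.prod_mul_distrib, Finset.prod_const, map_prod, Finset.card_univ,
          Nat.card_eq_fintype_card]
  set m : ℤ := (Nat.card V).gcdB (Nat.card S)
  refine ⟨((∏ t, c t) ^ m : V), ((∏ t, c t) ^ m : V).2, fun s => ?_⟩
  have h1 : (∏ t, c t) ^ m = c s * transfer_cj V (σ s) ((∏ t, c t) ^ m) := by
    conv_lhs => rw [hC s]
    rw [mul_zpow, map_zpow, transfer_zpow hcop.symm]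
  have h2 := congrArg (Subtype.val) h1
  rw [Subgroup.coe_mul, transfer_cj_coe] at h2
  have h3 : (c s : G) = σ' s * (σ s)⁻¹ := rfl
  rw [h3] at h2
  generalize (((∏ t, c t) ^ m : V) : G) = v at h2 ⊢
  have h4 : v * σ s * v⁻¹ = σ' s := by
    calc v * σ s * v⁻¹ = (σ' s * (σ s)⁻¹ * (σ s * v * (σ s)⁻¹)) * σ s * v⁻¹ := by rw [← h2]
      _ = σ' s := by group
  exact h4.symm

theorem card_lifts_coprime {G S : Type} [Group G] [Group S] [Finite S] [Finite G] (V : Subgroup G)
    [V.Normal] (hV : ∀ a ∈ V, ∀ b ∈ V, a * b = b * a) (τ : S →* G ⧸ V)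
    (hcop : (Nat.card S).Coprime (Nat.card V)) :
    Nat.card {σ : S →* G // ∀ s, (QuotientGroup.mk (σ s) : G ⧸ V) = τ s} ≤ Nat.card V := by
  classical
  rcases isEmpty_or_nonempty {σ : S →* G // ∀ s, (QuotientGroup.mk (σ s) : G ⧸ V) = τ s} with he | hn
  · rw [Nat.card_of_isEmpty]
    exact Nat.zero_le _
  · obtain ⟨σ0, h0⟩ := hn
    have key : ∀ σ : {σ : S →* G // ∀ s, (QuotientGroup.mk (σ s) : G ⧸ V) = τ s},
        ∃ v : V, ∀ s, σ.1 s = v * σ0 s * (v : G)⁻¹ := by
      intro σ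
      obtain ⟨v, hv, hs⟩ := lifts_conj V hV σ0 σ.1 (fun s => (h0 s).trans (σ.2 s).symm) hcop
      exact ⟨⟨v, hv⟩, hs⟩
    choose φ hφ using key
    apply Nat.card_le_card_of_injective φ
    intro a b hab
    apply Subtype.ext
    ext s
    rw [hφ a s, hφ b s, hab]

theorem card_lifts {G S : Type} [Group G] [Group S] [Finite S] [Finite G] (V : Subgroup G)
    [V.Normal] (τ : S →* G ⧸ V) {L : ℕ} (hL : Nat.card S ≤ 2 ^ L) :
    Nat.card {σ : S →* G // ∀ s, (QuotientGroup.mk (σ s) : G ⧸ V) = τ s} ≤ Nat.card V ^ L := by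
  classical
  obtain ⟨g, hg⟩ := exists_gens hL
  rcases isEmpty_or_nonempty {σ : S →* G // ∀ s, (QuotientGroup.mk (σ s) : G ⧸ V) = τ s} with he | hn
  · rw [Nat.card_of_isEmpty]
    exact Nat.zero_le _
  · obtain ⟨σ0, h0⟩ := hn
    let φ : {σ : S →* G // ∀ s, (QuotientGroup.mk (σ s) : G ⧸ V) = τ s} → (Fin L → V) :=
      fun σ i => ⟨σ.1 (g i) * (σ0 (g i))⁻¹,
        (transfer_mk_eq V _ _).1 ((h0 (g i)).trans (σ.2 (g i)).symm)⟩
    have hφ : Function.Injective φ := by
      intro a b hab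
      apply Subtype.ext
      have h1 : Set.EqOn a.1 b.1 (Set.range g) := by
        rintro _ ⟨i, rfl⟩
        have := congrArg Subtype.val (congrFun hab i)
        exact mul_right_cancel this
      exact MonoidHom.eq_of_eqOn_dense hg h1
    calc _ ≤ Nat.card (Fin L → V) := Nat.card_le_card_of_injective φ hφ
      _ = Nat.card V ^ L := by simp [Nat.card_fun]

theorem transfer_iso {G G' S : Type} [Group G] [Group G'] [Group S] [Finite G] [Finite G']
    (V : Subgroup G) [V.Normal] (V' : Subgroup G') [V'.Normal]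
    (hV : ∀ a ∈ V, ∀ b ∈ V, a * b = b * a)
    (e : V ≃* V') (eq : G ⧸ V ≃* G' ⧸ V')
    (hact : ∀ (g : G) (g' : G') (_ : eq (QuotientGroup.mk g) = QuotientGroup.mk g') (v : V),
      (e ⟨g * v * g⁻¹, ‹V.Normal›.conj_mem _ v.2 g⟩ : G') = g' * (e v : G') * g'⁻¹)
    (ι : S →* G) (ι' : S →* G') (hι : V ≤ ι.range)
    (hmod : ∀ s, eq (QuotientGroup.mk (ι s)) = QuotientGroup.mk (ι' s))
    (hres : ∀ s (hs : ι s ∈ V), (e ⟨ι s, hs⟩ : G') = ι' s)
    (hcop : (ι.range.index).Coprime (Nat.card V)) :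
    ∃ f : G ≃* G', (∀ v : V, f v = e v) ∧
      ∀ g, (QuotientGroup.mk (f g) : G' ⧸ V') = eq (QuotientGroup.mk g) := by
  classical
  -- the map `π` on `ι.range`
  have hker : ∀ s t, ι s = ι t → ι' s = ι' t := by
    intro s t hst
    have h1 : ι (s * t⁻¹) = 1 := by rw [map_mul, map_inv, hst, mul_inv_cancel]
    have h2 : ι (s * t⁻¹) ∈ V := h1 ▸ V.one_mem
    have h3 := hres (s * t⁻¹) h2
    have h4 : (⟨ι (s * t⁻¹), h2⟩ : V) = 1 := Subtype.ext h1
    rw [h4, map_one, map_mul, map_inv] at h3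
    have h5 : (1 : G') = ι' s * (ι' t)⁻¹ := h3
    exact (mul_inv_eq_one.1 h5.symm)
  let πf : G → G' := fun g => if h : ∃ s, ι s = g then ι' h.choose else 1
  have hπ : ∀ s, πf (ι s) = ι' s := by
    intro s
    have hs : ∃ t, ι t = ι s := ⟨s, rfl⟩
    simp only [πf, dif_pos hs]
    exact hker _ _ hs.choose_spec
  -- the section `y`
  have hy0 : ∀ q : G ⧸ ι.range, ∃ y : G', (QuotientGroup.mk y : G' ⧸ V') =
      eq (QuotientGroup.mk q.out) := fun q => QuotientGroup.mk_surjective _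
  choose y0 hy0 using hy0
  let y : G → G' := fun g =>
    y0 (QuotientGroup.mk g) * πf ((QuotientGroup.mk g : G ⧸ ι.range).out⁻¹ * g)
  have hout : ∀ g : G, ∃ s, ι s = (QuotientGroup.mk g : G ⧸ ι.range).out⁻¹ * g := by
    intro g
    have h1 : (QuotientGroup.mk ((QuotientGroup.mk g : G ⧸ ι.range).out) : G ⧸ ι.range) =
      QuotientGroup.mk g := QuotientGroup.out_eq' _
    exact QuotientGroup.eq.1 h1
  have hya : ∀ g s, y (g * ι s) = y g * ι' s := by
    intro g s
    have h1 : (QuotientGroup.mk (g * ι s) : G ⧸ ι.range) = QuotientGroup.mk g :=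
      (QuotientGroup.eq.2 (by simp : g⁻¹ * (g * ι s) ∈ ι.range)).symm
    simp only [y, h1]
    obtain ⟨t, ht⟩ := hout g
    rw [← mul_assoc, ← ht, ← map_mul, hπ, hπ, map_mul, mul_assoc]
  have hyb : ∀ g, (QuotientGroup.mk (y g) : G' ⧸ V') = eq (QuotientGroup.mk g) := by
    intro g
    simp only [y]
    obtain ⟨t, ht⟩ := hout g
    rw [← ht, hπ, QuotientGroup.mk_mul, hy0, ← hmod, ← map_mul, ← QuotientGroup.mk_mul, ht,
      mul_inv_cancel_left]
  have hyc : ∀ g (v : V), y g * (e v : G') * (y g)⁻¹ =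
      e ⟨g * v * g⁻¹, ‹V.Normal›.conj_mem _ v.2 g⟩ := fun g v => (hact g (y g) (hyb g).symm v).symm
  have hyv : ∀ g (v : V), y (g * v) = y g * e v := by
    intro g v
    obtain ⟨s, hs⟩ := hι v.2
    have h1 : ι s ∈ V := hs ▸ v.2
    have h2 : (⟨ι s, h1⟩ : V) = v := Subtype.ext hs
    rw [← hs, hya, ← hres s h1, h2]
  -- commutativity
  letI : CommGroup V' :=
    { (inferInstance : Group V') with
      mul_comm := fun a b => by
        have h1 : (e.symm a) * (e.symm b) = (e.symm b) * (e.symm a) :=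
          Subtype.ext (hV _ (e.symm a).2 _ (e.symm b).2)
        have h2 := congrArg e h1
        simpa using h2 }
  haveI := Fintype.ofFinite (G ⧸ ι.range)
  -- the cochain `ψ`
  have hψm : ∀ g t : G, y (g * t) * (y t)⁻¹ * (y g)⁻¹ ∈ V' := by
    intro g t
    rw [← QuotientGroup.eq_one_iff, QuotientGroup.mk_mul, QuotientGroup.mk_mul,
      QuotientGroup.mk_inv, QuotientGroup.mk_inv, hyb, hyb, hyb, QuotientGroup.mk_mul, map_mul]
    group
  let ψ : G → G → V' := fun g t => ⟨y (g * t) * (y t)⁻¹ * (y g)⁻¹, hψm g t⟩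
  have hψs : ∀ g t s, ψ g (t * ι s) = ψ g t := by
    intro g t s
    apply Subtype.ext
    simp only [ψ]
    rw [← mul_assoc, hya, hya]
    group
  have hψq : ∀ g t, ψ g ((QuotientGroup.mk t : G ⧸ ι.range).out) = ψ g t := by
    intro g t
    obtain ⟨s, hs⟩ := hout t
    have h1 : t = (QuotientGroup.mk t : G ⧸ ι.range).out * ι s := by
      rw [hs, mul_inv_cancel_left]
    conv_rhs => rw [h1, hψs]
  have hψv : ∀ g (v : V) t, ψ (g * v) t = ψ g t := by
    intro g v t
    apply Subtype.ext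
    simp only [ψ]
    have h1 : g * v * t = g * t * (t⁻¹ * v * t) := by group
    have h2 : t⁻¹ * (v : G) * t ∈ V := by
      simpa using ‹V.Normal›.conj_mem v.1 v.2 t⁻¹
    have h3 : y (g * v * t) = y (g * t) * e ⟨t⁻¹ * (v : G) * t, h2⟩ := by
      rw [h1]
      exact hyv (g * t) ⟨_, h2⟩
    have h4 : (⟨t * (⟨t⁻¹ * (v : G) * t, h2⟩ : V) * t⁻¹,
        ‹V.Normal›.conj_mem _ (⟨t⁻¹ * (v : G) * t, h2⟩ : V).2 t⟩ : V) = v := by
      apply Subtype.ext
      show t * (t⁻¹ * (v : G) * t) * t⁻¹ = v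
      group
    have h5 := hyc t ⟨t⁻¹ * (v : G) * t, h2⟩
    rw [h4] at h5
    rw [h3, hyv, ← h5]
    group
  let K : G → V' := fun g => ∏ q : G ⧸ ι.range, ψ g q.out
  have hKv : ∀ g (v : V), K (g * v) = K g := by
    intro g v
    exact Finset.prod_congr rfl fun q _ => hψv g v _
  let n := ι.range.index
  let c : G → G → V' := fun g k => ⟨y (g * k) * (y k)⁻¹ * (y g)⁻¹, hψm g k⟩
  have hK : ∀ g k, K g * transfer_cj V' (y g) (K k) = K (g * k) * (c g k) ^ n := by
    intro g k
    have h1 : K g = ∏ q : G ⧸ ι.range, ψ g (k * q.out) := by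
      have h2 : ∀ q : G ⧸ ι.range, ψ g (k * q.out) = ψ g ((k • q : G ⧸ ι.range).out) := by
        intro q
        have h3 : (k • q : G ⧸ ι.range) = QuotientGroup.mk (k * q.out) := by
          conv_lhs => rw [← QuotientGroup.out_eq' q]
          rfl
        rw [h3, hψq]
      rw [Finset.prod_congr rfl fun q _ => h2 q]
      exact (Fintype.prod_equiv (MulAction.toPerm k) _ _ fun q => rfl).symm
    have h2 : ∀ q : G ⧸ ι.range, ψ g (k * q.out) * transfer_cj V' (y g) (ψ k q.out) =
        ψ (g * k) q.out * c g k := by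
      intro q
      apply Subtype.ext
      rw [Subgroup.coe_mul, Subgroup.coe_mul, transfer_cj_coe]
      simp only [ψ, c, mul_assoc]
      group
    rw [h1]
    simp only [K]
    rw [map_prod, ← Finset.prod_mul_distrib, Finset.prod_congr rfl fun q _ => h2 q,
      Finset.prod_mul_distrib, Finset.prod_const, Finset.card_univ]
    simp only [n, Subgroup.index, Nat.card_eq_fintype_card]
  have hcard : Nat.card V = Nat.card V' := Nat.card_congr e.toEquiv
  have hcop' : (Nat.card V').Coprime n := by rw [← hcard]; exact hcop.symm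
  set m : ℤ := (Nat.card V').gcdB n
  have hκ : ∀ g k, (K g) ^ m * transfer_cj V' (y g) ((K k) ^ m) = (K (g * k)) ^ m * c g k := by
    intro g k
    rw [map_zpow, ← mul_zpow, hK, mul_zpow, transfer_zpow hcop']
  let F : G →* G' := MonoidHom.mk' (fun g => ((K g) ^ m : V') * y g) (by
    intro g k
    have h1 := congrArg Subtype.val (hκ g k)
    rw [Subgroup.coe_mul, Subgroup.coe_mul, transfer_cj_coe] at h1
    have h2 : (c g k : G') = y (g * k) * (y k)⁻¹ * (y g)⁻¹ := rfl
    rw [h2] at h1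
    show (((K (g * k)) ^ m : V') : G') * y (g * k) =
      (((K g) ^ m : V') : G') * y g * ((((K k) ^ m : V') : G') * y k)
    generalize (((K g) ^ m : V') : G') = a at *
    generalize (((K k) ^ m : V') : G') = b at *
    generalize (((K (g * k)) ^ m : V') : G') = d at *
    calc d * y (g * k) = (d * (y (g * k) * (y k)⁻¹ * (y g)⁻¹)) * (y g * y k) := by group
      _ = (a * (y g * b * (y g)⁻¹)) * (y g * y k) := by rw [h1]
      _ = a * y g * (b * y k) := by group)
  have hF : ∀ g, F g = ((K g) ^ m : V') * y g := fun g => rfl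
  have hFv' : ∀ g (v : V), F (g * v) = F g * e v := by
    intro g v
    rw [hF, hF, hKv, hyv]
    exact (mul_assoc _ _ _).symm
  have hFv : ∀ v : V, F v = e v := by
    intro v
    have := hFv' 1 v
    rwa [one_mul, map_one, one_mul] at this
  have hFq : ∀ g, (QuotientGroup.mk (F g) : G' ⧸ V') = eq (QuotientGroup.mk g) := by
    intro g
    rw [hF, QuotientGroup.mk_mul, hyb, (QuotientGroup.eq_one_iff _).2 ((K g) ^ m : V').2, one_mul]
  have hinj : Function.Injective F := by
    rw [injective_iff_map_eq_one]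
    intro g hg
    have h1 := hFq g
    rw [hg, QuotientGroup.mk_one] at h1
    have h2 : (QuotientGroup.mk g : G ⧸ V) = 1 := by
      apply eq.injective
      rw [← h1, map_one]
    have h3 : g ∈ V := (QuotientGroup.eq_one_iff _).1 h2
    have h4 := hFv ⟨g, h3⟩
    have h5 : ((e ⟨g, h3⟩ : V') : G') = 1 := h4.symm.trans hg
    have h6 : e ⟨g, h3⟩ = 1 := Subtype.ext h5
    have h7 : (⟨g, h3⟩ : V) = 1 := by
      apply e.injective
      rw [h6, map_one]
    exact congrArg Subtype.val h7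
  have hsurj : Function.Surjective F := by
    intro g'
    obtain ⟨g, hg⟩ := QuotientGroup.mk_surjective (eq.symm (QuotientGroup.mk g'))
    have h1 : (QuotientGroup.mk (F g) : G' ⧸ V') = QuotientGroup.mk g' := by
      rw [hFq, hg, MulEquiv.apply_symm_apply]
    have h2 : (F g)⁻¹ * g' ∈ V' := QuotientGroup.eq.1 h1
    refine ⟨g * e.symm ⟨_, h2⟩, ?_⟩
    rw [hFv', MulEquiv.apply_symm_apply]
    simp
  exact ⟨MulEquiv.ofBijective F ⟨hinj, hsurj⟩, fun v => hFv v, fun g => hFq g⟩

end Pool.Agent.EnumG
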