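import Pool.Agent.Work.MP_9de0a1_al.Cnt
import Pool.Agent.Work.MP_9de0a1_al.Transfer
import Pool.Agent.Work.MP_9de0a1_al.Irr
import Pool.Agent.Work.MP_9de0a1_al.Aut

/-!
# Marked : the number of solvable groups with given Sylow subgroups
-/

open Subgroup

namespace Pool.Agent.EnumG

/-- `G` is marked by `S` with kernels `W` -/
structure Mk {I : Type} (S : I → Type) [∀ i, Group (S i)] (W : ∀ i, Subgroup (S i)) where
  G : Type
  grp : Group G
  ι : ∀ i, S i →* G
  ker : ∀ i, (ι i).ker = W i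

/-- isomorphism of marked groups -/
def Mk.Iso {I : Type} {S : I → Type} [∀ i, Group (S i)] {W : ∀ i, Subgroup (S i)}
    (A B : Mk S W) : Prop :=
  letI := A.grp
  letI := B.grp
  ∃ f : A.G ≃* B.G, ∀ i s, f (A.ι i s) = B.ι i s

attribute [local instance] Mk.grp

section MarkedLe

variable {I : Type} {S : I → Type} [∀ i, Group (S i)] {W : ∀ i, Subgroup (S i)}

theorem marked_iso_of {A B : Mk S W} (D : Type) [Group D] (σ : ∀ i, S i → D)
    (h1 : ∃ f : A.G ≃* D, ∀ i s, f (A.ι i s) = σ i s)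
    (h2 : ∃ f : B.G ≃* D, ∀ i s, f (B.ι i s) = σ i s) : A.Iso B := by
  obtain ⟨f, hf⟩ := h1
  obtain ⟨g, hg⟩ := h2
  refine ⟨f.trans g.symm, fun i s => ?_⟩
  rw [MulEquiv.trans_apply, hf, ← hg, MulEquiv.symm_apply_apply]

/-- at most `B` classes of marked groups satisfy `P` -/
def marked_Le (P : Mk S W → Prop) (B : ℕ) : Prop :=
  ∃ (X : Type) (_ : Finite X) (Γ : X → Mk S W), Nat.card X ≤ B ∧
    ∀ A : Mk S W, P A → ∃ x, A.Iso (Γ x)

theorem marked_Le_mono {P Q : Mk S W → Prop} {A B : ℕ} (h : marked_Le P A) (hAB : A ≤ B)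
    (hPQ : ∀ X, Q X → P X) : marked_Le Q B := by
  obtain ⟨X, hX, Γ, hc, h⟩ := h
  exact ⟨X, hX, Γ, hc.trans hAB, fun A hA => h A (hPQ A hA)⟩

theorem marked_Le_ex {D : Type} [Finite D] {P : D → Mk S W → Prop} {B : ℕ}
    (h : ∀ d, marked_Le (P d) B) : marked_Le (fun A => ∃ d, P d A) (Nat.card D * B) := by
  classical
  choose X hX Γ hc h using h
  haveI := Fintype.ofFinite D
  refine ⟨Σ d, X d, inferInstance, fun x => Γ x.1 x.2, ?_, ?_⟩
  · rw [Nat.card_sigma]
    calc ∑ d, Nat.card (X d) ≤ ∑ _d : D, B := Finset.sum_le_sum fun d _ => hc d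
      _ = Nat.card D * B := by simp [Nat.card_eq_fintype_card]
  · rintro A ⟨d, hd⟩
    obtain ⟨x, hx⟩ := h d A hd
    exact ⟨⟨d, x⟩, hx⟩

theorem marked_Le_rel {P : Mk S W → Prop} {D : Type} [Finite D] (R : Mk S W → D → Prop)
    (h1 : ∀ A, P A → ∃ d, R A d) (h2 : ∀ A B d, R A d → R B d → A.Iso B) :
    marked_Le P (Nat.card D) := by
  classical
  refine ⟨{d : D // ∃ A, R A d}, inferInstance, fun d => d.2.choose,
    Nat.card_le_card_of_injective _ Subtype.val_injective, ?_⟩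
  intro A hA
  obtain ⟨d, hd⟩ := h1 A hA
  have hd' : ∃ A, R A d := ⟨A, hd⟩
  exact ⟨⟨d, hd'⟩, h2 _ _ d hd hd'.choose_spec⟩

theorem marked_Le_empty {P : Mk S W → Prop} {B : ℕ} (h : ∀ A, ¬ P A) : marked_Le P B :=
  ⟨PEmpty, inferInstance, fun x => x.elim, by simp, fun A hA => (h A hA).elim⟩

theorem marked_eps (A : Mk S W) (i : I) [(W i).Normal] (V : Subgroup A.G) [V.Normal]
    (hV : V ≤ (A.ι i).range) (W' : Subgroup (S i)) (hW' : V.comap (A.ι i) = W') :
    ∃ ε : (W' ⧸ (W i).subgroupOf W') ≃* V,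
      ∀ w : W', (ε (QuotientGroup.mk w) : A.G) = A.ι i w := by
  subst hW'
  let f : V.comap (A.ι i) →* V :=
    { toFun := fun w => ⟨A.ι i w, w.2⟩
      map_one' := by ext; simp
      map_mul' := fun a b => by ext; simp }
  have hf : ∀ w, (f w : A.G) = A.ι i w := fun w => rfl
  have hk : ∀ w : V.comap (A.ι i), f w = 1 ↔ w ∈ (W i).subgroupOf (V.comap (A.ι i)) := by
    intro w
    rw [Subgroup.mem_subgroupOf, ← A.ker i, MonoidHom.mem_ker, Subtype.ext_iff, hf]
    rfl
  let g : (V.comap (A.ι i) ⧸ (W i).subgroupOf (V.comap (A.ι i))) →* V :=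
    QuotientGroup.lift _ f fun w hw => (hk w).2 hw
  have hg : ∀ w, g (QuotientGroup.mk w) = f w := fun w => rfl
  have hinj : Function.Injective g := by
    rw [injective_iff_map_eq_one]
    intro q hq
    obtain ⟨w, rfl⟩ := QuotientGroup.mk_surjective q
    rw [hg, hk] at hq
    exact (QuotientGroup.eq_one_iff _).2 hq
  have hsurj : Function.Surjective g := by
    intro v
    obtain ⟨s, hs⟩ := hV v.2
    have h1 : s ∈ V.comap (A.ι i) := by
      rw [Subgroup.mem_comap, hs]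
      exact v.2
    exact ⟨QuotientGroup.mk ⟨s, h1⟩, by rw [hg]; exact Subtype.ext hs⟩
  exact ⟨MulEquiv.ofBijective g ⟨hinj, hsurj⟩, fun w => rfl⟩

/-- the data of a minimal normal subgroup `V` -/
def marked_Rel [DecidableEq I] (i : I) [(W i).Normal] (W' : Subgroup (S i)) (A : Mk S W)
    (B : Mk S (Function.update W i W')) (θ : B.G →* MulAut (W' ⧸ (W i).subgroupOf W'))
    (V : Subgroup A.G) [V.Normal] (φ : A.G ⧸ V ≃* B.G) : Prop :=
  (∀ a ∈ V, ∀ b ∈ V, a * b = b * a) ∧ V ≤ (A.ι i).range ∧ V.comap (A.ι i) = W' ∧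
    (∀ k s, φ (QuotientGroup.mk (A.ι k s)) = B.ι k s) ∧
    ((A.ι i).range.index).Coprime (Nat.card V) ∧
    ∀ (g : A.G) (w w' : W'),
      θ (φ (QuotientGroup.mk g)) (QuotientGroup.mk w) = QuotientGroup.mk w' →
        g * A.ι i w * g⁻¹ = A.ι i w'

theorem marked_rel_iso [DecidableEq I] (i : I) [(W i).Normal] (W' : Subgroup (S i))
    (A A' : Mk S W) [Finite A.G] [Finite A'.G]
    (B : Mk S (Function.update W i W')) (θ : B.G →* MulAut (W' ⧸ (W i).subgroupOf W'))
    (V : Subgroup A.G) [V.Normal] (φ : A.G ⧸ V ≃* B.G)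
    (V' : Subgroup A'.G) [V'.Normal] (φ' : A'.G ⧸ V' ≃* B.G)
    (h : marked_Rel i W' A B θ V φ) (h' : marked_Rel i W' A' B θ V' φ') :
    ∃ f : A.G ≃* A'.G, ∀ k s, (QuotientGroup.mk (f (A.ι k s)) : A'.G ⧸ V') =
      QuotientGroup.mk (A'.ι k s) := by
  obtain ⟨hab, hr, hW, hφ, hc, hθ⟩ := h
  obtain ⟨hab', hr', hW', hφ', hc', hθ'⟩ := h'
  obtain ⟨ε, hε⟩ := marked_eps A i V hr W' hW
  obtain ⟨ε', hε'⟩ := marked_eps A' i V' hr' W' hW'
  obtain ⟨f, hf1, hf2⟩ := transfer_iso V V' hab (ε.symm.trans ε') (φ.trans φ'.symm) (by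
    intro g g' hg v
    obtain ⟨u, rfl⟩ := ε.surjective v
    obtain ⟨w, rfl⟩ := QuotientGroup.mk_surjective u
    have hg' : φ (QuotientGroup.mk g) = φ' (QuotientGroup.mk g') := by
      rw [← hg, MulEquiv.trans_apply, MulEquiv.apply_symm_apply]
    obtain ⟨w', hw'⟩ := QuotientGroup.mk_surjective (θ (φ (QuotientGroup.mk g)) (QuotientGroup.mk w))
    have h1 := hθ g w w' hw'.symm
    have h2 := hθ' g' w w' (by rw [← hg']; exact hw'.symm)
    have h3 : (⟨g * ε (QuotientGroup.mk w) * g⁻¹, ‹V.Normal›.conj_mem _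
        (ε (QuotientGroup.mk w)).2 g⟩ : V) = ε (QuotientGroup.mk w') := by
      apply Subtype.ext
      show g * (ε (QuotientGroup.mk w) : A.G) * g⁻¹ = ε (QuotientGroup.mk w')
      rw [hε, hε, h1]
    rw [h3]
    simp only [MulEquiv.trans_apply, MulEquiv.symm_apply_apply]
    rw [hε', hε', h2])
    (A.ι i) (A'.ι i) hr (by
    intro s
    rw [MulEquiv.trans_apply, hφ, ← hφ', MulEquiv.symm_apply_apply]) (by
    intro s hs
    have h1 : s ∈ W' := hW ▸ hs
    have h2 : (⟨A.ι i s, hs⟩ : V) = ε (QuotientGroup.mk (⟨s, h1⟩ : W')) :=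
      Subtype.ext (hε ⟨s, h1⟩).symm
    rw [h2, MulEquiv.trans_apply, MulEquiv.symm_apply_apply, hε']) hc
  refine ⟨f, fun k s => ?_⟩
  rw [hf2, MulEquiv.trans_apply, hφ, ← hφ', MulEquiv.symm_apply_apply]

theorem marked_theta [DecidableEq I] (i : I) [(W i).Normal] (W' : Subgroup (S i))
    (A : Mk S W) (B : Mk S (Function.update W i W')) (V : Subgroup A.G) [V.Normal]
    (φ : A.G ⧸ V ≃* B.G) (hab : ∀ a ∈ V, ∀ b ∈ V, a * b = b * a) (hr : V ≤ (A.ι i).range)
    (hW : V.comap (A.ι i) = W') (hφ : ∀ k s, φ (QuotientGroup.mk (A.ι k s)) = B.ι k s)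
    (hc : ((A.ι i).range.index).Coprime (Nat.card V))
    (hmin : ∀ N : Subgroup A.G, N.Normal → N ≤ V → N = ⊥ ∨ N = V) :
    ∃ θ : B.G →* MulAut (W' ⧸ (W i).subgroupOf W'), IrrAct θ ∧ marked_Rel i W' A B θ V φ := by
  obtain ⟨ε, hε⟩ := marked_eps A i V hr W' hW
  have hker : V ≤ (MulAut.conjNormal (H := V)).ker := by
    intro a ha
    rw [MonoidHom.mem_ker]
    ext v
    rw [MulAut.conjNormal_apply, hab a ha v v.2, mul_inv_cancel_right]
    rfl
  let c : A.G ⧸ V →* MulAut V := QuotientGroup.lift V (MulAut.conjNormal (H := V))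
    fun a ha => hker ha
  have hc' : ∀ (g : A.G) (v : V), ((c (QuotientGroup.mk g)) v : A.G) = g * v * g⁻¹ := fun g v => rfl
  let θ : B.G →* MulAut (W' ⧸ (W i).subgroupOf W') :=
    ((MulAut.congr ε.symm).toMonoidHom.comp c).comp φ.symm.toMonoidHom
  have hθ : ∀ (g : A.G) (u : W' ⧸ (W i).subgroupOf W'),
      ((ε (θ (φ (QuotientGroup.mk g)) u) : V) : A.G) = g * ε u * g⁻¹ := by
    intro g u
    rw [← hc' g (ε u)]
    congr 1
    simp only [θ]
    show ε ((MulAut.congr ε.symm) (c (φ.symm (φ (QuotientGroup.mk g)))) u) = _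
    rw [MulEquiv.symm_apply_apply]
    show ε (ε.symm (c (QuotientGroup.mk g) (ε.symm.symm u))) = _
    rw [MulEquiv.apply_symm_apply, MulEquiv.symm_symm]
  refine ⟨θ, ?_, hab, hr, hW, hφ, hc, ?_⟩
  · intro N hN
    have h1 : ((N.map ε.toMonoidHom).map V.subtype).Normal := by
      constructor
      rintro _ ⟨_, ⟨u, hu, rfl⟩, rfl⟩ g
      refine ⟨ε (θ (φ (QuotientGroup.mk g)) u), ⟨_, hN _ u hu, rfl⟩, ?_⟩
      exact hθ g u
    have h2 : (N.map ε.toMonoidHom).map V.subtype ≤ V := by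
      rintro _ ⟨v, _, rfl⟩
      exact v.2
    rcases hmin _ h1 h2 with h3 | h3
    · left
      rw [Subgroup.map_eq_bot_iff_of_injective _ V.subtype_injective,
        Subgroup.map_eq_bot_iff_of_injective _ ε.injective] at h3
      exact h3
    · right
      rw [eq_top_iff]
      intro u _
      have h4 : (ε u : A.G) ∈ (N.map ε.toMonoidHom).map V.subtype := by
        rw [h3]
        exact (ε u).2
      obtain ⟨v, ⟨u', hu', hv⟩, hv'⟩ := h4
      have h5 : v = ε u := Subtype.ext hv'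
      have h6 : ε u' = ε u := hv.trans h5
      rw [← ε.injective h6]
      exact hu'
  · intro g w w' h
    have h1 := hθ g (QuotientGroup.mk w)
    rw [h, hε, hε] at h1
    exact h1.symm

theorem marked_exists_min (G : Type) [Group G] [Finite G] [Nontrivial G] [Group.IsSolvable G] :
    ∃ V : Subgroup G, V.Normal ∧ V ≠ ⊥ ∧ (∀ a ∈ V, ∀ b ∈ V, a * b = b * a) ∧
      (∀ N : Subgroup G, N.Normal → N ≤ V → N = ⊥ ∨ N = V) ∧
      ∃ p : ℕ, p.Prime ∧ IsPGroup p V := by
  classical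
  obtain ⟨V, hV⟩ := (Set.toFinite {V : Subgroup G | V.Normal ∧ V ≠ ⊥}).exists_minimal
    ⟨⊤, inferInstance, top_ne_bot⟩
  have hVn : V.Normal := hV.prop.1
  have hVb : V ≠ ⊥ := hV.prop.2
  have hmin : ∀ N : Subgroup G, N.Normal → N ≤ V → N = ⊥ ∨ N = V := by
    intro N hN hNV
    by_cases h : N = ⊥
    · exact Or.inl h
    · exact Or.inr (le_antisymm hNV (hV.le_of_le ⟨hN, h⟩ hNV))
  have hab : ∀ a ∈ V, ∀ b ∈ V, a * b = b * a := by
    have h1 : ⁅V, V⁆ < V := Group.IsSolvable.commutator_lt_of_ne_bot hVb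
    have h2 : ⁅V, V⁆ = ⊥ := by
      rcases hmin ⁅V, V⁆ inferInstance h1.le with h | h
      · exact h
      · exact (h1.ne h).elim
    intro a ha b hb
    have h3 : a * b * a⁻¹ * b⁻¹ ∈ ⁅V, V⁆ := Subgroup.commutator_mem_commutator ha hb
    rw [h2, Subgroup.mem_bot, mul_inv_eq_one, mul_inv_eq_iff_eq_mul] at h3
    exact h3
  refine ⟨V, hVn, hVb, hab, hmin, ?_⟩
  have hcard : Nat.card V ≠ 1 := by
    intro h
    exact hVb (Subgroup.card_eq_one.1 h)
  obtain ⟨p, hp, hpV⟩ := Nat.exists_prime_and_dvd hcard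
  refine ⟨p, hp, ?_⟩
  haveI : Fact p.Prime := ⟨hp⟩
  let N : Subgroup G :=
    { carrier := {x | x ∈ V ∧ x ^ p = 1}
      one_mem' := ⟨V.one_mem, one_pow _⟩
      mul_mem' := by
        rintro a b ⟨ha, ha'⟩ ⟨hb, hb'⟩
        refine ⟨V.mul_mem ha hb, ?_⟩
        rw [Commute.mul_pow (hab a ha b hb), ha', hb', one_mul]
      inv_mem' := by
        rintro a ⟨ha, ha'⟩
        exact ⟨V.inv_mem ha, by rw [inv_pow, ha', inv_one]⟩ }
  have hN : N.Normal := by
    constructor
    rintro a ⟨ha, ha'⟩ g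
    refine ⟨hVn.conj_mem a ha g, ?_⟩
    show (g * a * g⁻¹) ^ p = 1
    rw [conj_pow, ha']
    simp
  obtain ⟨x, hx⟩ := exists_prime_orderOf_dvd_card' p hpV
  have hNV : N ≤ V := fun a ha => ha.1
  rcases hmin N hN hNV with h | h
  · exfalso
    have h1 : (x : G) ∈ N := by
      refine ⟨x.2, ?_⟩
      have : x ^ p = 1 := by rw [← hx]; exact pow_orderOf_eq_one x
      exact congrArg Subtype.val this
    rw [h, Subgroup.mem_bot] at h1
    have h2 : x = 1 := Subtype.ext h1
    rw [h2, orderOf_one] at hx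
    exact hp.one_lt.ne hx
  · intro v
    refine ⟨1, ?_⟩
    have h1 : (v : G) ∈ N := by rw [h]; exact v.2
    apply Subtype.ext
    rw [pow_one]
    exact h1.2

theorem marked_count_W {G : Type} [Group G] [Finite G] (H : Subgroup G) (v L : ℕ) (hv : 2 ≤ v)
    (hL : Nat.card G ≤ 2 ^ L) :
    Nat.card {K : Subgroup G // H ≤ K ∧ Nat.card K = v * Nat.card H} ≤ v ^ (2 * L) := by
  classical
  have h1 : v ≤ 2 ^ Nat.clog 2 v := Nat.le_pow_clog (by norm_num) v
  have h2 : 2 ^ Nat.clog 2 v ≤ v ^ 2 := by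
    have h3 : 2 ^ (Nat.clog 2 v).pred < v := Nat.pow_pred_clog_lt_self (by norm_num) (by omega)
    have h4 : Nat.clog 2 v = (Nat.clog 2 v).pred + 1 := by
      have : 0 < Nat.clog 2 v := Nat.clog_pos (by norm_num) hv
      rw [Nat.pred_eq_sub_one]
      omega
    rw [h4, pow_succ]
    nlinarith
  have h3 : ∀ K : {K : Subgroup G // H ≤ K ∧ Nat.card K = v * Nat.card H},
      ∃ g : Fin (Nat.clog 2 v) → G, H ⊔ closure (Set.range g) = K.1 := by
    rintro ⟨K, hK1, hK2⟩
    apply exists_gens_over' H K hK1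
    rw [hK2]
    exact Nat.mul_le_mul_right _ h1
  choose g hg using h3
  have hinj : Function.Injective g := by
    intro K K' h
    apply Subtype.ext
    rw [← hg K, ← hg K', h]
  calc _ ≤ Nat.card (Fin (Nat.clog 2 v) → G) := Nat.card_le_card_of_injective g hinj
    _ = Nat.card G ^ Nat.clog 2 v := by simp [Nat.card_fun]
    _ ≤ (2 ^ L) ^ Nat.clog 2 v := Nat.pow_le_pow_left hL _
    _ = (2 ^ Nat.clog 2 v) ^ L := by rw [← pow_mul, ← pow_mul, mul_comm]
    _ ≤ (v ^ 2) ^ L := Nat.pow_le_pow_left h2 _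
    _ = v ^ (2 * L) := by rw [← pow_mul]

theorem marked_count_theta (Γ U : Type) [Group Γ] [Finite Γ] [Group U] [Finite U] [Nontrivial U]
    (hU : ∀ a b : U, a * b = b * a) (L : ℕ) (hΓ : Nat.card Γ ≤ 2 ^ L) (hUL : Nat.card U ≤ 2 ^ L) :
    Nat.card {θ : Γ →* MulAut U // IrrAct θ} ≤ Nat.card U ^ (2 * L) := by
  have h2 : 2 ≤ Nat.card U := Finite.one_lt_card
  obtain ⟨g, hg⟩ := exists_gens hUL
  calc _ ≤ Nat.card Γ * Nat.card (MulAut U) := card_irr_le Γ U hU
    _ ≤ 2 ^ L * Nat.card U ^ L := Nat.mul_le_mul hΓ (card_mulAut_le g hg)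
    _ ≤ Nat.card U ^ L * Nat.card U ^ L := Nat.mul_le_mul_right _ (Nat.pow_le_pow_left h2 _)
    _ = Nat.card U ^ (2 * L) := by rw [← pow_add]; congr 1; ring

theorem marked_count_marks [Fintype I] [DecidableEq I] [∀ i, Finite (S i)] (A : Mk S W)
    [Finite A.G] (V : Subgroup A.G) [V.Normal] (hab : ∀ a ∈ V, ∀ b ∈ V, a * b = b * a) (i : I)
    (L : ℕ) (hi : Nat.card (S i) ≤ 2 ^ L) (hI : Fintype.card I ≤ L)
    (hc : ∀ k, k ≠ i → (Nat.card (S k)).Coprime (Nat.card V)) :
    Nat.card (∀ k, {σ : S k →* A.G // ∀ s, (QuotientGroup.mk (σ s) : A.G ⧸ V) =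
      QuotientGroup.mk (A.ι k s)}) ≤ Nat.card V ^ (2 * L) := by
  have hv : 1 ≤ Nat.card V := Nat.card_pos
  rw [Nat.card_pi]
  have h1 : ∀ k, Nat.card {σ : S k →* A.G // ∀ s, (QuotientGroup.mk (σ s) : A.G ⧸ V) =
      QuotientGroup.mk (A.ι k s)} ≤ (if k = i then Nat.card V ^ L else 1) * Nat.card V := by
    intro k
    by_cases hk : k = i
    · subst hk
      rw [if_pos rfl]
      calc _ ≤ Nat.card V ^ L := card_lifts V ((QuotientGroup.mk' V).comp (A.ι k)) hi
        _ ≤ _ := Nat.le_mul_of_pos_right _ hv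
    · rw [if_neg hk, one_mul]
      exact card_lifts_coprime V hab ((QuotientGroup.mk' V).comp (A.ι k)) (hc k hk)
  calc _ ≤ ∏ k, ((if k = i then Nat.card V ^ L else 1) * Nat.card V) :=
        Finset.prod_le_prod' fun k _ => h1 k
    _ = Nat.card V ^ L * Nat.card V ^ Fintype.card I := by
        rw [Finset.prod_mul_distrib, Finset.prod_const, Finset.card_univ, Finset.prod_ite_eq' ]
        simp
    _ ≤ Nat.card V ^ L * Nat.card V ^ L :=
        Nat.mul_le_mul_left _ (Nat.pow_le_pow_right hv hI)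
    _ = Nat.card V ^ (2 * L) := by rw [← pow_add]; congr 1; ring

/-- the predicate on `V` -/
def marked_V (i : I) (v : ℕ) (A : Mk S W) (V : Subgroup A.G) : Prop :=
  V.Normal ∧ (∀ a ∈ V, ∀ b ∈ V, a * b = b * a) ∧ V ≤ (A.ι i).range ∧
    ((A.ι i).range.index).Coprime (Nat.card V) ∧
    (∀ N : Subgroup A.G, N.Normal → N ≤ V → N = ⊥ ∨ N = V) ∧ Nat.card V = v ∧
    ∀ k, k ≠ i → (Nat.card (S k)).Coprime (Nat.card V)

theorem marked_quot_ker [DecidableEq I] (i : I) (A : Mk S W) (V : Subgroup A.G) [V.Normal]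
    [Finite A.G] [∀ i, Finite (S i)]
    (hc : ∀ k, k ≠ i → (Nat.card (S k)).Coprime (Nat.card V)) (k : I) :
    ((QuotientGroup.mk' V).comp (A.ι k)).ker = Function.update W i (V.comap (A.ι i)) k := by
  ext s
  rw [MonoidHom.mem_ker, MonoidHom.comp_apply, QuotientGroup.mk'_apply, QuotientGroup.eq_one_iff]
  by_cases hk : k = i
  · subst hk
    rw [Function.update_self, Subgroup.mem_comap]
  · rw [Function.update_of_ne hk, ← A.ker k, MonoidHom.mem_ker]
    constructor
    · intro h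
      have h1 : orderOf (A.ι k s) ∣ Nat.card (S k) :=
        (orderOf_map_dvd (A.ι k) s).trans (orderOf_dvd_natCard s)
      have h2 : orderOf (A.ι k s) ∣ Nat.card V := Subgroup.orderOf_dvd_natCard V h
      exact orderOf_eq_one_iff.1 (Nat.eq_one_of_dvd_coprimes (hc k hk) h1 h2)
    · intro h
      rw [h]
      exact V.one_mem

theorem marked_step3 [Fintype I] [DecidableEq I] [∀ i, Finite (S i)] (i : I) [(W i).Normal]
    (L n v : ℕ) (hn : n ≠ 0)
    (hi : Nat.card (S i) ≤ 2 ^ L) (hI : Fintype.card I ≤ L) (W' : Subgroup (S i))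
    (B : Mk S (Function.update W i W')) (θ : B.G →* MulAut (W' ⧸ (W i).subgroupOf W')) :
    marked_Le (fun A : Mk S W => Nat.card A.G = n ∧ ∃ (V : Subgroup A.G) (_ : V.Normal)
      (φ : A.G ⧸ V ≃* B.G), marked_V i v A V ∧ marked_Rel i W' A B θ V φ) (v ^ (2 * L)) := by
  by_cases hex : ∃ A : Mk S W, Nat.card A.G = n ∧ ∃ (V : Subgroup A.G) (_ : V.Normal)
      (φ : A.G ⧸ V ≃* B.G), marked_V i v A V ∧ marked_Rel i W' A B θ V φ
  swap
  · exact marked_Le_empty fun A hA => hex ⟨A, hA⟩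
  obtain ⟨A0, hA0, V0, hV0, φ0, h1, h2⟩ := hex
  have h3 := h1
  obtain ⟨-, hab, -, -, -, hv, hc⟩ := h3
  haveI : Finite A0.G := Nat.finite_of_card_ne_zero (by rw [hA0]; exact hn)
  haveI : ∀ k, Finite (S k →* A0.G) := fun k => DFunLike.finite _
  refine marked_Le_mono (marked_Le_rel (D := ∀ k, {σ : S k →* A0.G // ∀ s,
    (QuotientGroup.mk (σ s) : A0.G ⧸ V0) = QuotientGroup.mk (A0.ι k s)})
    (fun A d => ∃ f : A.G ≃* A0.G, ∀ k s, f (A.ι k s) = (d k).1 s) ?_ ?_)
    ((marked_count_marks A0 V0 hab i L hi hI hc).trans_eq (by rw [hv])) fun A hA => hA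
  · rintro A ⟨hA, V, hV, φ, h4, h5⟩
    haveI : Finite A.G := Nat.finite_of_card_ne_zero (by rw [hA]; exact hn)
    obtain ⟨f, hf⟩ := marked_rel_iso i W' A A0 B θ V φ V0 φ0 h5 h2
    show ∃ d : ∀ k, {σ : S k →* A0.G // ∀ s,
      (QuotientGroup.mk (σ s) : A0.G ⧸ V0) = QuotientGroup.mk (A0.ι k s)}, _
    exact ⟨fun k => ⟨f.toMonoidHom.comp (A.ι k), hf k⟩, f, fun k s => rfl⟩
  · rintro A B d h4 h5
    exact marked_iso_of A0.G (fun k => (d k).1) h4 h5

theorem marked_step [Fintype I] [DecidableEq I] [∀ i, Finite (S i)]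
    (hW : ∀ i, (W i).Normal) (i : I)
    (L n v : ℕ) (hn : n ≠ 0) (hnL : n ≤ 2 ^ L) (hv : 2 ≤ v)
    (hi : Nat.card (S i) ≤ 2 ^ L) (hI : Fintype.card I ≤ L)
    (IH : ∀ W' : Subgroup (S i), W'.Normal → W i ≤ W' → Nat.card W' = v * Nat.card (W i) →
      marked_Le (fun A : Mk S (Function.update W i W') => Nat.card A.G = n / v ∧
        Group.IsSolvable A.G) ((n / v) ^ (7 * L))) :
    marked_Le (fun A : Mk S W => Nat.card A.G = n ∧ Group.IsSolvable A.G ∧
      ∃ V : Subgroup A.G, marked_V i v A V) (v ^ (2 * L) * ((n / v) ^ (7 * L) *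
        (v ^ (2 * L) * v ^ (2 * L)))) := by
  haveI := hW i
  have key : ∀ K : {K : Subgroup (S i) // W i ≤ K ∧ Nat.card K = v * Nat.card (W i)},
      marked_Le (fun A : Mk S W => Nat.card A.G = n ∧ Group.IsSolvable A.G ∧
        ∃ V : Subgroup A.G, marked_V i v A V ∧ V.comap (A.ι i) = K.1)
        ((n / v) ^ (7 * L) * (v ^ (2 * L) * v ^ (2 * L))) := by
    rintro ⟨K, hK1, hK2⟩
    by_cases hex : ∃ A : Mk S W, Nat.card A.G = n ∧ Group.IsSolvable A.G ∧
        ∃ V : Subgroup A.G, marked_V i v A V ∧ V.comap (A.ι i) = K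
    swap
    · exact marked_Le_empty fun A hA => hex ⟨A, hA⟩
    obtain ⟨A0, hA0, -, V0, h1, h2⟩ := hex
    obtain ⟨hV0, hab0, hr0, -, -, hv0, -⟩ := h1
    haveI : Finite A0.G := Nat.finite_of_card_ne_zero (by rw [hA0]; exact hn)
    have hvn : v ∣ n := by
      rw [← hv0, ← hA0]
      exact Subgroup.card_subgroup_dvd_card V0
    have hnv : n / v ≠ 0 := by
      have := Nat.div_pos (Nat.le_of_dvd (Nat.pos_of_ne_zero hn) hvn) (by omega : 0 < v)
      omega
    have hKn : K.Normal := by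
      rw [← h2]
      infer_instance
    obtain ⟨ε, hε⟩ := marked_eps A0 i V0 hr0 K h2
    have hUc : ∀ a b : K ⧸ (W i).subgroupOf K, a * b = b * a := by
      intro a b
      apply ε.injective
      rw [map_mul, map_mul]
      exact Subtype.ext (hab0 _ (ε a).2 _ (ε b).2)
    have hUcard : Nat.card (K ⧸ (W i).subgroupOf K) = v := by
      rw [← hv0]
      exact Nat.card_congr ε.toEquiv
    haveI : Nontrivial (K ⧸ (W i).subgroupOf K) := by
      rw [← Finite.one_lt_card_iff_nontrivial, hUcard]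
      omega
    have hUL : Nat.card (K ⧸ (W i).subgroupOf K) ≤ 2 ^ L := by
      rw [hUcard]
      have h3 : v ≤ Nat.card K := by
        rw [hK2]
        exact Nat.le_mul_of_pos_right _ Nat.card_pos
      exact (h3.trans (Subgroup.card_le_card_group K)).trans hi
    obtain ⟨X, hX, Γ, hXc, hΓ⟩ := IH K hKn hK1 hK2
    have key2 : ∀ x : {x : X // Nat.card (Γ x).G = n / v},
        marked_Le (fun A : Mk S W => Nat.card A.G = n ∧ ∃ (V : Subgroup A.G) (_ : V.Normal),
          marked_V i v A V ∧ V.comap (A.ι i) = K ∧ ∃ φ : A.G ⧸ V ≃* (Γ x.1).G,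
            ∀ k s, φ (QuotientGroup.mk (A.ι k s)) = (Γ x.1).ι k s)
          (v ^ (2 * L) * v ^ (2 * L)) := by
      rintro ⟨x, hx⟩
      haveI : Finite (Γ x).G := Nat.finite_of_card_ne_zero (by rw [hx]; exact hnv)
      haveI : Finite (MulAut (K ⧸ (W i).subgroupOf K)) := DFunLike.finite _
      haveI : Finite ((Γ x).G →* MulAut (K ⧸ (W i).subgroupOf K)) := DFunLike.finite _
      have hcθ := marked_count_theta (Γ x).G (K ⧸ (W i).subgroupOf K) hUc L
        (by rw [hx]; exact (Nat.div_le_self _ _).trans hnL) hUL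
      rw [hUcard] at hcθ
      refine marked_Le_mono (marked_Le_ex (D := {θ : (Γ x).G →* MulAut (K ⧸ (W i).subgroupOf K) //
        IrrAct θ}) fun θ => marked_step3 i L n v hn hi hI K (Γ x) θ.1)
        (Nat.mul_le_mul_right _ hcθ) ?_
      rintro A ⟨hA, V, hV, h3, h4, φ, hφ⟩
      have h5 := h3
      obtain ⟨-, hab, hr, hc, hmin, -, -⟩ := h5
      obtain ⟨θ, hθ1, hθ2⟩ := marked_theta i K A (Γ x) V φ hab hr h4 hφ hc hmin
      exact ⟨⟨θ, hθ1⟩, hA, V, hV, φ, h3, hθ2⟩
    refine marked_Le_mono (marked_Le_ex key2) (Nat.mul_le_mul_right _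
      ((Nat.card_le_card_of_injective _ Subtype.val_injective).trans hXc)) ?_
    rintro A ⟨hA, hsolv, V, h3, h4⟩
    have h5 := h3
    obtain ⟨hVn, hab, hr, hc, hmin, hvV, hcop⟩ := h5
    haveI : Finite A.G := Nat.finite_of_card_ne_zero (by rw [hA]; exact hn)
    have hcardq : Nat.card (A.G ⧸ V) = n / v := by
      rw [← hA, ← hvV, Subgroup.card_eq_card_quotient_mul_card_subgroup V,
        Nat.mul_div_cancel _ Nat.card_pos]
    let A' : Mk S (Function.update W i K) :=
      { G := A.G ⧸ V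
        grp := inferInstance
        ι := fun k => (QuotientGroup.mk' V).comp (A.ι k)
        ker := fun k => (marked_quot_ker i A V hcop k).trans (by rw [h4]) }
    obtain ⟨x, hx⟩ := hΓ A' ⟨hcardq, (inferInstance : Group.IsSolvable (A.G ⧸ V))⟩
    obtain ⟨φ, hφ⟩ := hx
    refine ⟨⟨x, ?_⟩, hA, V, hVn, h3, h4, φ, hφ⟩
    rw [← hcardq]
    exact (Nat.card_congr φ.toEquiv).symm
  refine marked_Le_mono (marked_Le_ex key) (Nat.mul_le_mul_right _
    (marked_count_W (W i) v L hv hi)) ?_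
  rintro A ⟨hA, hsolv, V, h3⟩
  have h5 := h3
  obtain ⟨hVn, hab, hr, hc, hmin, hvV, hcop⟩ := h5
  haveI : Finite A.G := Nat.finite_of_card_ne_zero (by rw [hA]; exact hn)
  have hle : W i ≤ V.comap (A.ι i) := by
    intro s hs
    rw [← A.ker i, MonoidHom.mem_ker] at hs
    rw [Subgroup.mem_comap, hs]
    exact V.one_mem
  obtain ⟨ε, hε⟩ := marked_eps A i V hr _ rfl
  have hcardK : Nat.card (V.comap (A.ι i)) = v * Nat.card (W i) := by
    have h6 := Subgroup.card_eq_card_quotient_mul_card_subgroup ((W i).subgroupOf (V.comap (A.ι i)))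
    rw [h6, Nat.card_congr ε.toEquiv, hvV, Nat.card_congr (Subgroup.subgroupOfEquivOfLe hle).toEquiv]
  exact ⟨⟨V.comap (A.ι i), hle, hcardK⟩, hA, hsolv, V, h3, rfl⟩

theorem marked_triv : marked_Le (fun A : Mk S W => Nat.card A.G = 1 ∧ Group.IsSolvable A.G) 1 := by
  have h := marked_Le_rel (P := fun A : Mk S W => Nat.card A.G = 1 ∧ Group.IsSolvable A.G)
    (D := Unit) (fun A _ => Nat.card A.G = 1) (fun A hA => ⟨(), hA.1⟩) (by
      intro A B _ hA hB
      haveI : Subsingleton A.G := (Nat.card_eq_one_iff_unique.1 hA).1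
      haveI : Subsingleton B.G := (Nat.card_eq_one_iff_unique.1 hB).1
      refine ⟨{ toFun := fun _ => 1, invFun := fun _ => 1, left_inv := fun _ => Subsingleton.elim _ _,
                right_inv := fun _ => Subsingleton.elim _ _,
                map_mul' := fun _ _ => Subsingleton.elim _ _ }, fun i s => Subsingleton.elim _ _⟩)
  simpa using h

theorem marked_exists_V [Fintype I] [DecidableEq I] [∀ i, Finite (S i)] (p a : I → ℕ)
    (hp : ∀ i, (p i).Prime) (hinj : Function.Injective p)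
    (hS : ∀ i, Nat.card (S i) = p i ^ a i) (n : ℕ)
    (hn : n = ∏ i, (W i).index) (hn1 : 1 < n) (A : Mk S W) (hA : Nat.card A.G = n)
    [Group.IsSolvable A.G] :
    ∃ (i : I) (t : ℕ), t < a i ∧ ∃ V : Subgroup A.G, marked_V i (p i ^ (t + 1)) A V := by
  haveI : Finite A.G := Nat.finite_of_card_ne_zero (by omega)
  haveI : Nontrivial A.G := by
    rw [← Finite.one_lt_card_iff_nontrivial, hA]
    exact hn1
  obtain ⟨V, hVn, hVb, hab, hmin, q, hq, hqV⟩ := marked_exists_min A.G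
  haveI : Fact q.Prime := ⟨hq⟩
  obtain ⟨t, ht⟩ := IsPGroup.iff_card.1 hqV
  have ht0 : t ≠ 0 := by
    rintro rfl
    rw [pow_zero] at ht
    exact hVb (Subgroup.card_eq_one.1 ht)
  have hidx : ∀ k, (W k).index ∣ p k ^ a k := fun k => by
    rw [← hS k]
    exact (W k).index_dvd_card
  have hqn : q ∣ ∏ i, (W i).index := by
    rw [← hn, ← hA]
    exact ((dvd_pow_self q ht0).trans (dvd_of_eq ht.symm)).trans (Subgroup.card_subgroup_dvd_card V)
  obtain ⟨i, -, hi⟩ := (Prime.dvd_finsetProd_iff hq.prime _).1 hqn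
  have hqi : q = p i :=
    (Nat.prime_dvd_prime_iff_eq hq (hp i)).1 (hq.dvd_of_dvd_pow (hi.trans (hidx i)))
  subst hqi
  have hcop : ∀ k, k ≠ i → (p k ^ a k).Coprime (p i ^ t) := fun k hk =>
    Nat.Coprime.pow _ _ ((Nat.coprime_primes (hp k) (hp i)).2 fun h => hk (hinj h))
  have hrange : Nat.card (A.ι i).range = (W i).index := by
    rw [← Subgroup.index_ker, A.ker i]
  have hindex : (A.ι i).range.index = ∏ k ∈ Finset.univ.erase i, (W k).index := by
    have h1 := Subgroup.card_mul_index (A.ι i).range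
    rw [hrange, hA, hn, ← Finset.mul_prod_erase Finset.univ _ (Finset.mem_univ i)] at h1
    have h2 : 0 < (W i).index := Nat.pos_of_ne_zero (Subgroup.index_ne_zero_of_finite)
    exact Nat.eq_of_mul_eq_mul_left h2 h1
  have hcop2 : ((A.ι i).range.index).Coprime (p i ^ t) := by
    rw [hindex]
    apply Nat.Coprime.prod_left
    intro k hk
    exact Nat.Coprime.coprime_dvd_left (hidx k) (hcop k (Finset.ne_of_mem_erase hk))
  have hpr : IsPGroup (p i) (A.ι i).range := by
    obtain ⟨b, hb⟩ := (Nat.dvd_prime_pow (hp i)).1 (hidx i)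
    exact IsPGroup.of_card (n := b) (hrange.trans hb.2)
  have hnd : ¬ p i ∣ (A.ι i).range.index := by
    intro h
    have h1 : p i ∣ p i ^ t := dvd_pow_self _ ht0
    exact (hp i).one_lt.ne' (Nat.eq_one_of_dvd_coprimes hcop2 h h1)
  have hle : V ≤ (A.ι i).range := hqV.le_sylow_of_normal (hpr.toSylow hnd)
  refine ⟨i, t - 1, ?_, V, hVn, hab, hle, by rw [ht]; exact hcop2, hmin, ?_, ?_⟩
  · have h1 : p i ^ t ∣ p i ^ a i := by
      rw [← ht]
      exact ((Subgroup.card_dvd_of_le hle).trans (dvd_of_eq hrange)).trans (hidx i)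
    have h2 := (Nat.pow_dvd_pow_iff_le_right (hp i).one_lt).1 h1
    omega
  · rw [ht]
    congr 1
    omega
  · intro k hk
    rw [ht, hS k]
    exact hcop k hk

end MarkedLe

theorem marked_count {I : Type} [Finite I] [Fintype I] (S : I → Type) [∀ i, Group (S i)]
    [∀ i, Finite (S i)] (p : I → ℕ) (hp : ∀ i, (p i).Prime) (hinj : Function.Injective p)
    (hS : ∀ i, IsPGroup (p i) (S i)) (hne : ∀ i, Nontrivial (S i)) (L : ℕ)
    (hL : ∏ i, Nat.card (S i) ≤ 2 ^ L) (W : ∀ i, Subgroup (S i)) (hW : ∀ i, (W i).Normal) (n : ℕ)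
    (hn : n = ∏ i, (W i).index) :
    ∃ (X : Type) (_ : Finite X) (Γ : X → Mk S W), Nat.card X ≤ n ^ (7 * L) ∧
      ∀ A : Mk S W, @Nat.card A.G = n → @Group.IsSolvable A.G A.grp → ∃ x, A.Iso (Γ x) := by
  classical
  have hcard : ∀ i, ∃ a, Nat.card (S i) = p i ^ a := fun i => by
    haveI : Fact (p i).Prime := ⟨hp i⟩
    exact IsPGroup.iff_card.1 (hS i)
  choose a ha using hcard
  have hpos : ∀ i, 0 < Nat.card (S i) := fun i => Nat.card_pos
  have hi : ∀ i, Nat.card (S i) ≤ 2 ^ L := by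
    intro i
    refine le_trans ?_ hL
    exact Finset.single_le_prod' (f := fun i => Nat.card (S i)) (fun k _ => hpos k) (Finset.mem_univ i)
  have ha1 : ∀ i, 1 ≤ a i := by
    intro i
    by_contra h
    have h1 : a i = 0 := by omega
    have h2 : 1 < Nat.card (S i) := Finite.one_lt_card
    rw [ha i, h1, pow_zero] at h2
    exact lt_irrefl _ h2
  have hsum : ∑ i, a i ≤ L := by
    have h1 : 2 ^ (∑ i, a i) ≤ 2 ^ L := by
      rw [← Finset.prod_pow_eq_pow_sum]
      refine le_trans (Finset.prod_le_prod' fun i _ => ?_) hL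
      rw [ha i]
      exact Nat.pow_le_pow_left (hp i).two_le _
    exact (Nat.pow_le_pow_iff_right (by norm_num)).1 h1
  have hI : Fintype.card I ≤ L := by
    refine le_trans ?_ hsum
    calc Fintype.card I = ∑ _i : I, 1 := by simp
      _ ≤ ∑ i, a i := Finset.sum_le_sum fun i _ => ha1 i
  suffices H : ∀ n, ∀ W : ∀ i, Subgroup (S i), (∀ i, (W i).Normal) → n = ∏ i, (W i).index →
      marked_Le (fun A : Mk S W => Nat.card A.G = n ∧ Group.IsSolvable A.G) (n ^ (7 * L)) by
    obtain ⟨X, hX, Γ, h1, h2⟩ := H n W hW hn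
    exact ⟨X, hX, Γ, h1, fun A hA1 hA2 => h2 A ⟨hA1, hA2⟩⟩
  clear hn hW W n
  intro n
  induction n using Nat.strong_induction_on with
  | _ n ih =>
  intro W hW hn
  have hn0 : n ≠ 0 := by
    rw [hn]
    exact Finset.prod_ne_zero_iff.2 fun i _ => Subgroup.index_ne_zero_of_finite
  have hnL : n ≤ 2 ^ L := by
    rw [hn]
    refine le_trans (Finset.prod_le_prod' fun i _ => ?_) hL
    exact Nat.le_of_dvd (hpos i) (W i).index_dvd_card
  by_cases hn1 : n = 1
  · subst hn1
    exact marked_Le_mono marked_triv (by simp) fun A hA => hA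
  have hn2 : 1 < n := by omega
  have key : ∀ d : (Σ i, Fin (a i)), marked_Le (fun A : Mk S W => Nat.card A.G = n ∧
      Group.IsSolvable A.G ∧ ∃ V : Subgroup A.G, marked_V d.1 (p d.1 ^ (d.2.1 + 1)) A V)
      (n ^ (7 * L) / 2 ^ L) := by
    rintro ⟨i, t⟩
    generalize hv : p i ^ (t.1 + 1) = v
    have hv2 : 2 ≤ v := by
      rw [← hv]
      calc 2 ≤ p i := (hp i).two_le
        _ = p i ^ 1 := (pow_one _).symm
        _ ≤ p i ^ (t.1 + 1) := Nat.pow_le_pow_right (hp i).pos (by omega)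
    by_cases hvn : v ∣ n
    swap
    · refine marked_Le_empty ?_
      rintro A ⟨hA, -, V, -, -, -, -, -, hV, -⟩
      apply hvn
      rw [← hV, ← hA]
      exact Subgroup.card_subgroup_dvd_card V
    refine marked_Le_mono (marked_step hW i L n v hn0 hnL hv2 (hi i) hI ?_) ?_ fun A hA => hA
    · intro W' hW' hle hc
      have h1 : n = v * ∏ k, (Function.update W i W' k).index := by
        rw [hn, ← Finset.mul_prod_erase Finset.univ _ (Finset.mem_univ i),
          ← Finset.mul_prod_erase Finset.univ (fun k => (Function.update W i W' k).index)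
            (Finset.mem_univ i), ← mul_assoc, Function.update_self]
        have h2 : (W i).index = v * W'.index := by
          have h3 := Subgroup.card_mul_index (W i)
          have h4 := Subgroup.card_mul_index W'
          rw [← h4, hc] at h3
          have h5 : 0 < Nat.card (W i) := Nat.card_pos
          apply Nat.eq_of_mul_eq_mul_left h5
          rw [h3]
          ring
        rw [h2]
        congr 1
        refine Finset.prod_congr rfl fun k hk => ?_
        rw [Function.update_of_ne (Finset.ne_of_mem_erase hk)]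
      have h2 : n / v = ∏ k, (Function.update W i W' k).index := by
        conv_lhs => rw [h1]
        exact Nat.mul_div_cancel_left _ (by omega)
      refine ih (n / v) (Nat.div_lt_self (by omega) (by omega)) _ ?_ h2
      intro k
      by_cases hk : k = i
      · subst hk
        rw [Function.update_self]
        exact hW'
      · rw [Function.update_of_ne hk]
        exact hW k
    · rw [Nat.le_div_iff_mul_le (by positivity)]
      calc v ^ (2 * L) * ((n / v) ^ (7 * L) * (v ^ (2 * L) * v ^ (2 * L))) * 2 ^ L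
          ≤ v ^ (2 * L) * ((n / v) ^ (7 * L) * (v ^ (2 * L) * v ^ (2 * L))) * v ^ L :=
            Nat.mul_le_mul_left _ (Nat.pow_le_pow_left hv2 _)
        _ = (v * (n / v)) ^ (7 * L) := by
            rw [mul_pow]
            have : v ^ (7 * L) = v ^ (2 * L) * (v ^ (2 * L) * v ^ (2 * L)) * v ^ L := by
              rw [← pow_add, ← pow_add, ← pow_add]
              congr 1
              ring
            rw [this]
            ring
        _ = n ^ (7 * L) := by rw [Nat.mul_div_cancel' hvn]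
  refine marked_Le_mono (marked_Le_ex key) ?_ ?_
  · have h1 : Nat.card (Σ i, Fin (a i)) ≤ 2 ^ L := by
      rw [Nat.card_sigma]
      simp only [Nat.card_eq_fintype_card, Fintype.card_fin]
      exact hsum.trans Nat.lt_two_pow_self.le
    calc Nat.card (Σ i, Fin (a i)) * (n ^ (7 * L) / 2 ^ L) ≤ 2 ^ L * (n ^ (7 * L) / 2 ^ L) :=
          Nat.mul_le_mul_right _ h1
      _ ≤ n ^ (7 * L) := Nat.mul_div_le _ _
  · rintro A ⟨hA, hsolv⟩
    obtain ⟨i, t, ht, V, hV⟩ := marked_exists_V p a hp hinj ha n hn hn2 A hA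
    exact ⟨⟨i, ⟨t, ht⟩⟩, hA, hsolv, V, hV⟩

theorem solvable_count (L m : ℕ) (h0 : m ≠ 0) (hm : m ≤ 2 ^ L) :
    NumLe (fun G _ => Nat.card G = m ∧ Group.IsSolvable G)
      (2 ^ (7 * L ^ 2) * ∏ p ∈ m.primeFactors, (gc (p ^ m.factorization p) : ℝ)) := by
  classical
  have hpr : ∀ p : m.primeFactors, (p : ℕ).Prime := fun p => Nat.prime_of_mem_primeFactors p.2
  have hne : ∀ p : m.primeFactors, (p : ℕ) ^ m.factorization p ≠ 0 := fun p =>
    pow_ne_zero _ (hpr p).ne_zero
  have hnum := fun p : m.primeFactors => numLe_gc (hne p)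
  choose X hX Γ hgrp hXc hΓ using hnum
  haveI := hX
  letI := hgrp
  let D : Type := ∀ p : m.primeFactors, {x : X p // Nat.card (Γ p x) = (p : ℕ) ^ m.factorization p}
  have key : ∀ d : D, NumLe (fun G _ => ∃ A : Mk (fun p => Γ p (d p).1) (fun _ => ⊥),
      Nat.card A.G = m ∧ Group.IsSolvable A.G ∧ Nonempty (G ≃* A.G)) (2 ^ (7 * L ^ 2)) := by
    intro d
    haveI : ∀ p, Finite (Γ p (d p).1) := fun p =>
      Nat.finite_of_card_ne_zero (by rw [(d p).2]; exact hne p)
    have hprod : ∏ p : m.primeFactors, Nat.card (Γ p (d p).1) = m := by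
      rw [Finset.prod_congr rfl fun p _ => (d p).2, Finset.prod_coe_sort m.primeFactors
        (fun p => p ^ m.factorization p)]
      exact Nat.prod_factorization_pow_eq_self h0
    obtain ⟨Y, hY, Δ, hYc, hΔ⟩ := marked_count (fun p => Γ p (d p).1) (fun p => (p : ℕ)) hpr
      Subtype.val_injective (fun p => by
        haveI : Fact (p : ℕ).Prime := ⟨hpr p⟩
        exact IsPGroup.of_card (d p).2) (fun p => by
        rw [← Finite.one_lt_card_iff_nontrivial, (d p).2]
        exact Nat.one_lt_pow (by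
          rw [← Nat.pos_iff_ne_zero]
          exact (hpr p).factorization_pos_of_dvd h0 (Nat.dvd_of_mem_primeFactors p.2))
          (hpr p).one_lt) L (by rw [hprod]; exact hm) (fun _ => ⊥) (fun _ => inferInstance) m (by
        exact hprod.symm.trans (Finset.prod_congr rfl fun p _ => by rw [Subgroup.index_bot]))
    refine ⟨Y, hY, fun y => (Δ y).G, fun y => (Δ y).grp, ?_, ?_⟩
    · have h1 : Nat.card Y ≤ 2 ^ (7 * L ^ 2) := by
        refine hYc.trans ((Nat.pow_le_pow_left hm _).trans_eq ?_)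
        rw [← pow_mul]
        congr 1
        ring
      exact_mod_cast h1
    · rintro G _ ⟨A, hA1, hA2, ⟨e⟩⟩
      obtain ⟨y, f, hf⟩ := hΔ A hA1 hA2
      exact ⟨y, ⟨e.trans f⟩⟩
  refine NumLe.mono (NumLe.ex key) ?_ ?_
  · rw [mul_comm]
    refine mul_le_mul_of_nonneg_left ?_ (by positivity)
    rw [Nat.card_pi, Nat.cast_prod]
    refine (Finset.prod_le_prod (fun p _ => Nat.cast_nonneg _) (fun p _ => ?_)).trans_eq
      (Finset.prod_coe_sort m.primeFactors (fun p => (gc (p ^ m.factorization p) : ℝ)))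
    refine le_trans ?_ (hXc p)
    exact_mod_cast Nat.card_le_card_of_injective _ Subtype.val_injective
  · rintro G _ ⟨hG, hsolv⟩
    haveI : Finite G := Nat.finite_of_card_ne_zero (by rw [hG]; exact h0)
    have h1 : ∀ p : m.primeFactors, ∃ (P : Subgroup G) (x : X p),
        Nat.card P = (p : ℕ) ^ m.factorization p ∧ Nonempty (P ≃* Γ p x) := by
      intro p
      haveI : Fact (p : ℕ).Prime := ⟨hpr p⟩
      obtain ⟨P⟩ := (inferInstance : Nonempty (Sylow p G))
      have h2 : Nat.card (P : Subgroup G) = (p : ℕ) ^ m.factorization p := by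
        have h3 := P.card_eq_multiplicity
        rw [hG] at h3
        exact h3
      obtain ⟨x, hx⟩ := hΓ p (P : Subgroup G) h2
      exact ⟨P, x, h2, hx⟩
    choose P x hP he using h1
    refine ⟨fun p => ⟨x p, by rw [← hP p]; exact (Nat.card_congr (he p).some.toEquiv).symm⟩,
      { G := G
        grp := inferInstance
        ι := fun p => (P p).subtype.comp (he p).some.symm.toMonoidHom
        ker := fun p => ?_ }, hG, hsolv, ⟨MulEquiv.refl G⟩⟩
    rw [MonoidHom.ker_eq_bot_iff]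
    exact (P p).subtype_injective.comp (he p).some.symm.injective

end Pool.Agent.EnumG
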