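import Pool.Agent.Work.MP_9de0a1_al.Bdd
import Pool.Agent.Work.MP_9de0a1_al.Marked
import Pool.Agent.Work.MP_9de0a1_al.Crude

/-!
# Final : almost all finite solvable groups are 2-groups
-/

open Subgroup Filter Topology

namespace Pool.Agent.EnumG

namespace Final

theorem exp_le {p e n : ℕ} (hp : 3 ≤ p) (h : p ^ e < 2 ^ n) : 19 * e ≤ 12 * n := by
  have h1 : (3 ^ e) ^ 19 ≤ (2 ^ n) ^ 19 :=
    Nat.pow_le_pow_left ((Nat.pow_le_pow_left hp e).trans h.le) 19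
  have h2 : (2 ^ n) ^ 19 ≤ 3 ^ (12 * n) := by
    calc (2 ^ n) ^ 19 = (2 ^ 19) ^ n := by rw [← pow_mul, ← pow_mul, mul_comm]
      _ ≤ (3 ^ 12) ^ n := Nat.pow_le_pow_left (by norm_num) n
      _ = 3 ^ (12 * n) := by rw [← pow_mul]
  have h3 : 3 ^ (19 * e) ≤ 3 ^ (12 * n) := by
    calc 3 ^ (19 * e) = (3 ^ e) ^ 19 := by rw [← pow_mul, mul_comm]
      _ ≤ _ := h1.trans h2
  exact (Nat.pow_le_pow_iff_right (by norm_num)).1 h3

theorem choose3 (e : ℕ) : (((e + 1).choose 3 : ℕ) : ℝ) = e * ((e : ℝ) ^ 2 - 1) / 6 := by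
  induction e with
  | zero => simp
  | succ e ih =>
    have h := Nat.choose_succ_succ' (e + 1) 2
    rw [h, Nat.cast_add, ih, Nat.cast_choose_two]
    push_cast
    ring

theorem gc_odd_le {p e n : ℕ} (hp : p.Prime) (h3 : 3 ≤ p) (h : p ^ e < 2 ^ n) :
    (gc (p ^ e) : ℝ) ≤ ((p : ℝ) ^ e) ^ (24 / 361 * (n : ℝ) ^ 2) := by
  have h1 : (gc (p ^ e) : ℝ) ≤ (p : ℝ) ^ ((e + 1).choose 3) := by
    exact_mod_cast gc_prime_pow_le hp e
  refine h1.trans ?_
  have hp1 : (1 : ℝ) ≤ p := by exact_mod_cast hp.one_lt.le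
  have hp0 : (0 : ℝ) ≤ p := by positivity
  rw [← Real.rpow_natCast, ← Real.rpow_natCast, ← Real.rpow_mul hp0, choose3]
  apply Real.rpow_le_rpow_of_exponent_le hp1
  have h2 : (19 : ℝ) * e ≤ 12 * n := by exact_mod_cast exp_le h3 h
  have he : (0 : ℝ) ≤ e := Nat.cast_nonneg _
  have h4 : (361 : ℝ) * e ^ 2 ≤ 144 * n ^ 2 := by nlinarith
  have h5 : ((e : ℝ) ^ 2 - 1) / 6 ≤ 24 / 361 * (n : ℝ) ^ 2 := by nlinarith
  calc (e : ℝ) * ((e : ℝ) ^ 2 - 1) / 6 = e * (((e : ℝ) ^ 2 - 1) / 6) := by ring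
    _ ≤ e * (24 / 361 * (n : ℝ) ^ 2) := mul_le_mul_of_nonneg_left h5 he

theorem odd_prod {b n : ℕ} (hb : Odd b) (h : b < 2 ^ n) :
    (∏ p ∈ b.primeFactors, (gc (p ^ b.factorization p) : ℝ)) ≤
      2 ^ (24 / 361 * (n : ℝ) ^ 3) := by
  have hb0 : b ≠ 0 := by
    rintro rfl
    simp at hb
  have h1 : ∀ p ∈ b.primeFactors, (gc (p ^ b.factorization p) : ℝ) ≤
      ((p : ℝ) ^ b.factorization p) ^ (24 / 361 * (n : ℝ) ^ 2) := by
    intro p hp
    have hpp := Nat.prime_of_mem_primeFactors hp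
    have hpd := Nat.dvd_of_mem_primeFactors hp
    have hp3 : 3 ≤ p := by
      have h2 := hpp.two_le
      rcases h2.lt_or_eq with h2 | h2
      · exact h2
      · exfalso
        subst h2
        exact (Nat.not_even_iff_odd.2 hb) (even_iff_two_dvd.2 hpd)
    exact gc_odd_le hpp hp3 ((Nat.le_of_dvd (Nat.pos_of_ne_zero hb0)
      (Nat.ordProj_dvd b p)).trans_lt h)
  refine (Finset.prod_le_prod (fun _ _ => Nat.cast_nonneg _) h1).trans ?_
  rw [Real.finsetProd_rpow _ _ (fun _ _ => by positivity)]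
  have h2 : (∏ p ∈ b.primeFactors, (p : ℝ) ^ b.factorization p) = b := by
    have := Nat.prod_factorization_pow_eq_self hb0
    rw [Finsupp.prod, Nat.support_factorization] at this
    exact_mod_cast this
  rw [h2]
  have h3 : (b : ℝ) ≤ (2 : ℝ) ^ (n : ℝ) := by
    rw [Real.rpow_natCast]
    exact_mod_cast h.le
  calc (b : ℝ) ^ (24 / 361 * (n : ℝ) ^ 2) ≤ ((2 : ℝ) ^ (n : ℝ)) ^ (24 / 361 * (n : ℝ) ^ 2) :=
        Real.rpow_le_rpow (Nat.cast_nonneg _) h3 (by positivity)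
    _ = 2 ^ (24 / 361 * (n : ℝ) ^ 3) := by
        rw [← Real.rpow_mul (by norm_num)]
        congr 1
        ring

theorem one_le_gc {m : ℕ} (hm : m ≠ 0) : (1 : ℝ) ≤ gc m := by
  exact_mod_cast gc_pos hm

theorem full_prod {a b : ℕ} (hb : Odd b) :
    (∏ p ∈ (2 ^ a * b).primeFactors, (gc (p ^ (2 ^ a * b).factorization p) : ℝ)) ≤
      gc (2 ^ a) * ∏ p ∈ b.primeFactors, (gc (p ^ b.factorization p) : ℝ) := by
  have hb0 : b ≠ 0 := by
    rintro rfl
    simp at hb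
  have h2b : 2 ∉ b.primeFactors := by
    intro h
    exact (Nat.not_even_iff_odd.2 hb) (even_iff_two_dvd.2 (Nat.dvd_of_mem_primeFactors h))
  have hfac : ∀ p, (2 ^ a * b).factorization p = a * (Nat.factorization 2 p) +
      b.factorization p := by
    intro p
    rw [Nat.factorization_mul (by positivity) hb0, Nat.factorization_pow]
    simp
  have h2 : (2 ^ a * b).factorization 2 = a := by
    rw [hfac, Nat.Prime.factorization_self Nat.prime_two,
      Nat.factorization_eq_zero_of_not_dvd (fun h =>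
        (Nat.not_even_iff_odd.2 hb) (even_iff_two_dvd.2 h))]
    simp
  have hp : ∀ p ∈ b.primeFactors, (2 ^ a * b).factorization p = b.factorization p := by
    intro p hp
    have hne : p ≠ 2 := fun h => h2b (h ▸ hp)
    rw [hfac, Nat.Prime.factorization Nat.prime_two, Finsupp.single_apply, if_neg hne.symm]
    simp
  have hsub : (2 ^ a * b).primeFactors ⊆ insert 2 b.primeFactors := by
    intro p hp
    have hpp := Nat.prime_of_mem_primeFactors hp
    have hpd := Nat.dvd_of_mem_primeFactors hp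
    rcases (Nat.Prime.dvd_mul hpp).1 hpd with h | h
    · have := hpp.dvd_of_dvd_pow h
      rw [(Nat.prime_dvd_prime_iff_eq hpp Nat.prime_two).1 this]
      exact Finset.mem_insert_self _ _
    · exact Finset.mem_insert_of_mem (Nat.mem_primeFactors.2 ⟨hpp, h, hb0⟩)
  have h1 : (∏ p ∈ (2 ^ a * b).primeFactors, (gc (p ^ (2 ^ a * b).factorization p) : ℝ)) ≤
      ∏ p ∈ insert 2 b.primeFactors, (gc (p ^ (2 ^ a * b).factorization p) : ℝ) := by
    refine Finset.prod_le_prod_of_subset_of_one_le hsub (fun _ _ => Nat.cast_nonneg _) ?_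
    intro p hp _
    have hp0 : p ≠ 0 := by
      rcases Finset.mem_insert.1 hp with rfl | h
      · norm_num
      · exact (Nat.prime_of_mem_primeFactors h).ne_zero
    exact one_le_gc (pow_ne_zero _ hp0)
  refine h1.trans (le_of_eq ?_)
  rw [Finset.prod_insert h2b, h2]
  congr 1
  exact Finset.prod_congr rfl fun p hp' => by rw [hp p hp']

/-- the general bound -/
theorem sc_bound {a b k : ℕ} (hb : Odd b) (h : 2 ^ a * b < 2 ^ (k + 1)) (ha : a ≤ k + 1) :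
    (sc (2 ^ a * b) : ℝ) ≤ 2 ^ (7 * ((k : ℝ) + 1) ^ 2) * gc (2 ^ a) *
      2 ^ (24 / 361 * ((k : ℝ) + 1 - a) ^ 3) := by
  have hb0 : b ≠ 0 := by
    rintro rfl
    simp at hb
  have h1 := sc_le (solvable_count (k + 1) (2 ^ a * b) (mul_ne_zero (by positivity) hb0) h.le)
  have hbn : b < 2 ^ (k + 1 - a) := by
    have h2 : 2 ^ (k + 1) = 2 ^ a * 2 ^ (k + 1 - a) := by
      rw [← pow_add]; congr 1; omega
    rw [h2] at h
    exact Nat.lt_of_mul_lt_mul_left h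
  have h2 := odd_prod hb hbn
  have h3 := full_prod (a := a) hb
  have hcast : (((k + 1 - a : ℕ) : ℝ)) = (k : ℝ) + 1 - a := by
    rw [Nat.cast_sub ha]; push_cast; ring
  rw [hcast] at h2
  have h4 : ((2 : ℝ) ^ (7 * (k + 1) ^ 2) : ℝ) = 2 ^ (7 * ((k : ℝ) + 1) ^ 2) := by
    rw [← Real.rpow_natCast]
    congr 1
    push_cast
    ring
  refine h1.trans ?_
  rw [h4, mul_assoc]
  refine mul_le_mul_of_nonneg_left (h3.trans ?_) (by positivity)
  exact mul_le_mul_of_nonneg_left h2 (Nat.cast_nonneg _)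

theorem real1 {k a C : ℝ} (hk : 2000 ≤ k) (hC : C ≤ k) (ha0 : 0 ≤ a) (ha : a ≤ 9 / 10 * k) :
    7 * (k + 1) ^ 2 + (C + (2 / 27 + 1 / 1000) * a ^ 3) + 24 / 361 * (k + 1 - a) ^ 3 ≤
      -(2 * k) + (2 / 27 * k ^ 3 - 3 * k ^ 2) := by
  have h1 : (2 / 27 + 1 / 1000) * a ^ 3 ≤ 24 / 361 * (k + 1) ^ 2 * a := by
    have : (2 / 27 + 1 / 1000) * a ^ 2 ≤ 24 / 361 * (k + 1) ^ 2 := by nlinarith
    nlinarith
  have h2 : 24 / 361 * (k + 1 - a) ^ 3 ≤ 24 / 361 * (k + 1) ^ 2 * (k + 1 - a) := by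
    have h3 : 0 ≤ k + 1 - a := by linarith
    have h4 : (k + 1 - a) ^ 2 ≤ (k + 1) ^ 2 := by nlinarith
    nlinarith
  have h3 : 24 / 361 * (k + 1) ^ 2 * a + 24 / 361 * (k + 1) ^ 2 * (k + 1 - a) =
      24 / 361 * (k + 1) ^ 3 := by ring
  have h4 : 24 / 361 * (k + 1) ^ 3 + 7 * (k + 1) ^ 2 + k ≤
      -(2 * k) + (2 / 27 * k ^ 3 - 3 * k ^ 2) := by nlinarith [mul_nonneg (sq_nonneg k) (by linarith : (0:ℝ) ≤ k - 2000), sq_nonneg k]
  linarith

theorem real2 {k a : ℝ} (hk : 2000 ≤ k) (ha : 9 / 10 * k ≤ a) (hd : a + 50 ≤ k) :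
    7 * (k + 1) ^ 2 + 24 / 361 * (k + 1 - a) ^ 3 ≤
      -(2 * k) + (2 / 9 - 1 / 100) * a ^ 2 * (k - a) := by
  set d := k - a with hd'
  have hd50 : 50 ≤ d := by linarith
  have hdk : d ≤ 1 / 10 * k := by linarith
  have ha2 : 81 / 100 * k ^ 2 ≤ a ^ 2 := by nlinarith
  have h1 : 17 / 100 * k ^ 2 * d ≤ (2 / 9 - 1 / 100) * a ^ 2 * d := by
    apply mul_le_mul_of_nonneg_right _ (by linarith)
    nlinarith
  have h2 : (d + 1) ^ 2 ≤ 11 / 1000 * k ^ 2 := by nlinarith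
  have h3 : 24 / 361 * (k + 1 - a) ^ 3 ≤ 1 / 1000 * k ^ 2 * (d + 1) := by
    have e : k + 1 - a = d + 1 := by rw [hd']; ring
    rw [e]
    have : 24 / 361 * (d + 1) ^ 2 ≤ 1 / 1000 * k ^ 2 := by nlinarith
    nlinarith
  have h4 : 7 * (k + 1) ^ 2 + 1 / 1000 * k ^ 2 * (d + 1) + 2 * k ≤ 17 / 100 * k ^ 2 * d := by
    have h5 : 50 * k ^ 2 ≤ k ^ 2 * d := by nlinarith [sq_nonneg k]
    nlinarith [sq_nonneg k]
  linarith

end Final

open Final in
theorem key : ∃ k0 : ℕ, ∀ k : ℕ, k0 ≤ k → ∀ a b : ℕ, Odd b → 3 ≤ b → 2 ^ a * b < 2 ^ (k + 1) →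
    (sc (2 ^ a * b) : ℝ) ≤ 2 ^ (-(2 * k : ℝ)) * gc (2 ^ k) := by
  obtain ⟨k1, h1⟩ := sims_upper (1 / 1000) (by norm_num)
  obtain ⟨k2, h2⟩ := ratio_iter (1 / 100) (by norm_num) (by norm_num)
  obtain ⟨k3, h3⟩ := bdd (2 ^ 50)
  set C : ℕ := ∑ a ∈ Finset.range k1, gc (2 ^ a) with hC
  refine ⟨2000 + C + 2 * k2 + k3, fun k hk a b hb hb3 hab => ?_⟩
  have hk2000 : (2000 : ℝ) ≤ k := by exact_mod_cast (by omega : 2000 ≤ k)
  have hkC : (C : ℝ) ≤ k := by exact_mod_cast (by omega : C ≤ k)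
  have hak : a ≤ k := by
    by_contra h
    push Not at h
    have h5 : 2 ^ (k + 1) ≤ 2 ^ a := Nat.pow_le_pow_right (by norm_num) h
    nlinarith [(by positivity : 0 < 2 ^ a)]
  have hg0 : (0 : ℝ) ≤ gc (2 ^ k) := Nat.cast_nonneg _
  have hsc := sc_bound hb hab (by omega : a ≤ k + 1)
  by_cases hA : (a : ℝ) ≤ 9 / 10 * k
  · -- small `a`
    have hga : (gc (2 ^ a) : ℝ) ≤ 2 ^ ((C : ℝ) + (2 / 27 + 1 / 1000) * (a : ℝ) ^ 3) := by
      by_cases ha1 : k1 ≤ a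
      · refine (gc_le (h1 a ha1)).trans ?_
        apply Real.rpow_le_rpow_of_exponent_le (by norm_num)
        have : (0 : ℝ) ≤ C := Nat.cast_nonneg _
        linarith
      · have h5 : gc (2 ^ a) ≤ C :=
          Finset.single_le_sum (f := fun a => gc (2 ^ a)) (fun _ _ => Nat.zero_le _)
            (Finset.mem_range.2 (by omega))
        have h6 : (gc (2 ^ a) : ℝ) ≤ (2 : ℝ) ^ (C : ℝ) := by
          rw [Real.rpow_natCast]
          exact_mod_cast h5.trans Nat.lt_two_pow_self.le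
        refine h6.trans ?_
        apply Real.rpow_le_rpow_of_exponent_le (by norm_num)
        have : (0 : ℝ) ≤ (2 / 27 + 1 / 1000) * (a : ℝ) ^ 3 := by positivity
        linarith
    calc (sc (2 ^ a * b) : ℝ) ≤ 2 ^ (7 * ((k : ℝ) + 1) ^ 2) * gc (2 ^ a) *
          2 ^ (24 / 361 * ((k : ℝ) + 1 - a) ^ 3) := hsc
      _ ≤ 2 ^ (7 * ((k : ℝ) + 1) ^ 2) * 2 ^ ((C : ℝ) + (2 / 27 + 1 / 1000) * (a : ℝ) ^ 3) *
          2 ^ (24 / 361 * ((k : ℝ) + 1 - a) ^ 3) := by gcongr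
      _ = 2 ^ (7 * ((k : ℝ) + 1) ^ 2 + ((C : ℝ) + (2 / 27 + 1 / 1000) * (a : ℝ) ^ 3) +
          24 / 361 * ((k : ℝ) + 1 - a) ^ 3) := by
          rw [Real.rpow_add (x := 2) (by norm_num) (7 * ((k : ℝ) + 1) ^ 2 + ((C : ℝ) +
            (2 / 27 + 1 / 1000) * (a : ℝ) ^ 3)), Real.rpow_add (x := 2) (by norm_num)
            (7 * ((k : ℝ) + 1) ^ 2)]
      _ ≤ 2 ^ (-(2 * k : ℝ) + (2 / 27 * (k : ℝ) ^ 3 - 3 * (k : ℝ) ^ 2)) := by
          apply Real.rpow_le_rpow_of_exponent_le (by norm_num)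
          exact real1 hk2000 hkC (Nat.cast_nonneg _) hA
      _ = 2 ^ (-(2 * k : ℝ)) * 2 ^ (2 / 27 * (k : ℝ) ^ 3 - 3 * (k : ℝ) ^ 2) :=
          Real.rpow_add (by norm_num) _ _
      _ ≤ 2 ^ (-(2 * k : ℝ)) * gc (2 ^ k) := by
          refine mul_le_mul_of_nonneg_left (higman k) (by positivity)
  · push Not at hA
    by_cases hd : a + 50 ≤ k
    · -- medium `a`
      have ha2 : k2 ≤ a := by
        have : (k2 : ℝ) ≤ a := by
          have h5 : (2 * k2 : ℝ) ≤ k := by exact_mod_cast (by omega : 2 * k2 ≤ k)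
          linarith
        exact_mod_cast this
      have h5 := h2 a k ha2 hak
      have hd' : (a : ℝ) + 50 ≤ k := by exact_mod_cast hd
      have hpos : (0 : ℝ) < 2 ^ ((2 / 9 - 1 / 100) * (a : ℝ) ^ 2 * ((k : ℝ) - a)) := by positivity
      have hga : (gc (2 ^ a) : ℝ) ≤
          2 ^ (-((2 / 9 - 1 / 100) * (a : ℝ) ^ 2 * ((k : ℝ) - a))) * gc (2 ^ k) := by
        rw [Real.rpow_neg (by norm_num), ← div_eq_inv_mul, le_div_iff₀ hpos, mul_comm]
        exact h5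
      calc (sc (2 ^ a * b) : ℝ) ≤ 2 ^ (7 * ((k : ℝ) + 1) ^ 2) * gc (2 ^ a) *
            2 ^ (24 / 361 * ((k : ℝ) + 1 - a) ^ 3) := hsc
        _ ≤ 2 ^ (7 * ((k : ℝ) + 1) ^ 2) *
            (2 ^ (-((2 / 9 - 1 / 100) * (a : ℝ) ^ 2 * ((k : ℝ) - a))) * gc (2 ^ k)) *
            2 ^ (24 / 361 * ((k : ℝ) + 1 - a) ^ 3) := by gcongr
        _ = 2 ^ (7 * ((k : ℝ) + 1) ^ 2 + 24 / 361 * ((k : ℝ) + 1 - a) ^ 3 +
            -((2 / 9 - 1 / 100) * (a : ℝ) ^ 2 * ((k : ℝ) - a))) * gc (2 ^ k) := by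
            rw [Real.rpow_add (by norm_num), Real.rpow_add (by norm_num)]
            ring
        _ ≤ 2 ^ (-(2 * k : ℝ)) * gc (2 ^ k) := by
            refine mul_le_mul_of_nonneg_right ?_ hg0
            apply Real.rpow_le_rpow_of_exponent_le (by norm_num)
            have := real2 hk2000 hA.le hd'
            linarith
    · -- large `a`
      push Not at hd
      have hbD : b ≤ 2 ^ 50 := by
        have h5 : 2 ^ a * b < 2 ^ a * 2 ^ 50 := by
          refine hab.trans_le ?_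
          rw [← pow_add]
          exact Nat.pow_le_pow_right (by norm_num) (by omega)
        exact (Nat.lt_of_mul_lt_mul_left h5).le
      have h5 := h3 k (by omega) a b hb hb3 hbD (by omega) hab
      refine h5.trans (mul_le_mul_of_nonneg_right ?_ hg0)
      apply Real.rpow_le_rpow_of_exponent_le (by norm_num)
      nlinarith

theorem main : Tendsto (fun n : ℕ =>
    (∑ k ∈ (Finset.range (n + 1)).filter (fun k => 2 ^ k ≤ n), (gc (2 ^ k) : ℝ)) /
      (∑ m ∈ Finset.Icc 1 n, (sc m : ℝ))) atTop (𝓝 1) := by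
  classical
  obtain ⟨k0, hkey⟩ := key
  set N : ℕ → ℝ := fun n =>
    ∑ k ∈ (Finset.range (n + 1)).filter (fun k => 2 ^ k ≤ n), (gc (2 ^ k) : ℝ) with hN
  set D : ℕ → ℝ := fun n => ∑ m ∈ Finset.Icc 1 n, (sc m : ℝ) with hD
  -- the powers of two
  have hpow : ∀ n : ℕ, ∑ m ∈ (Finset.Icc 1 n).filter (fun m => ∃ j, m = 2 ^ j), (sc m : ℝ) = N n := by
    intro n
    have himg : (Finset.Icc 1 n).filter (fun m => ∃ j, m = 2 ^ j) =
        ((Finset.range (n + 1)).filter (fun k => 2 ^ k ≤ n)).image (fun k => 2 ^ k) := by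
      ext m
      simp only [Finset.mem_filter, Finset.mem_Icc, Finset.mem_image, Finset.mem_range]
      constructor
      · rintro ⟨⟨h1, h2⟩, j, rfl⟩
        refine ⟨j, ⟨?_, h2⟩, rfl⟩
        have := (Nat.lt_two_pow_self : j < 2 ^ j)
        omega
      · rintro ⟨j, ⟨h1, h2⟩, rfl⟩
        exact ⟨⟨Nat.one_le_two_pow, h2⟩, j, rfl⟩
    rw [himg, Finset.sum_image fun a _ b _ h => Nat.pow_right_injective le_rfl h]
    exact Finset.sum_congr rfl fun k _ => by rw [sc_two_pow]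
  have hsplit : ∀ n : ℕ, D n = N n +
      ∑ m ∈ (Finset.Icc 1 n).filter (fun m => ¬ ∃ j, m = 2 ^ j), (sc m : ℝ) := by
    intro n
    rw [← hpow n, hD]
    exact (Finset.sum_filter_add_sum_filter_not _ _ _).symm
  have hNle : ∀ n : ℕ, N n ≤ D n := by
    intro n
    rw [hsplit]
    have : 0 ≤ ∑ m ∈ (Finset.Icc 1 n).filter (fun m => ¬ ∃ j, m = 2 ^ j), (sc m : ℝ) :=
      Finset.sum_nonneg fun _ _ => Nat.cast_nonneg _
    linarith
  have hNpos : ∀ n : ℕ, 1 ≤ n → 0 < N n := by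
    intro n hn
    have h1 : (gc (2 ^ 0) : ℝ) ≤ N n := by
      refine Finset.single_le_sum (f := fun k => (gc (2 ^ k) : ℝ)) (fun _ _ => Nat.cast_nonneg _) ?_
      simp [hn]
    have h2 : (1 : ℝ) ≤ gc (2 ^ 0) := Final.one_le_gc (by norm_num)
    linarith
  have hlow : ∀ n : ℕ, 2 ^ k0 ≤ n → D n ≤ N n * (1 + 4 / n) := by
    intro n hn
    have hn0 : n ≠ 0 := by
      have : 0 < 2 ^ k0 := by positivity
      omega
    have hnpos : (0 : ℝ) < n := by exact_mod_cast Nat.pos_of_ne_zero hn0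
    set k := Nat.log 2 n with hk
    have hk1 : 2 ^ k ≤ n := Nat.pow_log_le_self 2 hn0
    have hk2 : n < 2 ^ (k + 1) := Nat.lt_pow_succ_log_self (by norm_num) n
    have hk0 : k0 ≤ k := (Nat.le_log_iff_pow_le (by norm_num) hn0).2 hn
    have hgN : (gc (2 ^ k) : ℝ) ≤ N n := by
      refine Finset.single_le_sum (f := fun k => (gc (2 ^ k) : ℝ)) (fun _ _ => Nat.cast_nonneg _) ?_
      rw [Finset.mem_filter, Finset.mem_range]
      refine ⟨?_, hk1⟩
      have := (Nat.lt_two_pow_self : k < 2 ^ k)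
      omega
    have hterm : ∀ m ∈ (Finset.Icc 1 n).filter (fun m => ¬ ∃ j, m = 2 ^ j),
        (sc m : ℝ) ≤ 2 ^ (-(2 * k : ℝ)) * N n := by
      intro m hm
      obtain ⟨hm1, hm2⟩ := Finset.mem_filter.1 hm
      rw [Finset.mem_Icc] at hm1
      obtain ⟨a, b, hb, rfl⟩ := Nat.exists_eq_two_pow_mul_odd (show m ≠ 0 by omega)
      have hb3 : 3 ≤ b := by
        obtain ⟨c, rfl⟩ := hb
        rcases Nat.eq_zero_or_pos c with rfl | hc
        · exfalso
          exact hm2 ⟨a, by simp⟩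
        · omega
      refine (hkey k hk0 a b hb hb3 (by omega)).trans ?_
      exact mul_le_mul_of_nonneg_left hgN (by positivity)
    have hsum : ∑ m ∈ (Finset.Icc 1 n).filter (fun m => ¬ ∃ j, m = 2 ^ j), (sc m : ℝ) ≤
        n * (2 ^ (-(2 * k : ℝ)) * N n) := by
      refine (Finset.sum_le_sum hterm).trans ?_
      rw [Finset.sum_const, nsmul_eq_mul]
      refine mul_le_mul_of_nonneg_right ?_ (mul_nonneg (by positivity)
        (hNpos n (by omega)).le)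
      have h5 : ((Finset.Icc 1 n).filter (fun m => ¬ ∃ j, m = 2 ^ j)).card ≤ n := by
        refine (Finset.card_filter_le _ _).trans ?_
        simp
      exact_mod_cast h5
    have h6 : (n : ℝ) * 2 ^ (-(2 * k : ℝ)) ≤ 4 / n := by
      rw [le_div_iff₀ hnpos]
      have h7 : (n : ℝ) ≤ 2 * 2 ^ (k : ℝ) := by
        rw [Real.rpow_natCast]
        have : (n : ℝ) ≤ ((2 ^ (k + 1) : ℕ) : ℝ) := by exact_mod_cast hk2.le
        rw [pow_succ] at this
        push_cast at this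
        linarith
      have h8 : (2 : ℝ) ^ (-(2 * k : ℝ)) * ((2 : ℝ) ^ (k : ℝ) * (2 : ℝ) ^ (k : ℝ)) = 1 := by
        rw [← Real.rpow_add (by norm_num), ← Real.rpow_add (by norm_num)]
        ring_nf
        simp
      have h9 : (n : ℝ) * n ≤ (2 * 2 ^ (k : ℝ)) * (2 * 2 ^ (k : ℝ)) :=
        mul_le_mul h7 h7 hnpos.le (by positivity)
      calc (n : ℝ) * 2 ^ (-(2 * k : ℝ)) * n = 2 ^ (-(2 * k : ℝ)) * ((n : ℝ) * n) := by ring
        _ ≤ 2 ^ (-(2 * k : ℝ)) * ((2 * 2 ^ (k : ℝ)) * (2 * 2 ^ (k : ℝ))) :=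
            mul_le_mul_of_nonneg_left h9 (by positivity)
        _ = 4 * (2 ^ (-(2 * k : ℝ)) * ((2 : ℝ) ^ (k : ℝ) * (2 : ℝ) ^ (k : ℝ))) := by ring
        _ = 4 := by rw [h8, mul_one]
    rw [hsplit]
    have hN0 := (hNpos n (by omega)).le
    nlinarith
  have hlim : Tendsto (fun n : ℕ => (1 + 4 / (n : ℝ))⁻¹) atTop (𝓝 1) := by
    have h1 : Tendsto (fun n : ℕ => 4 / (n : ℝ)) atTop (𝓝 0) := tendsto_const_div_atTop_nhds_zero_nat 4
    have h2 := (h1.const_add 1).inv₀ (by norm_num)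
    simpa using h2
  refine tendsto_of_tendsto_of_tendsto_of_le_of_le' hlim tendsto_const_nhds ?_ ?_
  · filter_upwards [Filter.eventually_ge_atTop (2 ^ k0)] with n hn
    have hn1 : 1 ≤ n := Nat.one_le_two_pow.trans hn
    have hNp := hNpos n hn1
    have hDp : 0 < D n := hNp.trans_le (hNle n)
    have hq : 0 < 1 + 4 / (n : ℝ) := by positivity
    change (1 + 4 / (n : ℝ))⁻¹ ≤ N n / D n
    rw [le_div_iff₀ hDp, inv_mul_le_iff₀ hq, mul_comm]
    exact hlow n hn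
  · filter_upwards [Filter.eventually_ge_atTop 1] with n hn
    have hDp : 0 < D n := (hNpos n hn).trans_le (hNle n)
    change N n / D n ≤ 1
    rw [div_le_one hDp]
    exact hNle n

end Pool.Agent.EnumG
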