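import Pool.Agent.Work.MP_9de0a1_al.Defs

/-!
# Grow : bounded derived subgroups of `2g`-generated subgroups
-/

open Subgroup

namespace Pool.Agent.EnumG

namespace Grow

open scoped commutatorElement

variable {H : Type} [Group H]

/-- size of the conjugacy class -/
noncomputable def cs (u : H) : ℕ := (centralizer ({u} : Set H)).index

theorem mem_cent {u x : H} : x ∈ centralizer ({u} : Set H) ↔ u * x = x * u := by
  rw [mem_centralizer_iff]
  simp

theorem index_anti [Finite H] {A B : Subgroup H} (h : A ≤ B) : B.index ≤ A.index := by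
  have := relIndex_le_of_le_left (H := A) (K := B) (L := ⊤) h
    (by rw [relIndex_top_right]; exact FiniteIndex.index_ne_zero)
  simpa [relIndex_top_right] using this

theorem cs_pos [Finite H] (u : H) : 0 < cs u :=
  Nat.pos_of_ne_zero FiniteIndex.index_ne_zero

theorem cs_mul [Finite H] (u v : H) : cs (u * v) ≤ cs u * cs v := by
  unfold cs
  refine le_trans (index_anti (A := centralizer {u} ⊓ centralizer {v}) ?_) index_inf_le
  intro x hx
  rw [mem_inf, mem_cent, mem_cent] at hx
  rw [mem_cent]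
  rw [mul_assoc, hx.2, ← mul_assoc, hx.1, mul_assoc]

theorem cs_inv (u : H) : cs u⁻¹ = cs u := by
  unfold cs
  congr 1
  ext x
  rw [mem_cent, mem_cent]
  constructor
  · intro h
    calc u * x = u * (x * u⁻¹) * u := by group
      _ = u * (u⁻¹ * x) * u := by rw [h]
      _ = x * u := by group
  · intro h
    calc u⁻¹ * x = u⁻¹ * (x * u) * u⁻¹ := by group
      _ = u⁻¹ * (u * x) * u⁻¹ := by rw [h]
      _ = x * u⁻¹ := by group

theorem cs_one : cs (1 : H) = 1 := by
  unfold cs
  rw [index_eq_one, eq_top_iff]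
  intro x _
  rw [mem_cent]; simp

theorem card_conj [Finite H] (u : H) :
    Nat.card (Set.range fun y : H => y⁻¹ * u * y) = cs u := by
  unfold cs Subgroup.index
  symm
  let F : H ⧸ centralizer ({u} : Set H) → Set.range fun y : H => y⁻¹ * u * y :=
    Quotient.lift (fun z : H => (⟨z * u * z⁻¹, ⟨z⁻¹, by simp⟩⟩ : Set.range fun y : H => y⁻¹ * u * y))
      (by
        intro a b hab
        have h1 : a⁻¹ * b ∈ centralizer ({u} : Set H) := QuotientGroup.leftRel_apply.1 hab
        rw [mem_cent] at h1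
        apply Subtype.ext
        show a * u * a⁻¹ = b * u * b⁻¹
        calc a * u * a⁻¹ = a * (u * (a⁻¹ * b)) * b⁻¹ := by group
          _ = a * ((a⁻¹ * b) * u) * b⁻¹ := by rw [h1]
          _ = b * u * b⁻¹ := by group)
  refine Nat.card_congr (Equiv.ofBijective F ⟨?_, ?_⟩)
  · intro p q
    refine Quotient.inductionOn₂ p q ?_
    intro a b hab
    have h2 : a * u * a⁻¹ = b * u * b⁻¹ := congrArg Subtype.val hab
    refine Quotient.sound (QuotientGroup.leftRel_apply.2 ?_)
    rw [mem_cent]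
    calc u * (a⁻¹ * b) = a⁻¹ * (a * u * a⁻¹) * b := by group
      _ = a⁻¹ * (b * u * b⁻¹) * b := by rw [h2]
      _ = a⁻¹ * b * u := by group
  · rintro ⟨_, y, rfl⟩
    refine ⟨Quotient.mk'' y⁻¹, Subtype.ext ?_⟩
    show y⁻¹ * u * (y⁻¹)⁻¹ = y⁻¹ * u * y
    simp

theorem cs_conj [Finite H] (u x : H) : cs (x * u * x⁻¹) = cs u := by
  rw [← card_conj, ← card_conj]
  congr 2
  ext z
  constructor
  · rintro ⟨y, rfl⟩
    exact ⟨x⁻¹ * y, by simp only; group⟩
  · rintro ⟨y, rfl⟩
    exact ⟨x * y, by simp only; group⟩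

/-- few `x` with `x⁻¹ u x u⁻¹ ∈ D` -/
theorem card_bad [Finite H] (u : H) (D : Subgroup H) :
    Nat.card {x : H // x⁻¹ * u * x * u⁻¹ ∈ D} ≤ Nat.card D * Nat.card (centralizer ({u} : Set H)) := by
  classical
  have := Fintype.ofFinite H
  have h1 : Nat.card {x : H // x⁻¹ * u * x * u⁻¹ ∈ D} =
      (Finset.univ.filter fun x : H => x⁻¹ * u * x * u⁻¹ ∈ D).card := by
    rw [Nat.card_eq_fintype_card, Fintype.card_subtype]
  have h2 : Nat.card D = (Finset.univ.filter fun x : H => x ∈ D).card := by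
    rw [Nat.card_eq_fintype_card, ← Fintype.card_subtype]
  rw [h1, h2, mul_comm]
  refine Finset.card_le_mul_card_image_of_maps_to (f := fun x : H => x⁻¹ * u * x * u⁻¹) ?_ _ ?_
  · intro x hx
    simpa using hx
  · intro d _
    rcases (Finset.filter (fun a : H => a⁻¹ * u * a * u⁻¹ = d)
      (Finset.univ.filter fun x : H => x⁻¹ * u * x * u⁻¹ ∈ D)).eq_empty_or_nonempty with he | ⟨x0, hx0⟩
    · rw [he]; simp
    · have hx0' : x0⁻¹ * u * x0 * u⁻¹ = d := (Finset.mem_filter.1 hx0).2
      rw [Nat.card_eq_fintype_card, Fintype.card_subtype]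
      refine Finset.card_le_card_of_injOn (fun x => x * x0⁻¹) ?_ ?_
      · intro x hx
        have hx' : x⁻¹ * u * x * u⁻¹ = d := (Finset.mem_filter.1 hx).2
        simp only [Finset.coe_filter, Finset.mem_univ, true_and, Set.mem_ofPred_eq]
        rw [mem_cent]
        have h3 : x⁻¹ * u * x = x0⁻¹ * u * x0 := by
          have := hx'.trans hx0'.symm
          exact mul_right_cancel this
        calc u * (x * x0⁻¹) = x * (x⁻¹ * u * x) * x0⁻¹ := by group
          _ = x * (x0⁻¹ * u * x0) * x0⁻¹ := by rw [h3]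
          _ = x * x0⁻¹ * u := by group
      · intro x _ y _ hxy
        exact mul_right_cancel hxy

/-- the growth step -/
theorem step [Finite H] {g : ℕ} (y : Fin g → H) (M : Subgroup H) (hy : ∀ j, y j ∈ M) (x : H)
    (hx : ∀ j l, j ≠ l → x⁻¹ * (y j * (y l)⁻¹) * x * (y j * (y l)⁻¹)⁻¹ ∉ ⁅M, M⁆) (M' : Subgroup H)
    (hM : M ≤ M') (hxM : x ∈ M') :
    g * Nat.card (⁅M, M⁆ : Subgroup H) ≤ Nat.card (⁅M', M'⁆ : Subgroup H) := by
  classical
  have hD : ⁅M, M⁆ ≤ ⁅M', M'⁆ := commutator_mono hM hM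
  have hc : ∀ j, (y j)⁻¹ * x⁻¹ * y j * x ∈ ⁅M', M'⁆ := by
    intro j
    have := commutator_mem_commutator (H₁ := M') (H₂ := M') (inv_mem (hM (hy j))) (inv_mem hxM)
    rw [commutatorElement_def] at this
    simpa using this
  have hinj : Function.Injective
      (fun p : Fin g × (⁅M, M⁆ : Subgroup H) =>
        (⟨p.2.1 * ((y p.1)⁻¹ * x⁻¹ * y p.1 * x), mul_mem (hD p.2.2) (hc p.1)⟩ :
          (⁅M', M'⁆ : Subgroup H))) := by
    rintro ⟨j, d⟩ ⟨l, e⟩ hp
    have hp' : d.1 * ((y j)⁻¹ * x⁻¹ * y j * x) = e.1 * ((y l)⁻¹ * x⁻¹ * y l * x) :=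
      congrArg Subtype.val hp
    by_cases hjl : j = l
    · subst hjl
      have : d = e := Subtype.ext (mul_right_cancel hp')
      rw [this]
    · exfalso
      have h1 : (y j)⁻¹ * (x⁻¹ * (y j * (y l)⁻¹) * x * (y j * (y l)⁻¹)⁻¹) * y j ∈ ⁅M, M⁆ := by
        have h2 : (y j)⁻¹ * (x⁻¹ * (y j * (y l)⁻¹) * x * (y j * (y l)⁻¹)⁻¹) * y j = d.1⁻¹ * e.1 := by
          calc (y j)⁻¹ * (x⁻¹ * (y j * (y l)⁻¹) * x * (y j * (y l)⁻¹)⁻¹) * y j
              = d.1⁻¹ * (d.1 * ((y j)⁻¹ * x⁻¹ * y j * x)) * ((y l)⁻¹ * x⁻¹ * y l * x)⁻¹ := by group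
            _ = d.1⁻¹ * (e.1 * ((y l)⁻¹ * x⁻¹ * y l * x)) * ((y l)⁻¹ * x⁻¹ * y l * x)⁻¹ := by
                rw [hp']
            _ = d.1⁻¹ * e.1 := by group
        rw [h2]
        exact mul_mem (inv_mem d.2) e.2
      have hn : M ≤ normalizer (⁅M, M⁆ : Subgroup H) := by
        intro z hz
        rw [mem_normalizer_iff]
        intro w
        have key : ∀ z ∈ M, ∀ w ∈ ⁅M, M⁆, z * w * z⁻¹ ∈ ⁅M, M⁆ := by
          intro z hz w hw
          have h3 : ⁅z, w⁆ ∈ ⁅M, M⁆ :=
            commutator_mem_commutator hz (commutator_le_self M hw)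
          have h4 := mul_mem h3 hw
          rw [commutatorElement_def] at h4
          simpa using h4
        constructor
        · exact key z hz w
        · intro h5
          have := key z⁻¹ (inv_mem hz) _ h5
          simpa [mul_assoc] using this
      have h5 := (mem_normalizer_iff.1 (hn (inv_mem (hy j)))
        (x⁻¹ * (y j * (y l)⁻¹) * x * (y j * (y l)⁻¹)⁻¹)).2 (by simpa using h1)
      exact hx j l hjl h5
  have := Nat.card_le_card_of_injective _ hinj
  rwa [Nat.card_prod, Nat.card_eq_fintype_card (α := Fin g), Fintype.card_fin] at this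

/-- the hypothesis in terms of at most `2g` generators -/
theorem small_of_gens {Q : Type} [Group Q] {g B k : ℕ}
    (hB : ∀ y : Fin (2 * g) → Q,
      Nat.card (⁅closure (Set.range y), closure (Set.range y)⁆ : Subgroup Q) ≤ B)
    (hk : k ≤ 2 * g) (z : Fin k → Q) :
    Nat.card (⁅closure (Set.range z), closure (Set.range z)⁆ : Subgroup Q) ≤ B := by
  classical
  have h1 := hB (fun i => if h : (i : ℕ) < k then z ⟨i, h⟩ else 1)
  have h2 : closure (Set.range (fun i : Fin (2 * g) => if h : (i : ℕ) < k then z ⟨i, h⟩ else 1)) =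
      closure (Set.range z) := by
    apply le_antisymm
    · rw [closure_le]
      rintro _ ⟨i, rfl⟩
      by_cases h : (i : ℕ) < k
      · simp only [h, dif_pos]
        exact subset_closure ⟨_, rfl⟩
      · simp only [h, dif_neg, not_false_iff]
        exact one_mem _
    · rw [closure_le]
      rintro _ ⟨i, rfl⟩
      refine subset_closure ⟨⟨i, lt_of_lt_of_le i.2 hk⟩, ?_⟩
      simp
  rwa [h2] at h1

theorem range_append {Q : Type} {a b : ℕ} (y : Fin a → Q) (x : Fin b → Q) :
    Set.range (Fin.append y x) = Set.range y ∪ Set.range x := by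
  ext w
  constructor
  · rintro ⟨j, rfl⟩
    refine Fin.addCases (fun j => ?_) (fun j => ?_) j
    · left; exact ⟨j, by simp⟩
    · right; exact ⟨j, by simp⟩
  · rintro (⟨j, rfl⟩ | ⟨j, rfl⟩)
    · exact ⟨Fin.castAdd b j, by simp⟩
    · exact ⟨Fin.natAdd a j, by simp⟩

/-- Step (1) -/
theorem claim1 {Q : Type} [Group Q] [Finite Q] {g B : ℕ} (h : B < g ^ g)
    (hB : ∀ y : Fin (2 * g) → Q,
      Nat.card (⁅closure (Set.range y), closure (Set.range y)⁆ : Subgroup Q) ≤ B)
    (y : Fin g → Q) (hy : ∀ j l, j ≠ l → g ^ 2 * B < cs (y j * (y l)⁻¹)) : False := by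
  classical
  have hg : 0 < g := by
    rcases Nat.eq_zero_or_pos g with h0 | h0
    · subst h0
      have h1 : B = 0 := by simpa using h
      have h2 := hB (fun _ => 1)
      rw [h1] at h2
      have h3 : 0 < Nat.card (⁅closure (Set.range fun _ : Fin (2 * 0) => (1 : Q)),
        closure (Set.range fun _ : Fin (2 * 0) => (1 : Q))⁆ : Subgroup Q) := Nat.card_pos
      omega
    · exact h0
  have main : ∀ i : ℕ, i ≤ g → ∃ x : Fin i → Q,
      g ^ i ≤ Nat.card (⁅closure (Set.range y ∪ Set.range x), closure (Set.range y ∪ Set.range x)⁆ :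
        Subgroup Q) := by
    intro i
    induction i with
    | zero =>
      intro _
      refine ⟨fun i => i.elim0, ?_⟩
      rw [pow_zero]
      exact Nat.card_pos
    | succ i ih =>
      intro hi
      obtain ⟨x, hx⟩ := ih (by omega)
      set M := closure (Set.range y ∪ Set.range x) with hM
      have hMB : Nat.card (⁅M, M⁆ : Subgroup Q) ≤ B := by
        have h1 := small_of_gens hB (k := g + i) (by omega) (Fin.append y x)
        rwa [range_append] at h1
      -- choose the next element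
      have hex : ∃ z : Q, ∀ j l, j ≠ l →
          z⁻¹ * (y j * (y l)⁻¹) * z * (y j * (y l)⁻¹)⁻¹ ∉ ⁅M, M⁆ := by
        by_contra hcon
        push Not at hcon
        have := Fintype.ofFinite Q
        let bad : Fin g × Fin g → Finset Q := fun p =>
          if p.1 ≠ p.2 then Finset.univ.filter fun z : Q =>
            z⁻¹ * (y p.1 * (y p.2)⁻¹) * z * (y p.1 * (y p.2)⁻¹)⁻¹ ∈ ⁅M, M⁆ else ∅
        have hcov : (Finset.univ : Finset Q) ⊆ (Finset.univ : Finset (Fin g × Fin g)).biUnion bad := by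
          intro z _
          obtain ⟨j, l, hjl, hz⟩ := hcon z
          refine Finset.mem_biUnion.2 ⟨(j, l), Finset.mem_univ _, ?_⟩
          simp only [bad, ne_eq, hjl, not_false_iff, if_true, Finset.mem_filter, Finset.mem_univ,
            true_and]
          exact hz
        have hcard : ∀ p ∈ (Finset.univ : Finset (Fin g × Fin g)),
            g ^ 2 * (bad p).card < Nat.card Q := by
          rintro ⟨j, l⟩ _
          by_cases hjl : j = l
          · simp only [bad, hjl, ne_eq, not_true_eq_false, if_false, Finset.card_empty, mul_zero]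
            exact Nat.card_pos
          · have h1 : (bad (j, l)).card ≤ B * Nat.card (centralizer ({y j * (y l)⁻¹} : Set Q)) := by
              have h2 := card_bad (y j * (y l)⁻¹) ⁅M, M⁆
              rw [Nat.card_eq_fintype_card, Fintype.card_subtype] at h2
              simp only [bad, ne_eq, hjl, not_false_iff, if_true]
              exact h2.trans (Nat.mul_le_mul_right _ hMB)
            have h3 : Nat.card (centralizer ({y j * (y l)⁻¹} : Set Q)) * cs (y j * (y l)⁻¹) =
              Nat.card Q := card_mul_index _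
            have h4 := hy j l hjl
            have h5 : 0 < Nat.card (centralizer ({y j * (y l)⁻¹} : Set Q)) := Nat.card_pos
            calc g ^ 2 * (bad (j, l)).card
                ≤ g ^ 2 * (B * Nat.card (centralizer ({y j * (y l)⁻¹} : Set Q))) :=
                  Nat.mul_le_mul_left _ h1
              _ = Nat.card (centralizer ({y j * (y l)⁻¹} : Set Q)) * (g ^ 2 * B) := by ring
              _ < Nat.card (centralizer ({y j * (y l)⁻¹} : Set Q)) * cs (y j * (y l)⁻¹) :=
                  Nat.mul_lt_mul_of_pos_left h4 h5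
              _ = Nat.card Q := h3
        have h6 := (Finset.card_le_card hcov).trans Finset.card_biUnion_le
        have h7 : ∑ p : Fin g × Fin g, g ^ 2 * (bad p).card <
            ∑ _p : Fin g × Fin g, Nat.card Q := by
          refine Finset.sum_lt_sum_of_nonempty ?_ hcard
          exact ⟨(⟨0, hg⟩, ⟨0, hg⟩), Finset.mem_univ _⟩
        rw [← Finset.mul_sum] at h7
        rw [Finset.card_univ, ← Nat.card_eq_fintype_card] at h6
        simp only [Finset.sum_const, Finset.card_univ, Fintype.card_prod, Fintype.card_fin,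
          smul_eq_mul] at h7
        have h8 := Nat.mul_le_mul_left (g ^ 2) h6
        have h9 : g ^ 2 * Nat.card Q = g * g * Nat.card Q := by ring
        omega
      obtain ⟨z, hz⟩ := hex
      refine ⟨Fin.snoc x z, ?_⟩
      have h1 := step y M (fun j => subset_closure (Or.inl ⟨j, rfl⟩)) z hz
        (closure (Set.range y ∪ Set.range (Fin.snoc x z : Fin (i + 1) → Q)))
        (by
          rw [hM]
          refine closure_mono (Set.union_subset_union_right _ ?_)
          rintro _ ⟨j, rfl⟩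
          exact ⟨Fin.castSucc j, by simp⟩)
        (subset_closure (Or.inr ⟨Fin.last i, by simp⟩))
      calc g ^ (i + 1) = g * g ^ i := by ring
        _ ≤ g * Nat.card (⁅M, M⁆ : Subgroup Q) := Nat.mul_le_mul_left _ hx
        _ ≤ _ := h1
  obtain ⟨x, hx⟩ := main g le_rfl
  have h1 := small_of_gens hB (k := g + g) (by omega) (Fin.append y x)
  rw [range_append] at h1
  omega

/-- Neumann: bounded conjugacy classes give boundedly many commutators -/
theorem bfc {H : Type} [Group H] [Finite H] {p : ℕ} (hp : ∀ u : H, cs u ≤ p) :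
    Nat.card (commutatorSet H) ≤ p ^ p * (p * p * p) := by
  classical
  have := Fintype.ofFinite H
  have hp1 : 1 ≤ p := (cs_pos (1 : H)).trans_le (hp 1)
  -- conjugacy classes as finsets
  let K : H → Finset H := fun u => Finset.univ.image fun y : H => y⁻¹ * u * y
  have hK : ∀ u, (K u).card = cs u := by
    intro u
    rw [← card_conj, Nat.card_eq_fintype_card, ← Set.toFinset_card]
    congr 1
    ext z
    simp [K]
  obtain ⟨a, -, ha⟩ := Finset.exists_max_image (Finset.univ : Finset H) cs ⟨1, Finset.mem_univ _⟩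
  have hb : ∀ α : K a, ∃ b : H, b⁻¹ * a * b = α := by
    rintro ⟨α, hα⟩
    obtain ⟨b, -, hb⟩ := Finset.mem_image.1 hα
    exact ⟨b, hb⟩
  choose b hb using hb
  let C : Subgroup H := ⨅ α : K a, centralizer ({b α} : Set H)
  have hCi : C.index ≤ p ^ p := by
    calc C.index ≤ ∏ α : K a, (centralizer ({b α} : Set H)).index := index_iInf_le _
      _ ≤ ∏ _α : K a, p := Finset.prod_le_prod' fun α _ => hp _
      _ = p ^ (K a).card := by simp
      _ ≤ p ^ p := Nat.pow_le_pow_right hp1 (by rw [hK]; exact hp a)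
  have hCm : ∀ u ∈ C, ∀ α : K a, b α * u = u * b α := by
    intro u hu α
    have := (mem_iInf.1 hu) α
    exact mem_cent.1 this
  -- commutators with an element of `C`
  have hC1 : ∀ u ∈ C, ∀ y : H, ∃ α ∈ K a, ∃ β ∈ K a, u⁻¹ * y⁻¹ * u * y = α * β⁻¹ := by
    intro u hu y
    have hsub : (K a).image (fun α => u * α) ⊆ K (u * a) := by
      intro z hz
      obtain ⟨α, hα, rfl⟩ := Finset.mem_image.1 hz
      refine Finset.mem_image.2 ⟨b ⟨α, hα⟩, Finset.mem_univ _, ?_⟩
      have h1 := hb ⟨α, hα⟩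
      have h2 := hCm u hu ⟨α, hα⟩
      calc (b ⟨α, hα⟩)⁻¹ * (u * a) * b ⟨α, hα⟩
          = (b ⟨α, hα⟩)⁻¹ * (u * b ⟨α, hα⟩) * ((b ⟨α, hα⟩)⁻¹ * a * b ⟨α, hα⟩) := by group
        _ = (b ⟨α, hα⟩)⁻¹ * (b ⟨α, hα⟩ * u) * α := by rw [← h2, h1]
        _ = u * α := by group
    have heq : (K a).image (fun α => u * α) = K (u * a) := by
      apply Finset.eq_of_subset_of_card_le hsub
      rw [Finset.card_image_of_injective _ (mul_right_injective u), hK, hK]
      exact ha (u * a) (Finset.mem_univ _)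
    have hy : y⁻¹ * (u * a) * y ∈ K (u * a) := Finset.mem_image.2 ⟨y, Finset.mem_univ _, rfl⟩
    rw [← heq] at hy
    obtain ⟨α, hα, h3⟩ := Finset.mem_image.1 hy
    refine ⟨α, hα, y⁻¹ * a * y, Finset.mem_image.2 ⟨y, Finset.mem_univ _, rfl⟩, ?_⟩
    have h3' : u * α = y⁻¹ * (u * a) * y := h3
    calc u⁻¹ * y⁻¹ * u * y = u⁻¹ * (y⁻¹ * (u * a) * y) * (y⁻¹ * a * y)⁻¹ := by group
      _ = u⁻¹ * (u * α) * (y⁻¹ * a * y)⁻¹ := by rw [h3']
      _ = α * (y⁻¹ * a * y)⁻¹ := by group
  -- transversal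
  let T : Finset H := Finset.univ.image fun q : H ⧸ C => (Quotient.out q)⁻¹
  have hTc : T.card ≤ p ^ p := by
    refine Finset.card_image_le.trans ?_
    rw [Finset.card_univ, ← Nat.card_eq_fintype_card]
    exact hCi
  have hT : ∀ x : H, ∃ t ∈ T, x * t⁻¹ ∈ C := by
    intro x
    refine ⟨(Quotient.out (QuotientGroup.mk x⁻¹ : H ⧸ C))⁻¹,
      Finset.mem_image.2 ⟨_, Finset.mem_univ _, rfl⟩, ?_⟩
    have h1 : (QuotientGroup.mk (Quotient.out (QuotientGroup.mk x⁻¹ : H ⧸ C)) : H ⧸ C) =
      QuotientGroup.mk x⁻¹ := QuotientGroup.out_eq' _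
    have h2 := QuotientGroup.eq.1 h1.symm
    simpa using h2
  let f : H → Finset H := fun t => ((K a ×ˢ K a) ×ˢ K t).image
    fun q : (H × H) × H => t⁻¹ * (q.1.1 * q.1.2⁻¹) * t * (t⁻¹ * q.2)
  have hfc : ∀ t ∈ T, (f t).card ≤ p * p * p := by
    intro t _
    refine Finset.card_image_le.trans ?_
    rw [Finset.card_product, Finset.card_product, hK, hK]
    exact Nat.mul_le_mul (Nat.mul_le_mul (hp _) (hp _)) (hp _)
  have hcov : (commutatorSet H).toFinset ⊆ T.biUnion f := by
    intro z hz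
    rw [Set.mem_toFinset] at hz
    obtain ⟨x', y', rfl⟩ := hz
    rw [commutatorElement_def]
    obtain ⟨t, ht, hxt⟩ := hT x'⁻¹
    refine Finset.mem_biUnion.2 ⟨t, ht, ?_⟩
    obtain ⟨α, hα, β, hβ, h4⟩ := hC1 _ hxt y'⁻¹
    refine Finset.mem_image.2 ⟨((α, β), y'⁻¹⁻¹ * t * y'⁻¹), ?_, ?_⟩
    · exact Finset.mem_product.2 ⟨Finset.mem_product.2 ⟨hα, hβ⟩,
        Finset.mem_image.2 ⟨y'⁻¹, Finset.mem_univ _, rfl⟩⟩
    · show t⁻¹ * (α * β⁻¹) * t * (t⁻¹ * (y'⁻¹⁻¹ * t * y'⁻¹)) = x' * y' * x'⁻¹ * y'⁻¹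
      rw [← h4]
      group
  calc Nat.card (commutatorSet H) = (commutatorSet H).toFinset.card := by
        rw [Nat.card_eq_fintype_card, Set.toFinset_card]
    _ ≤ (T.biUnion f).card := Finset.card_le_card hcov
    _ ≤ T.card * (p * p * p) := Finset.card_biUnion_le_card_mul _ _ _ hfc
    _ ≤ p ^ p * (p * p * p) := Nat.mul_le_mul_right _ hTc

theorem card_comm_eq {Q : Type} [Group Q] (Q1 : Subgroup Q) :
    Nat.card (⁅Q1, Q1⁆ : Subgroup Q) = Nat.card (_root_.commutator Q1) := by
  rw [← Subgroup.map_subtype_commutator]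
  exact Nat.card_congr
    (equivMapOfInjective (_root_.commutator Q1) Q1.subtype Q1.subtype_injective).toEquiv.symm

theorem cs_sub {Q : Type} [Group Q] [Finite Q] (Q1 : Subgroup Q) (u : Q1) : cs u ≤ cs (u : Q) := by
  have h1 : (centralizer ({u} : Set Q1)) = (centralizer ({(u : Q)} : Set Q)).subgroupOf Q1 := by
    ext x
    rw [mem_cent, mem_subgroupOf, mem_cent]
    constructor
    · intro h
      exact congrArg Subtype.val h
    · intro h
      exact Subtype.ext h
  unfold cs
  rw [h1]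
  have h2 := relIndex_le_of_le_right (H := centralizer ({(u : Q)} : Set Q)) (K := Q1) (L := ⊤)
    le_top (by rw [relIndex_top_right]; exact FiniteIndex.index_ne_zero)
  rw [relIndex_top_right] at h2
  exact h2

theorem bdd_comm (p : ℕ) : ∃ C : ℕ, ∀ (Q : Type) [Group Q] [Finite Q] (Q1 : Subgroup Q),
    (∀ u ∈ Q1, cs u ≤ p) → Nat.card (⁅Q1, Q1⁆ : Subgroup Q) ≤ C := by
  refine ⟨∑ n ∈ Finset.range (p ^ p * (p * p * p) + 1), cardCommutatorBound n, ?_⟩
  intro Q _ _ Q1 h
  have h1 := bfc (H := Q1) (p := p) (fun u => (cs_sub Q1 u).trans (h u u.2))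
  rw [card_comm_eq]
  refine (card_commutator_le_of_finite_commutatorSet Q1).trans ?_
  exact Finset.single_le_sum (f := cardCommutatorBound) (fun _ _ => Nat.zero_le _)
    (Finset.mem_range.2 (by omega))

/-- `T` is spread out: all quotients have large classes -/
def Good {Q : Type} [Group Q] (L n : ℕ) (T : Finset Q) : Prop :=
  ∀ y ∈ T, ∀ z ∈ T, y ≠ z → L ^ n < cs (y * z⁻¹)

theorem step2 {Q : Type} [Group Q] [Finite Q] {g L n : ℕ} (hL : 1 ≤ L) (T : Finset Q)
    (hTg : T.card ≤ g) (hT6 : Good L (6 * n) T)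
    (hmax : ∀ T' : Finset Q, Good L n T' → T'.card ≤ T.card) :
    ∃ Q1 : Subgroup Q, Q1.Normal ∧ Q1.index ≤ g ∧ ∀ u ∈ Q1, cs u ≤ L ^ (2 * n) := by
  classical
  have mono : ∀ {a b : ℕ}, a ≤ b → ∀ {u : Q}, cs u ≤ L ^ a → cs u ≤ L ^ b := by
    intro a b hab u hu
    exact hu.trans (Nat.pow_le_pow_right hL hab)
  have smul : ∀ {a b : ℕ} {u v : Q}, cs u ≤ L ^ a → cs v ≤ L ^ b → cs (u * v) ≤ L ^ (a + b) := by
    intro a b u v hu hv
    rw [pow_add]
    exact (cs_mul u v).trans (Nat.mul_le_mul hu hv)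
  have sinv : ∀ {a : ℕ} {u : Q}, cs u ≤ L ^ a → cs u⁻¹ ≤ L ^ a := by
    intro a u hu
    rwa [cs_inv]
  have hTn : Good L n T := by
    intro y hy z hz hyz
    exact lt_of_le_of_lt (Nat.pow_le_pow_right hL (by omega)) (hT6 y hy z hz hyz)
  have hcov : ∀ u : Q, ∃ y ∈ T, cs (u * y⁻¹) ≤ L ^ n := by
    intro u
    by_contra hcon
    push Not at hcon
    have huT : u ∉ T := by
      intro hu
      have := hcon u hu
      rw [mul_inv_cancel, cs_one] at this
      have h1 : 1 ≤ L ^ n := Nat.one_le_pow _ _ hL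
      omega
    have h2 : Good L n (insert u T) := by
      intro y hy z hz hyz
      rcases Finset.mem_insert.1 hy with rfl | hy'
      · rcases Finset.mem_insert.1 hz with rfl | hz'
        · exact absurd rfl hyz
        · exact hcon z hz'
      · rcases Finset.mem_insert.1 hz with rfl | hz'
        · rw [← cs_inv, mul_inv_rev, inv_inv]
          exact hcon y hy'
        · exact hTn y hy' z hz' hyz
    have h3 := hmax _ h2
    rw [Finset.card_insert_of_notMem huT] at h3
    omega
  obtain ⟨y0, hy0, hy0s⟩ := hcov 1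
  rw [one_mul] at hy0s
  have hy0' : cs y0 ≤ L ^ n := by rwa [cs_inv] at hy0s
  have key : ∀ u : Q, cs u ≤ L ^ (4 * n) → cs u ≤ L ^ (2 * n) := by
    intro u hu
    obtain ⟨y, hy, hys⟩ := hcov u
    have h1 : cs y ≤ L ^ (5 * n) := by
      have h2 := smul (sinv hys) hu
      have h3 : (u * y⁻¹)⁻¹ * u = y := by group
      rw [h3] at h2
      exact mono (by omega) h2
    have h4 : cs (y * y0⁻¹) ≤ L ^ (6 * n) := mono (by omega) (smul h1 (sinv hy0'))
    have h5 : y = y0 := by
      by_contra hne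
      have := hT6 y hy y0 hy0 hne
      omega
    subst h5
    have h6 := smul hys hy0'
    have h7 : u * y⁻¹ * y = u := by group
    rw [h7] at h6
    exact mono (by omega) h6
  let Q1 : Subgroup Q :=
    { carrier := {u | cs u ≤ L ^ (2 * n)}
      mul_mem' := by
        intro a b ha hb
        exact key _ (mono (by omega) (smul ha hb))
      one_mem' := by
        show cs (1 : Q) ≤ _
        rw [cs_one]; exact Nat.one_le_pow _ _ hL
      inv_mem' := by
        intro a ha
        exact sinv ha }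
  have hmem : ∀ u, u ∈ Q1 ↔ cs u ≤ L ^ (2 * n) := fun u => Iff.rfl
  have hnorm : Q1.Normal := by
    constructor
    intro u hu x
    rw [hmem, cs_conj]
    exact hu
  refine ⟨Q1, hnorm, ?_, fun u hu => hu⟩
  have hsurj : Function.Surjective (fun y : T => (QuotientGroup.mk (y : Q) : Q ⧸ Q1)) := by
    intro q
    induction q using QuotientGroup.induction_on with
    | H u =>
      obtain ⟨y, hy, hys⟩ := hcov u
      refine ⟨⟨y, hy⟩, ?_⟩
      refine QuotientGroup.eq.2 ?_
      show (y : Q)⁻¹ * u ∈ Q1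
      have h1 : u * y⁻¹ ∈ Q1 := mono (by omega) hys
      have h2 := hnorm.conj_mem _ h1 y⁻¹
      have h3 : y⁻¹ * (u * y⁻¹) * (y⁻¹)⁻¹ = y⁻¹ * u := by group
      rwa [h3] at h2
  have h8 := Nat.card_le_card_of_surjective _ hsurj
  rw [Nat.card_eq_fintype_card (α := T), Fintype.card_coe] at h8
  exact h8.trans hTg

end Grow

open Grow in
theorem growth_bfc (g B : ℕ) (h : B < g ^ g) : ∃ C : ℕ, ∀ (Q : Type) [Group Q] [Finite Q],
    (∀ y : Fin (2 * g) → Q,
      Nat.card (⁅closure (Set.range y), closure (Set.range y)⁆ : Subgroup Q) ≤ B) →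
      ∃ Q1 : Subgroup Q, Q1.Normal ∧ Q1.index ≤ g ∧
        Nat.card (⁅Q1, Q1⁆ : Subgroup Q) ≤ C := by
  classical
  set L := max 1 (g ^ 2 * B) with hLdef
  have hL : 1 ≤ L := le_max_left _ _
  obtain ⟨C, hC⟩ := bdd_comm (L ^ (2 * 6 ^ g))
  refine ⟨C, ?_⟩
  intro Q _ _ hB
  have hgood : ∀ n, 1 ≤ n → ∀ T : Finset Q, Good L n T → T.card < g := by
    intro n hn T hT
    by_contra hcon
    push Not at hcon
    obtain ⟨T', hT', hcard⟩ := Finset.exists_subset_card_eq hcon
    let e := (T'.equivFinOfCardEq hcard).symm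
    refine claim1 h hB (fun j => (e j : Q)) ?_
    intro j l hjl
    have h1 := hT _ (hT' (e j).2) _ (hT' (e l).2) (by
      intro h2
      exact hjl (e.injective (Subtype.ext h2)))
    refine lt_of_le_of_lt ?_ h1
    calc g ^ 2 * B ≤ L := le_max_right _ _
      _ = L ^ 1 := (pow_one _).symm
      _ ≤ L ^ n := Nat.pow_le_pow_right hL hn
  -- maximal sizes
  have hex : ∀ n, ∃ T : Finset Q, Good L n T ∧ ∀ T' : Finset Q, Good L n T' → T'.card ≤ T.card := by
    intro n
    have := Fintype.ofFinite Q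
    obtain ⟨T, hT, hTm⟩ := Finset.exists_max_image
      (Finset.univ.filter fun T : Finset Q => Good L n T) Finset.card
      ⟨∅, Finset.mem_filter.2 ⟨Finset.mem_univ _, fun y hy => absurd hy (Finset.notMem_empty y)⟩⟩
    exact ⟨T, (Finset.mem_filter.1 hT).2, fun T' hT' => hTm T' (Finset.mem_filter.2 ⟨Finset.mem_univ _, hT'⟩)⟩
  choose T hT hTm using hex
  have hstop : ∃ i < g, (T (6 ^ i)).card ≤ (T (6 ^ (i + 1))).card := by
    by_contra hcon
    push Not at hcon
    have h1 : ∀ i ≤ g, (T (6 ^ i)).card + i ≤ (T (6 ^ 0)).card := by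
      intro i
      induction i with
      | zero => intro _; simp
      | succ i ih =>
        intro hi
        have h2 := ih (by omega)
        have h3 := hcon i (by omega)
        omega
    have h4 := h1 g le_rfl
    have h5 := hgood (6 ^ 0) (by norm_num) _ (hT (6 ^ 0))
    omega
  obtain ⟨i, hi, hi2⟩ := hstop
  have h6 : (6 : ℕ) ^ (i + 1) = 6 * 6 ^ i := by ring
  rw [h6] at hi2
  obtain ⟨Q1, hn, hidx, hcs⟩ := step2 (g := g) (n := 6 ^ i) hL (T (6 * 6 ^ i))
    (hgood _ (by have : 0 < 6 ^ i := by positivity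
                 omega) _ (hT _)).le (hT _)
    (fun T' hT' => (hTm _ T' hT').trans hi2)
  refine ⟨Q1, hn, hidx, hC Q Q1 ?_⟩
  intro u hu
  refine (hcs u hu).trans (Nat.pow_le_pow_right hL ?_)
  exact Nat.mul_le_mul_left _ (Nat.pow_le_pow_right (by norm_num) hi.le)

end Pool.Agent.EnumG
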