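import Pool.Agent.Work.MP_9de0a1_al.Ecl
import Pool.Agent.Work.MP_9de0a1_al.Free
import Pool.Agent.Work.MP_9de0a1_al.Aut

/-!
# KCount : counting the groups `K` (with a partial automorphism)
-/

open Subgroup

namespace Pool.Agent.EnumG


/-- `K` is a subgroup of a group `Q` of order `2^k` with an automorphism `φ`; `N ≤ K` has order `2^m`,
index `2^q`, contains `K'`, is generated by `r` elements; `K` is generated over `N` by `g 0, …, g (e-1)`,
and `φ (g i) = g (t + i)` for `i < t` -/
def KStr (k r m q e t : ℕ) (K : Type) [Group K] : Prop :=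
  ∃ (N : Subgroup K) (n : Fin r → K) (g : Fin e → K), Nat.card N = 2 ^ m ∧ N.index = 2 ^ q ∧
    commutator K ≤ N ∧ closure (Set.range n) = N ∧ N ⊔ closure (Set.range g) = ⊤ ∧ 2 * t ≤ e ∧
    ∃ (Q : Type) (_ : Group Q) (j : K →* Q) (φ : MulAut Q), Function.Injective j ∧
      Nat.card Q = 2 ^ k ∧
      ∀ (i : ℕ) (_ : i < t) (h1 : i < e) (h2 : t + i < e), φ (j (g ⟨i, h1⟩)) = j (g ⟨t + i, h2⟩)

namespace KC

/-- the excluded pairs -/
def exc (t : ℕ) {e : ℕ} (p : Pr e) : Prop := t ≤ (p.1.1 : ℕ) ∧ (p.1.2 : ℕ) < 2 * t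

theorem card_Pr (e : ℕ) : Nat.card (Pr e) = e.choose 2 := by
  have h1 : Nat.card (Pr e) = Nat.card (Σ j : Fin e, Set.Iio j) := by
    refine Nat.card_congr
      { toFun := fun p => ⟨p.1.2, ⟨p.1.1, p.2⟩⟩
        invFun := fun s => ⟨(s.2.1, s.1), s.2.2⟩
        left_inv := fun p => rfl
        right_inv := fun s => rfl }
  rw [h1, Nat.card_eq_fintype_card, Fintype.card_sigma]
  have h2 : ∀ j : Fin e, Fintype.card (Set.Iio j) = (j : ℕ) := by
    intro j
    rw [Fintype.card_Iio]
    simp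
  rw [Finset.sum_congr rfl fun j _ => h2 j, Fin.sum_univ_eq_sum_range (fun i => i) e,
    Finset.sum_range_id, Nat.choose_two_right]

theorem card_not_exc {e t : ℕ} (ht : 2 * t ≤ e) :
    Nat.card {p : Pr e // ¬exc t p} ≤ e.choose 2 - t.choose 2 := by
  classical
  have h1 : Nat.card {p : Pr e // ¬exc t p} = Nat.card (Pr e) - Nat.card {p : Pr e // exc t p} := by
    rw [Nat.card_eq_fintype_card, Nat.card_eq_fintype_card, Nat.card_eq_fintype_card,
      Fintype.card_subtype_compl]
  have h2 : t.choose 2 ≤ Nat.card {p : Pr e // exc t p} := by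
    rw [← card_Pr t]
    let f : Pr t → {p : Pr e // exc t p} := fun p =>
      ⟨⟨(⟨t + p.1.1, by have := p.1.1.2; omega⟩, ⟨t + p.1.2, by have := p.1.2.2; omega⟩),
        by
          have h3 : (p.1.1 : ℕ) < p.1.2 := p.2
          show (⟨t + p.1.1, _⟩ : Fin e) < ⟨t + p.1.2, _⟩
          rw [Fin.mk_lt_mk]; omega⟩,
        by
          have h4 := p.1.2.2
          constructor
          · show t ≤ t + (p.1.1 : ℕ); omega
          · show t + (p.1.2 : ℕ) < 2 * t; omega⟩
    refine Nat.card_le_card_of_injective f ?_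
    intro a b hab
    have h5 := congrArg (fun z => ((z.1.1.1 : Fin e) : ℕ)) hab
    have h6 := congrArg (fun z => ((z.1.1.2 : Fin e) : ℕ)) hab
    have h5' : t + (a.1.1 : ℕ) = t + (b.1.1 : ℕ) := h5
    have h6' : t + (a.1.2 : ℕ) = t + (b.1.2 : ℕ) := h6
    apply Subtype.ext
    apply Prod.ext
    · apply Fin.ext; omega
    · apply Fin.ext; omega
  rw [h1, card_Pr]
  omega

/-- shift a pair down by `t` -/
def sh (t : ℕ) {e : ℕ} (p : Pr e) : Pr e :=
  if h : t ≤ (p.1.1 : ℕ) then
    ⟨(⟨p.1.1 - t, by have := p.1.1.2; omega⟩, ⟨p.1.2 - t, by have := p.1.2.2; omega⟩), by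
      have h3 : (p.1.1 : ℕ) < p.1.2 := p.2
      show (⟨p.1.1 - t, _⟩ : Fin e) < ⟨p.1.2 - t, _⟩
      rw [Fin.mk_lt_mk]; omega⟩
  else p

open Classical in
/-- extend by `1` -/
noncomputable def ext0 {N : Type} [Group N] {e : ℕ} (t : ℕ) (νc : {p : Pr e // ¬exc t p} → N)
    (p : Pr e) : N := if h : exc t p then 1 else νc ⟨p, h⟩

open Classical in
/-- project to a subgroup -/
noncomputable def prj {E : Type} [Group E] (A : Subgroup E) (a : E) : A :=
  if h : a ∈ A then ⟨a, h⟩ else 1

open Classical in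
/-- reconstruct the values of the commutators -/
noncomputable def recon {E : Type} [Group E] (A : Subgroup E) (φ : A →* E) {e : ℕ} (t : ℕ)
    (νc : {p : Pr e // ¬exc t p} → A) (p : Pr e) : A :=
  if exc t p then prj A (φ (ext0 t νc (sh t p))) else ext0 t νc p

/-- groups described by the data `n`, `φ`, `R` -/
def Desc {E : Type} [Group E] (A : Subgroup E) (φ : A →* E) {e : ℕ} (t : ℕ)
    (R : Pr e ⊕ Fin e → FreeGroup (Fin e)) (K : Type) [Group K] : Prop :=
  ∃ (ι : A →* K) (g : Fin e → K) (ν : Pr e ⊕ Fin e → A), Function.Injective ι ∧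
    ι.range.Normal ∧ ι.range ⊔ closure (Set.range g) = ⊤ ∧
    (∀ j, FreeGroup.lift g (R j) = ι (ν j)) ∧
    (∀ w, FreeGroup.lift g w ∈ ι.range → w ∈ normalClosure (Set.range R)) ∧
    ∀ p p' : Pr e, (p'.1.1 : ℕ) = t + p.1.1 → (p'.1.2 : ℕ) = t + p.1.2 → (p.1.2 : ℕ) < t →
      (ν (Sum.inl p') : E) = φ (ν (Sum.inl p))

theorem gens_sub {E : Type} [Group E] {ι : Type} (f : ι → E) (A : Subgroup E)
    (hA : closure (Set.range f) = A) :
    ∃ f' : ι → A, (∀ i, (f' i : E) = f i) ∧ closure (Set.range f') = ⊤ := by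
  subst hA
  refine ⟨fun i => ⟨f i, subset_closure ⟨i, rfl⟩⟩, fun i => rfl, ?_⟩
  have h1 : (closure (Set.range fun i : ι =>
      (⟨f i, subset_closure ⟨i, rfl⟩⟩ : closure (Set.range f)))).map
        (closure (Set.range f)).subtype =
      (⊤ : Subgroup (closure (Set.range f))).map (closure (Set.range f)).subtype := by
    rw [MonoidHom.map_closure, ← Set.range_comp, ← MonoidHom.range_eq_map, range_subtype]
    rfl
  exact map_injective (closure (Set.range f)).subtype_injective h1

theorem desc_count {E : Type} [Group E] [Finite E] {r m e t : ℕ} (n : Fin r → E)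
    (A : Subgroup E) (hA : closure (Set.range n) = A)
    (hm : Nat.card A = 2 ^ m) (φ : A →* E)
    (R : Pr e ⊕ Fin e → FreeGroup (Fin e)) (ht : 2 * t ≤ e) :
    NumLe (fun K _ => Desc A φ t R K)
      (2 ^ (m * r * e + m * e + m * (e.choose 2 - t.choose 2))) := by
  classical
  obtain ⟨n', -, hgen⟩ := gens_sub n A hA
  have hAut : Nat.card (MulAut A) ≤ 2 ^ (m * r) := by
    have := card_mulAut_le _ hgen
    rwa [hm, ← pow_mul] at this
  refine NumLe.of_data (X := (Fin e → MulAut A) × (Fin e → A) × ({p : Pr e // ¬exc t p} → A))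
    (fun x => ExtG A x.1 R (Sum.elim (recon A φ t x.2.2) x.2.1)) ?_ ?_
  · have h1 : Nat.card ((Fin e → MulAut A) × (Fin e → A) × ({p : Pr e // ¬exc t p} → A)) ≤
        2 ^ (m * r * e + m * e + m * (e.choose 2 - t.choose 2)) := by
      rw [Nat.card_prod, Nat.card_prod, Nat.card_fun, Nat.card_fun, Nat.card_fun, hm,
        Nat.card_eq_fintype_card (α := Fin e), Fintype.card_fin, pow_add, pow_add, mul_assoc,
        ← pow_mul, ← pow_mul]
      refine Nat.mul_le_mul ?_ (Nat.mul_le_mul le_rfl ?_)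
      · rw [pow_mul]
        exact Nat.pow_le_pow_left hAut e
      · exact Nat.pow_le_pow_right (by norm_num) (Nat.mul_le_mul_left _ (card_not_exc ht))
    exact_mod_cast h1
  · rintro K _ ⟨ι, g, ν, hι, hn, hsup, hR, hw, hν⟩
    obtain ⟨α, ν', h1, h2⟩ := ecl_data ι hι hn g R (fun j => by rw [hR j]; exact ⟨_, rfl⟩)
    refine ⟨(α, fun i => ν (Sum.inr i), fun p => ν (Sum.inl p.1)), ?_⟩
    refine ecl ι hι hn g α R _ h1 ?_ hsup hw
    rintro (p | i)
    · rw [hR]
      congr 1
      show ν (Sum.inl p) = recon A φ t (fun p => ν (Sum.inl p.1)) p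
      unfold recon
      by_cases hp : exc t p
      · rw [if_pos hp]
        have h3 : (p.1.1 : ℕ) < p.1.2 := p.2
        have hsh1 : ((sh t p).1.1 : ℕ) = p.1.1 - t := by
          unfold sh; rw [dif_pos hp.1]
        have hsh2 : ((sh t p).1.2 : ℕ) = p.1.2 - t := by
          unfold sh; rw [dif_pos hp.1]
        have hp1 := hp.1
        have hp2 := hp.2
        have hnot : ¬exc t (sh t p) := by
          rintro ⟨h4, h5⟩
          rw [hsh1] at h4
          omega
        have h6 : ext0 t (fun p : {p : Pr e // ¬exc t p} => ν (Sum.inl p.1)) (sh t p) =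
            ν (Sum.inl (sh t p)) := by
          unfold ext0; rw [dif_neg hnot]
        rw [h6, ← hν (sh t p) p (by rw [hsh1]; omega) (by rw [hsh2]; omega) (by rw [hsh2]; omega)]
        unfold prj
        rw [dif_pos (ν (Sum.inl p)).2]
      · rw [if_neg hp]
        unfold ext0
        rw [dif_neg hp]
    · rw [hR]
      rfl

/-- sum over `φ` and `n` -/
theorem desc_count2 {E : Type} [Group E] {r m e t k : ℕ} (hE0 : Nat.card E ≠ 0)
    (hE : Nat.card E ≤ 2 ^ k) (R : Pr e ⊕ Fin e → FreeGroup (Fin e)) (ht : 2 * t ≤ e) :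
    NumLe (fun K _ => ∃ n : {n : Fin r → E // Nat.card (closure (Set.range n)) = 2 ^ m},
      ∃ φ : closure (Set.range n.1) →* E, Desc (closure (Set.range n.1)) φ t R K)
      (2 ^ (2 * k * r + (m * r * e + m * e + m * (e.choose 2 - t.choose 2)))) := by
  have hfin : Finite E := Nat.finite_of_card_ne_zero hE0
  have hpow : Nat.card E ^ r ≤ 2 ^ (k * r) := by
    rw [pow_mul]; exact Nat.pow_le_pow_left hE r
  have h2 : ∀ n : {n : Fin r → E // Nat.card (closure (Set.range n)) = 2 ^ m},
      NumLe (fun K _ => ∃ φ : closure (Set.range n.1) →* E, Desc (closure (Set.range n.1)) φ t R K)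
        (2 ^ (k * r) * 2 ^ (m * r * e + m * e + m * (e.choose 2 - t.choose 2))) := by
    intro n
    obtain ⟨n', -, hgen⟩ := gens_sub n.1 _ rfl
    have hF : Finite (closure (Set.range n.1) →* E) :=
      Finite.of_injective (fun f => (f : closure (Set.range n.1) → E)) DFunLike.coe_injective
    have h3 := NumLe.ex (P := fun (φ : closure (Set.range n.1) →* E) K _ =>
      Desc (closure (Set.range n.1)) φ t R K) (fun φ => desc_count n.1 _ rfl n.2 φ R ht)
    refine h3.mono ?_ fun K _ hK => hK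
    refine mul_le_mul_of_nonneg_right ?_ (by positivity)
    have h4 : Nat.card (closure (Set.range n.1) →* E) ≤ 2 ^ (k * r) :=
      (card_hom_le n' hgen).trans hpow
    exact_mod_cast h4
  have h5 := NumLe.ex h2
  refine h5.mono ?_ fun K _ hK => hK
  have h6 : Nat.card {n : Fin r → E // Nat.card (closure (Set.range n)) = 2 ^ m} ≤ 2 ^ (k * r) := by
    refine (Nat.card_le_card_of_injective (fun n => n.1) Subtype.val_injective).trans ?_
    rw [Nat.card_fun, Nat.card_eq_fintype_card (α := Fin r), Fintype.card_fin]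
    exact hpow
  have h7 : (2 : ℝ) ^ (2 * k * r + (m * r * e + m * e + m * (e.choose 2 - t.choose 2))) =
      2 ^ (k * r) * (2 ^ (k * r) * 2 ^ (m * r * e + m * e + m * (e.choose 2 - t.choose 2))) := by
    rw [← pow_add, ← pow_add]
    congr 1
    ring
  rw [h7]
  refine mul_le_mul_of_nonneg_right ?_ (by positivity)
  exact_mod_cast h6

/-- the kernels -/
abbrev Sq (e q : ℕ) : Type :=
  {S : Subgroup (FreeGroup (Fin e)) // commutator (FreeGroup (Fin e)) ≤ S ∧ S.index = 2 ^ q}

/-- the chosen relators -/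
noncomputable def Yc {e q : ℕ} (S : Sq e q) : Fin e → FreeGroup (Fin e) :=
  (ab_gens e q S.1 S.2.1 S.2.2).choose

theorem Yc_spec {e q : ℕ} (S : Sq e q) :
    S.1 = normalClosure (Set.range (Sum.elim (cr e) (Yc S))) :=
  (ab_gens e q S.1 S.2.1 S.2.2).choose_spec

theorem desc_count3 {E : Type} [Group E] {r m q e t k : ℕ} (hE0 : Nat.card E ≠ 0)
    (hE : Nat.card E ≤ 2 ^ k) (ht : 2 * t ≤ e) :
    NumLe (fun K _ => ∃ S : Sq e q,
      ∃ n : {n : Fin r → E // Nat.card (closure (Set.range n)) = 2 ^ m},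
      ∃ φ : closure (Set.range n.1) →* E, Desc (closure (Set.range n.1)) φ t
        (Sum.elim (cr e) (Yc S)) K)
      (2 ^ (e * q + (2 * k * r + (m * r * e + m * e + m * (e.choose 2 - t.choose 2))))) := by
  obtain ⟨hf, hc⟩ := finite_ab_two_pow e q
  have hfin : Finite (Sq e q) := hf
  have h1 := NumLe.ex (ι := Sq e q) (fun S => desc_count2 (r := r) (m := m) (t := t) hE0 hE
    (Sum.elim (cr e) (Yc S)) ht)
  refine h1.mono ?_ fun K _ hK => hK
  rw [pow_add _ (e * q)]
  refine mul_le_mul_of_nonneg_right ?_ (by positivity)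
  have h2 : Nat.card (Sq e q) ≤ 2 ^ (e * q) := hc
  exact_mod_cast h2

theorem two_gens {Q : Type} [Group Q] {r : ℕ} (a b : Fin r → Q) :
    ∃ f : Fin (2 * r) → Q, Set.range f = Set.range a ∪ Set.range b := by
  have h : Fin (2 * r) ≃ Fin r ⊕ Fin r :=
    (finCongr (two_mul r)).trans finSumFinEquiv.symm
  refine ⟨Sum.elim a b ∘ h, ?_⟩
  rw [EquivLike.range_comp, Set.Sum.elim_range]

end KC

open KC in
theorem kstr_desc {k r m q e t : ℕ} {K : Type} [Group K] (hK : KStr k r m q e t K) :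
    2 * t ≤ e ∧ ∃ (Q : Type) (_ : Group Q) (E0 : Subgroup Q) (k' : ℕ), k' ≤ k ∧
      Nat.card E0 = 2 ^ k' ∧ (∃ f : Fin (2 * r) → E0, closure (Set.range f) = ⊤) ∧
      ∀ (Γ : Type) [Group Γ] (_ : E0 ≃* Γ), ∃ S : Sq e q,
        ∃ n : {n : Fin r → Γ // Nat.card (closure (Set.range n)) = 2 ^ m},
        ∃ φ : closure (Set.range n.1) →* Γ, Desc (closure (Set.range n.1)) φ t
          (Sum.elim (cr e) (Yc S)) K := by
  obtain ⟨N, n, g, hm, hq, hcN, hn, hsup, ht, Q, _, j, φ, hj, hk, hφ⟩ := hK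
  have hfQ : Finite Q := Nat.finite_of_card_ne_zero (by rw [hk]; positivity)
  have hN : N.Normal := Subgroup.Normal.of_commutator_le K hcN
  obtain ⟨f, hf⟩ := two_gens (fun i => j (n i)) (fun i => φ (j (n i)))
  have hcard : Nat.card (closure (Set.range f)) ∣ 2 ^ k := by
    rw [← hk]; exact Subgroup.card_subgroup_dvd_card _
  obtain ⟨k', hk', hcard'⟩ := (Nat.dvd_prime_pow Nat.prime_two).1 hcard
  refine ⟨ht, Q, inferInstance, closure (Set.range f), k', hk', hcard', ?_, ?_⟩
  · obtain ⟨f', -, hf'⟩ := gens_sub f _ rfl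
    exact ⟨f', hf'⟩
  · intro Γ _ θ
    have hjN : ∀ x ∈ N, j x ∈ closure (Set.range f) := by
      intro x hx
      have h1 : N.map j ≤ closure (Set.range f) := by
        rw [← hn, MonoidHom.map_closure, ← Set.range_comp, hf]
        exact closure_mono Set.subset_union_left
      exact h1 ⟨x, hx, rfl⟩
    have hφN : ∀ x ∈ N, φ (j x) ∈ closure (Set.range f) := by
      intro x hx
      have h1 : N.map (φ.toMonoidHom.comp j) ≤ closure (Set.range f) := by
        rw [← hn, MonoidHom.map_closure, ← Set.range_comp, hf]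
        exact closure_mono Set.subset_union_right
      exact h1 ⟨x, hx, rfl⟩
    let ψ : N →* Γ := θ.toMonoidHom.comp ((j.comp N.subtype).codRestrict (closure (Set.range f))
      (fun x => hjN x.1 x.2))
    have hψ : ∀ x : N, ψ x = θ ⟨j x, hjN x.1 x.2⟩ := fun x => rfl
    have hψi : Function.Injective ψ := by
      intro x y hxy
      rw [hψ, hψ] at hxy
      have h1 := congrArg Subtype.val (θ.injective hxy)
      exact Subtype.ext (hj h1)
    have hnN : ∀ i, n i ∈ N := fun i => hn ▸ subset_closure ⟨i, rfl⟩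
    obtain ⟨n0, hn0, hn0'⟩ := gens_sub n N hn
    have hrange : ψ.range = closure (Set.range fun i => ψ (n0 i)) := by
      rw [MonoidHom.range_eq_map, ← hn0', MonoidHom.map_closure, ← Set.range_comp]
      rfl
    let ε : N ≃* closure (Set.range fun i => ψ (n0 i)) :=
      (MonoidHom.ofInjective hψi).trans (MulEquiv.subgroupCongr hrange)
    have hε : ∀ x : N, (ε x : Γ) = ψ x := fun x => rfl
    have hcA : Nat.card (closure (Set.range fun i => ψ (n0 i))) = 2 ^ m := by
      rw [← hm]; exact (Nat.card_congr ε.toEquiv).symm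
    let ι : closure (Set.range fun i => ψ (n0 i)) →* K := N.subtype.comp ε.symm.toMonoidHom
    have hι : ∀ x, ι x = (ε.symm x : K) := fun x => rfl
    have hιN : ∀ x, ι x ∈ N := fun x => (ε.symm x).2
    have hιi : Function.Injective ι := by
      intro x y hxy
      rw [hι, hι] at hxy
      exact ε.symm.injective (Subtype.ext hxy)
    have hιr : ι.range = N := by
      ext x
      constructor
      · rintro ⟨y, rfl⟩
        exact hιN y
      · intro hx
        refine ⟨ε ⟨x, hx⟩, ?_⟩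
        rw [hι, MulEquiv.symm_apply_apply]
    have hback : ∀ x, θ ⟨j (ι x), hjN _ (hιN x)⟩ = (x : Γ) := by
      intro x
      have h1 : ψ (ε.symm x) = (x : Γ) := by
        rw [← hε, MulEquiv.apply_symm_apply]
      rw [← h1, hψ]
      rfl
    let φ' : closure (Set.range fun i => ψ (n0 i)) →* Γ :=
      θ.toMonoidHom.comp (((φ.toMonoidHom.comp j).comp ι).codRestrict (closure (Set.range f))
        (fun x => hφN _ (hιN x)))
    have hφ' : ∀ x, φ' x = θ ⟨φ (j (ι x)), hφN _ (hιN x)⟩ := fun x => rfl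
    have hlift : (FreeGroup.lift g).range = closure (Set.range g) := by
      rw [FreeGroup.range_lift_eq_closure]
    have hS1 : commutator (FreeGroup (Fin e)) ≤ N.comap (FreeGroup.lift g) := by
      rw [← map_le_iff_le_comap]
      refine le_trans ?_ hcN
      rw [_root_.commutator_def, _root_.commutator_def, map_commutator]
      exact commutator_mono le_top le_top
    have hS2 : (N.comap (FreeGroup.lift g)).index = 2 ^ q := by
      rw [index_comap, hlift, ← hq, ← relIndex_top_right, ← hsup, sup_comm]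
      exact (relIndex_sup_right _ _).symm
    let S : Sq e q := ⟨N.comap (FreeGroup.lift g), hS1, hS2⟩
    have hSdef : S.1 = N.comap (FreeGroup.lift g) := rfl
    refine ⟨S, ⟨fun i => ψ (n0 i), hcA⟩, φ', ?_⟩
    have hR : ∀ i, FreeGroup.lift g (Sum.elim (cr e) (Yc S) i) ∈ ι.range := by
      intro i
      rw [hιr]
      have h1 : Sum.elim (cr e) (Yc S) i ∈ S.1 := by
        rw [Yc_spec S]
        exact subset_normalClosure ⟨i, rfl⟩
      exact h1
    choose ν hν using hR
    refine ⟨ι, g, ν, hιi, by rw [hιr]; exact hN, by rw [hιr]; exact hsup, fun i => (hν i).symm, ?_, ?_⟩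
    · intro w hw
      rw [← Yc_spec S, hSdef]
      rw [hιr] at hw
      exact hw
    · intro p p' h1 h2 h3
      have hp : (p.1.1 : ℕ) < p.1.2 := p.2
      have h4 : φ (j (g p.1.1)) = j (g p'.1.1) := by
        have h5 := hφ p.1.1 (by omega) (by omega) (by rw [← h1]; exact p'.1.1.2)
        have h6 : (⟨t + (p.1.1 : ℕ), by rw [← h1]; exact p'.1.1.2⟩ : Fin e) = p'.1.1 :=
          Fin.ext h1.symm
        rw [h6] at h5
        exact h5
      have h4' : φ (j (g p.1.2)) = j (g p'.1.2) := by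
        have h5 := hφ p.1.2 (by omega) (by omega) (by rw [← h2]; exact p'.1.2.2)
        have h6 : (⟨t + (p.1.2 : ℕ), by rw [← h2]; exact p'.1.2.2⟩ : Fin e) = p'.1.2 :=
          Fin.ext h2.symm
        rw [h6] at h5
        exact h5
      have h7 : φ (j (ι (ν (Sum.inl p)))) = j (ι (ν (Sum.inl p'))) := by
        rw [hν, hν]
        simp only [Sum.elim_inl, cr, map_mul, map_inv, FreeGroup.lift_apply_of, h4, h4']
      rw [hφ', ← hback (ν (Sum.inl p'))]
      congr 1
      exact Subtype.ext h7.symm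

open KC in
theorem kcount (k r m q e t : ℕ) : NumLe (fun K _ => KStr k r m q e t K)
    (2 ^ (k + 2 * r * k * (k + 1) + 2 * k * r + e * q + m * r * e + m * e +
      m * (e.choose 2 - t.choose 2))) := by
  by_cases ht : 2 * t ≤ e
  swap
  · refine NumLe.of_data (X := Empty) (fun _ => Multiplicative ℤ) ?_ ?_
    · rw [Nat.card_eq_fintype_card]; simp
    · intro K _ hK
      exact absurd (kstr_desc hK).1 ht
  have h1 : ∀ k' : Fin (k + 1), NumLe (fun K _ => ∃ (Q : Type) (_ : Group Q) (E0 : Subgroup Q),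
      Nat.card E0 = 2 ^ (k' : ℕ) ∧ (∃ f : Fin (2 * r) → E0, closure (Set.range f) = ⊤) ∧
      ∀ (Γ : Type) [Group Γ] (_ : E0 ≃* Γ), ∃ S : Sq e q,
        ∃ n : {n : Fin r → Γ // Nat.card (closure (Set.range n)) = 2 ^ m},
        ∃ φ : closure (Set.range n.1) →* Γ, Desc (closure (Set.range n.1)) φ t
          (Sum.elim (cr e) (Yc S)) K)
      (2 ^ (2 * r * k * (k + 1)) *
        2 ^ (e * q + (2 * k * r + (m * r * e + m * e + m * (e.choose 2 - t.choose 2))))) := by
    intro k'
    have hk' : (k' : ℕ) ≤ k := Nat.lt_succ_iff.1 k'.2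
    obtain ⟨X, hX, Γ, hΓ, hc, hcov⟩ := numLe_gen (2 * r) k'
    have h2 : ∀ x : {x : X // Nat.card (Γ x) = 2 ^ (k' : ℕ)}, NumLe (fun K _ => ∃ S : Sq e q,
        ∃ n : {n : Fin r → Γ x.1 // Nat.card (closure (Set.range n)) = 2 ^ m},
        ∃ φ : closure (Set.range n.1) →* Γ x.1, Desc (closure (Set.range n.1)) φ t
          (Sum.elim (cr e) (Yc S)) K)
        (2 ^ (e * q + (2 * k * r + (m * r * e + m * e + m * (e.choose 2 - t.choose 2))))) := by
      intro x
      refine desc_count3 ?_ ?_ ht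
      · rw [x.2]; positivity
      · rw [x.2]; exact Nat.pow_le_pow_right (by norm_num) hk'
    refine (NumLe.ex h2).mono ?_ ?_
    · refine mul_le_mul_of_nonneg_right ?_ (by positivity)
      have h3 : (Nat.card {x : X // Nat.card (Γ x) = 2 ^ (k' : ℕ)} : ℝ) ≤ Nat.card X := by
        exact_mod_cast Nat.card_le_card_of_injective _ Subtype.val_injective
      refine h3.trans (hc.trans ?_)
      have h4 : 2 * r * (k' : ℕ) * (k' + 1) ≤ 2 * r * k * (k + 1) := by gcongr
      exact pow_le_pow_right₀ (by norm_num) h4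
    · rintro K _ ⟨Q, _, E0, hE0, hgen, hall⟩
      obtain ⟨x, ⟨θ⟩⟩ := hcov E0 ⟨hE0, hgen⟩
      exact ⟨⟨x, by rw [← hE0]; exact (Nat.card_congr θ.toEquiv).symm⟩, hall (Γ x) θ⟩
  refine (NumLe.ex h1).mono ?_ ?_
  · rw [Nat.card_eq_fintype_card, Fintype.card_fin, ← pow_add]
    have h2 : ((k + 1 : ℕ) : ℝ) ≤ 2 ^ k := by
      exact_mod_cast Nat.lt_two_pow_self
    refine (mul_le_mul_of_nonneg_right h2 (by positivity)).trans ?_
    rw [← pow_add]
    refine pow_le_pow_right₀ (by norm_num) ?_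
    omega
  · intro K _ hK
    obtain ⟨-, Q, _, E0, k', hk', h3, h4, h5⟩ := kstr_desc hK
    exact ⟨⟨k', Nat.lt_succ_iff.2 hk'⟩, Q, _, E0, h3, h4, h5⟩

end Pool.Agent.EnumG
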