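import Pool.Agent.Work.MP_9de0a1_al.Ecl
import Pool.Agent.Work.MP_9de0a1_al.Free
import Pool.Agent.Work.MP_9de0a1_al.Aut

/-!
# Lift : from a subgroup of bounded index to the group
-/

open Subgroup

namespace Pool.Agent.EnumG

theorem Lift.one_pos_two_pow (n : ℕ) : (0 : ℝ) ≤ 2 ^ n := by positivity

/-- index two subgroups in terms of generators and relators -/
theorem Lift.index_two_data {K K' : Type} [Group K] [Group K'] (H : Subgroup K') (hi : H.index = 2)
    (f : K ≃* H) :
    ∃ e : K →* K', Function.Injective e ∧ e.range.Normal ∧ ∃ g : Unit → K',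
      e.range ⊔ closure (Set.range g) = ⊤ ∧
        ∀ w, FreeGroup.lift g w ∈ e.range ↔
          w ∈ normalClosure (Set.range fun _ : Unit => (FreeGroup.of () : FreeGroup Unit) ^ 2) := by
  have hN : H.Normal := Subgroup.normal_of_index_eq_two hi
  have hr : (H.subtype.comp f.toMonoidHom).range = H := by
    rw [MonoidHom.range_comp, MonoidHom.range_eq_top.2 f.surjective, ← MonoidHom.range_eq_map,
      Subgroup.range_subtype]
  obtain ⟨x, hx⟩ : ∃ x : K', x ∉ H := by
    by_contra h
    push Not at h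
    have : H = ⊤ := by
      ext y; simp [h y]
    rw [this, Subgroup.index_top] at hi
    omega
  have hx2 : x ^ 2 ∈ H := Subgroup.sq_mem_of_index_two hi x
  refine ⟨H.subtype.comp f.toMonoidHom, ?_, ?_, fun _ => x, ?_, ?_⟩
  · exact (Subgroup.subtype_injective H).comp f.injective
  · rw [hr]; exact hN
  · rw [hr, eq_top_iff]
    intro y _
    by_cases hy : y ∈ H
    · exact Subgroup.mem_sup_left hy
    · have hxy : x⁻¹ * y ∈ H := by
        have := (Subgroup.mul_mem_iff_of_index_two hi (a := x⁻¹) (b := y))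
        rw [this]
        simp [hx, hy]
      have : y = x * (x⁻¹ * y) := by group
      rw [this]
      exact Subgroup.mul_mem _ (Subgroup.mem_sup_right (Subgroup.subset_closure ⟨(), rfl⟩))
        (Subgroup.mem_sup_left hxy)
  · intro w
    rw [hr]
    constructor
    · intro hw
      obtain ⟨n, hn⟩ : ∃ n : ℤ, w = (FreeGroup.of ()) ^ n :=
        ⟨FreeGroup.freeGroupUnitEquivInt w, (FreeGroup.freeGroupUnitEquivInt.symm_apply_apply w).symm⟩
      subst hn
      rw [map_zpow, FreeGroup.lift_apply_of] at hw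
      rcases Int.even_or_odd' n with ⟨m, hm | hm⟩
      · rw [hm, zpow_mul]
        refine Subgroup.zpow_mem _ ?_ m
        have : (FreeGroup.of () : FreeGroup Unit) ^ (2 : ℤ) = FreeGroup.of () ^ 2 := by
          exact_mod_cast rfl
        rw [this]
        exact Subgroup.subset_normalClosure ⟨(), rfl⟩
      · exfalso
        rw [hm, zpow_add, zpow_mul, zpow_one] at hw
        have h2 : (x ^ (2 : ℤ)) ^ m ∈ H := by
          refine Subgroup.zpow_mem _ ?_ m
          exact_mod_cast hx2
        exact hx ((Subgroup.mul_mem_cancel_left _ h2).1 hw)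
    · intro hw
      have : normalClosure (Set.range fun _ : Unit => (FreeGroup.of () : FreeGroup Unit) ^ 2) ≤
          H.comap (FreeGroup.lift fun _ : Unit => x) := by
        have : (H.comap (FreeGroup.lift fun _ : Unit => x)).Normal := hN.comap _
        refine Subgroup.normalClosure_le_normal ?_
        rintro _ ⟨_, rfl⟩
        simp only [Subgroup.coe_comap, Set.mem_preimage, map_pow, FreeGroup.lift_apply_of]
        exact hx2
      exact this hw

theorem Lift.step (k : ℕ) (K : Type) [Group K] [Finite K] (hK : Nat.card K ≤ 2 ^ k) :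
    NumLe (fun K' _ => ∃ H : Subgroup K', H.index = 2 ∧ Nonempty (K ≃* H)) (2 ^ (k ^ 2 + k)) := by
  refine (ecl_count K (fun _ : Unit => (FreeGroup.of () : FreeGroup Unit) ^ 2)).mono ?_ ?_
  · have h1 : (Nat.card (MulAut K) : ℝ) ≤ 2 ^ (k ^ 2) := by
      exact_mod_cast card_mulAut_le_two_pow hK
    have h2 : (Nat.card K : ℝ) ≤ 2 ^ k := by exact_mod_cast hK
    simp only [Nat.card_eq_fintype_card (α := Unit), Fintype.card_unit, pow_one]
    rw [pow_add]
    gcongr
  · rintro G _ ⟨H, hi, ⟨f⟩⟩
    exact Lift.index_two_data H hi f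

theorem lift_index (k c : ℕ) (K : Type) [Group K] :
    NumLe (fun Q _ => Nat.card Q = 2 ^ k ∧ ∃ H : Subgroup Q, H.index = 2 ^ c ∧ Nonempty (K ≃* H))
      (2 ^ (c * (k ^ 2 + k))) := by
  induction c generalizing K with
  | zero =>
    refine NumLe.of_data (X := Unit) (fun _ => K) ?_ ?_
    · simp
    · rintro G _ ⟨_, H, hi, ⟨f⟩⟩
      rw [pow_zero, Subgroup.index_eq_one] at hi
      subst hi
      exact ⟨(), ⟨(f.trans Subgroup.topEquiv).symm⟩⟩
  | succ c ih =>
    by_cases hK : Finite K ∧ Nat.card K ≤ 2 ^ k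
    · obtain ⟨hK1, hK2⟩ := hK
      have key := NumLe.fib (P := fun Q _ => Nat.card Q = 2 ^ k ∧
          ∃ H : Subgroup Q, H.index = 2 ^ (c + 1) ∧ Nonempty (K ≃* H))
        (R := fun K' _ G _ => Nat.card G = 2 ^ k ∧ ∃ H : Subgroup G, H.index = 2 ^ c ∧
          Nonempty (K' ≃* H)) (Lift.step k K hK2)
        (Lift.one_pos_two_pow (c * (k ^ 2 + k))) (fun K' _ _ => ih K') ?_ ?_
      · rw [← pow_add] at key
        have : k ^ 2 + k + c * (k ^ 2 + k) = (c + 1) * (k ^ 2 + k) := by ring
        rwa [this] at key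
      · rintro G _ ⟨hG, H, hi, ⟨f⟩⟩
        have hfin : Finite G := Nat.finite_of_card_ne_zero (by rw [hG]; positivity)
        have hmul := H.card_mul_index
        rw [hi, hG] at hmul
        have hck : c + 1 ≤ k := by
          by_contra hlt
          push Not at hlt
          have h1 : 2 ^ k < 2 ^ (c + 1) := Nat.pow_lt_pow_right (by norm_num) hlt
          have h2 : 0 < Nat.card H := Nat.card_pos
          nlinarith
        have hHc : Nat.card H = 2 ^ (k - (c + 1)) := by
          have : 2 ^ k = 2 ^ (k - (c + 1)) * 2 ^ (c + 1) := by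
            rw [← pow_add]; congr 1; omega
          rw [this] at hmul
          exact Nat.eq_of_mul_eq_mul_right (by positivity) hmul
        have : Fact (Nat.Prime 2) := ⟨Nat.prime_two⟩
        obtain ⟨H', hH'c, hle⟩ := Sylow.exists_subgroup_card_pow_succ (p := 2)
          (n := k - (c + 1)) (G := G) (by rw [hG]; exact pow_dvd_pow 2 (by omega)) hHc
        have hi' : H'.index = 2 ^ c := by
          have := H'.card_mul_index
          rw [hH'c, hG] at this
          have h2 : 2 ^ k = 2 ^ (k - (c + 1) + 1) * 2 ^ c := by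
            rw [← pow_add]; congr 1; omega
          rw [h2] at this
          exact Nat.eq_of_mul_eq_mul_left (by positivity) this
        refine ⟨H', inferInstance, ⟨H.subgroupOf H', ?_,
          ⟨f.trans (Subgroup.subgroupOfEquivOfLe hle).symm⟩⟩, hG, H', hi', ⟨MulEquiv.refl _⟩⟩
        have := Subgroup.relIndex_mul_index hle
        rw [hi, hi', pow_succ, mul_comm] at this
        exact Nat.eq_of_mul_eq_mul_left (by positivity) this
      · rintro K1 K2 _ _ G _ ⟨φ⟩ ⟨hG, H, hi, ⟨f⟩⟩
        exact ⟨hG, H, hi, ⟨φ.symm.trans f⟩⟩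
    · refine NumLe.of_data (X := Empty) (fun _ => K) ?_ ?_
      · simp
      · rintro G _ ⟨hG, H, hi, ⟨f⟩⟩
        exfalso
        apply hK
        have hfin : Finite G := Nat.finite_of_card_ne_zero (by rw [hG]; positivity)
        have : Finite K := Finite.of_equiv _ f.symm.toEquiv
        refine ⟨this, ?_⟩
        rw [Nat.card_congr f.toEquiv, ← hG]
        exact Subgroup.card_le_card_group H

theorem bdd_ext (D : ℕ) : ∃ A : ℕ, ∀ (k : ℕ) (K : Type) [Group K] [Finite K], Nat.card K ≤ 2 ^ k →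
    NumLe (fun G _ => ∃ H : Subgroup G, H.Normal ∧ H.index ≠ 0 ∧ H.index ≤ D ∧ Nonempty (K ≃* H))
      (2 ^ (A * (k ^ 2 + 1))) := by
  obtain ⟨hfin, A, hA⟩ := finite_index_gens (Fin D) D
  set 𝒮 := {S : Subgroup (FreeGroup (Fin D)) | S.Normal ∧ S.index ≠ 0 ∧ S.index ≤ D} with h𝒮
  have : Finite 𝒮 := hfin
  have hY : ∀ S : 𝒮, ∃ Y : Fin A → FreeGroup (Fin D), S.1 = normalClosure (Set.range Y) :=
    fun S => hA S.1 S.2.1 S.2.2.1 S.2.2.2
  choose Y hY using hY
  refine ⟨Nat.card 𝒮 + D + A, fun k K _ _ hK => ?_⟩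
  have h1 : (Nat.card (MulAut K) : ℝ) ≤ 2 ^ (k ^ 2) := by
    exact_mod_cast card_mulAut_le_two_pow hK
  have h2 : (Nat.card K : ℝ) ≤ 2 ^ k := by exact_mod_cast hK
  have key := NumLe.ex (fun S : 𝒮 => ecl_count K (Y S) |>.mono
    (Q := fun G _ => ∃ e : K →* G, Function.Injective e ∧ e.range.Normal ∧ ∃ g : Fin D → G,
      e.range ⊔ closure (Set.range g) = ⊤ ∧
        ∀ w, FreeGroup.lift g w ∈ e.range ↔ w ∈ normalClosure (Set.range (Y S)))
    (B := 2 ^ (k ^ 2 * D + k * A)) ?_ (fun G _ h => h))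
  · refine key.mono ?_ ?_
    · have h3 : (Nat.card 𝒮 : ℝ) ≤ 2 ^ (Nat.card 𝒮) := by
        exact_mod_cast Nat.lt_two_pow_self.le
      calc (Nat.card 𝒮 : ℝ) * 2 ^ (k ^ 2 * D + k * A)
          ≤ 2 ^ (Nat.card 𝒮) * 2 ^ (k ^ 2 * D + k * A) := by gcongr
        _ = 2 ^ (Nat.card 𝒮 + (k ^ 2 * D + k * A)) := by rw [← pow_add]
        _ ≤ 2 ^ ((Nat.card 𝒮 + D + A) * (k ^ 2 + 1)) := by
            apply pow_le_pow_right₀ (by norm_num)
            have : k ≤ k ^ 2 := by nlinarith [Nat.le_self_pow (show 2 ≠ 0 by norm_num) k]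
            nlinarith [Nat.zero_le (Nat.card 𝒮), Nat.zero_le D, Nat.zero_le A,
              Nat.mul_le_mul_right A this, Nat.zero_le (Nat.card 𝒮 * k ^ 2)]
    · rintro G _ ⟨H, hN, hi0, hiD, ⟨f⟩⟩
      have hr : (H.subtype.comp f.toMonoidHom).range = H := by
        rw [MonoidHom.range_comp, MonoidHom.range_eq_top.2 f.surjective, ← MonoidHom.range_eq_map,
          Subgroup.range_subtype]
      have : Finite (G ⧸ H) := Nat.finite_of_card_ne_zero (by rwa [← Subgroup.index_eq_card])
      obtain ⟨q, hq⟩ : ∃ q : Fin D → G ⧸ H, Function.Surjective q := by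
        have := Fintype.ofFinite (G ⧸ H)
        have hc : Fintype.card (G ⧸ H) ≤ D := by
          rw [← Nat.card_eq_fintype_card, ← Subgroup.index_eq_card]; exact hiD
        let ι : G ⧸ H ↪ Fin D := (Fintype.equivFin (G ⧸ H)).toEmbedding.trans (Fin.castLEEmb hc)
        exact ⟨Function.invFun ι, Function.invFun_surjective ι.injective⟩
      let g : Fin D → G := fun i => (q i).out
      have hg : ∀ i, (QuotientGroup.mk (g i) : G ⧸ H) = q i := fun i => Quotient.out_eq _
      let F : FreeGroup (Fin D) →* G ⧸ H := (QuotientGroup.mk' H).comp (FreeGroup.lift g)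
      have hF : Function.Surjective F := by
        intro y
        obtain ⟨i, rfl⟩ := hq y
        refine ⟨FreeGroup.of i, ?_⟩
        show (QuotientGroup.mk (FreeGroup.lift g (FreeGroup.of i)) : G ⧸ H) = q i
        rw [FreeGroup.lift_apply_of]
        exact hg i
      have hFi : F.ker.index = H.index := by
        rw [Subgroup.index_ker, MonoidHom.range_eq_top.2 hF, Subgroup.index_eq_card]
        exact Nat.card_congr Subgroup.topEquiv.toEquiv
      have hmem : F.ker ∈ 𝒮 := ⟨inferInstance, by rw [hFi]; exact hi0, by rw [hFi]; exact hiD⟩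
      refine ⟨⟨F.ker, hmem⟩, H.subtype.comp f.toMonoidHom,
        (Subgroup.subtype_injective H).comp f.injective, by rw [hr]; exact hN, g, ?_, ?_⟩
      · rw [hr, eq_top_iff]
        intro y _
        obtain ⟨i, hi⟩ := hq (QuotientGroup.mk y)
        have h3 : (g i)⁻¹ * y ∈ H := by
          rw [← QuotientGroup.eq, hg i, hi]
        have : y = g i * ((g i)⁻¹ * y) := by group
        rw [this]
        exact Subgroup.mul_mem _ (Subgroup.mem_sup_right (Subgroup.subset_closure ⟨i, rfl⟩))
          (Subgroup.mem_sup_left h3)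
      · intro w
        rw [hr, ← hY ⟨F.ker, hmem⟩, MonoidHom.mem_ker]
        show _ ↔ (QuotientGroup.mk (FreeGroup.lift g w) : G ⧸ H) = 1
        rw [QuotientGroup.eq_one_iff]
  · simp only [Nat.card_eq_fintype_card (α := Fin D), Nat.card_eq_fintype_card (α := Fin A),
      Fintype.card_fin]
    calc (Nat.card (MulAut K) : ℝ) ^ D * (Nat.card K : ℝ) ^ A
        ≤ (2 ^ (k ^ 2)) ^ D * (2 ^ k) ^ A := by gcongr
      _ = 2 ^ (k ^ 2 * D + k * A) := by rw [← pow_mul, ← pow_mul, ← pow_add]

end Pool.Agent.EnumG
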