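import Pool.Agent.Work.MP_9de0a1_al.Cnt
import Pool.Agent.Work.MP_9de0a1_al.Aut
import Pool.Agent.Work.MP_9de0a1_al.CExt

/-!
# RatioCore : central extensions by inflated bilinear forms
-/

open Subgroup

namespace Pool.Agent.EnumG

namespace CExt

variable {Q Q' : Type} [Group Q] [Group Q'] {b : CEBil Q (ZMod 2)} {b' : CEBil Q' (ZMod 2)}

theorem map_one_snd (θ : CExt Q (ZMod 2) b ≃* CExt Q' (ZMod 2) b') (hθ : θ ⟨1, 1⟩ = ⟨1, 1⟩)
    (s : ZMod 2) : θ ⟨1, s⟩ = ⟨1, s⟩ := by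
  have : s = 0 ∨ s = 1 := by
    revert s; decide
  rcases this with rfl | rfl
  · exact map_one θ
  · exact hθ

theorem map_mk (θ : CExt Q (ZMod 2) b ≃* CExt Q' (ZMod 2) b') (hθ : θ ⟨1, 1⟩ = ⟨1, 1⟩)
    (x : Q) (s : ZMod 2) : θ ⟨x, s⟩ = ⟨(θ ⟨x, 0⟩).q, (θ ⟨x, 0⟩).a + s⟩ := by
  rw [mk_eq, map_mul, map_one_snd θ hθ]
  ext <;> simp

theorem symm_one (θ : CExt Q (ZMod 2) b ≃* CExt Q' (ZMod 2) b') (hθ : θ ⟨1, 1⟩ = ⟨1, 1⟩) :
    θ.symm ⟨1, 1⟩ = ⟨1, 1⟩ := by
  rw [MulEquiv.symm_apply_eq, hθ]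

/-- the induced isomorphism of quotients -/
def indQ (θ : CExt Q (ZMod 2) b ≃* CExt Q' (ZMod 2) b') (hθ : θ ⟨1, 1⟩ = ⟨1, 1⟩) : Q ≃* Q' where
  toFun x := (θ ⟨x, 0⟩).q
  invFun y := (θ.symm ⟨y, 0⟩).q
  left_inv x := by
    have h := map_mk θ.symm (symm_one θ hθ) (θ ⟨x, 0⟩).q (θ ⟨x, 0⟩).a
    have h2 : θ.symm (θ ⟨x, 0⟩) = ⟨x, 0⟩ := θ.symm_apply_apply _
    have h3 : (θ.symm (⟨(θ ⟨x, 0⟩).q, (θ ⟨x, 0⟩).a⟩ : CExt Q' (ZMod 2) b')).q = x := by
      change (θ.symm (θ ⟨x, 0⟩)).q = x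
      rw [h2]
    rw [h] at h3
    exact h3
  right_inv y := by
    have h := map_mk θ hθ (θ.symm ⟨y, 0⟩).q (θ.symm ⟨y, 0⟩).a
    have h2 : θ (θ.symm ⟨y, 0⟩) = ⟨y, 0⟩ := θ.apply_symm_apply _
    have h3 : (θ (⟨(θ.symm ⟨y, 0⟩).q, (θ.symm ⟨y, 0⟩).a⟩ : CExt Q (ZMod 2) b)).q = y := by
      change (θ (θ.symm ⟨y, 0⟩)).q = y
      rw [h2]
    rw [h] at h3
    exact h3
  map_mul' x y := by
    have h1 : (⟨x * y, b.f x y⟩ : CExt Q (ZMod 2) b) = ⟨x, 0⟩ * ⟨y, 0⟩ := by ext <;> simp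
    have h2 := congrArg θ h1
    rw [map_mul, map_mk θ hθ] at h2
    exact congrArg CExt.q h2

theorem map_a (θ : CExt Q (ZMod 2) b ≃* CExt Q' (ZMod 2) b') (hθ : θ ⟨1, 1⟩ = ⟨1, 1⟩) (x y : Q) :
    (θ ⟨x * y, 0⟩).a + b.f x y =
      (θ ⟨x, 0⟩).a + (θ ⟨y, 0⟩).a + b'.f (indQ θ hθ x) (indQ θ hθ y) := by
  have h1 : (⟨x * y, b.f x y⟩ : CExt Q (ZMod 2) b) = ⟨x, 0⟩ * ⟨y, 0⟩ := by ext <;> simp
  have h2 := congrArg θ h1
  rw [map_mul, map_mk θ hθ] at h2
  exact congrArg CExt.a h2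

end CExt

section
variable {Q : Type} [Group Q] {d : ℕ}

theorem sq_le_ker (π : Q →* Multiplicative (Fin d → ZMod 2)) : sq Q ≤ π.ker := by
  unfold sq
  rw [closure_le]
  rintro _ ⟨x, rfl⟩
  change π (x ^ 2) = 1
  rw [map_pow]
  apply Multiplicative.toAdd.injective
  rw [toAdd_pow, toAdd_one]
  funext i
  simp only [Pi.smul_apply, Pi.zero_apply]
  generalize (Multiplicative.toAdd (π x)) i = t
  revert t; decide

theorem pi_eq_of_mk_eq (π : Q →* Multiplicative (Fin d → ZMod 2)) {x y : Q}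
    (h : (QuotientGroup.mk x : Q ⧸ sq Q) = QuotientGroup.mk y) : π x = π y := by
  rw [QuotientGroup.eq] at h
  have := sq_le_ker π h
  rw [MonoidHom.mem_ker, map_mul, map_inv] at this
  exact inv_mul_eq_one.1 this

theorem ceForm_diag_inj {π : Q →* Multiplicative (Fin d → ZMod 2)}
    (hπ : Function.Surjective π) {β β' : CEI d → ZMod 2}
    (h : ∀ x, (ceForm π β).f x x = (ceForm π β').f x x) : β = β' := by
  have hd : ∀ j : Fin d, β ⟨j, ⟨j.1, Nat.lt_succ_self _⟩⟩ = β' ⟨j, ⟨j.1, Nat.lt_succ_self _⟩⟩ := by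
    intro j
    obtain ⟨x, hx⟩ := hπ (Multiplicative.ofAdd (Pi.single j 1))
    have := h x
    rwa [ceForm_le π β le_rfl hx hx, ceForm_le π β' le_rfl hx hx] at this
  funext p
  obtain ⟨j, i⟩ := p
  rcases Nat.lt_or_ge i.1 j.1 with hlt | hge
  · let i' : Fin d := ⟨i.1, by omega⟩
    have hij : i' < j := hlt
    obtain ⟨x, hx⟩ := hπ (Multiplicative.ofAdd (Pi.single i' 1))
    obtain ⟨y, hy⟩ := hπ (Multiplicative.ofAdd (Pi.single j 1))
    have h1 := h (x * y)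
    simp only [CEBil.mul_left, CEBil.mul_right] at h1
    rw [h x, h y, ceForm_le π β hij.le hx hy, ceForm_le π β' hij.le hx hy,
      ceForm_lt π β hij hx hy, ceForm_lt π β' hij hx hy] at h1
    simpa using h1
  · have hi : i = ⟨j.1, Nat.lt_succ_self _⟩ := by
      apply Fin.ext
      have := i.2
      simp only
      omega
    rw [hi]
    exact hd j

/-- number of `β` with an isomorphism over the central generator -/
theorem ce_count [Finite Q] {k a : ℕ} (hk : Nat.card Q ≤ 2 ^ k)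
    (ha : Nat.card (AV Q) ≤ 2 ^ a) (π : Q →* Multiplicative (Fin d → ZMod 2))
    (hπ : Function.Surjective π) (β₀ : CEI d → ZMod 2) :
    Nat.card {β : CEI d → ZMod 2 // ∃ θ : CExt Q (ZMod 2) (ceForm π β₀) ≃*
      CExt Q (ZMod 2) (ceForm π β), θ ⟨1, 1⟩ = ⟨1, 1⟩} ≤ 2 ^ a * 2 ^ k := by
  classical
  -- the restriction of `h` to `sq Q`
  have hmem : ∀ x ∈ sq Q, ∀ y, ∀ β : CEI d → ZMod 2, (ceForm π β).f x y = 0 := by
    intro x hx y β
    have : π x = 1 := sq_le_ker π hx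
    change ∑ p : CEI d, ((π x).toAdd p.i * (π y).toAdd p.1) • β p = 0
    rw [this]
    simp
  have hchar : ∀ φ : MulAut Q, ∀ x ∈ sq Q, φ x ∈ sq Q := by
    intro φ x hx
    rw [← sq_map φ]
    exact ⟨x, hx, rfl⟩
  have hex : ∀ β : {β : CEI d → ZMod 2 // ∃ θ : CExt Q (ZMod 2) (ceForm π β₀) ≃*
      CExt Q (ZMod 2) (ceForm π β), θ ⟨1, 1⟩ = ⟨1, 1⟩},
      ∃ (φ : MulAut Q) (h : Q → ZMod 2) (r : sq Q →* Multiplicative (ZMod 2)),
        (∀ x : sq Q, (r x).toAdd = h x) ∧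
        ∀ x y, h (x * y) + (ceForm π β₀).f x y = h x + h y + (ceForm π β.1).f (φ x) (φ y) := by
    rintro ⟨β, θ, hθ⟩
    refine ⟨CExt.indQ θ hθ, fun x => (θ ⟨x, 0⟩).a, MonoidHom.mk'
      (fun x => Multiplicative.ofAdd (θ ⟨x.1, 0⟩).a) ?_, fun x => rfl, CExt.map_a θ hθ⟩
    intro x y
    have := CExt.map_a θ hθ x.1 y.1
    rw [hmem x.1 x.2, hmem _ (hchar (CExt.indQ θ hθ) x.1 x.2), add_zero, add_zero] at this
    rw [← ofAdd_add, ← this]
    rfl
  choose φ h r hr hh using hex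
  have hsq : Nat.card (sq Q) ≤ 2 ^ k := (Subgroup.card_le_card_group (sq Q)).trans hk
  obtain ⟨g, hg⟩ := exists_gens hsq
  have hhom := card_hom_le (E := Multiplicative (ZMod 2)) g hg
  have h2 : Nat.card (Multiplicative (ZMod 2)) = 2 := by
    rw [Nat.card_congr Multiplicative.toAdd]; simp
  rw [h2] at hhom
  have : Finite (sq Q →* Multiplicative (ZMod 2)) := by
    have : Finite (Multiplicative (ZMod 2)) := Finite.of_equiv (ZMod 2) Multiplicative.ofAdd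
    exact Finite.of_injective _ DFunLike.coe_injective
  have : Finite (MulAut (Q ⧸ sq Q)) := Finite.of_injective
    (fun f : MulAut (Q ⧸ sq Q) => (f : Q ⧸ sq Q → Q ⧸ sq Q)) DFunLike.coe_injective
  have hinj : Function.Injective fun β : {β : CEI d → ZMod 2 //
      ∃ θ : CExt Q (ZMod 2) (ceForm π β₀) ≃* CExt Q (ZMod 2) (ceForm π β), θ ⟨1, 1⟩ = ⟨1, 1⟩} =>
      ((⟨toV Q (φ β), ⟨φ β, rfl⟩⟩, r β) : AV Q × (sq Q →* Multiplicative (ZMod 2))) := by
    intro β β' hb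
    simp only [Prod.mk.injEq, Subtype.mk.injEq] at hb
    obtain ⟨hV, hrr⟩ := hb
    apply Subtype.ext
    apply ceForm_diag_inj hπ
    intro y
    obtain ⟨x, rfl⟩ := (φ β).surjective y
    have e1 := hh β x x
    have e2 := hh β' x x
    have hπx : π (φ β' x) = π (φ β x) := by
      apply pi_eq_of_mk_eq
      rw [← toV_mk, ← toV_mk, hV]
    have e3 : (ceForm π β'.1).f (φ β' x) (φ β' x) = (ceForm π β'.1).f (φ β x) (φ β x) := by
      change ∑ p : CEI d, _ = ∑ p : CEI d, _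
      rw [hπx]
    have hxx : x * x ∈ sq Q := by
      rw [← pow_two]; exact subset_closure ⟨x, rfl⟩
    have e4 : h β (x * x) = h β' (x * x) := by
      rw [← hr β ⟨x * x, hxx⟩, ← hr β' ⟨x * x, hxx⟩, hrr]
    have e5 : ∀ t : ZMod 2, t + t = 0 := by decide
    rw [e5, zero_add] at e1 e2
    rw [← e1, ← e3, ← e2, e4]
  calc Nat.card _ ≤ Nat.card (AV Q × (sq Q →* Multiplicative (ZMod 2))) :=
        Nat.card_le_card_of_injective _ hinj
    _ = Nat.card (AV Q) * Nat.card (sq Q →* Multiplicative (ZMod 2)) := Nat.card_prod _ _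
    _ ≤ 2 ^ a * 2 ^ k := Nat.mul_le_mul ha hhom

/-- a surjection onto `F_2^d` -/
theorem exists_pi [Finite Q] (h : 2 ^ d ≤ Nat.card (Q ⧸ sq Q)) :
    ∃ π : Q →* Multiplicative (Fin d → ZMod 2), Function.Surjective π := by
  classical
  have hexp : ∀ v : Q ⧸ sq Q, v * v = 1 := by
    intro v
    induction v using QuotientGroup.induction_on with
    | H x =>
      rw [← QuotientGroup.mk_mul, QuotientGroup.eq_one_iff, ← pow_two]
      exact subset_closure ⟨x, rfl⟩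
  have hinv : ∀ v : Q ⧸ sq Q, v⁻¹ = v := fun v => inv_eq_of_mul_eq_one_left (hexp v)
  let _ : CommGroup (Q ⧸ sq Q) := { (inferInstance : Group (Q ⧸ sq Q)) with
    mul_comm := fun a b => by
      rw [← hinv (a * b), mul_inv_rev, hinv, hinv] }
  let _ : Module (ZMod 2) (Additive (Q ⧸ sq Q)) := AddCommGroup.zmodModule (n := 2) (by
    intro x
    rw [two_nsmul]
    exact hexp x.toMul)
  have hfin : Finite (Additive (Q ⧸ sq Q)) := inferInstance
  have := Fintype.ofFinite (Additive (Q ⧸ sq Q))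
  let n := Module.finrank (ZMod 2) (Additive (Q ⧸ sq Q))
  let bs : Module.Basis (Fin n) (ZMod 2) (Additive (Q ⧸ sq Q)) := Module.finBasis _ _
  have hcard : Nat.card (Q ⧸ sq Q) = 2 ^ n := by
    have h1 : Nat.card (Additive (Q ⧸ sq Q)) = 2 ^ n := by
      rw [Nat.card_congr bs.equivFun.toEquiv, Nat.card_fun]
      simp
    exact h1
  have hdn : d ≤ n := by
    rw [hcard] at h
    exact (Nat.pow_le_pow_iff_right (by norm_num)).1 h
  let L : Additive (Q ⧸ sq Q) →+ (Fin d → ZMod 2) :=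
    ((LinearMap.funLeft (ZMod 2) (ZMod 2) (Fin.castLE hdn)).comp
      bs.equivFun.toLinearMap).toAddMonoidHom
  have hL : Function.Surjective L := by
    intro y
    obtain ⟨z, hz⟩ := LinearMap.funLeft_surjective_of_injective (ZMod 2) (ZMod 2)
      (Fin.castLE hdn) (Fin.castLE_injective hdn) y
    obtain ⟨w, hw⟩ := bs.equivFun.surjective z
    exact ⟨w, by
      change LinearMap.funLeft (ZMod 2) (ZMod 2) (Fin.castLE hdn) (bs.equivFun w) = y
      rw [hw, hz]⟩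
  refine ⟨(AddMonoidHom.toMultiplicativeRight L).comp (QuotientGroup.mk' (sq Q)), ?_⟩
  intro y
  obtain ⟨w, hw⟩ := hL y.toAdd
  obtain ⟨x, hx⟩ := QuotientGroup.mk'_surjective (sq Q) w.toMul
  refine ⟨x, ?_⟩
  change Multiplicative.ofAdd (L (Additive.ofMul (QuotientGroup.mk' (sq Q) x))) = y
  rw [hx]
  change Multiplicative.ofAdd (L w) = y
  rw [hw]
  rfl

end

/-- chosen representative of a class -/
def Rep {m : ℕ} (_ : Cls m) : Type := Fin m

noncomputable instance {m : ℕ} (q : Cls m) : Group (Rep q) := q.out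

instance {m : ℕ} (q : Cls m) : Finite (Rep q) := inferInstanceAs (Finite (Fin m))

theorem Rep.card {m : ℕ} (q : Cls m) : Nat.card (Rep q) = m := by
  change Nat.card (Fin m) = m
  simp

theorem Rep.eq_of_iso {m : ℕ} {q q' : Cls m} (h : Nonempty (Rep q ≃* Rep q')) : q = q' := by
  have h1 : GIso q.out q'.out := h
  have h2 := Quot.sound (r := fun G1 G2 : Group (Fin m) => GIso G1 G2) h1
  rwa [Quot.out_eq, Quot.out_eq] at h2

instance finite_cls (m : ℕ) : Finite (Cls m) := by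
  have : Finite (Group (Fin m)) := by
    refine Finite.of_injective (β := Fin m → Fin m → Fin m) (fun G => G.mul) ?_
    intro G1 G2 h
    exact Group.ext h
  infer_instance

theorem ratio_core (k d a : ℕ) :
    cnt (fun Q _ => 2 ^ d ≤ Nat.card (Q ⧸ sq Q) ∧ Nat.card (AV Q) ≤ 2 ^ a) (2 ^ k) *
      2 ^ (d * (d + 1) / 2) ≤ 2 ^ (k + 1 + a + k) * gc (2 ^ (k + 1)) := by
  classical
  let P : ∀ (G : Type) [Group G], Prop :=
    fun Q _ => 2 ^ d ≤ Nat.card (Q ⧸ sq Q) ∧ Nat.card (AV Q) ≤ 2 ^ a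
  let C := {q : Cls (2 ^ k) // P (Rep q)}
  have hex : ∀ q : C, ∃ π : Rep q.1 →* Multiplicative (Fin d → ZMod 2), Function.Surjective π :=
    fun q => exists_pi q.2.1
  choose π hπ using hex
  let X := C × (CEI d → ZMod 2)
  let Γ : X → Type := fun x => CExt (Rep x.1.1) (ZMod 2) (ceForm (π x.1) x.2)
  have hΓ : ∀ x, Nat.card (Γ x) = 2 ^ (k + 1) := by
    intro x
    change Nat.card (CExt (Rep x.1.1) (ZMod 2) (ceForm (π x.1) x.2)) = _
    rw [CExt.card_eq, Rep.card]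
    simp [pow_succ]
  have hM : ∀ (E : Type) [Group E], Nat.card E = 2 ^ (k + 1) →
      Nat.card {x : X // Nonempty (CExt (Rep x.1.1) (ZMod 2) (ceForm (π x.1) x.2) ≃* E)} ≤
        2 ^ (k + 1 + a + k) := by
    intro E _ hE
    have hfE : Finite E := Nat.finite_of_card_ne_zero (by rw [hE]; positivity)
    let S := {x : X // Nonempty (CExt (Rep x.1.1) (ZMod 2) (ceForm (π x.1) x.2) ≃* E)}
    let f : ∀ s : S, CExt (Rep s.1.1.1) (ZMod 2) (ceForm (π s.1.1) s.1.2) ≃* E :=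
      fun s => s.2.some
    let z : S → E := fun s => f s ⟨1, 1⟩
    have hle : Nat.card S ≤ Nat.card E * (2 ^ a * 2 ^ k) := by
      refine card_le_mul_of_fiber z _ fun e => ?_
      rcases isEmpty_or_nonempty {s // z s = e} with hemp | ⟨⟨s0, hs0⟩⟩
      · simp
      · refine le_trans ?_ (ce_count (k := k) (a := a) (Rep.card s0.1.1.1).le s0.1.1.2.2
          (π s0.1.1) (hπ s0.1.1) s0.1.2)
        have hq : ∀ s : {s // z s = e}, s.1.1.1 = s0.1.1 := by
          rintro ⟨s, hs⟩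
          apply Subtype.ext
          apply Rep.eq_of_iso
          refine ⟨CExt.indQ ((f s).trans (f s0).symm) ?_⟩
          have : f s ⟨1, 1⟩ = f s0 ⟨1, 1⟩ := hs.trans hs0.symm
          simp [this]
        have hθ : ∀ s : {s // z s = e}, ∃ θ : CExt (Rep s0.1.1.1) (ZMod 2)
            (ceForm (π s0.1.1) s0.1.2) ≃* CExt (Rep s0.1.1.1) (ZMod 2)
            (ceForm (π s0.1.1) s.1.1.2), θ ⟨1, 1⟩ = ⟨1, 1⟩ := by
          intro s
          have hqs := hq s
          obtain ⟨⟨⟨c, β⟩, hs'⟩, hs⟩ := s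
          change c = s0.1.1 at hqs
          subst hqs
          refine ⟨(f s0).trans (f ⟨⟨s0.1.1, β⟩, hs'⟩).symm, ?_⟩
          have : f s0 ⟨1, 1⟩ = f ⟨⟨s0.1.1, β⟩, hs'⟩ ⟨1, 1⟩ := hs0.trans hs.symm
          simp [this]
        refine Nat.card_le_card_of_injective (fun s => ⟨s.1.1.2, hθ s⟩) ?_
        intro s s' h
        simp only [Subtype.mk.injEq] at h
        apply Subtype.ext
        apply Subtype.ext
        exact Prod.ext ((hq s).trans (hq s').symm) h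
    refine hle.trans ?_
    rw [hE, pow_add _ (k + 1 + a), pow_add _ (k + 1)]
    exact le_of_eq (by ring)
  have hmain := card_le_mul_gc (m := 2 ^ (k + 1)) (M := 2 ^ (k + 1 + a + k)) Γ (by positivity) hΓ hM
  refine le_trans (le_of_eq ?_) hmain
  change _ = Nat.card (C × (CEI d → ZMod 2))
  rw [Nat.card_prod, Nat.card_fun, card_CEI]
  simp only [Nat.card_eq_fintype_card (α := ZMod 2), ZMod.card]
  rfl

end Pool.Agent.EnumG
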