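import Pool.Agent.Work.MP_9de0a1_al.Defs

/-!
# Schl : Schlichting's theorem, quantitative, finite groups
-/

open Subgroup
open scoped Pointwise

namespace Pool.Agent.EnumG

set_option linter.unusedSectionVars false

section schl

variable {G : Type} [Group G]

/-- conjugate subgroup -/
def schl_cj (x : G) (D : Subgroup G) : Subgroup G := D.map (MulAut.conj x).toMonoidHom

theorem schl_mem_cj {x g : G} {D : Subgroup G} : g ∈ schl_cj x D ↔ x⁻¹ * g * x ∈ D := by
  unfold schl_cj
  rw [Subgroup.mem_map]
  constructor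
  · rintro ⟨d, hd, rfl⟩
    simpa [MulAut.conj_apply, mul_assoc] using hd
  · intro h
    refine ⟨_, h, ?_⟩
    simp [MulAut.conj_apply, mul_assoc]

theorem schl_cj_cj (x y : G) (D : Subgroup G) : schl_cj x (schl_cj y D) = schl_cj (x * y) D := by
  ext g
  simp only [schl_mem_cj, mul_inv_rev, mul_assoc]

theorem schl_cj_mono {x : G} {D E : Subgroup G} (h : D ≤ E) : schl_cj x D ≤ schl_cj x E :=
  Subgroup.map_mono h

theorem schl_cj_inf (x : G) (D E : Subgroup G) :
    schl_cj x (D ⊓ E) = schl_cj x D ⊓ schl_cj x E := by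
  ext g
  simp only [schl_mem_cj, Subgroup.mem_inf]

theorem schl_cj_top (x : G) : schl_cj x (⊤ : Subgroup G) = ⊤ := by
  ext g
  simp only [schl_mem_cj, Subgroup.mem_top]

theorem schl_conj_inj (x : G) : Function.Injective (MulAut.conj x).toMonoidHom :=
  (MulAut.conj x).injective

theorem schl_card_cj (x : G) (D : Subgroup G) : Nat.card (schl_cj x D) = Nat.card D :=
  Nat.card_congr (D.equivMapOfInjective _ (schl_conj_inj x)).toEquiv.symm

theorem schl_relIndex_cj (x : G) (H K : Subgroup G) :
    (schl_cj x H).relIndex (schl_cj x K) = H.relIndex K :=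
  Subgroup.relIndex_map_map_of_injective H K (schl_conj_inj x)

/-- intersections of at most `j` conjugates -/
def schl_L (D : Subgroup G) (j : ℕ) (L : Subgroup G) : Prop :=
  ∃ s : Finset G, s.Nonempty ∧ s.card ≤ j ∧ L = s.inf fun x => schl_cj x D

theorem schl_L_mono {D : Subgroup G} {j j' : ℕ} (h : j ≤ j') {L : Subgroup G}
    (hL : schl_L D j L) : schl_L D j' L := by
  obtain ⟨s, h1, h2, h3⟩ := hL
  exact ⟨s, h1, h2.trans h, h3⟩

theorem schl_L_cj {D : Subgroup G} {j : ℕ} {L : Subgroup G} (hL : schl_L D j L) (y : G) :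
    schl_L D j (schl_cj y L) := by
  classical
  obtain ⟨s, h1, h2, h3⟩ := hL
  refine ⟨s.image (y * ·), h1.image _, Finset.card_image_le.trans h2, ?_⟩
  rw [Finset.inf_image, h3]
  have : ∀ t : Finset G, schl_cj y (t.inf fun x => schl_cj x D) =
      t.inf fun x => schl_cj (y * x) D := by
    intro t
    induction t using Finset.induction_on with
    | empty => simp [schl_cj_top]
    | insert a t _ ih => rw [Finset.inf_insert, Finset.inf_insert, schl_cj_inf, ih, schl_cj_cj]
  rw [this]
  rfl

theorem schl_L_inf {D : Subgroup G} {j j' : ℕ} {L L' : Subgroup G} (hL : schl_L D j L)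
    (hL' : schl_L D j' L') : schl_L D (j + j') (L ⊓ L') := by
  classical
  obtain ⟨s, h1, h2, h3⟩ := hL
  obtain ⟨s', h1', h2', h3'⟩ := hL'
  refine ⟨s ∪ s', h1.mono Finset.subset_union_left, (Finset.card_union_le _ _).trans (by omega), ?_⟩
  rw [Finset.inf_union, h3, h3']

theorem schl_L_one (D : Subgroup G) : schl_L D 1 D := by
  refine ⟨{1}, by simp, by simp, ?_⟩
  rw [Finset.inf_singleton]
  ext g
  simp [schl_mem_cj]

variable [Finite G]

theorem schl_relIndex_le {D : Subgroup G} {m : ℕ}
    (hD : ∀ x : G, Nat.card D ≤ m * Nat.card (D ⊓ schl_cj x D : Subgroup G)) (x y : G) :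
    (schl_cj x D).relIndex (schl_cj y D) ≤ m := by
  have h1 : (schl_cj x D).relIndex (schl_cj y D) = (schl_cj (y⁻¹ * x) D).relIndex D := by
    rw [← schl_relIndex_cj y⁻¹, schl_cj_cj, schl_cj_cj, inv_mul_cancel]
    congr 1
    ext g
    simp [schl_mem_cj]
  rw [h1]
  set E := schl_cj (y⁻¹ * x) D
  have h2 : Nat.card (D ⊓ E : Subgroup G) * E.relIndex D = Nat.card D := by
    have h3 := Subgroup.card_mul_index (E.subgroupOf D)
    rw [← h3]
    congr 1
    rw [← Subgroup.inf_subgroupOf_left]
    exact (Nat.card_congr (Subgroup.subgroupOfEquivOfLe (inf_le_left : D ⊓ E ≤ D)).toEquiv).symm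
  have h3 := hD (y⁻¹ * x)
  have h4 : 0 < Nat.card (D ⊓ E : Subgroup G) := Nat.card_pos
  rw [← h2] at h3
  have h5 : Nat.card (D ⊓ E : Subgroup G) * E.relIndex D ≤ Nat.card (D ⊓ E : Subgroup G) * m := by
    rw [mul_comm _ m]; exact h3
  exact Nat.le_of_mul_le_mul_left h5 h4

theorem schl_relIndex_ne (H K : Subgroup G) : H.relIndex K ≠ 0 := by
  unfold Subgroup.relIndex
  exact Subgroup.index_ne_zero_of_finite

theorem schl_relIndex_L {D : Subgroup G} {m : ℕ}
    (hD : ∀ x : G, Nat.card D ≤ m * Nat.card (D ⊓ schl_cj x D : Subgroup G)) {j : ℕ}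
    {L : Subgroup G} (hL : schl_L D j L) (x : G) : (schl_cj x D).relIndex L ≤ m := by
  obtain ⟨s, ⟨y, hy⟩, h2, h3⟩ := hL
  have h4 : L ≤ schl_cj y D := by
    rw [h3]; exact Finset.inf_le hy
  exact (Subgroup.relIndex_le_of_le_right h4 (schl_relIndex_ne _ _)).trans
    (schl_relIndex_le hD x y)

theorem schl_card_L {D : Subgroup G} {m : ℕ}
    (hD : ∀ x : G, Nat.card D ≤ m * Nat.card (D ⊓ schl_cj x D : Subgroup G)) {j : ℕ}
    {L : Subgroup G} (hL : schl_L D j L) : Nat.card D ≤ m ^ j * Nat.card L := by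
  classical
  have hm : 1 ≤ m := by
    by_contra h
    have h0 : m = 0 := by omega
    have h1 := hD 1
    rw [h0, zero_mul] at h1
    have : 0 < Nat.card D := Nat.card_pos
    omega
  obtain ⟨s, h1, h2, h3⟩ := hL
  have key : ∀ t : Finset G, t.Nonempty →
      Nat.card D ≤ m ^ t.card * Nat.card (t.inf fun x => schl_cj x D : Subgroup G) := by
    intro t ht
    induction ht using Finset.Nonempty.cons_induction with
    | singleton a =>
      rw [Finset.inf_singleton, schl_card_cj]
      exact Nat.le_mul_of_pos_left _ (pow_pos hm _)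
    | cons a t ha hne ih =>
      rw [Finset.inf_cons, Finset.card_cons, pow_succ]
      have h5 : schl_L D t.card (t.inf fun x => schl_cj x D) := ⟨t, hne, le_rfl, rfl⟩
      have h6 := schl_relIndex_L hD h5 a
      set T : Subgroup G := t.inf fun x => schl_cj x D
      have h7 : Nat.card (schl_cj a D ⊓ T : Subgroup G) * (schl_cj a D).relIndex T =
          Nat.card T := by
        have h3 := Subgroup.card_mul_index ((schl_cj a D).subgroupOf T)
        rw [← h3]
        congr 1
        rw [← Subgroup.inf_subgroupOf_right]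
        exact (Nat.card_congr (Subgroup.subgroupOfEquivOfLe
          (inf_le_right : schl_cj a D ⊓ T ≤ T)).toEquiv).symm
      calc Nat.card D ≤ m ^ t.card * Nat.card T := ih
        _ ≤ m ^ t.card * (Nat.card (schl_cj a D ⊓ T : Subgroup G) * m) := by
            rw [← h7]
            exact Nat.mul_le_mul_left _ (Nat.mul_le_mul_left _ h6)
        _ = m ^ t.card * m * Nat.card (schl_cj a D ⊓ T : Subgroup G) := by ring
  rw [h3]
  exact (key s h1).trans (Nat.mul_le_mul_right _ (Nat.pow_le_pow_right hm h2))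

/-- `μ(L)` -/
noncomputable def schl_mu (D L : Subgroup G) : ℕ := ⨆ x : G, (schl_cj x D).relIndex L

theorem schl_le_mu (D L : Subgroup G) (x : G) : (schl_cj x D).relIndex L ≤ schl_mu D L :=
  le_ciSup (f := fun x : G => (schl_cj x D).relIndex L) (Set.finite_range _).bddAbove x

theorem schl_mu_attained (D L : Subgroup G) : ∃ x, (schl_cj x D).relIndex L = schl_mu D L :=
  exists_eq_ciSup_of_finite

theorem schl_mu_cj (D L : Subgroup G) (y : G) : schl_mu D (schl_cj y L) = schl_mu D L := by
  apply le_antisymm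
  · apply ciSup_le
    intro x
    have : (schl_cj x D).relIndex (schl_cj y L) = (schl_cj (y⁻¹ * x) D).relIndex L := by
      rw [← schl_relIndex_cj y⁻¹, schl_cj_cj, schl_cj_cj, inv_mul_cancel]
      congr 1
      ext g
      simp [schl_mem_cj]
    rw [this]
    exact schl_le_mu _ _ _
  · apply ciSup_le
    intro x
    have : (schl_cj x D).relIndex L = (schl_cj (y * x) D).relIndex (schl_cj y L) := by
      rw [← schl_relIndex_cj y, schl_cj_cj]
    rw [this]
    exact schl_le_mu _ _ _

theorem schl_mu_le {D : Subgroup G} {m : ℕ}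
    (hD : ∀ x : G, Nat.card D ≤ m * Nat.card (D ⊓ schl_cj x D : Subgroup G)) {j : ℕ}
    {L : Subgroup G} (hL : schl_L D j L) : schl_mu D L ≤ m :=
  ciSup_le fun x => schl_relIndex_L hD hL x

theorem schl_mu_pos (D L : Subgroup G) : 1 ≤ schl_mu D L := by
  obtain ⟨x, hx⟩ := schl_mu_attained D L
  rw [← hx]
  exact Nat.one_le_iff_ne_zero.2 (schl_relIndex_ne _ _)

/-- `μ_j` -/
noncomputable def schl_m (D : Subgroup G) (j : ℕ) : ℕ := sInf {n | ∃ L, schl_L D j L ∧ n = schl_mu D L}

theorem schl_m_le {D : Subgroup G} {j : ℕ} {L : Subgroup G} (hL : schl_L D j L) :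
    schl_m D j ≤ schl_mu D L := Nat.sInf_le ⟨L, hL, rfl⟩

theorem schl_m_attained {D : Subgroup G} {j : ℕ} (hj : 1 ≤ j) :
    ∃ L, schl_L D j L ∧ schl_mu D L = schl_m D j := by
  have h1 : {n | ∃ L, schl_L D j L ∧ n = schl_mu D L}.Nonempty :=
    ⟨_, D, schl_L_mono hj (schl_L_one D), rfl⟩
  obtain ⟨L, h2, h3⟩ := Nat.sInf_mem h1
  exact ⟨L, h2, h3.symm⟩

theorem schl_m_anti {D : Subgroup G} {i j : ℕ} (hi : 1 ≤ i) (hij : i ≤ j) :
    schl_m D j ≤ schl_m D i := by
  obtain ⟨L, h1, h2⟩ := schl_m_attained (D := D) hi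
  rw [← h2]
  exact schl_m_le (schl_L_mono hij h1)

/-- cosets of `H` met by `K` are met by `L' ≤ K` when the relative indices agree -/
theorem schl_mul_eq {K L' H : Subgroup G} (h : L' ≤ K) (hi : H.relIndex K ≤ H.relIndex L') :
    (K : Set G) * (H : Set G) = (L' : Set G) * (H : Set G) := by
  apply Set.Subset.antisymm
  · rintro _ ⟨a, ha, b, hb, rfl⟩
    have hinj : Function.Injective (Subgroup.quotientSubgroupOfEmbeddingOfLE H h) :=
      (Subgroup.quotientSubgroupOfEmbeddingOfLE H h).injective
    have hbij : Function.Bijective (Subgroup.quotientSubgroupOfEmbeddingOfLE H h) := by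
      rw [Nat.bijective_iff_injective_and_card]
      refine ⟨hinj, le_antisymm (Nat.card_le_card_of_injective _ hinj) hi⟩
    obtain ⟨q, hq⟩ := hbij.2 (QuotientGroup.mk (⟨a, ha⟩ : K))
    induction q using QuotientGroup.induction_on with
    | H l =>
      rw [Subgroup.quotientSubgroupOfEmbeddingOfLE_apply_mk, QuotientGroup.eq] at hq
      rw [Subgroup.mem_subgroupOf] at hq
      refine ⟨l, l.2, (l : G)⁻¹ * a * b, ?_, ?_⟩
      · exact H.mul_mem (by simpa using hq) hb
      · simp [mul_assoc]
  · exact Set.mul_subset_mul_right h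

/-- product of conjugates -/
def schl_T (L : Subgroup G) : List G → Set G
  | [] => (L : Set G)
  | y :: l => schl_T L l * (schl_cj y L : Set G)

theorem schl_one_mem_T (L : Subgroup G) (l : List G) : (1 : G) ∈ schl_T L l := by
  induction l with
  | nil => exact L.one_mem
  | cons y l ih => exact ⟨1, ih, 1, (schl_cj y L).one_mem, by simp⟩

theorem schl_T_left (L : Subgroup G) (l : List G) {a b : G} (ha : a ∈ L) (hb : b ∈ schl_T L l) :
    a * b ∈ schl_T L l := by
  induction l generalizing b with
  | nil => exact L.mul_mem ha hb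
  | cons y l ih =>
    obtain ⟨c, hc, d, hd, rfl⟩ := hb
    exact ⟨a * c, ih hc, d, hd, by simp [mul_assoc]⟩

theorem schl_T_bound {D : Subgroup G} {m j : ℕ}
    (hD : ∀ x : G, Nat.card D ≤ m * Nat.card (D ⊓ schl_cj x D : Subgroup G))
    {L : Subgroup G} (hL : schl_L D j L) {J : ℕ} (hmu : schl_mu D L ≤ schl_m D J)
    (l : List G) (hl : (l.length + 1) * j ≤ J) : (schl_T L l).ncard ≤ m * Nat.card D := by
  classical
  -- the intersection
  have h1 : ∀ l : List G, ∃ L' : Subgroup G, schl_L D ((l.length + 1) * j) L' ∧ L' ≤ L ∧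
      ∀ y ∈ l, L' ≤ schl_cj y L := by
    intro l
    induction l with
    | nil => exact ⟨L, by simpa using hL, le_rfl, by simp⟩
    | cons y l ih =>
      obtain ⟨L', a, b, c⟩ := ih
      refine ⟨L' ⊓ schl_cj y L, ?_, inf_le_left.trans b, ?_⟩
      · have := schl_L_inf a (schl_L_cj hL y)
        refine schl_L_mono (le_of_eq ?_) this
        simp only [List.length_cons]; ring
      · intro z hz
        rcases List.mem_cons.1 hz with rfl | hz
        · exact inf_le_right
        · exact inf_le_left.trans (c z hz)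
  obtain ⟨L', a, b, c⟩ := h1 l
  have h2 : schl_mu D L ≤ schl_mu D L' := hmu.trans (schl_m_le (schl_L_mono hl a))
  obtain ⟨x, hx⟩ := schl_mu_attained D L'
  set H := schl_cj x D
  have h3 : (L : Set G) * (H : Set G) = (L' : Set G) * (H : Set G) :=
    schl_mul_eq b ((schl_le_mu D L x).trans (h2.trans hx.ge))
  have h4 : ∀ y ∈ l, (schl_cj y L : Set G) * (H : Set G) = (L' : Set G) * (H : Set G) := by
    intro y hy
    refine schl_mul_eq (c y hy) ((schl_le_mu D (schl_cj y L) x).trans ?_)
    rw [schl_mu_cj]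
    exact h2.trans hx.ge
  have hKL : ∀ K : Subgroup G, L' ≤ K → (K : Set G) * (L' : Set G) = (K : Set G) := by
    intro K hK
    apply Set.Subset.antisymm
    · rintro _ ⟨a, ha, b, hb, rfl⟩
      exact K.mul_mem ha (hK hb)
    · intro a ha
      exact ⟨a, ha, 1, L'.one_mem, by simp⟩
  have h5 : ∀ t : List G, (∀ y ∈ t, y ∈ l) →
      schl_T L t * ((L' : Set G) * (H : Set G)) = (L' : Set G) * (H : Set G) := by
    intro t
    induction t with
    | nil =>
      intro _
      show (L : Set G) * ((L' : Set G) * (H : Set G)) = _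
      rw [← mul_assoc, hKL L b, h3]
    | cons y t ih =>
      intro ht
      have h6 : (schl_cj y L : Set G) * (H : Set G) = (L' : Set G) * (H : Set G) :=
        h4 y (ht y (by simp))
      show schl_T L t * (schl_cj y L : Set G) * ((L' : Set G) * (H : Set G)) = _
      rw [mul_assoc, ← mul_assoc (schl_cj y L : Set G), hKL _ (c y (ht y (by simp))), h6]
      exact ih fun z hz => ht z (by simp [hz])
  have h6 : schl_T L l ⊆ (L' : Set G) * (H : Set G) := by
    intro a ha
    rw [← h5 l fun y hy => hy]
    exact ⟨a, ha, 1, ⟨1, L'.one_mem, 1, H.one_mem, by simp⟩, by simp⟩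
  have h7 : Nat.card ((L' : Set G) * (H : Set G) : Set G) = Nat.card H * H.relIndex L' := by
    rw [Subgroup.card_mul_eq_card_subgroup_mul_card_quotient]
    congr 1
    have e1 : Nat.card (((↑) : G → G ⧸ H) '' (L' : Set G)) = Nat.card (L' ⧸ H.subgroupOf L') := by
      refine (Nat.card_congr (Equiv.ofBijective
        (fun q : L' ⧸ H.subgroupOf L' => (⟨Quotient.liftOn' q (fun l => (QuotientGroup.mk (l : G) : G ⧸ H)) ?_, ?_⟩ :
          (((↑) : G → G ⧸ H) '' (L' : Set G)))) ⟨?_, ?_⟩)).symm
      · intro a b hab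
        rw [QuotientGroup.leftRel_apply, Subgroup.mem_subgroupOf] at hab
        exact QuotientGroup.eq.2 (by simpa using hab)
      · induction q using QuotientGroup.induction_on with
        | H l => exact ⟨l, l.2, rfl⟩
      · intro q q' hq
        induction q using QuotientGroup.induction_on with
        | H l =>
        induction q' using QuotientGroup.induction_on with
        | H l' =>
        have hq2 := Subtype.ext_iff.1 hq
        have hq3 : (QuotientGroup.mk (l : G) : G ⧸ H) = QuotientGroup.mk (l' : G) := hq2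
        rw [QuotientGroup.eq] at hq3
        apply QuotientGroup.eq.2
        rw [Subgroup.mem_subgroupOf]
        simpa using hq3
      · rintro ⟨_, l, hl, rfl⟩
        exact ⟨QuotientGroup.mk (⟨l, hl⟩ : L'), rfl⟩
    exact e1
  calc (schl_T L l).ncard ≤ ((L' : Set G) * (H : Set G)).ncard :=
        Set.ncard_le_ncard h6 (Set.toFinite _)
    _ = Nat.card H * H.relIndex L' := h7
    _ ≤ Nat.card D * m := by
        refine Nat.mul_le_mul (schl_card_cj x D).le ?_
        exact (schl_relIndex_L hD a x)
    _ = m * Nat.card D := mul_comm _ _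

/-- greedy choice: the products stabilise -/
theorem schl_greedy {D : Subgroup G} {m j : ℕ}
    (hD : ∀ x : G, Nat.card D ≤ m * Nat.card (D ⊓ schl_cj x D : Subgroup G))
    {L : Subgroup G} (hL : schl_L D j L) {J : ℕ} (hmu : schl_mu D L ≤ schl_m D J)
    (hJ : (m ^ (j + 1) + 2) * j ≤ J) :
    ∃ l : List G, l.length ≤ m ^ (j + 1) ∧
      ∀ y, schl_T L l * (schl_cj y L : Set G) = schl_T L l := by
  classical
  by_contra hcon
  push Not at hcon
  have key : ∀ n : ℕ, n ≤ m ^ (j + 1) + 1 → ∃ l : List G, l.length = n ∧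
      (n + 1) * Nat.card L ≤ (schl_T L l).ncard := by
    intro n
    induction n with
    | zero =>
      intro _
      refine ⟨[], rfl, ?_⟩
      rw [zero_add, one_mul]
      exact le_of_eq rfl
    | succ n ih =>
      intro hn
      obtain ⟨l, hl, hc⟩ := ih (by omega)
      obtain ⟨y, hy⟩ := hcon l (by omega)
      refine ⟨y :: l, by simp [hl], ?_⟩
      have hsub : schl_T L l ⊆ schl_T L (y :: l) := by
        intro a ha
        exact ⟨a, ha, 1, (schl_cj y L).one_mem, by simp⟩
      have hne : ∃ z ∈ schl_T L (y :: l), z ∉ schl_T L l := by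
        by_contra h
        push Not at h
        exact hy (Set.Subset.antisymm h hsub)
      obtain ⟨z, hz, hz'⟩ := hne
      -- the coset L z
      have hdisj : Disjoint (schl_T L l) ((fun a => a * z) '' (L : Set G)) := by
        rw [Set.disjoint_left]
        rintro _ hb ⟨a, ha, rfl⟩
        apply hz'
        have := schl_T_left L l (L.inv_mem ha) hb
        simpa using this
      have hsub2 : schl_T L l ∪ (fun a => a * z) '' (L : Set G) ⊆ schl_T L (y :: l) := by
        apply Set.union_subset hsub
        rintro _ ⟨a, ha, rfl⟩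
        exact schl_T_left L (y :: l) ha hz
      have hcard : ((fun a => a * z) '' (L : Set G)).ncard = Nat.card L :=
        Set.ncard_image_of_injective _ (mul_left_injective z)
      calc (n + 1 + 1) * Nat.card L = (n + 1) * Nat.card L + Nat.card L := by ring
        _ ≤ (schl_T L l).ncard + ((fun a => a * z) '' (L : Set G)).ncard := by
            rw [hcard]; exact Nat.add_le_add_right hc _
        _ = (schl_T L l ∪ (fun a => a * z) '' (L : Set G)).ncard :=
            (Set.ncard_union_eq hdisj (Set.toFinite _) (Set.toFinite _)).symm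
        _ ≤ (schl_T L (y :: l)).ncard := Set.ncard_le_ncard hsub2 (Set.toFinite _)
  obtain ⟨l, hl, hc⟩ := key (m ^ (j + 1) + 1) le_rfl
  have h1 := schl_T_bound hD hL hmu l (by
    rw [hl]
    exact hJ)
  have h2 := schl_card_L hD hL
  have h3 : (m ^ (j + 1) + 1 + 1) * Nat.card L ≤ m * (m ^ j * Nat.card L) :=
    hc.trans (h1.trans (Nat.mul_le_mul_left _ h2))
  have h4 : 0 < Nat.card L := Nat.card_pos
  have h5 : m * (m ^ j * Nat.card L) = m ^ (j + 1) * Nat.card L := by ring
  rw [h5] at h3
  have := Nat.le_of_mul_le_mul_right h3 h4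
  omega

/-- the scales -/
def schl_j (m : ℕ) : ℕ → ℕ
  | 0 => 1
  | i + 1 => (m ^ (schl_j m i + 1) + 2) * schl_j m i

theorem schl_j_pos (m i : ℕ) : 1 ≤ schl_j m i := by
  induction i with
  | zero => exact le_rfl
  | succ i ih =>
    show 1 ≤ (m ^ (schl_j m i + 1) + 2) * schl_j m i
    exact Nat.one_le_iff_ne_zero.2 (by positivity)

theorem schl_j_mono (m : ℕ) : Monotone (schl_j m) := by
  apply monotone_nat_of_le_succ
  intro i
  show schl_j m i ≤ (m ^ (schl_j m i + 1) + 2) * schl_j m i
  exact Nat.le_mul_of_pos_left _ (by positivity)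

theorem schl_main (m : ℕ) (D : Subgroup G)
    (hD : ∀ x : G, Nat.card D ≤ m * Nat.card (D ⊓ schl_cj x D : Subgroup G)) :
    ∃ N : Subgroup G, N.Normal ∧ Nat.card N ≤ m * Nat.card D ∧
        Nat.card D ≤ m ^ (schl_j m m) * Nat.card (D ⊓ N : Subgroup G) := by
  classical
  have hm : 1 ≤ m := by
    by_contra h
    have h0 : m = 0 := by omega
    have h1 := hD 1
    rw [h0, zero_mul] at h1
    have : 0 < Nat.card D := Nat.card_pos
    omega
  -- the scale
  obtain ⟨i, him, hi⟩ : ∃ i < m, schl_m D (schl_j m i) ≤ schl_m D (schl_j m (i + 1)) := by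
    by_contra hcon
    push Not at hcon
    have key : ∀ i ≤ m, schl_m D (schl_j m i) + i ≤ m := by
      intro i
      induction i with
      | zero =>
        intro _
        rw [add_zero]
        exact (schl_m_le (schl_L_mono (schl_j_pos m 0) (schl_L_one D))).trans
          (schl_mu_le hD (schl_L_one D))
      | succ i ih =>
        intro h
        have h1 := ih (by omega)
        have h2 := hcon i (by omega)
        omega
    have h1 := key m le_rfl
    obtain ⟨L, hL, hmu⟩ := schl_m_attained (D := D) (schl_j_pos m m)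
    have h2 := schl_mu_pos D L
    omega
  obtain ⟨L, hL, hmu⟩ := schl_m_attained (D := D) (schl_j_pos m i)
  have hmu' : schl_mu D L ≤ schl_m D (schl_j m (i + 1)) := hmu.le.trans hi
  obtain ⟨l, hl, hst⟩ := schl_greedy hD hL hmu' le_rfl
  -- T = N
  set T := schl_T L l with hT
  have hTN : ∀ a ∈ T, ∀ b ∈ normalClosure (L : Set G), a * b ∈ T := by
    intro a ha b hb
    have hb' : b ∈ closure (Group.conjugatesOfSet (L : Set G)) := hb
    induction hb' using Subgroup.closure_induction_right generalizing a with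
    | one => simpa using ha
    | mul_right x _ y hy ih =>
      rw [← mul_assoc]
      obtain ⟨c, hc, hcy⟩ := Group.mem_conjugatesOfSet_iff.1 hy
      obtain ⟨g, hg⟩ := isConj_iff.1 hcy
      rw [← hst g]
      refine ⟨a * x, ih a ha (by assumption), y, ?_, rfl⟩
      rw [SetLike.mem_coe, schl_mem_cj, ← hg]
      simpa [mul_assoc] using hc
    | mul_inv_cancel x _ y hy ih =>
      rw [← mul_assoc]
      obtain ⟨c, hc, hcy⟩ := Group.mem_conjugatesOfSet_iff.1 hy
      obtain ⟨g, hg⟩ := isConj_iff.1 hcy
      rw [← hst g]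
      refine ⟨a * x, ih a ha (by assumption), y⁻¹, ?_, rfl⟩
      rw [SetLike.mem_coe, schl_mem_cj, ← hg]
      simpa [mul_assoc] using hc
  have hNT : ((normalClosure (L : Set G) : Subgroup G) : Set G) ⊆ T := by
    intro b hb
    have := hTN 1 (schl_one_mem_T L l) b hb
    simpa using this
  have hLN : L ≤ normalClosure (L : Set G) := Subgroup.subset_normalClosure
  refine ⟨normalClosure (L : Set G), inferInstance, ?_, ?_⟩
  · have h1 := schl_T_bound hD hL hmu' l (by
      calc (l.length + 1) * schl_j m i ≤ (m ^ (schl_j m i + 1) + 2) * schl_j m i :=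
            Nat.mul_le_mul_right _ (by omega)
        _ = schl_j m (i + 1) := rfl)
    calc Nat.card (normalClosure (L : Set G)) =
          ((normalClosure (L : Set G) : Subgroup G) : Set G).ncard := rfl
      _ ≤ T.ncard := Set.ncard_le_ncard hNT (Set.toFinite _)
      _ ≤ m * Nat.card D := h1
  · have h1 := schl_card_L hD hL
    obtain ⟨s, ⟨x, hx⟩, h2, h3⟩ := hL
    have h4 : L ≤ schl_cj x D := by rw [h3]; exact Finset.inf_le hx
    have h5 : schl_cj x⁻¹ L ≤ D ⊓ normalClosure (L : Set G) := by
      intro g hg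
      rw [schl_mem_cj, inv_inv] at hg
      constructor
      · have := h4 hg
        rw [schl_mem_cj] at this
        simpa [mul_assoc] using this
      · have := (inferInstance : (normalClosure (L : Set G)).Normal).conj_mem _ (hLN hg) x⁻¹
        simpa [mul_assoc] using this
    have h6 : Nat.card L ≤ Nat.card (D ⊓ normalClosure (L : Set G) : Subgroup G) := by
      rw [← schl_card_cj x⁻¹ L]
      exact Nat.card_le_card_of_injective (Subgroup.inclusion h5) (Subgroup.inclusion_injective h5)
    calc Nat.card D ≤ m ^ schl_j m i * Nat.card L := h1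
      _ ≤ m ^ schl_j m m * Nat.card (D ⊓ normalClosure (L : Set G) : Subgroup G) :=
          Nat.mul_le_mul (Nat.pow_le_pow_right hm (schl_j_mono m him.le)) h6

end schl

theorem schlichting (m : ℕ) : ∃ F : ℕ, ∀ (G : Type) [Group G] [Finite G] (D : Subgroup G),
    (∀ x : G, Nat.card D ≤ m * Nat.card (D ⊓ D.map (MulAut.conj x).toMonoidHom : Subgroup G)) →
      ∃ N : Subgroup G, N.Normal ∧ Nat.card N ≤ m * Nat.card D ∧
        Nat.card D ≤ F * Nat.card (D ⊓ N : Subgroup G) :=
  ⟨m ^ (schl_j m m), fun _ _ _ D hD => schl_main m D hD⟩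

end Pool.Agent.EnumG
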