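import Pool.Agent.Work.MP_9de0a1_al.Defs

/-!
# Select : many independent displaced elements (helper53)
-/

open Subgroup
open scoped commutatorElement

namespace Pool.Agent.EnumG

theorem disp_mul_card_sq {Q : Type} [Group Q] [Finite Q] (φ : MulAut Q) :
    disp φ * Nat.card (sq Q) ≤ Nat.card Q := by
  rw [Subgroup.card_eq_card_quotient_mul_card_subgroup (sq Q)]
  refine Nat.mul_le_mul ?_ le_rfl
  unfold disp
  exact Nat.card_le_card_of_injective (Subtype.val) Subtype.val_injective

namespace Select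

theorem V_comm {Q : Type} [Group Q] (u v : Q ⧸ sq Q) : u * v = v * u := by
  induction u using QuotientGroup.induction_on with
  | H x =>
    induction v using QuotientGroup.induction_on with
    | H y =>
      rw [← QuotientGroup.mk_mul, ← QuotientGroup.mk_mul, QuotientGroup.eq]
      have h1 : (x * y)⁻¹ * (y * x) = (y⁻¹ * x⁻¹) ^ 2 * (x * y * x⁻¹) ^ 2 * x ^ 2 := by
        simp only [pow_two, mul_assoc, inv_mul_cancel_left, mul_inv_rev]
      rw [h1]
      refine mul_mem (mul_mem ?_ ?_) ?_ <;> exact Subgroup.subset_closure ⟨_, rfl⟩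

theorem V_sq {Q : Type} [Group Q] (v : Q ⧸ sq Q) : v ^ 2 = 1 := by
  induction v using QuotientGroup.induction_on with
  | H y =>
    rw [← QuotientGroup.mk_pow, QuotientGroup.eq_one_iff]
    exact Subgroup.subset_closure ⟨_, rfl⟩

theorem two_mul_le {V : Type} [Group V] [Finite V] (U : Subgroup V) (a : V) (ha : a ∉ U) :
    2 * Nat.card U ≤ Nat.card (U ⊔ zpowers a : Subgroup V) := by
  have hle : U ≤ U ⊔ zpowers a := le_sup_left
  obtain ⟨k, hk⟩ := Subgroup.card_dvd_of_le hle
  have hpos : 0 < Nat.card U := Nat.card_pos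
  have hk2 : 2 ≤ k := by
    by_contra hlt
    have hk1 : k = 0 ∨ k = 1 := by omega
    rcases hk1 with rfl | rfl
    · have : 0 < Nat.card (U ⊔ zpowers a : Subgroup V) := Nat.card_pos
      omega
    · rw [mul_one] at hk
      have heq : U = U ⊔ zpowers a := Subgroup.eq_of_le_of_card_ge hle hk.le
      exact ha (heq ▸ (le_sup_right : zpowers a ≤ U ⊔ zpowers a) (mem_zpowers a))
  rw [hk, mul_comm]
  exact Nat.mul_le_mul le_rfl hk2

theorem mem_sup_zpowers {V : Type} [Group V] (hc : ∀ u v : V, u * v = v * u) (h2 : ∀ v : V, v ^ 2 = 1)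
    (U : Subgroup V) (a v : V) (hv : v ∈ U ⊔ zpowers a) : v ∈ U ∨ v * a ∈ U := by
  have hn : U.Normal := ⟨fun n hn g => by rw [hc g n, mul_assoc, mul_inv_cancel, mul_one]; exact hn⟩
  rw [Subgroup.mem_sup_of_normal_left] at hv
  obtain ⟨u, hu, z, hz, rfl⟩ := hv
  obtain ⟨k, rfl⟩ := Subgroup.mem_zpowers_iff.1 hz
  have haa : a * a = 1 := by rw [← pow_two]; exact h2 a
  have h2k : ∀ m : ℤ, a ^ (m + m) = 1 := by
    intro m
    rw [← two_mul, zpow_mul, zpow_ofNat, h2, one_zpow]
  rcases Int.even_or_odd k with ⟨m, rfl⟩ | ⟨m, rfl⟩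
  · left
    rw [h2k, mul_one]; exact hu
  · right
    rw [two_mul, zpow_add_one, h2k, one_mul, mul_assoc, haa, mul_one]
    exact hu

theorem le_two_mul {V : Type} [Group V] [Finite V] (hc : ∀ u v : V, u * v = v * u)
    (h2 : ∀ v : V, v ^ 2 = 1) (U : Subgroup V) (a : V) :
    Nat.card (U ⊔ zpowers a : Subgroup V) ≤ 2 * Nat.card U := by
  have hsub : ((U ⊔ zpowers a : Subgroup V) : Set V) ⊆ (U : Set V) ∪ (fun u => u * a) '' (U : Set V) := by
    intro v hv
    rcases mem_sup_zpowers hc h2 U a v hv with h | h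
    · exact Or.inl h
    · right
      refine ⟨v * a, h, ?_⟩
      have haa : a * a = 1 := by rw [← pow_two]; exact h2 a
      simp only [mul_assoc, haa, mul_one]
  have h3 := Set.ncard_le_ncard hsub (Set.toFinite _)
  have h4 := Set.ncard_union_le (U : Set V) ((fun u => u * a) '' (U : Set V))
  have h5 := Set.ncard_image_le (f := fun u => u * a) (s := (U : Set V)) (Set.toFinite _)
  have h6 : (U : Set V).ncard = Nat.card U := rfl
  have h7 : ((U ⊔ zpowers a : Subgroup V) : Set V).ncard = Nat.card (U ⊔ zpowers a : Subgroup V) := rfl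
  omega

theorem card_closure_le {V : Type} [Group V] [Finite V] (hc : ∀ u v : V, u * v = v * u)
    (h2 : ∀ v : V, v ^ 2 = 1) : ∀ (r : ℕ) (n : Fin r → V),
    Nat.card (closure (Set.range n)) ≤ 2 ^ r
  | 0, n => by
    have : Set.range n = ∅ := Set.range_eq_empty n
    rw [this, Subgroup.closure_empty, Subgroup.card_bot]; simp
  | r + 1, n => by
    have h3 : closure (Set.range n) = closure (Set.range (Fin.init n)) ⊔ zpowers (n (Fin.last r)) := by
      rw [Subgroup.zpowers_eq_closure, ← Subgroup.closure_union]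
      congr 1
      ext v
      constructor
      · rintro ⟨i, rfl⟩
        refine Fin.lastCases ?_ (fun j => ?_) i
        · right; rfl
        · left; exact ⟨j, rfl⟩
      · rintro (⟨j, rfl⟩ | h)
        · exact ⟨j.castSucc, rfl⟩
        · exact ⟨Fin.last r, h.symm⟩
    rw [h3, pow_succ, mul_comm]
    exact le_trans (le_two_mul hc h2 _ _) (Nat.mul_le_mul le_rfl (card_closure_le hc h2 r _))

theorem card_range_mul_card_comap {Q V : Type} [Group Q] [Group V] [Finite Q] [Finite V] (D : Q →* V)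
    (U : Subgroup V) : Nat.card D.range * Nat.card (U.comap D) ≤ Nat.card U * Nat.card Q := by
  have h1 : (U.comap D).index = U.relIndex D.range := Subgroup.index_comap U D
  have h2 : Nat.card D.range ≤ (U.comap D).index * Nat.card U := by
    rw [h1, Subgroup.relIndex]
    rw [← Subgroup.index_mul_card (U.subgroupOf D.range)]
    refine Nat.mul_le_mul le_rfl ?_
    exact Nat.card_le_card_of_injective
      (fun x : U.subgroupOf D.range => (⟨(x.1 : V), x.2⟩ : U)) (fun x y h => by
        apply Subtype.ext; apply Subtype.ext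
        exact congrArg (fun z : U => (z : V)) h)
  calc Nat.card D.range * Nat.card (U.comap D)
      ≤ ((U.comap D).index * Nat.card U) * Nat.card (U.comap D) := Nat.mul_le_mul h2 le_rfl
    _ = Nat.card U * ((U.comap D).index * Nat.card (U.comap D)) := by ring
    _ = Nat.card U * Nat.card Q := by rw [Subgroup.index_mul_card]

theorem card_map_mul {Q V : Type} [Group Q] [Group V] [Finite Q] [Finite V] (D : Q →* V)
    (N M : Subgroup Q) (h : N ≤ M) :
    Nat.card N * Nat.card (M.map D) ≤ Nat.card M * Nat.card (N.map D) := by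
  have key : ∀ H : Subgroup Q, Nat.card H = Nat.card (H.map D) * Nat.card (D.ker ⊓ H : Subgroup Q) := by
    intro H
    have h1 := Subgroup.card_eq_card_quotient_mul_card_subgroup (D.comp H.subtype).ker
    have h2 : Nat.card (H ⧸ (D.comp H.subtype).ker) = Nat.card (H.map D) := by
      rw [Nat.card_congr (QuotientGroup.quotientKerEquivRange (D.comp H.subtype)).toEquiv,
        MonoidHom.range_comp, Subgroup.range_subtype]
    have h3 : Nat.card (D.comp H.subtype).ker = Nat.card (D.ker ⊓ H : Subgroup Q) := by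
      refine Nat.card_congr
        { toFun := fun x => ⟨x.1.1, x.2, x.1.2⟩
          invFun := fun x => ⟨⟨x.1, x.2.2⟩, x.2.1⟩
          left_inv := fun x => rfl
          right_inv := fun x => rfl }
    rw [h1, h2, h3]
  rw [key N, key M]
  have h4 : Nat.card (D.ker ⊓ N : Subgroup Q) ≤ Nat.card (D.ker ⊓ M : Subgroup Q) :=
    Subgroup.card_le_of_le (inf_le_inf le_rfl h)
  calc Nat.card (N.map D) * Nat.card (D.ker ⊓ N : Subgroup Q) * Nat.card (M.map D)
      = Nat.card (M.map D) * Nat.card (N.map D) * Nat.card (D.ker ⊓ N : Subgroup Q) := by ring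
    _ ≤ Nat.card (M.map D) * Nat.card (N.map D) * Nat.card (D.ker ⊓ M : Subgroup Q) :=
        Nat.mul_le_mul le_rfl h4
    _ = _ := by ring

/-- the displacement homomorphism -/
def D {Q : Type} [Group Q] (φ : MulAut Q) : Q →* Q ⧸ sq Q where
  toFun x := QuotientGroup.mk (φ x * x⁻¹)
  map_one' := by simp
  map_mul' x y := by
    rw [map_mul, mul_inv_rev, QuotientGroup.mk_mul, QuotientGroup.mk_mul, QuotientGroup.mk_mul,
      QuotientGroup.mk_mul, QuotientGroup.mk_mul]
    rw [mul_assoc, ← mul_assoc (QuotientGroup.mk (φ y) : Q ⧸ sq Q),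
      V_comm ((QuotientGroup.mk (φ y) : Q ⧸ sq Q) * QuotientGroup.mk y⁻¹), mul_assoc]

theorem card_D_range {Q : Type} [Group Q] (φ : MulAut Q) : Nat.card (D φ).range = disp φ := rfl

theorem exists_good {Q : Type} [Group Q] [Finite Q] (φ : MulAut Q) (K : Subgroup Q) {C : ℕ} {B : ℕ}
    (hC : K.index ≤ C) (U : Subgroup (Q ⧸ sq Q)) (hU : Nat.card U ≤ B) (h : 3 * C ^ 2 * B < disp φ) :
    ∃ y : Q, y ∈ K ∧ φ y ∈ K ∧ (QuotientGroup.mk y : Q ⧸ sq Q) ∉ U ∧
      (QuotientGroup.mk (φ y) : Q ⧸ sq Q) ∉ U ∧ (QuotientGroup.mk (φ y * y⁻¹) : Q ⧸ sq Q) ∉ U := by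
  by_contra hno
  push Not at hno
  set W : Subgroup Q := K ⊓ K.comap φ.toMonoidHom with hW
  have hWi : W.index ≤ C * C := by
    refine le_trans Subgroup.index_inf_le (Nat.mul_le_mul hC ?_)
    rw [Subgroup.index_comap_of_surjective _ φ.surjective]
    exact hC
  have hWc : Nat.card Q ≤ C * C * Nat.card W := by
    rw [← Subgroup.index_mul_card W]
    exact Nat.mul_le_mul hWi le_rfl
  have hsub : (W : Set Q) ⊆ ((U.comap (QuotientGroup.mk' (sq Q)) : Subgroup Q) : Set Q) ∪
      (((U.comap ((QuotientGroup.mk' (sq Q)).comp φ.toMonoidHom) : Subgroup Q) : Set Q) ∪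
      ((U.comap (D φ) : Subgroup Q) : Set Q)) := by
    intro y hy
    by_cases h1 : (QuotientGroup.mk y : Q ⧸ sq Q) ∈ U
    · exact Or.inl h1
    by_cases h2 : (QuotientGroup.mk (φ y) : Q ⧸ sq Q) ∈ U
    · exact Or.inr (Or.inl h2)
    exact Or.inr (Or.inr (hno y hy.1 hy.2 h1 h2))
  have h3 := Set.ncard_le_ncard hsub (Set.toFinite _)
  have h4 := Set.ncard_union_le ((U.comap (QuotientGroup.mk' (sq Q)) : Subgroup Q) : Set Q)
    (((U.comap ((QuotientGroup.mk' (sq Q)).comp φ.toMonoidHom) : Subgroup Q) : Set Q) ∪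
      ((U.comap (D φ) : Subgroup Q) : Set Q))
  have h5 := Set.ncard_union_le
    ((U.comap ((QuotientGroup.mk' (sq Q)).comp φ.toMonoidHom) : Subgroup Q) : Set Q)
      ((U.comap (D φ) : Subgroup Q) : Set Q)
  have hdV : disp φ ≤ Nat.card (Q ⧸ sq Q) := by
    unfold disp
    exact Nat.card_le_card_of_injective (Subtype.val) Subtype.val_injective
  have b1 : disp φ * Nat.card (U.comap (QuotientGroup.mk' (sq Q)) : Subgroup Q) ≤ B * Nat.card Q := by
    have := card_range_mul_card_comap (QuotientGroup.mk' (sq Q)) U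
    rw [QuotientGroup.range_mk', Subgroup.card_top] at this
    exact le_trans (Nat.mul_le_mul hdV le_rfl) (le_trans this (Nat.mul_le_mul hU le_rfl))
  have b2 : disp φ * Nat.card (U.comap ((QuotientGroup.mk' (sq Q)).comp φ.toMonoidHom) : Subgroup Q)
      ≤ B * Nat.card Q := by
    have := card_range_mul_card_comap ((QuotientGroup.mk' (sq Q)).comp φ.toMonoidHom) U
    have hr : ((QuotientGroup.mk' (sq Q)).comp φ.toMonoidHom).range = ⊤ := by
      rw [MonoidHom.range_eq_top]
      exact (QuotientGroup.mk'_surjective _).comp φ.surjective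
    rw [hr, Subgroup.card_top] at this
    exact le_trans (Nat.mul_le_mul hdV le_rfl) (le_trans this (Nat.mul_le_mul hU le_rfl))
  have b3 : disp φ * Nat.card (U.comap (D φ) : Subgroup Q) ≤ B * Nat.card Q := by
    have := card_range_mul_card_comap (D φ) U
    rw [card_D_range] at this
    exact le_trans this (Nat.mul_le_mul hU le_rfl)
  have c0 : (W : Set Q).ncard = Nat.card W := rfl
  have c1 : ((U.comap (QuotientGroup.mk' (sq Q)) : Subgroup Q) : Set Q).ncard =
    Nat.card (U.comap (QuotientGroup.mk' (sq Q)) : Subgroup Q) := rfl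
  have c2 : ((U.comap ((QuotientGroup.mk' (sq Q)).comp φ.toMonoidHom) : Subgroup Q) : Set Q).ncard =
    Nat.card (U.comap ((QuotientGroup.mk' (sq Q)).comp φ.toMonoidHom) : Subgroup Q) := rfl
  have c3 : ((U.comap (D φ) : Subgroup Q) : Set Q).ncard = Nat.card (U.comap (D φ) : Subgroup Q) := rfl
  rw [c0] at h3
  rw [c1] at h4
  rw [c2, c3] at h5
  have h6 : Nat.card W ≤ Nat.card (U.comap (QuotientGroup.mk' (sq Q)) : Subgroup Q) +
      (Nat.card (U.comap ((QuotientGroup.mk' (sq Q)).comp φ.toMonoidHom) : Subgroup Q) +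
      Nat.card (U.comap (D φ) : Subgroup Q)) := by omega
  have h7 : disp φ * Nat.card W ≤ 3 * (B * Nat.card Q) := by
    calc disp φ * Nat.card W ≤ disp φ * (Nat.card (U.comap (QuotientGroup.mk' (sq Q)) : Subgroup Q) +
      (Nat.card (U.comap ((QuotientGroup.mk' (sq Q)).comp φ.toMonoidHom) : Subgroup Q) +
      Nat.card (U.comap (D φ) : Subgroup Q))) := Nat.mul_le_mul le_rfl h6
      _ = disp φ * Nat.card (U.comap (QuotientGroup.mk' (sq Q)) : Subgroup Q) +
      (disp φ * Nat.card (U.comap ((QuotientGroup.mk' (sq Q)).comp φ.toMonoidHom) : Subgroup Q) +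
      disp φ * Nat.card (U.comap (D φ) : Subgroup Q)) := by ring
      _ ≤ B * Nat.card Q + (B * Nat.card Q + B * Nat.card Q) := Nat.add_le_add b1 (Nat.add_le_add b2 b3)
      _ = _ := by ring
  have hQ : 0 < Nat.card Q := Nat.card_pos
  have h8 : disp φ * Nat.card Q ≤ 3 * C ^ 2 * B * Nat.card Q := by
    calc disp φ * Nat.card Q ≤ disp φ * (C * C * Nat.card W) := Nat.mul_le_mul le_rfl hWc
      _ = C ^ 2 * (disp φ * Nat.card W) := by ring
      _ ≤ C ^ 2 * (3 * (B * Nat.card Q)) := Nat.mul_le_mul le_rfl h7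
      _ = _ := by ring
  have h9 := Nat.le_of_mul_le_mul_right h8 hQ
  omega

end Select

open Select in
theorem select {Q : Type} [Group Q] [Finite Q] (φ : MulAut Q) (K N : Subgroup Q) {C r t : ℕ}
    (hC : K.index ≤ C) (n : Fin r → Q) (hn : closure (Set.range n) = N) (hNK : N ≤ K)
    (h : 3 * C ^ 2 * 2 ^ (2 * t + r) < disp φ) :
    ∃ x : Fin t → Q, (∀ i, x i ∈ K ∧ φ (x i) ∈ K) ∧
      4 ^ t * Nat.card N ≤ Nat.card (N ⊔ closure (Set.range x ∪ Set.range (fun i => φ (x i))) :
        Subgroup Q) := by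
  set π : Q →* Q ⧸ sq Q := QuotientGroup.mk' (sq Q) with hπ
  have hN2 : Nat.card (N.map π) ≤ 2 ^ r := by
    rw [← hn, MonoidHom.map_closure, ← Set.range_comp]
    exact card_closure_le V_comm V_sq r _
  have key : ∀ i : ℕ, i ≤ t → ∃ x : Fin i → Q, (∀ j, x j ∈ K ∧ φ (x j) ∈ K) ∧
      Nat.card ((N ⊔ closure (Set.range x ∪ Set.range (fun i => φ (x i)))).map π) ≤ 4 ^ i * 2 ^ r ∧
      4 ^ i * Nat.card (N.map π) ≤
        Nat.card ((N ⊔ closure (Set.range x ∪ Set.range (fun i => φ (x i)))).map π) := by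
    intro i
    induction i with
    | zero =>
      intro _
      refine ⟨Fin.elim0, fun j => j.elim0, ?_⟩
      have h1 : Set.range (Fin.elim0 : Fin 0 → Q) ∪ Set.range (fun i : Fin 0 => φ (Fin.elim0 i)) = ∅ := by
        rw [Set.range_eq_empty, Set.range_eq_empty, Set.union_empty]
      rw [h1, Subgroup.closure_empty, sup_bot_eq]
      simpa using hN2
    | succ i ih =>
      intro hi
      obtain ⟨x, hxK, hx1, hx2⟩ := ih (by omega)
      set M : Subgroup Q := N ⊔ closure (Set.range x ∪ Set.range (fun i => φ (x i))) with hM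
      have hlt : 3 * C ^ 2 * (4 ^ i * 2 ^ r) < disp φ := by
        refine lt_of_le_of_lt (Nat.mul_le_mul le_rfl ?_) h
        have : (4 : ℕ) ^ i * 2 ^ r = 2 ^ (2 * i + r) := by
          rw [pow_add, pow_mul]; norm_num
        rw [this]
        exact Nat.pow_le_pow_right (by norm_num) (by omega)
      obtain ⟨y, hyK, hφK, hy1, hy2, hy3⟩ := exists_good φ K hC (M.map π) hx1 hlt
      refine ⟨Fin.snoc x y, ?_, ?_⟩
      · intro j
        refine Fin.lastCases ?_ (fun j => ?_) j
        · rw [Fin.snoc_last]; exact ⟨hyK, hφK⟩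
        · rw [Fin.snoc_castSucc]; exact hxK j
      have hcl : N ⊔ closure (Set.range (Fin.snoc x y : Fin (i + 1) → Q) ∪
          Set.range (fun j => φ ((Fin.snoc x y : Fin (i + 1) → Q) j))) =
          M ⊔ (zpowers y ⊔ zpowers (φ y)) := by
        rw [hM, sup_assoc, Subgroup.zpowers_eq_closure, Subgroup.zpowers_eq_closure,
          ← Subgroup.closure_union, ← Subgroup.closure_union]
        congr 2
        ext v
        constructor
        · rintro (⟨j, rfl⟩ | ⟨j, rfl⟩)
          · refine Fin.lastCases ?_ (fun j => ?_) j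
            · right; left; rw [Fin.snoc_last]; rfl
            · left; left; exact ⟨j, by rw [Fin.snoc_castSucc]⟩
          · refine Fin.lastCases ?_ (fun j => ?_) j
            · right; right; simp only [Fin.snoc_last]; rfl
            · left; right; exact ⟨j, by simp only [Fin.snoc_castSucc]⟩
        · rintro ((⟨j, rfl⟩ | ⟨j, rfl⟩) | (hv | hv))
          · left; exact ⟨j.castSucc, by rw [Fin.snoc_castSucc]⟩
          · right; exact ⟨j.castSucc, by simp only [Fin.snoc_castSucc]⟩
          · left; exact ⟨Fin.last i, by rw [Fin.snoc_last]; exact hv.symm⟩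
          · right; exact ⟨Fin.last i, by simp only [Fin.snoc_last]; exact hv.symm⟩
      rw [hcl, Subgroup.map_sup _ _ π, Subgroup.map_sup (zpowers y) _ π, MonoidHom.map_zpowers,
        MonoidHom.map_zpowers, ← sup_assoc]
      have hy2' : π (φ y) ∉ M.map π ⊔ zpowers (π y) := by
        intro hmem
        rcases mem_sup_zpowers V_comm V_sq _ _ _ hmem with h3 | h3
        · exact hy2 h3
        · apply hy3
          have h4 : (QuotientGroup.mk (φ y * y⁻¹) : Q ⧸ sq Q) = π (φ y) * π y := by
            have h5 : (π y)⁻¹ = π y := by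
              rw [inv_eq_iff_mul_eq_one, ← pow_two]; exact V_sq _
            calc (QuotientGroup.mk (φ y * y⁻¹) : Q ⧸ sq Q) = π (φ y) * (π y)⁻¹ := rfl
              _ = _ := by rw [h5]
          rw [h4]; exact h3
      have u1 := le_two_mul V_comm V_sq (M.map π) (π y)
      have u2 := le_two_mul V_comm V_sq (M.map π ⊔ zpowers (π y)) (π (φ y))
      have l1 := two_mul_le (M.map π) (π y) hy1
      have l2 := two_mul_le (M.map π ⊔ zpowers (π y)) (π (φ y)) hy2'
      constructor
      · calc _ ≤ 2 * Nat.card (M.map π ⊔ zpowers (π y) : Subgroup (Q ⧸ sq Q)) := u2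
          _ ≤ 2 * (2 * Nat.card (M.map π)) := Nat.mul_le_mul le_rfl u1
          _ ≤ 2 * (2 * (4 ^ i * 2 ^ r)) := by gcongr
          _ = 4 ^ (i + 1) * 2 ^ r := by ring
      · calc 4 ^ (i + 1) * Nat.card (N.map π) = 2 * (2 * (4 ^ i * Nat.card (N.map π))) := by ring
          _ ≤ 2 * (2 * Nat.card (M.map π)) := by gcongr
          _ ≤ 2 * Nat.card (M.map π ⊔ zpowers (π y) : Subgroup (Q ⧸ sq Q)) := Nat.mul_le_mul le_rfl l1
          _ ≤ _ := l2
  obtain ⟨x, hxK, -, hx2⟩ := key t le_rfl
  refine ⟨x, hxK, ?_⟩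
  have h6 := card_map_mul π N (N ⊔ closure (Set.range x ∪ Set.range (fun i => φ (x i)))) le_sup_left
  have hpos : 0 < Nat.card (N.map π) := Nat.card_pos
  refine Nat.le_of_mul_le_mul_right ?_ hpos
  calc 4 ^ t * Nat.card N * Nat.card (N.map π) = Nat.card N * (4 ^ t * Nat.card (N.map π)) := by ring
    _ ≤ Nat.card N * Nat.card ((N ⊔ closure (Set.range x ∪ Set.range (fun i => φ (x i)))).map π) :=
        Nat.mul_le_mul le_rfl hx2
    _ ≤ _ := h6

end Pool.Agent.EnumG
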