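import Pool.Agent.Work.MP_9de0a1_al.StructA
import Pool.Agent.Work.MP_9de0a1_al.KCount
import Pool.Agent.Work.MP_9de0a1_al.Lift

/-!
# SimsCore : the counting engine for the groups of order `2^k` with a subgroup `K` of bounded
index which satisfies `KStr`
-/

open Subgroup

namespace Pool.Agent.EnumG

/-- construction of `KStr` from data inside `Q` -/
theorem SimsCore.kstr_mk {Q : Type} [Group Q] [Finite Q] {k r m q e t : ℕ}
    (hQ : Nat.card Q = 2 ^ k) (K N : Subgroup Q) (hNK : N ≤ K) (hcomm : ⁅K, K⁆ ≤ N)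
    (n : Fin r → Q) (hn : closure (Set.range n) = N) (hm : Nat.card N = 2 ^ m)
    (hq : Nat.card K = 2 ^ q * Nat.card N) (g : Fin e → Q)
    (hg : N ⊔ closure (Set.range g) = K) (ht : 2 * t ≤ e) (φ : MulAut Q)
    (hφ : ∀ (i : ℕ) (_ : i < t) (h1 : i < e) (h2 : t + i < e), φ (g ⟨i, h1⟩) = g ⟨t + i, h2⟩) :
    KStr k r m q e t K := by
  have hnK : ∀ i, n i ∈ K := fun i => hNK (hn ▸ subset_closure (Set.mem_range_self i))
  have hgK : ∀ i, g i ∈ K := fun i => by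
    rw [← hg]
    exact (le_sup_right : _ ≤ N ⊔ _) (subset_closure (Set.mem_range_self i))
  have hsub : ∀ (ι : Type) (f : ι → Q) (hf : ∀ i, f i ∈ K),
      (closure (Set.range fun i => (⟨f i, hf i⟩ : K))).map K.subtype = closure (Set.range f) := by
    intro ι f hf
    rw [MonoidHom.map_closure]
    congr 1
    ext y
    constructor
    · rintro ⟨_, ⟨i, rfl⟩, rfl⟩
      exact ⟨i, rfl⟩
    · rintro ⟨i, rfl⟩
      exact ⟨⟨f i, hf i⟩, ⟨i, rfl⟩, rfl⟩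
  have hmapN : (N.subgroupOf K).map K.subtype = N := by
    rw [Subgroup.map_subgroupOf_eq_of_le hNK]
  have hcN : Nat.card (N.subgroupOf K) = Nat.card N :=
    Nat.card_congr (Subgroup.subgroupOfEquivOfLe hNK).toEquiv
  refine ⟨N.subgroupOf K, fun i => ⟨n i, hnK i⟩, fun i => ⟨g i, hgK i⟩, ?_, ?_, ?_, ?_, ?_, ht,
    Q, inferInstance, K.subtype, φ, K.subtype_injective, hQ, ?_⟩
  · rw [hcN, hm]
  · have h1 := (N.subgroupOf K).card_mul_index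
    rw [hcN, hq, mul_comm] at h1
    exact Nat.eq_of_mul_eq_mul_right Nat.card_pos h1
  · rw [← Subgroup.map_le_map_iff_of_injective K.subtype_injective, hmapN]
    refine le_trans ?_ hcomm
    rw [commutator_def, Subgroup.map_commutator]
    refine Subgroup.commutator_mono ?_ ?_ <;>
    · rintro _ ⟨x, -, rfl⟩
      exact x.2
  · apply Subgroup.map_injective K.subtype_injective
    rw [hsub _ n hnK, hn, hmapN]
  · apply Subgroup.map_injective K.subtype_injective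
    rw [Subgroup.map_sup, hsub _ g hgK, hmapN, hg, ← MonoidHom.range_eq_map, K.range_subtype]
  · intro i hi h1 h2
    exact hφ i hi h1 h2

/-- the exponent of `kcount` -/
def SimsCore.expo (k r m q e t : ℕ) : ℕ :=
  k + 2 * r * k * (k + 1) + 2 * k * r + e * q + m * r * e + m * e + m * (e.choose 2 - t.choose 2)

/-- fixed parameters -/
theorem SimsCore.core (k r m q e t c : ℕ) :
    NumLe (fun G _ => Nat.card G = 2 ^ k ∧ ∃ H : Subgroup G, H.index = 2 ^ c ∧ KStr k r m q e t H)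
      ((2 : ℝ) ^ SimsCore.expo k r m q e t * (2 : ℝ) ^ (c * (k ^ 2 + k))) := by
  refine NumLe.fib (Q := fun K _ => KStr k r m q e t K)
    (R := fun K _ G _ => Nat.card G = 2 ^ k ∧ ∃ H : Subgroup G, H.index = 2 ^ c ∧
      Nonempty (K ≃* H)) (kcount k r m q e t) (by positivity) ?_ ?_ ?_
  · intro K _ _
    exact lift_index k c K
  · rintro G _ ⟨hG, H, hH, hK⟩
    exact ⟨H, inferInstance, hK, hG, H, hH, ⟨MulEquiv.refl _⟩⟩
  · rintro K K' _ _ G _ ⟨e⟩ ⟨hG, H, hH, ⟨e'⟩⟩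
    exact ⟨hG, H, hH, ⟨e.symm.trans e'⟩⟩

theorem SimsCore.numLe_false {P : ∀ (G : Type) [Group G], Prop} {B : ℝ} (hB : 0 ≤ B)
    (h : ∀ (G : Type) [Group G], ¬ P G) : NumLe P B :=
  ⟨Empty, inferInstance, fun x => x.elim, fun x => x.elim, by simpa using hB,
    fun G _ hG => (h G hG).elim⟩

theorem SimsCore.expo_le {k C r m q e t c : ℕ} {ε E : ℝ} (hε : 0 ≤ ε) (hr : (r : ℝ) ≤ ε * k)
    (heq : e ≤ q) (hmq : m + q ≤ k) (hE : (m : ℝ) * ((e.choose 2 - t.choose 2 : ℕ) : ℝ) ≤ E)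
    (hc : c ≤ C) :
    ((SimsCore.expo k r m q e t + c * (k ^ 2 + k) : ℕ) : ℝ) ≤
      E + 3 * ε * (k : ℝ) ^ 3 + (4 * ε + 3 + 2 * C) * (k : ℝ) ^ 2 := by
  have hk0 : (0 : ℝ) ≤ k := Nat.cast_nonneg k
  have hk2 : (k : ℝ) ≤ (k : ℝ) ^ 2 := by
    have : k ≤ k ^ 2 := Nat.le_self_pow (by norm_num) k
    exact_mod_cast this
  have he : (e : ℝ) ≤ k := by
    have : e ≤ k := by omega
    exact_mod_cast this
  have hq : (q : ℝ) ≤ k := by
    have : q ≤ k := by omega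
    exact_mod_cast this
  have hm : (m : ℝ) ≤ k := by
    have : m ≤ k := by omega
    exact_mod_cast this
  have hc' : (c : ℝ) ≤ C := by exact_mod_cast hc
  have hC0 : (0 : ℝ) ≤ C := Nat.cast_nonneg C
  have hr0 : (0 : ℝ) ≤ r := Nat.cast_nonneg r
  have hm0 : (0 : ℝ) ≤ m := Nat.cast_nonneg m
  have he0 : (0 : ℝ) ≤ e := Nat.cast_nonneg e
  have hq0 : (0 : ℝ) ≤ q := Nat.cast_nonneg q
  have hc0 : (0 : ℝ) ≤ c := Nat.cast_nonneg c
  have h1 : 2 * (r : ℝ) * k * (k + 1) ≤ 2 * (ε * k) * k * (k + 1) := by gcongr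
  have h2 : 2 * (k : ℝ) * r ≤ 2 * k * (ε * k) := by gcongr
  have h3 : (e : ℝ) * q ≤ k * k := by gcongr
  have h4 : (m : ℝ) * r * e ≤ k * (ε * k) * k := by gcongr
  have h5 : (m : ℝ) * e ≤ k * k := by gcongr
  have h6 : (c : ℝ) * (k ^ 2 + k) ≤ C * (k ^ 2 + k ^ 2) := by gcongr
  have h7 : (ε * k) * k ≤ ε * (k : ℝ) ^ 2 := le_of_eq (by ring)
  unfold SimsCore.expo
  push_cast
  nlinarith [h1, h2, h3, h4, h5, h6, h7, hE, hk2]

/-- the engine: all parameters together -/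
theorem SimsCore.engine (k C t : ℕ) (ε E : ℝ) (hε : 0 ≤ ε) :
    NumLe (fun G _ => Nat.card G = 2 ^ k ∧ ∃ H : Subgroup G, H.index ≤ C ∧ ∃ r m q e : ℕ,
      (r : ℝ) ≤ ε * k ∧ r ≤ k ∧ e ≤ q ∧ m + q ≤ k ∧
      (m : ℝ) * ((e.choose 2 - t.choose 2 : ℕ) : ℝ) ≤ E ∧ KStr k r m q e t H)
      ((2 : ℝ) ^ (E + 3 * ε * (k : ℝ) ^ 3 + (4 * ε + 8 + 2 * C) * (k : ℝ) ^ 2)) := by
  set F : ℝ := E + 3 * ε * (k : ℝ) ^ 3 + (4 * ε + 3 + 2 * C) * (k : ℝ) ^ 2 with hF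
  have h1 := NumLe.ex (ι := Fin (k + 1) × Fin (k + 1) × Fin (k + 1) × Fin (k + 1) × Fin (k + 1))
    (P := fun i G _ => ((i.1 : ℕ) : ℝ) ≤ ε * k ∧ (i.2.2.2.1 : ℕ) ≤ i.2.2.1 ∧
      (i.2.1 : ℕ) + i.2.2.1 ≤ k ∧
      (((i.2.1 : ℕ) : ℝ)) * (((i.2.2.2.1 : ℕ).choose 2 - t.choose 2 : ℕ) : ℝ) ≤ E ∧
      (i.2.2.2.2 : ℕ) ≤ C ∧ Nat.card G = 2 ^ k ∧
      ∃ H : Subgroup G, H.index = 2 ^ (i.2.2.2.2 : ℕ) ∧
        KStr k (i.1 : ℕ) (i.2.1 : ℕ) (i.2.2.1 : ℕ) (i.2.2.2.1 : ℕ) t H)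
    (B := (2 : ℝ) ^ F) (by
      rintro ⟨r, m, q, e, c⟩
      by_cases hc : ((r : ℕ) : ℝ) ≤ ε * k ∧ (e : ℕ) ≤ q ∧ (m : ℕ) + q ≤ k ∧
        (((m : ℕ) : ℝ)) * (((e : ℕ).choose 2 - t.choose 2 : ℕ) : ℝ) ≤ E ∧ (c : ℕ) ≤ C
      · obtain ⟨c1, c2, c3, c4, c5⟩ := hc
        refine (SimsCore.core k r m q e t c).mono ?_ ?_
        · rw [← pow_add, ← Real.rpow_natCast]
          apply Real.rpow_le_rpow_of_exponent_le (by norm_num)
          exact SimsCore.expo_le hε c1 c2 c3 c4 c5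
        · rintro G _ ⟨-, -, -, -, -, h6, h7⟩
          exact ⟨h6, h7⟩
      · refine SimsCore.numLe_false (by positivity) ?_
        rintro G _ ⟨h1, h2, h3, h4, h5, -⟩
        exact hc ⟨h1, h2, h3, h4, h5⟩)
  refine h1.mono ?_ ?_
  · have h2 : (Nat.card (Fin (k + 1) × Fin (k + 1) × Fin (k + 1) × Fin (k + 1) × Fin (k + 1)) : ℝ)
        = ((k : ℝ) + 1) ^ 5 := by
      simp only [Nat.card_eq_fintype_card, Fintype.card_prod, Fintype.card_fin]
      push_cast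
      ring
    rw [h2]
    have h3 : ((k : ℝ) + 1) ≤ 2 ^ (k : ℝ) := by
      rw [Real.rpow_natCast]
      have : k + 1 ≤ 2 ^ k := Nat.lt_two_pow_self
      exact_mod_cast this
    have h4 : ((k : ℝ) + 1) ^ 5 ≤ 2 ^ (5 * (k : ℝ) ^ 2) := by
      calc ((k : ℝ) + 1) ^ 5 ≤ (2 ^ (k : ℝ)) ^ 5 := by gcongr
        _ = 2 ^ (5 * (k : ℝ)) := by
          rw [← Real.rpow_natCast, ← Real.rpow_mul (by norm_num)]
          congr 1
          push_cast
          ring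
        _ ≤ _ := by
          apply Real.rpow_le_rpow_of_exponent_le (by norm_num)
          have : (k : ℝ) ≤ (k : ℝ) ^ 2 := by
            have : k ≤ k ^ 2 := Nat.le_self_pow (by norm_num) k
            exact_mod_cast this
          linarith
    calc ((k : ℝ) + 1) ^ 5 * 2 ^ F ≤ 2 ^ (5 * (k : ℝ) ^ 2) * 2 ^ F := by gcongr
      _ = 2 ^ (5 * (k : ℝ) ^ 2 + F) := (Real.rpow_add (by norm_num) _ _).symm
      _ = _ := by
        congr 1
        rw [hF]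
        ring
  · rintro G _ ⟨hG, H, hHC, r, m, q, e, hr, hrk, heq, hmq, hE, hK⟩
    have hfin : Finite G := Nat.finite_of_card_ne_zero (by rw [hG]; positivity)
    have hidx : H.index ∣ 2 ^ k := hG ▸ H.index_dvd_card
    obtain ⟨c, hck, hc⟩ := (Nat.dvd_prime_pow Nat.prime_two).1 hidx
    have hcC : c ≤ C := by
      have h5 : c < 2 ^ c := Nat.lt_two_pow_self
      omega
    refine ⟨(⟨r, by omega⟩, ⟨m, by omega⟩, ⟨q, by omega⟩, ⟨e, by omega⟩, ⟨c, by omega⟩), ?_⟩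
    exact ⟨hr, heq, hmq, hE, hcC, hG, H, hc, hK⟩

end Pool.Agent.EnumG
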