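import Pool.Agent.Work.MP_9de0a1_al.StructA
import Pool.Agent.Work.MP_9de0a1_al.Select
import Pool.Agent.Work.MP_9de0a1_al.SimsCore

/-!
# SimsA : `sims_upper` and `disp_exc`
-/

open Subgroup

namespace Pool.Agent.EnumG

/-- numerical data of a subgroup of a 2-group -/
theorem SimsA.cards {Q : Type} [Group Q] [Finite Q] {k : ℕ} (hQ : Nat.card Q = 2 ^ k)
    (K N : Subgroup Q) (hNK : N ≤ K) : ∃ m q : ℕ, m + q ≤ k ∧ Nat.card N = 2 ^ m ∧
      Nat.card K = 2 ^ q * Nat.card N := by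
  have h1 : Nat.card K ∣ 2 ^ k := hQ ▸ K.card_subgroup_dvd_card
  have h2 : Nat.card N ∣ Nat.card K := Subgroup.card_dvd_of_le hNK
  obtain ⟨s, hs, hs'⟩ := (Nat.dvd_prime_pow Nat.prime_two).1 h1
  rw [hs'] at h2
  obtain ⟨m, hm, hm'⟩ := (Nat.dvd_prime_pow Nat.prime_two).1 h2
  refine ⟨m, s - m, by omega, hm', ?_⟩
  rw [hs', hm', ← pow_add]
  congr 1
  omega

/-- `m q²/2 ≤ (2/27) k³` -/
theorem SimsA.amgm {m q k : ℝ} (hm : 0 ≤ m) (hq : 0 ≤ q) (h : m + q ≤ k) :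
    m * (q ^ 2 / 2) ≤ 2 / 27 * k ^ 3 := by
  have hk : 0 ≤ k := by linarith
  have h1 : m * (q ^ 2 / 2) ≤ (k - q) * (q ^ 2 / 2) := by
    apply mul_le_mul_of_nonneg_right (by linarith) (by positivity)
  have h2 : (k - q) * (q ^ 2 / 2) ≤ 2 / 27 * k ^ 3 := by
    have h3 : 2 / 27 * k ^ 3 - (k - q) * (q ^ 2 / 2) = (2 * k - 3 * q) ^ 2 * (k + 3 * q) / 54 := by
      ring
    have h4 : 0 ≤ (2 * k - 3 * q) ^ 2 * (k + 3 * q) / 54 := by positivity
    linarith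
  linarith

theorem SimsA.choose_le (e : ℕ) : ((e.choose 2 : ℕ) : ℝ) ≤ (e : ℝ) ^ 2 / 2 := by
  rw [Nat.cast_choose_two]
  have : (0 : ℝ) ≤ e := Nat.cast_nonneg e
  nlinarith

theorem sims_upper (ε : ℝ) (hε : 0 < ε) : ∃ k0 : ℕ, ∀ k : ℕ, k0 ≤ k →
    NumLe (fun Q _ => Nat.card Q = 2 ^ k) ((2 : ℝ) ^ ((2 / 27 + ε) * (k : ℝ) ^ 3)) := by
  -- `ε' ≤ 1`
  set ε' : ℝ := min (ε / 6) 1 with hε'
  have he0 : 0 < ε' := lt_min (by positivity) one_pos
  have he1 : ε' ≤ 1 := min_le_right _ _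
  have he2 : ε' ≤ ε / 6 := min_le_left _ _
  obtain ⟨C, k1, hC⟩ := structA ε' he0
  obtain ⟨k2, hk2⟩ := exists_nat_gt ((4 * ε' + 8 + 2 * C) * 2 / ε)
  refine ⟨max k1 k2, fun k hk => ?_⟩
  have hk1 : k1 ≤ k := (le_max_left _ _).trans hk
  have hk2' : (k2 : ℝ) ≤ k := by exact_mod_cast (le_max_right k1 k2).trans hk
  have hk0 : (0 : ℝ) ≤ k := Nat.cast_nonneg k
  have h1 := SimsCore.engine k C 0 ε' (2 / 27 * (k : ℝ) ^ 3) he0.le
  refine h1.mono ?_ ?_
  · apply Real.rpow_le_rpow_of_exponent_le (by norm_num)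
    have h2 : (4 * ε' + 8 + 2 * C) * 2 / ε ≤ k := by linarith
    rw [div_le_iff₀ hε] at h2
    have h3 : (4 * ε' + 8 + 2 * C) * (k : ℝ) ^ 2 ≤ ε / 2 * (k : ℝ) ^ 3 := by
      have h4 : (4 * ε' + 8 + 2 * C) ≤ ε / 2 * k := by linarith
      calc (4 * ε' + 8 + 2 * C) * (k : ℝ) ^ 2 ≤ (ε / 2 * k) * (k : ℝ) ^ 2 := by gcongr
        _ = _ := by ring
    have h5 : 3 * ε' * (k : ℝ) ^ 3 ≤ ε / 2 * (k : ℝ) ^ 3 := by
      apply mul_le_mul_of_nonneg_right (by linarith) (by positivity)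
    linarith
  · intro Q _ hQ
    have hfin : Finite Q := Nat.finite_of_card_ne_zero (by rw [hQ]; positivity)
    obtain ⟨K, N, hK, hNK, hcomm, r, n, hr, hn⟩ := hC k hk1 Q hQ.le
    obtain ⟨m, q, hmq, hm, hq⟩ := SimsA.cards hQ K N hNK
    obtain ⟨g, hg⟩ := exists_gens_over' N K hNK (k := q) hq.le
    refine ⟨hQ, K, hK, r, m, q, q, hr, ?_, le_rfl, hmq, ?_, ?_⟩
    · have : (r : ℝ) ≤ k := hr.trans (by nlinarith)
      exact_mod_cast this
    · have h6 := SimsA.choose_le q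
      have h7 : ((q.choose 2 - (0 : ℕ).choose 2 : ℕ) : ℝ) ≤ (q : ℝ) ^ 2 / 2 := by
        simpa using h6
      have h8 : (m : ℝ) + q ≤ k := by exact_mod_cast hmq
      calc (m : ℝ) * ((q.choose 2 - (0 : ℕ).choose 2 : ℕ) : ℝ) ≤ m * ((q : ℝ) ^ 2 / 2) := by gcongr
        _ ≤ _ := SimsA.amgm (Nat.cast_nonneg _) (Nat.cast_nonneg _) h8
    · exact SimsCore.kstr_mk hQ K N hNK hcomm n hn hm hq g hg (by omega) (MulEquiv.refl Q)
        (fun i hi => by omega)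

/-- the generators of `K` over `N` which contain `x` and `φ x` -/
theorem SimsA.gens {Q : Type} [Group Q] [Finite Q] (φ : MulAut Q) (K N : Subgroup Q)
    (hNK : N ≤ K) {q t : ℕ} (hq : Nat.card K = 2 ^ q * Nat.card N) (x : Fin t → Q)
    (hx : ∀ i, x i ∈ K ∧ φ (x i) ∈ K)
    (h : 4 ^ t * Nat.card N ≤ Nat.card (N ⊔ closure (Set.range x ∪ Set.range (fun i => φ (x i))) :
        Subgroup Q)) :
    2 * t ≤ q ∧ ∃ g : Fin q → Q, N ⊔ closure (Set.range g) = K ∧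
      ∀ (i : ℕ) (_ : i < t) (h1 : i < q) (h2 : t + i < q), φ (g ⟨i, h1⟩) = g ⟨t + i, h2⟩ := by
  set H : Subgroup Q := N ⊔ closure (Set.range x ∪ Set.range (fun i => φ (x i))) with hH
  have hHK : H ≤ K := by
    rw [hH, sup_le_iff]
    refine ⟨hNK, ?_⟩
    rw [closure_le]
    rintro y (⟨i, rfl⟩ | ⟨i, rfl⟩)
    · exact (hx i).1
    · exact (hx i).2
  have h4 : (4 : ℕ) ^ t = 2 ^ (2 * t) := by
    rw [pow_mul]
    norm_num
  rw [h4] at h
  have hNpos : 0 < Nat.card N := Nat.card_pos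
  have hle : 2 ^ (2 * t) * Nat.card N ≤ 2 ^ q * Nat.card N := by
    rw [← hq]
    exact h.trans (Subgroup.card_le_of_le hHK)
  have h2t : 2 * t ≤ q :=
    (Nat.pow_le_pow_iff_right (by norm_num)).1 (Nat.le_of_mul_le_mul_right hle hNpos)
  refine ⟨h2t, ?_⟩
  obtain ⟨g', hg'⟩ := exists_gens_over' H K hHK (k := q - 2 * t) (by
    calc Nat.card K = 2 ^ (q - 2 * t) * (2 ^ (2 * t) * Nat.card N) := by
          rw [hq, ← mul_assoc, ← pow_add]
          congr 2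
          omega
      _ ≤ _ := Nat.mul_le_mul_left _ h)
  let g : Fin q → Q := fun i => if h1 : (i : ℕ) < t then x ⟨i, h1⟩ else
    if h2 : (i : ℕ) < 2 * t then φ (x ⟨i - t, by omega⟩) else g' ⟨i - 2 * t, by omega⟩
  have hg1 : ∀ (i : ℕ) (h1 : i < t) (h2 : i < q), g ⟨i, h2⟩ = x ⟨i, h1⟩ := by
    intro i h1 h2
    simp [g, h1]
  have hg2 : ∀ (i : ℕ) (h1 : i < t) (h2 : t + i < q), g ⟨t + i, h2⟩ = φ (x ⟨i, h1⟩) := by
    intro i h1 h2
    have h3 : ¬ (t + i < t) := by omega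
    have h5 : t + i < 2 * t := by omega
    simp only [g]
    rw [dif_neg h3, dif_pos h5]
    congr 3
    omega
  have hg3 : ∀ (i : ℕ) (h1 : i < q - 2 * t) (h2 : 2 * t + i < q), g ⟨2 * t + i, h2⟩ =
      g' ⟨i, h1⟩ := by
    intro i h1 h2
    have h3 : ¬ (2 * t + i < t) := by omega
    have h5 : ¬ (2 * t + i < 2 * t) := by omega
    simp only [g]
    rw [dif_neg h3, dif_neg h5]
    congr 2
    omega
  refine ⟨g, ?_, ?_⟩
  · rw [← hg', hH, sup_assoc, ← Subgroup.closure_union]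
    congr 2
    ext y
    constructor
    · rintro ⟨i, rfl⟩
      by_cases h1 : (i : ℕ) < t
      · left; left
        exact ⟨⟨i, h1⟩, (hg1 i h1 i.2).symm⟩
      by_cases h3 : (i : ℕ) < 2 * t
      · left; right
        refine ⟨⟨i - t, by omega⟩, ?_⟩
        have h5 := hg2 (i - t) (by omega) (by omega)
        change φ (x _) = g i
        rw [← h5]
        congr 1
        ext
        simp only
        omega
      · right
        refine ⟨⟨i - 2 * t, by omega⟩, ?_⟩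
        have h5 := hg3 (i - 2 * t) (by omega) (by omega)
        rw [← h5]
        congr 1
        ext
        simp only
        omega
    · rintro ((⟨i, rfl⟩ | ⟨i, rfl⟩) | ⟨i, rfl⟩)
      · exact ⟨⟨i, by omega⟩, hg1 i i.2 _⟩
      · exact ⟨⟨t + i, by omega⟩, hg2 i i.2 _⟩
      · exact ⟨⟨2 * t + i, by omega⟩, hg3 i i.2 _⟩
  · intro i hi h1 h2
    rw [hg1 i hi h1, hg2 i hi h2]

theorem disp_exc (α : ℝ) (hα : 0 < α) : ∃ δ > 0, ∃ k0 : ℕ, ∀ k : ℕ, k0 ≤ k →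
    NumLe (fun Q _ => Nat.card Q = 2 ^ k ∧ ∃ φ : MulAut Q, (2 : ℝ) ^ (α * k) ≤ disp φ)
      ((2 : ℝ) ^ ((2 / 27 - δ) * (k : ℝ) ^ 3)) := by
  set a : ℝ := min α 1 with ha
  have ha0 : 0 < a := lt_min hα one_pos
  have ha1 : a ≤ 1 := min_le_right _ _
  have haα : a ≤ α := min_le_left _ _
  have ha2 : a ^ 2 ≤ a := by nlinarith
  set ε : ℝ := a ^ 2 / 6000 with hε
  have hε0 : 0 < ε := by positivity
  have hε1 : ε ≤ a / 4 := by rw [hε]; linarith
  have hε2 : ε ≤ 1 := by linarith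
  obtain ⟨C, k1, hC⟩ := structA ε hε0
  obtain ⟨k2, hk2⟩ := exists_nat_gt ((4 * ε + 8 + 2 * C) * 2000 / a ^ 2)
  obtain ⟨k3, hk3⟩ := exists_nat_gt (40 / a)
  obtain ⟨k4, hk4⟩ := exists_nat_gt (4 * ((3 * C ^ 2 : ℕ) : ℝ) / a)
  refine ⟨a ^ 2 / 1000, by positivity, max (max k1 k2) (max k3 k4), fun k hk => ?_⟩
  have hk1 : k1 ≤ k := (le_max_left _ _).trans ((le_max_left _ _).trans hk)
  have hk2' : (k2 : ℝ) ≤ k := by
    exact_mod_cast (le_max_right k1 k2).trans ((le_max_left _ _).trans hk)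
  have hk3' : (k3 : ℝ) ≤ k := by
    exact_mod_cast (le_max_left k3 k4).trans ((le_max_right _ _).trans hk)
  have hk4' : (k4 : ℝ) ≤ k := by
    exact_mod_cast (le_max_right k3 k4).trans ((le_max_right _ _).trans hk)
  have hk0 : (0 : ℝ) ≤ k := Nat.cast_nonneg k
  have hak : 40 ≤ a * k := by
    have h1 : 40 / a ≤ k := by linarith
    rw [div_le_iff₀ ha0] at h1
    linarith
  set t : ℕ := ⌊a * k / 4⌋₊ with ht
  have ht1 : (t : ℝ) ≤ a * k / 4 := Nat.floor_le (by positivity)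
  have ht2 : a * k / 5 + 1 ≤ (t : ℝ) := by
    have := Nat.lt_floor_add_one (a * k / 4)
    rw [← ht] at this
    linarith
  have htc : a ^ 2 * (k : ℝ) ^ 2 / 50 ≤ ((t.choose 2 : ℕ) : ℝ) := by
    rw [Nat.cast_choose_two]
    have h1 : a * k / 5 ≤ (t : ℝ) - 1 := by linarith
    have h2 : 0 ≤ a * k / 5 := by positivity
    have h3 : (a * k / 5) * (a * k / 5) ≤ (t : ℝ) * ((t : ℝ) - 1) := by
      apply mul_le_mul (by linarith) h1 h2 (by linarith)
    nlinarith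
  have h1 := SimsCore.engine k C t ε ((2 / 27 - a ^ 2 / 500) * (k : ℝ) ^ 3) hε0.le
  refine h1.mono ?_ ?_
  · apply Real.rpow_le_rpow_of_exponent_le (by norm_num)
    have h2 : (4 * ε + 8 + 2 * C) * 2000 / a ^ 2 ≤ k := by linarith
    rw [div_le_iff₀ (by positivity)] at h2
    have h3 : (4 * ε + 8 + 2 * C) * (k : ℝ) ^ 2 ≤ a ^ 2 / 2000 * (k : ℝ) ^ 3 := by
      have h4 : (4 * ε + 8 + 2 * C) ≤ a ^ 2 / 2000 * k := by linarith
      calc (4 * ε + 8 + 2 * C) * (k : ℝ) ^ 2 ≤ (a ^ 2 / 2000 * k) * (k : ℝ) ^ 2 := by gcongr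
        _ = _ := by ring
    have h5 : 3 * ε * (k : ℝ) ^ 3 = a ^ 2 / 2000 * (k : ℝ) ^ 3 := by rw [hε]; ring
    linarith
  · rintro Q _ ⟨hQ, φ, hφ⟩
    have hfin : Finite Q := Nat.finite_of_card_ne_zero (by rw [hQ]; positivity)
    obtain ⟨K, N, hK, hNK, hcomm, r, n, hr, hn⟩ := hC k hk1 Q hQ.le
    obtain ⟨m, q, hmq, hm, hq⟩ := SimsA.cards hQ K N hNK
    have hsel : 3 * C ^ 2 * 2 ^ (2 * t + r) < disp φ := by
      have h2 : ((3 * C ^ 2 * 2 ^ (2 * t + r) : ℕ) : ℝ) < disp φ := by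
        refine lt_of_lt_of_le ?_ hφ
        have h3 : ((2 * t + r : ℕ) : ℝ) ≤ 3 / 4 * (a * k) := by
          push_cast
          have : (r : ℝ) ≤ a / 4 * k := hr.trans (by gcongr)
          linarith
        have h4 : ((3 * C ^ 2 : ℕ) : ℝ) < 2 ^ (a * k / 4) := by
          have h5 : ((3 * C ^ 2 : ℕ) : ℝ) ≤ a * k / 4 := by
            have h6 : 4 * ((3 * C ^ 2 : ℕ) : ℝ) / a ≤ k := by linarith
            rw [div_le_iff₀ ha0] at h6
            linarith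
          calc ((3 * C ^ 2 : ℕ) : ℝ) < ((2 ^ (3 * C ^ 2) : ℕ) : ℝ) := by
                exact_mod_cast Nat.lt_two_pow_self
            _ = 2 ^ (((3 * C ^ 2 : ℕ) : ℝ)) := by
                rw [Real.rpow_natCast]
                push_cast
                rfl
            _ ≤ _ := Real.rpow_le_rpow_of_exponent_le (by norm_num) h5
        calc ((3 * C ^ 2 * 2 ^ (2 * t + r) : ℕ) : ℝ)
            = ((3 * C ^ 2 : ℕ) : ℝ) * 2 ^ ((2 * t + r : ℕ) : ℝ) := by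
              rw [Real.rpow_natCast]
              push_cast
              ring
          _ ≤ ((3 * C ^ 2 : ℕ) : ℝ) * 2 ^ (3 / 4 * (a * k)) := by
              gcongr
              norm_num
          _ < 2 ^ (a * k / 4) * 2 ^ (3 / 4 * (a * k)) := by
              apply mul_lt_mul_of_pos_right h4 (by positivity)
          _ = 2 ^ (a * k) := by
              rw [← Real.rpow_add (by norm_num)]
              congr 1
              ring
          _ ≤ 2 ^ (α * k) := by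
              apply Real.rpow_le_rpow_of_exponent_le (by norm_num)
              gcongr
      exact_mod_cast h2
    obtain ⟨x, hx, hx4⟩ := select φ K N hK n hn hNK hsel
    obtain ⟨h2t, g, hg, hgφ⟩ := SimsA.gens φ K N hNK hq x hx hx4
    refine ⟨hQ, K, hK, r, m, q, q, hr, ?_, le_rfl, hmq, ?_, ?_⟩
    · have : (r : ℝ) ≤ k := hr.trans (by nlinarith)
      exact_mod_cast this
    · have hm0 : (0 : ℝ) ≤ m := Nat.cast_nonneg m
      have hq0 : (0 : ℝ) ≤ q := Nat.cast_nonneg q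
      have h6 := SimsA.choose_le q
      have h8 : (m : ℝ) + q ≤ k := by exact_mod_cast hmq
      have h9 := SimsA.amgm hm0 hq0 h8
      have h10 : ((q.choose 2 - t.choose 2 : ℕ) : ℝ) ≤ (q : ℝ) ^ 2 / 2 - a ^ 2 * (k : ℝ) ^ 2 / 50 := by
        have h11 : t.choose 2 ≤ q.choose 2 := Nat.choose_le_choose 2 (by omega)
        rw [Nat.cast_sub h11]
        linarith
      have h12 : ((q.choose 2 - t.choose 2 : ℕ) : ℝ) ≤ (q : ℝ) ^ 2 / 2 := by
        have : 0 ≤ a ^ 2 * (k : ℝ) ^ 2 / 50 := by positivity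
        linarith
      by_cases hmk : (k : ℝ) / 10 ≤ m
      · calc (m : ℝ) * ((q.choose 2 - t.choose 2 : ℕ) : ℝ)
            ≤ m * ((q : ℝ) ^ 2 / 2 - a ^ 2 * (k : ℝ) ^ 2 / 50) := by gcongr
          _ = m * ((q : ℝ) ^ 2 / 2) - m * (a ^ 2 * (k : ℝ) ^ 2 / 50) := by ring
          _ ≤ 2 / 27 * (k : ℝ) ^ 3 - (k : ℝ) / 10 * (a ^ 2 * (k : ℝ) ^ 2 / 50) := by
              gcongr
          _ = _ := by ring
      · push Not at hmk
        have hqk : (q : ℝ) ≤ k := by linarith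
        calc (m : ℝ) * ((q.choose 2 - t.choose 2 : ℕ) : ℝ) ≤ (k / 10) * ((k : ℝ) ^ 2 / 2) := by
              apply mul_le_mul hmk.le (h12.trans (by gcongr)) (Nat.cast_nonneg _) (by positivity)
          _ = 1 / 20 * (k : ℝ) ^ 3 := by ring
          _ ≤ _ := by
              apply mul_le_mul_of_nonneg_right _ (by positivity)
              linarith
    · exact SimsCore.kstr_mk hQ K N hNK hcomm n hn hm hq g hg h2t φ hgφ

end Pool.Agent.EnumG
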