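import Pool.Agent.Work.MP_9de0a1_al.Schl
import Pool.Agent.Work.MP_9de0a1_al.Grow
import Pool.Agent.Work.MP_9de0a1_al.Aut

/-!
# StructA : the structure theorem

Every finite group `P` with `|P| ≤ 2^k` (`k` large) has a subgroup `K` of bounded index and `N ≤ K`
containing `K'` and generated by at most `ε k` elements.
-/

open Subgroup

namespace Pool.Agent.EnumG

/-- order of the derived subgroup of the group generated by a tuple -/
noncomputable def cdc {G : Type} [Group G] {n : ℕ} (y : Fin n → G) : ℕ :=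
  Nat.card (⁅closure (Set.range y), closure (Set.range y)⁆ : Subgroup G)

theorem cdc_mono {G : Type} [Group G] [Finite G] {n n' : ℕ} {y : Fin n → G} {y' : Fin n' → G}
    (h : Set.range y ⊆ Set.range y') : cdc y ≤ cdc y' :=
  Subgroup.card_le_of_le (Subgroup.commutator_mono (closure_mono h) (closure_mono h))

theorem cdc_pos {G : Type} [Group G] [Finite G] {n : ℕ} (y : Fin n → G) : 0 < cdc y :=
  Nat.card_pos

theorem cdc_le {G : Type} [Group G] [Finite G] {n : ℕ} (y : Fin n → G) : cdc y ≤ Nat.card G :=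
  Subgroup.card_le_card_group _

theorem cdc_comp {A B : Type} [Group A] [Group B] {n : ℕ} (f : A →* B)
    (hf : Function.Injective f) (y : Fin n → A) : cdc (fun i => f (y i)) = cdc y := by
  unfold cdc
  have h1 : closure (Set.range fun i => f (y i)) = (closure (Set.range y)).map f := by
    rw [MonoidHom.map_closure]
    congr 1
    ext z
    simp
  rw [h1, ← Subgroup.map_commutator, Subgroup.card_map_of_injective hf]

theorem card_mul_card_le {G : Type} [Group G] [Finite G] (A B E : Subgroup G) (hA : A ≤ E)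
    (hB : B ≤ E) : Nat.card A * Nat.card B ≤ Nat.card E * Nat.card (A ⊓ B : Subgroup G) := by
  have h1 : Nat.card (A ⊓ B : Subgroup G) * A.relIndex B = Nat.card B := by
    rw [← inf_relIndex_right, ← relIndex_bot_left, ← relIndex_bot_left (H := B)]
    exact relIndex_mul_relIndex _ _ _ bot_le inf_le_right
  have h2 : Nat.card A * A.relIndex E = Nat.card E := by
    rw [← relIndex_bot_left, ← relIndex_bot_left (H := E)]
    exact relIndex_mul_relIndex _ _ _ bot_le hA
  have h3 : A.relIndex B ≤ A.relIndex E := relIndex_le_of_le_right hB (by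
    intro h0
    rw [h0, mul_zero] at h2
    exact (Nat.card_pos (α := E)).ne h2)
  calc Nat.card A * Nat.card B = Nat.card A * (Nat.card (A ⊓ B : Subgroup G) * A.relIndex B) := by
        rw [h1]
    _ ≤ Nat.card A * (Nat.card (A ⊓ B : Subgroup G) * A.relIndex E) := by gcongr
    _ = (Nat.card A * A.relIndex E) * Nat.card (A ⊓ B : Subgroup G) := by ring
    _ = _ := by rw [h2]

theorem card_map_mul_card {G G' : Type} [Group G] [Group G'] (f : G →* G') (E : Subgroup G) :
    Nat.card (E.map f) * Nat.card (f.ker ⊓ E : Subgroup G) = Nat.card E := by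
  rw [← relIndex_ker, ← inf_relIndex_right, mul_comm, ← relIndex_bot_left,
    ← relIndex_bot_left (H := E)]
  exact relIndex_mul_relIndex _ _ _ bot_le inf_le_right

/-- one round: a flat place of the growth function gives a subgroup of bounded index whose derived
subgroup is not much larger than the derived subgroup of `⟨S⟩` -/
theorem round (τ : ℕ) : ∃ g C : ℕ, 0 < g ∧ ∀ (G : Type) [Group G] [Finite G] (n : ℕ)
    (S : Fin n → G), (∀ y : Fin (n + 1) → G, cdc y ≤ 2 ^ τ * cdc S) →
      (∀ y : Fin (n + 2 * g) → G, cdc y ≤ 2 ^ (2 * g * τ) * cdc S) →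
        ∃ K : Subgroup G, K.index ≤ g ∧ Nat.card (⁅K, K⁆ : Subgroup G) ≤ C * cdc S := by
  obtain ⟨F, hF⟩ := schlichting (2 ^ τ)
  set g := 2 ^ (2 * τ + 1) * (F + 1) with hg
  have hg0 : 0 < g := by positivity
  set B := 2 ^ (2 * g * τ) * F with hBdef
  have hB : B < g ^ g := by
    have h1 : g ^ g = 2 ^ ((2 * τ + 1) * g) * (F + 1) ^ g := by
      conv_lhs => rw [hg]
      rw [mul_pow, ← pow_mul, ← hg]
    rw [h1, hBdef]
    have h2 : 2 ^ (2 * g * τ) ≤ 2 ^ ((2 * τ + 1) * g) :=
      Nat.pow_le_pow_right (by norm_num) (by nlinarith)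
    have h3 : F < (F + 1) ^ g := lt_of_lt_of_le (Nat.lt_succ_self F) (Nat.le_self_pow hg0.ne' _)
    calc 2 ^ (2 * g * τ) * F < 2 ^ (2 * g * τ) * (F + 1) ^ g := by
          exact Nat.mul_lt_mul_of_pos_left h3 (by positivity)
      _ ≤ _ := Nat.mul_le_mul_right _ h2
  obtain ⟨C5, hC5⟩ := growth_bfc g B hB
  refine ⟨g, C5 * 2 ^ τ, hg0, fun G _ _ n S h1 h2 => ?_⟩
  set D : Subgroup G := ⁅closure (Set.range S), closure (Set.range S)⁆ with hD
  have hcD : cdc S = Nat.card D := rfl
  have hDpos : 0 < Nat.card D := Nat.card_pos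
  obtain ⟨N, hN, hN1, hN2⟩ := hF G D (by
    intro x
    set y : Fin (n + 1) → G := Fin.snoc S x with hy
    set E : Subgroup G := ⁅closure (Set.range y), closure (Set.range y)⁆ with hE
    have hSy : closure (Set.range S) ≤ closure (Set.range y) := by
      apply Subgroup.closure_mono
      rintro _ ⟨i, rfl⟩
      exact ⟨i.castSucc, by simp [hy]⟩
    have hx : x ∈ closure (Set.range y) := subset_closure ⟨Fin.last n, by simp [hy]⟩
    have hDE : D ≤ E := Subgroup.commutator_mono hSy hSy
    have hmap : (closure (Set.range S)).map (MulAut.conj x).toMonoidHom ≤ closure (Set.range y) := by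
      rintro _ ⟨z, hz, rfl⟩
      simp only [MulEquiv.coe_toMonoidHom, MulAut.conj_apply]
      exact mul_mem (mul_mem hx (hSy hz)) (inv_mem hx)
    have hDxE : D.map (MulAut.conj x).toMonoidHom ≤ E := by
      rw [hD, Subgroup.map_commutator]
      exact Subgroup.commutator_mono hmap hmap
    have hcE : Nat.card E ≤ 2 ^ τ * Nat.card D := h1 y
    have hDx : Nat.card (D.map (MulAut.conj x).toMonoidHom) = Nat.card D :=
      Subgroup.card_map_of_injective (MulAut.conj x).injective
    have h3 := card_mul_card_le D (D.map (MulAut.conj x).toMonoidHom) E hDE hDxE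
    rw [hDx] at h3
    refine Nat.le_of_mul_le_mul_left ?_ hDpos
    calc Nat.card D * Nat.card D ≤ _ := h3
      _ ≤ (2 ^ τ * Nat.card D) *
          Nat.card (D ⊓ D.map (MulAut.conj x).toMonoidHom : Subgroup G) := by gcongr
      _ = _ := by ring)
  have := hN
  have hker : (QuotientGroup.mk' N).ker = N := QuotientGroup.ker_mk' N
  obtain ⟨Q1, hQ1n, hQ1i, hQ1c⟩ := hC5 (G ⧸ N) (by
    intro y
    have hsurj := QuotientGroup.mk'_surjective N
    choose z hz using fun i => hsurj (y i)
    set w : Fin (n + 2 * g) → G := Fin.append S z with hw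
    set E : Subgroup G := ⁅closure (Set.range w), closure (Set.range w)⁆ with hE
    have hSw : closure (Set.range S) ≤ closure (Set.range w) := by
      apply Subgroup.closure_mono
      rintro _ ⟨i, rfl⟩
      exact ⟨Fin.castAdd _ i, by simp [hw]⟩
    have hzw : closure (Set.range z) ≤ closure (Set.range w) := by
      apply Subgroup.closure_mono
      rintro _ ⟨i, rfl⟩
      exact ⟨Fin.natAdd _ i, by simp [hw]⟩
    have hDE : D ≤ E := Subgroup.commutator_mono hSw hSw
    have hcE : Nat.card E ≤ 2 ^ (2 * g * τ) * Nat.card D := h2 w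
    have hyz : closure (Set.range y) = (closure (Set.range z)).map (QuotientGroup.mk' N) := by
      rw [MonoidHom.map_closure]
      congr 1
      ext q
      constructor
      · rintro ⟨i, rfl⟩
        exact ⟨z i, ⟨i, rfl⟩, hz i⟩
      · rintro ⟨_, ⟨i, rfl⟩, rfl⟩
        exact ⟨i, (hz i).symm⟩
    have hle : (⁅closure (Set.range y), closure (Set.range y)⁆ : Subgroup (G ⧸ N)) ≤
        E.map (QuotientGroup.mk' N) := by
      rw [hyz, ← Subgroup.map_commutator]
      exact Subgroup.map_mono (Subgroup.commutator_mono hzw hzw)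
    have hEc := card_map_mul_card (QuotientGroup.mk' N) E
    rw [hker] at hEc
    have hDN : Nat.card (D ⊓ N : Subgroup G) ≤ Nat.card (N ⊓ E : Subgroup G) :=
      Subgroup.card_le_of_le (le_inf inf_le_right (inf_le_left.trans hDE))
    refine (Subgroup.card_le_of_le hle).trans ?_
    have hNE : 0 < Nat.card (N ⊓ E : Subgroup G) := Nat.card_pos
    refine Nat.le_of_mul_le_mul_right ?_ hNE
    calc Nat.card (E.map (QuotientGroup.mk' N)) * Nat.card (N ⊓ E : Subgroup G) = Nat.card E := hEc
      _ ≤ 2 ^ (2 * g * τ) * Nat.card D := hcE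
      _ ≤ 2 ^ (2 * g * τ) * (F * Nat.card (D ⊓ N : Subgroup G)) := by gcongr
      _ ≤ 2 ^ (2 * g * τ) * (F * Nat.card (N ⊓ E : Subgroup G)) := by gcongr
      _ = _ := by rw [hBdef]; ring)
  refine ⟨Q1.comap (QuotientGroup.mk' N), ?_, ?_⟩
  · rw [index_comap_of_surjective _ (QuotientGroup.mk'_surjective N)]
    exact hQ1i
  · set K := Q1.comap (QuotientGroup.mk' N) with hK
    have h3 := card_map_mul_card (QuotientGroup.mk' N) ⁅K, K⁆
    rw [hker] at h3
    have h4 : (⁅K, K⁆ : Subgroup G).map (QuotientGroup.mk' N) ≤ ⁅Q1, Q1⁆ := by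
      rw [Subgroup.map_commutator]
      exact Subgroup.commutator_mono (Subgroup.map_comap_le _ _) (Subgroup.map_comap_le _ _)
    have h5 : Nat.card ((⁅K, K⁆ : Subgroup G).map (QuotientGroup.mk' N)) ≤ C5 :=
      (Subgroup.card_le_of_le h4).trans hQ1c
    have h6 : Nat.card (N ⊓ ⁅K, K⁆ : Subgroup G) ≤ 2 ^ τ * Nat.card D :=
      (Subgroup.card_le_of_le inf_le_left).trans hN1
    rw [← h3]
    calc _ ≤ C5 * (2 ^ τ * Nat.card D) := Nat.mul_le_mul h5 h6
      _ = _ := by rw [hcD]; ring

/-- maximal order of the derived subgroup of an `n`-generated subgroup -/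
noncomputable def dm (G : Type) [Group G] (n : ℕ) : ℕ := ⨆ y : Fin n → G, cdc y

theorem cdc_le_dm {G : Type} [Group G] [Finite G] {n : ℕ} (y : Fin n → G) : cdc y ≤ dm G n :=
  le_ciSup (f := fun y : Fin n → G => cdc y)
    (⟨Nat.card G, by rintro _ ⟨z, rfl⟩; exact cdc_le z⟩) y

theorem exists_dm (G : Type) [Group G] [Finite G] (n : ℕ) : ∃ y : Fin n → G, cdc y = dm G n := by
  obtain ⟨y, hy⟩ := Finite.exists_max (fun y : Fin n → G => cdc y)
  exact ⟨y, le_antisymm (cdc_le_dm y) (ciSup_le hy)⟩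

theorem dm_mono (G : Type) [Group G] [Finite G] : Monotone (dm G) := by
  refine monotone_nat_of_le_succ fun n => ?_
  obtain ⟨y, hy⟩ := exists_dm G n
  rw [← hy]
  refine le_trans (cdc_mono (y' := (Fin.snoc y 1 : Fin (n + 1) → G)) ?_) (cdc_le_dm _)
  rintro _ ⟨i, rfl⟩
  exact ⟨i.castSucc, by simp⟩

theorem dm_pos (G : Type) [Group G] [Finite G] (n : ℕ) : 0 < dm G n := by
  obtain ⟨y, hy⟩ := exists_dm G n
  rw [← hy]
  exact cdc_pos y

theorem dm_le (G : Type) [Group G] [Finite G] (n : ℕ) : dm G n ≤ Nat.card G := by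
  obtain ⟨y, hy⟩ := exists_dm G n
  rw [← hy]
  exact cdc_le y

theorem dm_subgroup {G : Type} [Group G] [Finite G] (K : Subgroup G) (n : ℕ) :
    dm K n ≤ dm G n := by
  obtain ⟨y, hy⟩ := exists_dm K n
  rw [← hy, ← cdc_comp K.subtype K.subtype_injective]
  exact cdc_le_dm _

/-- the logarithm -/
noncomputable def lf (G : Type) [Group G] (n : ℕ) : ℕ := Nat.log 2 (dm G n)

theorem lf_mono (G : Type) [Group G] [Finite G] : Monotone (lf G) := fun _ _ h =>
  Nat.log_mono_right (dm_mono G h)

theorem lf_subgroup {G : Type} [Group G] [Finite G] (K : Subgroup G) (n : ℕ) :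
    lf K n ≤ lf G n := Nat.log_mono_right (dm_subgroup K n)

theorem lf_le {G : Type} [Group G] [Finite G] {k : ℕ} (h : Nat.card G ≤ 2 ^ k) (n : ℕ) :
    lf G n ≤ k := by
  have h1 : lf G n ≤ Nat.log 2 (2 ^ k) := Nat.log_mono_right ((dm_le G n).trans h)
  rwa [Nat.log_pow (by norm_num)] at h1

theorem dm_le_of_lf {A B : Type} [Group A] [Group B] [Finite A] [Finite B] {a b s : ℕ}
    (h : lf A a < lf B b + s) : dm A a ≤ 2 ^ s * dm B b := by
  have h1 : dm A a < 2 ^ (lf A a + 1) := Nat.lt_pow_succ_log_self (by norm_num) _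
  have h2 : 2 ^ lf B b ≤ dm B b := Nat.pow_log_le_self _ (dm_pos B b).ne'
  calc dm A a ≤ 2 ^ (lf A a + 1) := h1.le
    _ ≤ 2 ^ (s + lf B b) := Nat.pow_le_pow_right (by norm_num) (by omega)
    _ = 2 ^ s * 2 ^ lf B b := pow_add _ _ _
    _ ≤ _ := Nat.mul_le_mul_left _ h2

theorem count_bad (f : ℕ → ℕ) (k : ℕ) (hk : ∀ n, f n ≤ k) (hf : Monotone f) (L h s : ℕ) :
    s * ((Finset.range L).filter fun n => f n + s ≤ f (n + h)).card ≤ h * k := by
  have key : ∀ L, s * ((Finset.range L).filter fun n => f n + s ≤ f (n + h)).card +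
      ∑ n ∈ Finset.range L, f n ≤ ∑ n ∈ Finset.range L, f (n + h) := by
    intro L
    induction L with
    | zero => simp
    | succ L ih =>
      rw [Finset.sum_range_succ, Finset.sum_range_succ, Finset.range_add_one, Finset.filter_insert]
      split_ifs with hL
      · rw [Finset.card_insert_of_notMem (by simp), mul_add, mul_one]
        omega
      · have := hf (Nat.le_add_right L h)
        omega
  have h2 : ∑ n ∈ Finset.range L, f (n + h) ≤ ∑ n ∈ Finset.range L, f n + h * k := by
    have h3 : ∑ n ∈ Finset.range L, f (n + h) + ∑ n ∈ Finset.range h, f n =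
        ∑ n ∈ Finset.range L, f n + ∑ n ∈ Finset.range h, f (L + n) := by
      rw [← Finset.sum_range_add, add_comm L h, Finset.sum_range_add, add_comm]
      simp only [add_comm]
    have h4 : ∑ n ∈ Finset.range h, f (L + n) ≤ h * k := by
      calc _ ≤ ∑ n ∈ Finset.range h, k := Finset.sum_le_sum fun _ _ => hk _
        _ = h * k := by simp
    omega
  have := key L
  omega

theorem exists_good (f : ℕ → ℕ) (k : ℕ) (hk : ∀ n, f n ≤ k) (hf : Monotone f)
    (L τ g w s : ℕ) (hτ : 0 < τ) (hg : 0 < g) (hs : 0 < s) (hL : 0 < L)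
    (h1 : 4 * k ≤ τ * L) (h2 : 4 * (w * k) ≤ s * L) :
    ∃ n < L, f (n + w + 1) < f (n + w) + τ ∧ f (n + w + 2 * g) < f (n + w) + 2 * g * τ ∧
      f (n + w) < f n + s := by
  by_contra hcon
  push Not at hcon
  have hsub : Finset.range L ⊆
      (((Finset.range L).filter fun n => f (n + w) + τ ≤ f (n + w + 1)) ∪
        ((Finset.range L).filter fun n => f (n + w) + 2 * g * τ ≤ f (n + w + 2 * g))) ∪
        ((Finset.range L).filter fun n => f n + s ≤ f (n + w)) := by
    intro n hn
    rw [Finset.mem_range] at hn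
    simp only [Finset.mem_union, Finset.mem_filter, Finset.mem_range]
    by_cases ha : f (n + w) + τ ≤ f (n + w + 1)
    · exact Or.inl (Or.inl ⟨hn, ha⟩)
    · by_cases hb : f (n + w) + 2 * g * τ ≤ f (n + w + 2 * g)
      · exact Or.inl (Or.inr ⟨hn, hb⟩)
      · exact Or.inr ⟨hn, hcon n hn (by omega) (by omega)⟩
  have hcard := Finset.card_le_card hsub
  rw [Finset.card_range] at hcard
  have hu1 := Finset.card_union_le (((Finset.range L).filter fun n => f (n + w) + τ ≤ f (n + w + 1)) ∪
        ((Finset.range L).filter fun n => f (n + w) + 2 * g * τ ≤ f (n + w + 2 * g)))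
        ((Finset.range L).filter fun n => f n + s ≤ f (n + w))
  have hu2 := Finset.card_union_le ((Finset.range L).filter fun n => f (n + w) + τ ≤ f (n + w + 1))
        ((Finset.range L).filter fun n => f (n + w) + 2 * g * τ ≤ f (n + w + 2 * g))
  have hf' : Monotone fun n => f (n + w) := fun a b hab => hf (by omega)
  have c1 := count_bad (fun n => f (n + w)) k (fun n => hk _) hf' L 1 τ
  have c2 := count_bad (fun n => f (n + w)) k (fun n => hk _) hf' L (2 * g) (2 * g * τ)
  have c3 := count_bad f k hk hf L w s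
  have e1 : ∀ n, n + 1 + w = n + w + 1 := fun n => by omega
  have e2 : ∀ n, n + 2 * g + w = n + w + 2 * g := fun n => by omega
  simp only [e1] at c1
  simp only [e2] at c2
  set b1 := ((Finset.range L).filter fun n => f (n + w) + τ ≤ f (n + w + 1)).card
  set b2 := ((Finset.range L).filter fun n => f (n + w) + 2 * g * τ ≤ f (n + w + 2 * g)).card
  set b3 := ((Finset.range L).filter fun n => f n + s ≤ f (n + w)).card
  have d1 : 4 * b1 ≤ L := by
    refine Nat.le_of_mul_le_mul_left ?_ hτ
    calc τ * (4 * b1) = 4 * (τ * b1) := by ring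
      _ ≤ 4 * (1 * k) := by gcongr
      _ ≤ τ * L := by rw [one_mul]; exact h1
  have d2 : 4 * b2 ≤ L := by
    refine Nat.le_of_mul_le_mul_left ?_ (show 0 < 2 * g * τ by positivity)
    calc 2 * g * τ * (4 * b2) = 4 * (2 * g * τ * b2) := by ring
      _ ≤ 4 * (2 * g * k) := by gcongr
      _ = 2 * g * (4 * k) := by ring
      _ ≤ 2 * g * (τ * L) := by gcongr
      _ = _ := by ring
  have d3 : 4 * b3 ≤ L := by
    refine Nat.le_of_mul_le_mul_left ?_ hs
    calc s * (4 * b3) = 4 * (s * b3) := by ring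
      _ ≤ 4 * (w * k) := by gcongr
      _ ≤ s * L := h2
  omega

/-- the successful end of a round -/
theorem finish {G : Type} [Group G] [Finite G] (K : Subgroup G) (n s c D : ℕ)
    (h1 : Nat.card (⁅K, K⁆ : Subgroup G) ≤ 2 ^ c * D) (h2 : D ≤ 2 ^ s * dm K n) :
    ∃ N : Subgroup G, N ≤ K ∧ ⁅K, K⁆ ≤ N ∧
      ∃ y : Fin (n + (c + s)) → G, closure (Set.range y) = N := by
  obtain ⟨S, hS⟩ := exists_dm K n
  set S' : Fin n → G := fun i => K.subtype (S i) with hS'
  have hc : cdc S' = dm K n := by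
    rw [← hS]
    exact cdc_comp K.subtype K.subtype_injective S
  set A : Subgroup G := closure (Set.range S') with hA
  have hAK : A ≤ K := by
    rw [hA, closure_le]
    rintro _ ⟨i, rfl⟩
    exact (S i).2
  have hcard : Nat.card (⁅K, K⁆ : Subgroup G) ≤ 2 ^ (c + s) * Nat.card (⁅A, A⁆ : Subgroup G) := by
    calc _ ≤ 2 ^ c * D := h1
      _ ≤ 2 ^ c * (2 ^ s * dm K n) := by gcongr
      _ = 2 ^ (c + s) * dm K n := by rw [pow_add, mul_assoc]
      _ = _ := by rw [← hc]; rfl
  obtain ⟨y, hy⟩ := exists_gens_over' ⁅A, A⁆ ⁅K, K⁆ (Subgroup.commutator_mono hAK hAK) hcard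
  refine ⟨closure (Set.range (Fin.append S' y)), ?_, ?_, _, rfl⟩
  · rw [closure_le]
    rintro _ ⟨i, rfl⟩
    induction i using Fin.addCases with
    | left i =>
      rw [Fin.append_left]
      exact (S i).2
    | right i =>
      rw [Fin.append_right]
      have h3 : y i ∈ (⁅K, K⁆ : Subgroup G) := by
        rw [← hy]
        exact (le_sup_right : _ ≤ ⁅A, A⁆ ⊔ closure (Set.range y)) (subset_closure ⟨i, rfl⟩)
      exact Subgroup.commutator_le_self K h3
  · rw [← hy]
    refine sup_le ((Subgroup.commutator_le_self A).trans (closure_mono ?_)) (closure_mono ?_)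
    · rintro _ ⟨i, rfl⟩
      exact ⟨Fin.castAdd _ i, by simp⟩
    · rintro _ ⟨i, rfl⟩
      exact ⟨Fin.natAdd _ i, by simp⟩

theorem rounds (τ : ℕ) (hτ : 0 < τ) : ∃ g c : ℕ, ∀ (k L w s : ℕ), 0 < s → 0 < L → 0 < w →
    4 * k ≤ τ * L → 4 * (w * k) ≤ s * L → ∀ (R : ℕ) (G : Type) [Group G] [Finite G],
      Nat.card G ≤ 2 ^ k → ∑ n ∈ Finset.range (w + L), lf G n < R * (w * s) →
        ∃ K N : Subgroup G, K.index ≤ g ^ R ∧ N ≤ K ∧ ⁅K, K⁆ ≤ N ∧
          ∃ (r : ℕ) (y : Fin r → G), r ≤ w + L + (c + (2 * s + 1)) ∧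
            closure (Set.range y) = N := by
  obtain ⟨g, C, hg, hround⟩ := round τ
  obtain ⟨c, hc⟩ : ∃ c, C ≤ 2 ^ c := ⟨C, Nat.lt_two_pow_self.le⟩
  refine ⟨g, c, fun k L w s hs hL hw hk1 hk2 R => ?_⟩
  induction R with
  | zero =>
    intro G _ _ _ h
    simp at h
  | succ R ih =>
    intro G _ _ hG hsum
    obtain ⟨n, hnL, g1, g2, g3⟩ := exists_good (lf G) k (fun n => lf_le hG n) (lf_mono G) L τ g w s
      hτ hg hs hL hk1 hk2
    obtain ⟨S, hS⟩ := exists_dm G (n + w)
    obtain ⟨K, hK1, hK2⟩ := hround G (n + w) S (fun y => by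
        rw [hS]
        exact (cdc_le_dm y).trans (dm_le_of_lf g1)) (fun y => by
        rw [hS]
        exact (cdc_le_dm y).trans (dm_le_of_lf g2))
    rw [hS] at hK2
    by_cases hcase : lf G (n + w) ≤ lf K (n + w) + 2 * s
    · obtain ⟨N, hN1, hN2, y, hy⟩ := finish K (n + w) (2 * s + 1) c (dm G (n + w))
        (hK2.trans (Nat.mul_le_mul_right _ hc)) (dm_le_of_lf (by omega))
      refine ⟨K, N, hK1.trans (Nat.le_self_pow (Nat.succ_ne_zero _) _), hN1, hN2, _, y, ?_, hy⟩
      omega
    · push Not at hcase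
      have hdrop : ∀ m ∈ Finset.Ico n (n + w), lf K m + s ≤ lf G m := by
        intro m hm
        rw [Finset.mem_Ico] at hm
        have a1 : lf K m ≤ lf K (n + w) := lf_mono K hm.2.le
        have a2 : lf G n ≤ lf G m := lf_mono G hm.1
        omega
      have hsum2 : ∑ m ∈ Finset.range (w + L), lf K m + w * s ≤
          ∑ m ∈ Finset.range (w + L), lf G m := by
        have hsub : Finset.Ico n (n + w) ⊆ Finset.range (w + L) := by
          intro m hm
          rw [Finset.mem_Ico] at hm
          rw [Finset.mem_range]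
          omega
        rw [← Finset.sum_sdiff hsub, ← Finset.sum_sdiff hsub, add_assoc]
        refine add_le_add (Finset.sum_le_sum fun m _ => lf_subgroup K m) ?_
        calc ∑ m ∈ Finset.Ico n (n + w), lf K m + w * s
            = ∑ m ∈ Finset.Ico n (n + w), (lf K m + s) := by
              rw [Finset.sum_add_distrib]
              simp
          _ ≤ _ := Finset.sum_le_sum hdrop
      have hKcard : Nat.card K ≤ 2 ^ k := (Subgroup.card_le_card_group K).trans hG
      obtain ⟨K', N', i1, i2, i3, r, y, i4, i5⟩ := ih K hKcard (by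
        rw [Nat.succ_mul] at hsum
        omega)
      refine ⟨K'.map K.subtype, N'.map K.subtype, ?_, Subgroup.map_mono i2, ?_, r,
        fun i => K.subtype (y i), i4, ?_⟩
      · rw [index_map_subtype, pow_succ]
        exact Nat.mul_le_mul i1 hK1
      · rw [← Subgroup.map_commutator]
        exact Subgroup.map_mono i3
      · rw [← i5, MonoidHom.map_closure]
        congr 1
        ext z
        simp

theorem structA (ε : ℝ) (hε : 0 < ε) : ∃ C k0 : ℕ, ∀ k : ℕ, k0 ≤ k →
    ∀ (P : Type) [Group P] [Finite P], Nat.card P ≤ 2 ^ k →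
      ∃ K N : Subgroup P, K.index ≤ C ∧ N ≤ K ∧ ⁅K, K⁆ ≤ N ∧
        ∃ (r : ℕ) (n : Fin r → P), (r : ℝ) ≤ ε * k ∧ closure (Set.range n) = N := by
  obtain ⟨q, hq⟩ := exists_nat_gt (1 / ε)
  have hq0 : 0 < q := by
    have : (0 : ℝ) < q := lt_trans (by positivity) hq
    exact_mod_cast this
  have hqε : 1 ≤ ε * q := by
    rw [div_lt_iff₀ hε] at hq
    linarith
  obtain ⟨g, c, h⟩ := rounds (64 * q) (by positivity)
  refine ⟨g ^ (4096 * q ^ 2 + 1), 64 * q * (8 * q + c + 1), fun k hk P _ _ hP => ?_⟩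
  -- `u`
  set u := k / (64 * q) with hu
  have hu1 : 8 * q + c + 1 ≤ u := by
    rw [hu, Nat.le_div_iff_mul_le (by positivity)]
    linarith
  have hu2 : 64 * q * u ≤ k := Nat.mul_div_le _ _
  have hu3 : k < 64 * q * (u + 1) := by
    have := Nat.lt_mul_div_succ k (show 0 < 64 * q by positivity)
    rw [← hu] at this
    exact this
  have hu4 : k ≤ 128 * q * u := by
    have : 64 * q * 1 ≤ 64 * q * u := Nat.mul_le_mul_left _ (by omega)
    nlinarith
  set w := u / (8 * q) with hw
  have hw1 : 0 < w := by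
    rw [hw]
    exact Nat.div_pos (by omega) (by positivity)
  have hw2 : 8 * q * w ≤ u := Nat.mul_div_le _ _
  have hw3 : u < 8 * q * (w + 1) := Nat.lt_mul_div_succ u (show 0 < 8 * q by positivity)
  have hw4 : u ≤ 16 * q * w := by
    have : 8 * q * 1 ≤ 8 * q * w := Nat.mul_le_mul_left _ (by omega)
    nlinarith
  have hwu : w ≤ u := by nlinarith
  obtain ⟨K, N, h1, h2, h3, r, y, h4, h5⟩ := h k (8 * u) w (8 * u) (by omega) (by omega) hw1
    (by nlinarith) (by
      calc 4 * (w * k) ≤ 4 * (w * (128 * q * u)) := by gcongr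
        _ = 64 * u * (8 * q * w) := by ring
        _ ≤ 64 * u * u := by gcongr
        _ = _ := by ring) (4096 * q ^ 2 + 1) P hP (by
      have hs1 : ∑ n ∈ Finset.range (w + 8 * u), lf P n ≤ (w + 8 * u) * k := by
        calc _ ≤ ∑ n ∈ Finset.range (w + 8 * u), k := Finset.sum_le_sum fun n _ => lf_le hP n
          _ = _ := by simp
      have hs2 : (w + 8 * u) * k ≤ (16 * u) * (128 * q * u) := Nat.mul_le_mul (by omega) hu4
      have hs3 : (16 * u) * (128 * q * u) ≤ 4096 * q ^ 2 * (w * (8 * u)) := by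
        calc (16 * u) * (128 * q * u) = 2048 * q * u * u := by ring
          _ ≤ 2048 * q * u * (16 * q * w) := by gcongr
          _ = _ := by ring
      have hs4 : 0 < w * (8 * u) := by
        have : 0 < u := by omega
        positivity
      calc _ ≤ (w + 8 * u) * k := hs1
        _ ≤ _ := hs2
        _ ≤ _ := hs3
        _ < _ := by rw [add_mul, one_mul]; exact Nat.lt_add_of_pos_right hs4)
  refine ⟨K, N, h1, h2, h3, r, y, ?_, h5⟩
  have hr : r ≤ 64 * u := by omega
  have hr2 : q * r ≤ k := by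
    calc q * r ≤ q * (64 * u) := by gcongr
      _ = 64 * q * u := by ring
      _ ≤ k := hu2
  have hr3 : (q : ℝ) * r ≤ k := by exact_mod_cast hr2
  calc (r : ℝ) ≤ (ε * q) * r := by
        have : (0 : ℝ) ≤ r := Nat.cast_nonneg r
        nlinarith
    _ = ε * (q * r) := by ring
    _ ≤ ε * k := by gcongr

end Pool.Agent.EnumG
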